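import Pool.Agent.Helper331.TT.Defs
set_option autoImplicit false
open scoped Manifold ContDiff
open Set Filter Topology

namespace Pool.Agent.Helper331.TT

/-- polynomial in `cos 4x` -/
noncomputable def A1_pc (a0 a1 a2 a3 a4 : ℝ) (x : ℝ) : ℝ :=
  a0 + a1 * Real.cos (4 * x) + a2 * Real.cos (4 * x) ^ 2 + a3 * Real.cos (4 * x) ^ 3
    + a4 * Real.cos (4 * x) ^ 4

/-- `sin 4x` times a polynomial in `cos 4x` -/
noncomputable def A1_ps (a0 a1 a2 a3 : ℝ) (x : ℝ) : ℝ :=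
  Real.sin (4 * x) * (a0 + a1 * Real.cos (4 * x) + a2 * Real.cos (4 * x) ^ 2
    + a3 * Real.cos (4 * x) ^ 3)

theorem A1_pc_smooth (a0 a1 a2 a3 a4 : ℝ) : ContDiff ℝ ∞ (A1_pc a0 a1 a2 a3 a4) := by
  have h : ContDiff ℝ ∞ (fun x : ℝ => Real.cos (4 * x)) :=
    Real.contDiff_cos.comp (contDiff_const.mul contDiff_id)
  unfold A1_pc
  exact (((contDiff_const.add (contDiff_const.mul h)).add (contDiff_const.mul (h.pow 2))).add
    (contDiff_const.mul (h.pow 3))).add (contDiff_const.mul (h.pow 4))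

theorem A1_ps_smooth (a0 a1 a2 a3 : ℝ) : ContDiff ℝ ∞ (A1_ps a0 a1 a2 a3) := by
  have h : ContDiff ℝ ∞ (fun x : ℝ => Real.cos (4 * x)) :=
    Real.contDiff_cos.comp (contDiff_const.mul contDiff_id)
  have h' : ContDiff ℝ ∞ (fun x : ℝ => Real.sin (4 * x)) :=
    Real.contDiff_sin.comp (contDiff_const.mul contDiff_id)
  unfold A1_ps
  exact h'.mul (((contDiff_const.add (contDiff_const.mul h)).add (contDiff_const.mul (h.pow 2))).add
    (contDiff_const.mul (h.pow 3)))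

theorem A1_cos_per (x : ℝ) : Real.cos (4 * (x + 2 * Real.pi)) = Real.cos (4 * x) := by
  have h := Real.cos_add_nat_mul_two_pi (4 * x) 4
  rw [← h]; congr 1; push_cast; ring

theorem A1_sin_per (x : ℝ) : Real.sin (4 * (x + 2 * Real.pi)) = Real.sin (4 * x) := by
  have h := Real.sin_add_nat_mul_two_pi (4 * x) 4
  rw [← h]; congr 1; push_cast; ring

theorem A1_pc_per (a0 a1 a2 a3 a4 : ℝ) :
    Function.Periodic (A1_pc a0 a1 a2 a3 a4) (2 * Real.pi) := by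
  intro x; simp only [A1_pc, A1_cos_per]

theorem A1_ps_per (a0 a1 a2 a3 : ℝ) :
    Function.Periodic (A1_ps a0 a1 a2 a3) (2 * Real.pi) := by
  intro x; simp only [A1_ps, A1_cos_per, A1_sin_per]

theorem A1_hC (x : ℝ) : HasDerivAt (fun x : ℝ => Real.cos (4 * x)) (-Real.sin (4 * x) * 4) x := by
  have h1 : HasDerivAt (fun x : ℝ => 4 * x) 4 x := by
    simpa using (hasDerivAt_id x).const_mul (4 : ℝ)
  exact h1.cos

theorem A1_hS (x : ℝ) : HasDerivAt (fun x : ℝ => Real.sin (4 * x)) (Real.cos (4 * x) * 4) x := by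
  have h1 : HasDerivAt (fun x : ℝ => 4 * x) 4 x := by
    simpa using (hasDerivAt_id x).const_mul (4 : ℝ)
  exact h1.sin

theorem A1_pc_deriv (a0 a1 a2 a3 a4 x : ℝ) : deriv (A1_pc a0 a1 a2 a3 a4) x =
    -(4 * Real.sin (4 * x)) * (a1 + 2 * a2 * Real.cos (4 * x) + 3 * a3 * Real.cos (4 * x) ^ 2
      + 4 * a4 * Real.cos (4 * x) ^ 3) := by
  have h := ((((A1_hC x).const_mul a1).const_add a0).add (((A1_hC x).pow 2).const_mul a2)).add
    (((A1_hC x).pow 3).const_mul a3) |>.add (((A1_hC x).pow 4).const_mul a4)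
  have h2 : deriv (A1_pc a0 a1 a2 a3 a4) x = _ := h.deriv
  rw [h2]; norm_num; ring

theorem A1_ps_deriv (a0 a1 a2 a3 x : ℝ) : deriv (A1_ps a0 a1 a2 a3) x =
    4 * Real.cos (4 * x) * (a0 + a1 * Real.cos (4 * x) + a2 * Real.cos (4 * x) ^ 2
      + a3 * Real.cos (4 * x) ^ 3)
    - 4 * Real.sin (4 * x) ^ 2 * (a1 + 2 * a2 * Real.cos (4 * x)
      + 3 * a3 * Real.cos (4 * x) ^ 2) := by
  have h := (A1_hS x).mul (((((A1_hC x).const_mul a1).const_add a0).add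
    (((A1_hC x).pow 2).const_mul a2)).add (((A1_hC x).pow 3).const_mul a3))
  have h2 : deriv (A1_ps a0 a1 a2 a3) x = _ := h.deriv
  rw [h2]; norm_num; ring

theorem A1_cos_nat (n : ℕ) (x : ℝ) : -1 ≤ Real.cos (n * (4 * x)) ∧ Real.cos (n * (4 * x)) ≤ 1 :=
  ⟨Real.neg_one_le_cos _, Real.cos_le_one _⟩

theorem A1_T2 (t : ℝ) : -1 ≤ 2 * Real.cos t ^ 2 - 1 ∧ 2 * Real.cos t ^ 2 - 1 ≤ 1 := by
  rw [← Real.cos_two_mul]
  exact ⟨Real.neg_one_le_cos _, Real.cos_le_one _⟩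

theorem A1_T3 (t : ℝ) : -1 ≤ 4 * Real.cos t ^ 3 - 3 * Real.cos t ∧
    4 * Real.cos t ^ 3 - 3 * Real.cos t ≤ 1 := by
  rw [← Real.cos_three_mul]
  exact ⟨Real.neg_one_le_cos _, Real.cos_le_one _⟩

theorem A1_T4 (t : ℝ) : -1 ≤ 8 * Real.cos t ^ 4 - 8 * Real.cos t ^ 2 + 1 ∧
    8 * Real.cos t ^ 4 - 8 * Real.cos t ^ 2 + 1 ≤ 1 := by
  have h : 8 * Real.cos t ^ 4 - 8 * Real.cos t ^ 2 + 1 = Real.cos (2 * (2 * t)) := by
    rw [Real.cos_two_mul, Real.cos_two_mul]; ring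
  rw [h]
  exact ⟨Real.neg_one_le_cos _, Real.cos_le_one _⟩

theorem A1_T5 (t : ℝ) : -1 ≤ 16 * Real.cos t ^ 5 - 20 * Real.cos t ^ 3 + 5 * Real.cos t ∧
    16 * Real.cos t ^ 5 - 20 * Real.cos t ^ 3 + 5 * Real.cos t ≤ 1 := by
  have h : 16 * Real.cos t ^ 5 - 20 * Real.cos t ^ 3 + 5 * Real.cos t
      = Real.cos (2 * t + 3 * t) := by
    rw [Real.cos_add, Real.cos_two_mul, Real.cos_three_mul, Real.sin_two_mul, Real.sin_three_mul]
    have hs : Real.sin t ^ 2 = 1 - Real.cos t ^ 2 := by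
      have := Real.sin_sq_add_cos_sq t; linarith
    have hs4 : Real.sin t ^ 4 = (1 - Real.cos t ^ 2) ^ 2 := by
      rw [← hs]; ring
    linear_combination (6 * Real.cos t) * hs + (-8 * Real.cos t) * hs4
  rw [h]
  exact ⟨Real.neg_one_le_cos _, Real.cos_le_one _⟩

theorem exists_data : Nonempty Data := by
  refine ⟨{
    om := A1_pc 1 (2/5) 0 0 0
    q := A1_ps (-1) 0 0 0
    f := A1_ps (1/4) 0 0 0
    ze := A1_ps (-87/100 + 3/100) (-101/200 + 4/800) (-12/100) (-8/800)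
    Fr := A1_ps (-511/1500 + 7/14300) (-517/12600 + 4/204000) (-28/14300) (-8/204000)
    Ft := A1_pc (27/25 + 53/630 - 1/12750) (-211/375 + 63/3575) (-106/630 + 8/12750)
      (-84/3575) (-8/12750)
    Xr := A1_pc (1/5 + 1/15) (-7/75 + 18/715) (-2/15) (-24/715) 0
    Xt := A1_ps (41/150 - 1/1430) (2/30) (4/1430) 0
    Xz := A1_pc (-3/16 - 1/16) (1/40 - 3/120) (2/16) (4/120) 0
    om_smooth := A1_pc_smooth _ _ _ _ _
    q_smooth := A1_ps_smooth _ _ _ _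
    f_smooth := A1_ps_smooth _ _ _ _
    ze_smooth := A1_ps_smooth _ _ _ _
    Fr_smooth := A1_ps_smooth _ _ _ _
    Ft_smooth := A1_pc_smooth _ _ _ _ _
    Xr_smooth := A1_pc_smooth _ _ _ _ _
    Xt_smooth := A1_ps_smooth _ _ _ _
    Xz_smooth := A1_pc_smooth _ _ _ _ _
    om_per := A1_pc_per _ _ _ _ _
    q_per := A1_ps_per _ _ _ _
    f_per := A1_ps_per _ _ _ _
    ze_per := A1_ps_per _ _ _ _
    Fr_per := A1_ps_per _ _ _ _
    Ft_per := A1_pc_per _ _ _ _ _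
    Xr_per := A1_pc_per _ _ _ _ _
    Xt_per := A1_ps_per _ _ _ _
    Xz_per := A1_pc_per _ _ _ _ _
    dze := ?_
    dFr := ?_
    dFt := ?_
    dXr := ?_
    dXt := ?_
    dXz := ?_
    om_pos := ?_
    D_pos := ?_ }⟩
  · intro x
    rw [A1_ps_deriv, A1_ps_deriv]
    simp only [A1_pc, A1_ps]
    have hs : Real.sin (4 * x) ^ 2 = 1 - Real.cos (4 * x) ^ 2 := by
      have := Real.sin_sq_add_cos_sq (4 * x); linarith
    generalize Real.sin (4 * x) = S at *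
    generalize Real.cos (4 * x) = C at *
    ring_nf
    simp only [hs]
    ring
  · intro x
    rw [A1_ps_deriv]
    simp only [A1_pc]
    have hs : Real.sin (4 * x) ^ 2 = 1 - Real.cos (4 * x) ^ 2 := by
      have := Real.sin_sq_add_cos_sq (4 * x); linarith
    generalize Real.sin (4 * x) = S at *
    generalize Real.cos (4 * x) = C at *
    ring_nf
    simp only [hs]
    ring
  · intro x
    rw [A1_pc_deriv]
    simp only [A1_pc, A1_ps]
    ring
  · intro x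
    rw [A1_pc_deriv, A1_ps_deriv]
    simp only [A1_pc, A1_ps]
    ring
  · intro x
    rw [A1_ps_deriv, A1_ps_deriv]
    simp only [A1_pc]
    have hs : Real.sin (4 * x) ^ 2 = 1 - Real.cos (4 * x) ^ 2 := by
      have := Real.sin_sq_add_cos_sq (4 * x); linarith
    generalize Real.sin (4 * x) = S at *
    generalize Real.cos (4 * x) = C at *
    ring_nf
    simp only [hs]
    ring
  · intro x
    rw [A1_pc_deriv, A1_ps_deriv]
    simp only [A1_pc, A1_ps]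
    ring
  · intro x
    simp only [A1_pc]
    have h1 := Real.neg_one_le_cos (4 * x)
    nlinarith
  · intro x
    rw [A1_ps_deriv]
    simp only [A1_pc, A1_ps]
    have h1 := Real.neg_one_le_cos (4 * x)
    have h1' := Real.cos_le_one (4 * x)
    obtain ⟨h2, h2'⟩ := A1_T2 (4 * x)
    obtain ⟨h3, h3'⟩ := A1_T3 (4 * x)
    obtain ⟨h4, h4'⟩ := A1_T4 (4 * x)
    obtain ⟨h5, h5'⟩ := A1_T5 (4 * x)
    have hs : Real.sin (4 * x) ^ 2 = 1 - Real.cos (4 * x) ^ 2 := by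
      have := Real.sin_sq_add_cos_sq (4 * x); linarith
    generalize Real.sin (4 * x) = S at *
    generalize Real.cos (4 * x) = C at *
    have key : (1/5 + 1/15 + (-7/75 + 18/715) * C + (-2/15) * C ^ 2 + (-24/715) * C ^ 3 + 0 * C ^ 4)
        * ((4 * C * (-1 + 0 * C + 0 * C ^ 2 + 0 * C ^ 3)
          - 4 * S ^ 2 * (0 + 2 * 0 * C + 3 * 0 * C ^ 2))
          + (S * (-1 + 0 * C + 0 * C ^ 2 + 0 * C ^ 3)) ^ 2)
        - (S * (-1 + 0 * C + 0 * C ^ 2 + 0 * C ^ 3))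
          * (S * (41/150 - 1/1430 + 2/30 * C + 4/1430 * C ^ 2 + 0 * C ^ 3))
        + (-3/16 - 1/16 + (1/40 - 3/120) * C + 2/16 * C ^ 2 + 4/120 * C ^ 3 + 0 * C ^ 4)
        * (1 + ((4 * C * (-1 + 0 * C + 0 * C ^ 2 + 0 * C ^ 3)
          - 4 * S ^ 2 * (0 + 2 * 0 * C + 3 * 0 * C ^ 2))
          + (S * (-1 + 0 * C + 0 * C ^ 2 + 0 * C ^ 3)) ^ 2))
        = 149/1600 - 2929/171600 * C + 125/2288 * (2 * C ^ 2 - 1)
          + 1951/114400 * (4 * C ^ 3 - 3 * C) + 37/45760 * (8 * C ^ 4 - 8 * C ^ 2 + 1)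
          + 1/68640 * (16 * C ^ 5 - 20 * C ^ 3 + 5 * C) := by
      ring_nf
      simp only [hs]
      ring
    rw [key]
    linarith


end Pool.Agent.Helper331.TT
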