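import Pool.Agent.Helper331.TT.Defs
set_option autoImplicit false
open scoped Manifold ContDiff
open Set Filter Topology

namespace Pool.Agent.Helper331.TT

/-- derivative of the profile -/
noncomputable def A2a_sig (t0 s : ℝ) : ℝ :=
  1 - Real.smoothTransition ((s ^ 2 - t0 ^ 2) / (2 * t0 + 1))

/-- the profile -/
noncomputable def A2a_Z (t0 s : ℝ) : ℝ := ∫ x in (0:ℝ)..s, A2a_sig t0 x

theorem A2a_smooth (t0 : ℝ) : ContDiff ℝ ∞ (A2a_sig t0) := by
  unfold A2a_sig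
  have h1 : ContDiff ℝ ∞ (fun s : ℝ => (s ^ 2 - t0 ^ 2) / (2 * t0 + 1)) := by fun_prop
  exact contDiff_const.sub ((Real.smoothTransition.contDiff (n := ⊤)).comp h1)

theorem A2a_one (t0 s : ℝ) (h0 : 0 < t0) (hs : |s| ≤ t0) : A2a_sig t0 s = 1 := by
  unfold A2a_sig
  rw [Real.smoothTransition.zero_of_nonpos, sub_zero]
  apply div_nonpos_of_nonpos_of_nonneg _ (by linarith)
  have := sq_le_sq' (by linarith [abs_nonneg s]) hs
  rw [sq_abs] at this
  linarith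

theorem A2a_zero (t0 s : ℝ) (h0 : 0 < t0) (hs : t0 + 1 ≤ |s|) : A2a_sig t0 s = 0 := by
  unfold A2a_sig
  rw [Real.smoothTransition.one_of_one_le, sub_self]
  rw [le_div_iff₀ (by linarith)]
  have := pow_le_pow_left₀ (by linarith) hs 2
  rw [sq_abs] at this
  linarith

theorem A2a_pos (t0 s : ℝ) (h0 : 0 < t0) (hs : |s| < t0 + 1) : 0 < A2a_sig t0 s := by
  unfold A2a_sig
  have h1 : (s ^ 2 - t0 ^ 2) / (2 * t0 + 1) < 1 := by
    rw [div_lt_one (by linarith)]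
    have := pow_lt_pow_left₀ hs (abs_nonneg s) two_ne_zero
    rw [sq_abs] at this
    linarith
  have := Real.smoothTransition.lt_one_of_lt_one h1
  linarith

theorem A2a_nonneg (t0 s : ℝ) : 0 ≤ A2a_sig t0 s := by
  unfold A2a_sig
  have := Real.smoothTransition.le_one ((s ^ 2 - t0 ^ 2) / (2 * t0 + 1))
  linarith

theorem A2a_even (t0 s : ℝ) : A2a_sig t0 (-s) = A2a_sig t0 s := by
  unfold A2a_sig
  rw [neg_sq]

theorem A2a_hasDeriv (t0 s : ℝ) : HasDerivAt (A2a_Z t0) (A2a_sig t0 s) s :=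
  ((A2a_smooth t0).continuous.integral_hasStrictDerivAt 0 s).hasDerivAt

theorem A2a_deriv (t0 : ℝ) : deriv (A2a_Z t0) = A2a_sig t0 :=
  funext fun s => (A2a_hasDeriv t0 s).deriv

theorem A2a_Zsmooth (t0 : ℝ) : ContDiff ℝ ∞ (A2a_Z t0) := by
  rw [contDiff_infty_iff_deriv, A2a_deriv]
  exact ⟨fun s => (A2a_hasDeriv t0 s).differentiableAt, A2a_smooth t0⟩

theorem A2a_neg (t0 s : ℝ) : A2a_Z t0 (-s) = - A2a_Z t0 s := by
  unfold A2a_Z
  have h1 := intervalIntegral.integral_comp_neg (a := 0) (b := s) (A2a_sig t0)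
  simp only [A2a_even, neg_zero] at h1
  rw [h1, intervalIntegral.integral_symm]

theorem A2a_id (t0 s : ℝ) (h0 : 0 < t0) (hs : |s| ≤ t0) : A2a_Z t0 s = s := by
  unfold A2a_Z
  have h1 : ∫ x in (0:ℝ)..s, A2a_sig t0 x = ∫ x in (0:ℝ)..s, (1 : ℝ) := by
    apply intervalIntegral.integral_congr
    intro x hx
    apply A2a_one t0 x h0
    refine le_trans ?_ hs
    have := Set.abs_sub_left_of_mem_uIcc hx
    simpa using this
  rw [h1]
  simp

theorem A2a_top (t0 s : ℝ) (h0 : 0 < t0) (hs : t0 + 1 ≤ s) : A2a_Z t0 s = A2a_Z t0 (t0 + 1) := by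
  unfold A2a_Z
  have hc := (A2a_smooth t0).continuous
  rw [← intervalIntegral.integral_add_adjacent_intervals (hc.intervalIntegrable 0 (t0 + 1))
    (hc.intervalIntegrable (t0 + 1) s)]
  have h1 : ∫ x in (t0 + 1)..s, A2a_sig t0 x = 0 := by
    apply intervalIntegral.integral_zero_ae
    refine Eventually.of_forall fun x hx => ?_
    rw [uIoc_of_le hs] at hx
    apply A2a_zero t0 x h0
    rw [abs_of_nonneg (by linarith [hx.1])]
    exact hx.1.le
  rw [h1, add_zero]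

theorem A2a_H (t0 : ℝ) (h0 : 0 < t0) : t0 ≤ A2a_Z t0 (t0 + 1) := by
  have hc := (A2a_smooth t0).continuous
  have h1 : A2a_Z t0 (t0 + 1) = A2a_Z t0 t0 + ∫ x in t0..(t0 + 1), A2a_sig t0 x := by
    unfold A2a_Z
    exact (intervalIntegral.integral_add_adjacent_intervals (hc.intervalIntegrable 0 t0)
      (hc.intervalIntegrable t0 (t0 + 1))).symm
  rw [h1, A2a_id t0 t0 h0 (abs_of_pos h0).le]
  have : 0 ≤ ∫ x in t0..(t0 + 1), A2a_sig t0 x :=
    intervalIntegral.integral_nonneg (by linarith) fun x _ => A2a_nonneg t0 x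
  linarith

theorem A2a_conc (t0 s : ℝ) (h0 : 0 < t0) : s * deriv (A2a_sig t0) s ≤ 0 := by
  have h1 : HasDerivAt (fun s : ℝ => (s ^ 2 - t0 ^ 2) / (2 * t0 + 1)) (2 * s / (2 * t0 + 1)) s := by
    have := ((hasDerivAt_pow 2 s).sub_const (t0 ^ 2)).div_const (2 * t0 + 1)
    simpa using this
  have h2 : HasDerivAt Real.smoothTransition
      (deriv Real.smoothTransition ((s ^ 2 - t0 ^ 2) / (2 * t0 + 1)))
      ((s ^ 2 - t0 ^ 2) / (2 * t0 + 1)) :=
    ((Real.smoothTransition.contDiff (n := 1)).differentiable (by simp) _).hasDerivAt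
  have h3 := (h2.comp s h1).const_sub 1
  have h4 : deriv (A2a_sig t0) s = -(deriv Real.smoothTransition
      ((s ^ 2 - t0 ^ 2) / (2 * t0 + 1)) * (2 * s / (2 * t0 + 1))) := h3.deriv
  rw [h4]
  have h5 := Real.smoothTransition.monotone.deriv_nonneg (x := (s ^ 2 - t0 ^ 2) / (2 * t0 + 1))
  have h6 : s * -(deriv Real.smoothTransition ((s ^ 2 - t0 ^ 2) / (2 * t0 + 1)) *
      (2 * s / (2 * t0 + 1))) = -(deriv Real.smoothTransition
        ((s ^ 2 - t0 ^ 2) / (2 * t0 + 1)) * (2 * s ^ 2 / (2 * t0 + 1))) := by ring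
  rw [h6]
  have : 0 ≤ 2 * s ^ 2 / (2 * t0 + 1) := by positivity
  have := mul_nonneg h5 this
  linarith

theorem exists_Z (t0 : ℝ) (h0 : 0 < t0) : ∃ (H : ℝ) (Z : ℝ → ℝ), t0 ≤ H ∧ ContDiff ℝ ∞ Z ∧
    (∀ s, |s| ≤ t0 → Z s = s) ∧ (∀ s, t0 + 1 ≤ s → Z s = H) ∧ (∀ s, s ≤ -(t0 + 1) → Z s = -H) ∧
    (∀ s, |s| < t0 + 1 → 0 < deriv Z s) ∧ (∀ s, s * deriv (deriv Z) s ≤ 0) := by
  refine ⟨A2a_Z t0 (t0 + 1), A2a_Z t0, A2a_H t0 h0, A2a_Zsmooth t0, fun s hs => A2a_id t0 s h0 hs,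
    fun s hs => A2a_top t0 s h0 hs, fun s hs => ?_, fun s hs => ?_, fun s => ?_⟩
  · have h1 := A2a_top t0 (-s) h0 (by linarith)
    rw [A2a_neg] at h1
    linarith
  · rw [A2a_deriv]
    exact A2a_pos t0 s h0 hs
  · rw [A2a_deriv]
    exact A2a_conc t0 s h0


end Pool.Agent.Helper331.TT
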