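import Pool.Agent.Helper331.TT.Defs
set_option autoImplicit false
open scoped Manifold ContDiff
open Set Filter Topology

namespace Pool.Agent.Helper331.TT

theorem A2b_bound : ∃ C : ℝ, 0 < C ∧ (∀ x, |deriv Real.smoothTransition x| ≤ C) ∧
    (∀ x, 1 < x → deriv Real.smoothTransition x = 0) := by
  have hsm : ContDiff ℝ ∞ Real.smoothTransition := Real.smoothTransition.contDiff
  have hc : Continuous (deriv Real.smoothTransition) :=
    hsm.continuous_deriv (by simp)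
  obtain ⟨C, hC⟩ := isCompact_Icc.exists_bound_of_continuousOn (s := Set.Icc (0:ℝ) 1)
    hc.continuousOn
  have h1 : ∀ x, 1 < x → deriv Real.smoothTransition x = 0 := by
    intro x hx
    have : Real.smoothTransition =ᶠ[nhds x] fun _ => (1:ℝ) := by
      filter_upwards [lt_mem_nhds hx] with y hy
      exact Real.smoothTransition.one_of_one_le hy.le
    rw [this.deriv_eq]
    simp
  have h0 : ∀ x, x < 0 → deriv Real.smoothTransition x = 0 := by
    intro x hx
    have : Real.smoothTransition =ᶠ[nhds x] fun _ => (0:ℝ) := by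
      filter_upwards [gt_mem_nhds hx] with y hy
      exact Real.smoothTransition.zero_of_nonpos (le_of_lt hy)
    rw [this.deriv_eq]
    simp
  refine ⟨max C 1, lt_max_of_lt_right one_pos, fun x => ?_, h1⟩
  rcases lt_or_ge x 0 with hx | hx
  · rw [h0 x hx, abs_zero]
    positivity
  · rcases lt_or_ge 1 x with hx' | hx'
    · rw [h1 x hx', abs_zero]
      positivity
    · exact (hC x ⟨hx, hx'⟩).trans (le_max_left _ _)

theorem exists_chi (t1 B : ℝ) (h1 : 0 < t1) (hB : 0 < B) : ∃ (τ2 : ℝ) (χ : ℝ → ℝ), t1 < τ2 ∧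
    ContDiff ℝ ∞ χ ∧ (∀ s, |s| ≤ t1 → χ s = 1) ∧ (∀ s, τ2 ≤ |s| → χ s = 0) ∧
    (∀ s, 0 ≤ χ s ∧ χ s ≤ 1) ∧ (∀ s, |deriv χ s| * B ≤ 1 / 4) := by
  obtain ⟨C, hC0, hC, hC1⟩ := A2b_bound
  set τ := 2 * t1 + 11 * (C * B) with hτ
  have hCB : 0 < C * B := by positivity
  have hτ0 : 0 < τ := by positivity
  have ht : t1 < τ := by linarith
  have hden : 0 < τ ^ 2 - t1 ^ 2 := by nlinarith
  refine ⟨τ, fun s => 1 - Real.smoothTransition ((s ^ 2 - t1 ^ 2) / (τ ^ 2 - t1 ^ 2)), ht, ?_, ?_,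
    ?_, ?_, ?_⟩
  · exact contDiff_const.sub (Real.smoothTransition.contDiff.comp
      (((contDiff_id.pow 2).sub contDiff_const).div_const _))
  · intro s hs
    have h2 : s ^ 2 ≤ t1 ^ 2 := by
      rw [← sq_abs s]
      exact pow_le_pow_left₀ (abs_nonneg _) hs 2
    show 1 - Real.smoothTransition ((s ^ 2 - t1 ^ 2) / (τ ^ 2 - t1 ^ 2)) = 1
    rw [Real.smoothTransition.zero_of_nonpos (div_nonpos_of_nonpos_of_nonneg (by linarith)
      hden.le), sub_zero]
  · intro s hs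
    have h2 : τ ^ 2 ≤ s ^ 2 := by
      rw [← sq_abs s]
      exact pow_le_pow_left₀ hτ0.le hs 2
    show 1 - Real.smoothTransition ((s ^ 2 - t1 ^ 2) / (τ ^ 2 - t1 ^ 2)) = 0
    rw [Real.smoothTransition.one_of_one_le, sub_self]
    rw [le_div_iff₀ hden]
    linarith
  · intro s
    have h3 := Real.smoothTransition.nonneg ((s ^ 2 - t1 ^ 2) / (τ ^ 2 - t1 ^ 2))
    have h4 := Real.smoothTransition.le_one ((s ^ 2 - t1 ^ 2) / (τ ^ 2 - t1 ^ 2))
    exact ⟨by linarith, by linarith⟩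
  · intro s
    have hder : HasDerivAt (fun s => 1 - Real.smoothTransition ((s ^ 2 - t1 ^ 2) /
        (τ ^ 2 - t1 ^ 2))) (-(deriv Real.smoothTransition ((s ^ 2 - t1 ^ 2) /
        (τ ^ 2 - t1 ^ 2)) * (2 * s / (τ ^ 2 - t1 ^ 2)))) s := by
      have h5 : HasDerivAt (fun s : ℝ => (s ^ 2 - t1 ^ 2) / (τ ^ 2 - t1 ^ 2))
          (2 * s / (τ ^ 2 - t1 ^ 2)) s := by
        have := (((hasDerivAt_id s).pow 2).sub_const (t1 ^ 2)).div_const (τ ^ 2 - t1 ^ 2)
        simpa using this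
      have h6 : DifferentiableAt ℝ Real.smoothTransition ((s ^ 2 - t1 ^ 2) /
          (τ ^ 2 - t1 ^ 2)) :=
        (Real.smoothTransition.contDiff (n := 1)).differentiable (by norm_num) _
      exact (h6.hasDerivAt.comp s h5).const_sub 1
    rw [hder.deriv, abs_neg, abs_mul]
    rcases le_or_gt |s| τ with hs | hs
    · have h7 : |2 * s / (τ ^ 2 - t1 ^ 2)| ≤ 2 * τ / (τ ^ 2 - t1 ^ 2) := by
        rw [abs_div, abs_of_pos hden, abs_mul, abs_of_pos (by norm_num : (0:ℝ) < 2)]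
        gcongr
      have h8 : |deriv Real.smoothTransition ((s ^ 2 - t1 ^ 2) / (τ ^ 2 - t1 ^ 2))| *
          |2 * s / (τ ^ 2 - t1 ^ 2)| * B ≤ C * (2 * τ / (τ ^ 2 - t1 ^ 2)) * B := by
        gcongr
        exact hC _
      refine h8.trans ?_
      have h9 : C * (2 * τ / (τ ^ 2 - t1 ^ 2)) * B = 2 * (C * B) * τ / (τ ^ 2 - t1 ^ 2) := by
        ring
      rw [h9, div_le_iff₀ hden]
      have h10 : 11 * (C * B) ≤ τ := by linarith
      have h11 : 2 * t1 ≤ τ := by linarith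
      nlinarith [mul_nonneg (sub_nonneg.2 h10) hτ0.le, mul_nonneg (sub_nonneg.2 h11) hτ0.le,
        mul_nonneg (sub_nonneg.2 h11) h1.le]
    · have h12 : 1 < (s ^ 2 - t1 ^ 2) / (τ ^ 2 - t1 ^ 2) := by
        rw [lt_div_iff₀ hden]
        have : τ ^ 2 < s ^ 2 := by
          rw [← sq_abs s]
          exact pow_lt_pow_left₀ hs hτ0.le (by norm_num)
        linarith
      rw [hC1 _ h12]
      norm_num


end Pool.Agent.Helper331.TT
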