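import Pool.Agent.Helper331.TT.Defs
set_option autoImplicit false
open scoped Manifold ContDiff
open Set Filter Topology

namespace Pool.Agent.Helper331.TT

theorem A2c_glue_strict {x y : ℝ} (hx : 0 < x) (hxy : x < y) : expNegInvGlue x < expNegInvGlue y := by
  have hy : 0 < y := hx.trans hxy
  unfold expNegInvGlue
  rw [if_neg (not_le.2 hx), if_neg (not_le.2 hy)]
  apply Real.exp_lt_exp.2
  have := inv_strictAnti₀ hx hxy
  linarith

theorem A2c_S_strict : StrictMonoOn Real.smoothTransition (Icc 0 1) := by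
  intro x hx y hy hxy
  unfold Real.smoothTransition
  rw [div_lt_div_iff₀ (Real.smoothTransition.pos_denom x) (Real.smoothTransition.pos_denom y)]
  have h1 : 0 ≤ expNegInvGlue x := expNegInvGlue.nonneg x
  have h2 : 0 ≤ expNegInvGlue (1 - y) := expNegInvGlue.nonneg _
  have h3 : expNegInvGlue (1 - y) ≤ expNegInvGlue (1 - x) := expNegInvGlue.monotone (by linarith)
  have h4 : 0 < expNegInvGlue (1 - x) := expNegInvGlue.pos_of_pos (by linarith [hy.2])
  have h5 : expNegInvGlue x < expNegInvGlue y := by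
    rcases hx.1.lt_or_eq with h | h
    · exact A2c_glue_strict h hxy
    · rw [← h, expNegInvGlue.zero]
      exact expNegInvGlue.pos_of_pos (by rw [h]; exact hxy)
  have h6 : expNegInvGlue x * expNegInvGlue (1 - y) ≤ expNegInvGlue x * expNegInvGlue (1 - x) :=
    mul_le_mul_of_nonneg_left h3 h1
  have h7 : expNegInvGlue x * expNegInvGlue (1 - x) < expNegInvGlue y * expNegInvGlue (1 - x) :=
    mul_lt_mul_of_pos_right h5 h4
  nlinarith

theorem A2c_S_half {x : ℝ} (hx : x ≤ 1 / 2) : Real.smoothTransition x ≤ 1 / 2 := by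
  unfold Real.smoothTransition
  rw [div_le_iff₀ (Real.smoothTransition.pos_denom x)]
  have h3 : expNegInvGlue x ≤ expNegInvGlue (1 - x) := expNegInvGlue.monotone (by linarith)
  linarith

/-- primitive of a smooth function -/
theorem A2c_prim (g : ℝ → ℝ) (hg : ContDiff ℝ ∞ g) :
    (∀ u, HasDerivAt (fun u => ∫ x in (0:ℝ)..u, g x) (g u) u) ∧
    ContDiff ℝ ∞ (fun u => ∫ x in (0:ℝ)..u, g x) := by
  have hc : Continuous g := hg.continuous
  have h1 : ∀ u, HasDerivAt (fun u => ∫ x in (0:ℝ)..u, g x) (g u) u := fun u =>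
    intervalIntegral.integral_hasDerivAt_right (hc.intervalIntegrable _ _)
      (hc.stronglyMeasurableAtFilter _ _) hc.continuousAt
  refine ⟨h1, ?_⟩
  rw [contDiff_infty_iff_deriv]
  refine ⟨fun u => (h1 u).differentiableAt, ?_⟩
  have : deriv (fun u => ∫ x in (0:ℝ)..u, g x) = g := funext fun u => (h1 u).deriv
  rw [this]
  exact hg

theorem exists_outer (t2 H : ℝ) (h2 : 0 < t2) (hH : 0 < H) :
    ∃ (t2' La : ℝ) (r z θ κ : ℝ → ℝ), t2 < t2' ∧ 0 < La ∧ ContDiff ℝ ∞ r ∧ ContDiff ℝ ∞ z ∧
      ContDiff ℝ ∞ θ ∧ (∀ s, 0 < κ s) ∧ (∀ s, deriv r s = κ s * Real.cos (θ s)) ∧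
      (∀ s, deriv z s = -(κ s * Real.sin (θ s))) ∧ (∀ s, s ≤ t2 → θ s = 0) ∧
      (∀ s, t2 + La ≤ s → θ s = Real.pi) ∧ StrictMonoOn θ (Icc t2 (t2 + La)) ∧
      (∀ s, s ≤ t2 → r s = s) ∧ (∀ s, s ≤ t2 → z s = H) ∧
      (∀ s, t2 + La ≤ s → r s = t2 + La + t2' - s) ∧ (∀ s, t2 + La ≤ s → z s = -H) := by
  set S : ℝ → ℝ := Real.smoothTransition with hS
  have hSs : ContDiff ℝ ∞ S := Real.smoothTransition.contDiff
  have hSc : Continuous S := hSs.continuous
  set β : ℝ → ℝ := fun u => expNegInvGlue (2 * u) * expNegInvGlue (1 - 2 * u) with hβ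
  have hβs : ContDiff ℝ ∞ β := by
    refine ContDiff.mul ?_ ?_
    · exact expNegInvGlue.contDiff.comp (contDiff_const.mul contDiff_id)
    · exact expNegInvGlue.contDiff.comp (contDiff_const.sub (contDiff_const.mul contDiff_id))
  have hβ0 : ∀ u, 0 ≤ β u := fun u => mul_nonneg (expNegInvGlue.nonneg _) (expNegInvGlue.nonneg _)
  have hβl : ∀ u, u ≤ 0 → β u = 0 := by
    intro u hu
    show expNegInvGlue (2 * u) * _ = 0
    rw [expNegInvGlue.zero_of_nonpos (by linarith), zero_mul]
  have hβr : ∀ u, 1 / 2 ≤ u → β u = 0 := by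
    intro u hu
    have h1 : expNegInvGlue (1 - 2 * u) = 0 := expNegInvGlue.zero_of_nonpos (by linarith)
    show _ * expNegInvGlue (1 - 2 * u) = 0
    rw [h1, mul_zero]
  have hβp : 0 < β (1 / 4) := mul_pos (expNegInvGlue.pos_of_pos (by norm_num))
    (expNegInvGlue.pos_of_pos (by norm_num))
  set co : ℝ → ℝ := fun u => Real.cos (Real.pi * S u) with hco
  set si : ℝ → ℝ := fun u => Real.sin (Real.pi * S u) with hsi
  have hcos : ContDiff ℝ ∞ co := Real.contDiff_cos.comp (contDiff_const.mul hSs)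
  have hsin : ContDiff ℝ ∞ si := Real.contDiff_sin.comp (contDiff_const.mul hSs)
  have hpi := Real.pi_pos
  have hco0 : ∀ u, u ≤ 1 / 2 → 0 ≤ co u := by
    intro u hu
    have h1 : S u ≤ 1 / 2 := A2c_S_half hu
    have h0 : 0 ≤ S u := Real.smoothTransition.nonneg u
    apply Real.cos_nonneg_of_neg_pi_div_two_le_of_le
    · nlinarith
    · nlinarith
  have hcop : 0 < co (1 / 4) := by
    have h1 : S (1 / 4) < S (1 / 2) := A2c_S_strict ⟨by norm_num, by norm_num⟩
      ⟨by norm_num, by norm_num⟩ (by norm_num)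
    have h2 : S (1 / 2) ≤ 1 / 2 := A2c_S_half le_rfl
    have h0 : 0 ≤ S (1 / 4) := Real.smoothTransition.nonneg _
    apply Real.cos_pos_of_mem_Ioo
    constructor
    · nlinarith
    · nlinarith
  have hsi0 : ∀ u, 0 ≤ si u := by
    intro u
    have h1 : S u ≤ 1 := Real.smoothTransition.le_one u
    have h0 : 0 ≤ S u := Real.smoothTransition.nonneg u
    apply Real.sin_nonneg_of_nonneg_of_le_pi
    · positivity
    · nlinarith
  have hsip : 0 < si (1 / 2) := by
    have h1 : S (1 / 2) < 1 := Real.smoothTransition.lt_one_of_lt_one (by norm_num)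
    have h0 : 0 < S (1 / 2) := Real.smoothTransition.pos_of_pos (by norm_num)
    apply Real.sin_pos_of_pos_of_lt_pi
    · positivity
    · nlinarith
  -- the constant m
  set A : ℝ := ∫ u in (0:ℝ)..1, co u with hA
  set B : ℝ := ∫ u in (0:ℝ)..1, β u * co u with hB
  have hB0 : 0 < B := by
    refine intervalIntegral.integral_pos (by norm_num)
      (hβs.continuous.mul hcos.continuous).continuousOn (fun x _ => ?_)
      ⟨1 / 4, ⟨by norm_num, by norm_num⟩, mul_pos hβp hcop⟩
    rcases le_total x (1 / 2) with h | h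
    · exact mul_nonneg (hβ0 x) (hco0 x h)
    · rw [hβr x h, zero_mul]
  set m : ℝ := |A| / B + 1 with hm
  have hm0 : 0 ≤ m := by positivity
  set k : ℝ → ℝ := fun u => 1 + m * β u with hk
  have hks : ContDiff ℝ ∞ k := contDiff_const.add (contDiff_const.mul hβs)
  have hk1 : ∀ u, 1 ≤ k u := by
    intro u
    have := mul_nonneg hm0 (hβ0 u)
    show 1 ≤ 1 + m * β u
    linarith
  have hkl : ∀ u, u ≤ 0 → k u = 1 := by
    intro u hu
    show 1 + m * β u = 1
    rw [hβl u hu]; ring
  have hkr : ∀ u, 1 ≤ u → k u = 1 := by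
    intro u hu
    show 1 + m * β u = 1
    rw [hβr u (by linarith)]; ring
  set gc : ℝ → ℝ := fun u => k u * co u with hgc
  set gs : ℝ → ℝ := fun u => k u * si u with hgs
  have hgcs : ContDiff ℝ ∞ gc := hks.mul hcos
  have hgss : ContDiff ℝ ∞ gs := hks.mul hsin
  obtain ⟨hC', hCs⟩ := A2c_prim gc hgcs
  obtain ⟨hN', hNs⟩ := A2c_prim gs hgss
  set Cc : ℝ → ℝ := fun u => ∫ x in (0:ℝ)..u, gc x with hCc
  set Nn : ℝ → ℝ := fun u => ∫ x in (0:ℝ)..u, gs x with hNn
  have hI : 0 < Cc 1 := by
    have e : Cc 1 = A + m * B := by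
      show ∫ x in (0:ℝ)..1, gc x = _
      have e1 : ∀ x, gc x = co x + m * (β x * co x) := by
        intro x
        show (1 + m * β x) * co x = _
        ring
      have i1 : IntervalIntegrable co MeasureTheory.volume 0 1 :=
        hcos.continuous.intervalIntegrable _ _
      have i2 : IntervalIntegrable (fun x => m * (β x * co x)) MeasureTheory.volume 0 1 :=
        (continuous_const.mul (hβs.continuous.mul hcos.continuous)).intervalIntegrable _ _
      rw [hA, hB, ← intervalIntegral.integral_const_mul, ← intervalIntegral.integral_add i1 i2]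
      exact intervalIntegral.integral_congr fun x _ => e1 x
    have h1 : m * B = |A| + B := by
      rw [hm]
      field_simp
    rw [e, h1]
    have := neg_abs_le A
    linarith
  have hJ : 0 < Nn 1 := by
    refine intervalIntegral.integral_pos (by norm_num) hgss.continuous.continuousOn (fun x _ => ?_)
      ⟨1 / 2, ⟨by norm_num, by norm_num⟩, mul_pos (lt_of_lt_of_le one_pos (hk1 _)) hsip⟩
    exact mul_nonneg (zero_le_one.trans (hk1 x)) (hsi0 x)
  have hCl : ∀ u, u ≤ 0 → Cc u = u := by
    intro u hu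
    have : Cc u = ∫ x in (0:ℝ)..u, (1 : ℝ) := by
      refine intervalIntegral.integral_congr fun x hx => ?_
      rw [Set.uIcc_of_ge hu] at hx
      show k x * Real.cos (Real.pi * S x) = 1
      rw [hkl x hx.2, hS, Real.smoothTransition.zero_of_nonpos hx.2]
      simp
    rw [this]
    simp
  have hNl : ∀ u, u ≤ 0 → Nn u = 0 := by
    intro u hu
    have : Nn u = ∫ x in (0:ℝ)..u, (0 : ℝ) := by
      refine intervalIntegral.integral_congr fun x hx => ?_
      rw [Set.uIcc_of_ge hu] at hx
      show k x * Real.sin (Real.pi * S x) = 0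
      rw [hS, Real.smoothTransition.zero_of_nonpos hx.2]
      simp
    rw [this]
    simp
  have hCr : ∀ u, 1 ≤ u → Cc u = Cc 1 - (u - 1) := by
    intro u hu
    have h1 : ∫ x in (1:ℝ)..u, gc x = ∫ x in (1:ℝ)..u, (-1 : ℝ) := by
      refine intervalIntegral.integral_congr fun x hx => ?_
      rw [Set.uIcc_of_le hu] at hx
      show k x * Real.cos (Real.pi * S x) = -1
      rw [hkr x hx.1, hS, Real.smoothTransition.one_of_one_le hx.1]
      simp
    have h2 := intervalIntegral.integral_add_adjacent_intervals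
      (hgcs.continuous.intervalIntegrable (μ := MeasureTheory.volume) 0 1)
      (hgcs.continuous.intervalIntegrable (μ := MeasureTheory.volume) 1 u)
    rw [h1] at h2
    simp only [intervalIntegral.integral_const, smul_eq_mul] at h2
    show ∫ x in (0:ℝ)..u, gc x = (∫ x in (0:ℝ)..1, gc x) - (u - 1)
    linarith
  have hNr : ∀ u, 1 ≤ u → Nn u = Nn 1 := by
    intro u hu
    have h1 : ∫ x in (1:ℝ)..u, gs x = ∫ x in (1:ℝ)..u, (0 : ℝ) := by
      refine intervalIntegral.integral_congr fun x hx => ?_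
      rw [Set.uIcc_of_le hu] at hx
      show k x * Real.sin (Real.pi * S x) = 0
      rw [hS, Real.smoothTransition.one_of_one_le hx.1]
      simp
    have h2 := intervalIntegral.integral_add_adjacent_intervals
      (hgss.continuous.intervalIntegrable (μ := MeasureTheory.volume) 0 1)
      (hgss.continuous.intervalIntegrable (μ := MeasureTheory.volume) 1 u)
    rw [h1] at h2
    simp only [intervalIntegral.integral_const, smul_eq_mul] at h2
    show ∫ x in (0:ℝ)..u, gs x = (∫ x in (0:ℝ)..1, gs x)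
    linarith
  set La : ℝ := 2 * H / Nn 1 with hLa
  have hLa0 : 0 < La := by positivity
  have hun : ∀ s, HasDerivAt (fun s : ℝ => (s - t2) / La) (1 / La) s := fun s =>
    ((hasDerivAt_id s).sub_const t2).div_const La
  have huns : ContDiff ℝ ∞ (fun s : ℝ => (s - t2) / La) :=
    (contDiff_id.sub contDiff_const).div_const La
  refine ⟨t2 + La * Cc 1, La, fun s => t2 + La * Cc ((s - t2) / La),
    fun s => H - La * Nn ((s - t2) / La), fun s => Real.pi * S ((s - t2) / La),
    fun s => k ((s - t2) / La), by nlinarith [mul_pos hLa0 hI], hLa0, ?_, ?_, ?_, ?_, ?_, ?_, ?_,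
    ?_, ?_, ?_, ?_, ?_, ?_⟩
  · exact contDiff_const.add (contDiff_const.mul (hCs.comp huns))
  · exact contDiff_const.sub (contDiff_const.mul (hNs.comp huns))
  · exact contDiff_const.mul (hSs.comp huns)
  · intro s
    exact lt_of_lt_of_le one_pos (hk1 _)
  · intro s
    have h1 := (((hC' ((s - t2) / La)).comp s (hun s)).const_mul La).const_add t2
    have h2 : deriv (fun s => t2 + La * Cc ((s - t2) / La)) s =
        La * (gc ((s - t2) / La) * (1 / La)) := h1.deriv
    rw [h2]
    show La * (gc ((s - t2) / La) * (1 / La)) = gc ((s - t2) / La)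
    field_simp
  · intro s
    have h1 := (((hN' ((s - t2) / La)).comp s (hun s)).const_mul La).const_sub H
    have h2 : deriv (fun s => H - La * Nn ((s - t2) / La)) s =
        -(La * (gs ((s - t2) / La) * (1 / La))) := h1.deriv
    rw [h2]
    show -(La * (gs ((s - t2) / La) * (1 / La))) = -(gs ((s - t2) / La))
    field_simp
  · intro s hs
    have : (s - t2) / La ≤ 0 := div_nonpos_of_nonpos_of_nonneg (by linarith) hLa0.le
    show Real.pi * S ((s - t2) / La) = 0
    rw [hS, Real.smoothTransition.zero_of_nonpos this, mul_zero]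
  · intro s hs
    have : 1 ≤ (s - t2) / La := by rw [le_div_iff₀ hLa0]; linarith
    show Real.pi * S ((s - t2) / La) = Real.pi
    rw [hS, Real.smoothTransition.one_of_one_le this, mul_one]
  · intro a ha b hb hab
    show Real.pi * S ((a - t2) / La) < Real.pi * S ((b - t2) / La)
    apply mul_lt_mul_of_pos_left _ hpi
    apply A2c_S_strict
    · exact ⟨div_nonneg (by linarith [ha.1]) hLa0.le, by rw [div_le_iff₀ hLa0]; linarith [ha.2]⟩
    · exact ⟨div_nonneg (by linarith [hb.1]) hLa0.le, by rw [div_le_iff₀ hLa0]; linarith [hb.2]⟩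
    · gcongr
  · intro s hs
    have : (s - t2) / La ≤ 0 := div_nonpos_of_nonpos_of_nonneg (by linarith) hLa0.le
    show t2 + La * Cc ((s - t2) / La) = s
    rw [hCl _ this]
    field_simp
    ring
  · intro s hs
    have : (s - t2) / La ≤ 0 := div_nonpos_of_nonpos_of_nonneg (by linarith) hLa0.le
    show H - La * Nn ((s - t2) / La) = H
    rw [hNl _ this]
    ring
  · intro s hs
    have : 1 ≤ (s - t2) / La := by rw [le_div_iff₀ hLa0]; linarith
    show t2 + La * Cc ((s - t2) / La) = t2 + La + (t2 + La * Cc 1) - s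
    rw [hCr _ this]
    field_simp
    ring
  · intro s hs
    have : 1 ≤ (s - t2) / La := by rw [le_div_iff₀ hLa0]; linarith
    show H - La * Nn ((s - t2) / La) = -H
    rw [hNr _ this, hLa]
    field_simp
    ring


end Pool.Agent.Helper331.TT
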