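import Pool.Agent.Helper331.TT.Defs
import Pool.Agent.Helper331.TT.A2a
import Pool.Agent.Helper331.TT.A2b
import Pool.Agent.Helper331.TT.A2c
set_option autoImplicit false
open scoped Manifold ContDiff
open Set Filter Topology

namespace Pool.Agent.Helper331.TT

theorem exists_prof (B : ℝ) (hB : 1 ≤ B) : ∃ R : Prof, B ≤ R.t0 ∧ R.t1 = R.t0 + 1 ∧
    ∀ s, |deriv R.χ s| * B ≤ 1 / 4 := by
  have hB0 : 0 < B := by linarith
  obtain ⟨H, Z, hH, hZs, hZid, hZtop, hZbot, hZpos, hZconc⟩ := exists_Z B hB0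
  obtain ⟨τ2, χ, h12, hχs, hχ1, hχ0, hχm, hχd⟩ := exists_chi (B + 1) B (by linarith) hB0
  obtain ⟨t2', La, r, z, θ, κ, h22, hLa, hr, hz, hθ, hκ, hdr, hdz, hθlo, hθhi, hθm, hrlo, hzlo,
    hrhi, hzhi⟩ := exists_outer (τ2 + 1) H (by linarith) (by linarith)
  exact ⟨
    { t0 := B, t1 := B + 1, H := H, Z := Z, t0_pos := hB0, t01 := by linarith,
      H_pos := by linarith, Z_smooth := hZs, Z_id := hZid, Z_top := hZtop, Z_bot := hZbot,
      Z_pos := hZpos, Z_conc := hZconc, τ2 := τ2, t12 := h12, χ := χ, χ_smooth := hχs,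
      χ_one := hχ1, χ_zero := hχ0, χ_mem := hχm, t2 := τ2 + 1, t2' := t2', La := La,
      r := r, z := z, θ := θ, κ := κ, τ2t2 := by linarith, t2t2' := h22, La_pos := hLa,
      r_smooth := hr, z_smooth := hz, θ_smooth := hθ, κ_pos := hκ, dr := hdr, dz := hdz,
      θ_lo := hθlo, θ_hi := hθhi, θ_mono := hθm, r_lo := hrlo, z_lo := hzlo, r_hi := hrhi,
      z_hi := hzhi }, le_refl _, rfl, hχd⟩


end Pool.Agent.Helper331.TT
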