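import Pool.Agent.Helper331.TT.Defs
set_option autoImplicit false
open scoped Manifold ContDiff
open Set Filter Topology

namespace Pool.Agent.Helper331.TT

theorem B1_vec {f g h : ℝ → ℝ} {f' g' h' x : ℝ} (hf : HasDerivAt f f' x)
    (hg : HasDerivAt g g' x) (hh : HasDerivAt h h' x) :
    HasDerivAt (fun y => vec (f y) (g y) (h y)) (vec f' g' h') x :=
  ((hf.smul_const e1).add (hg.smul_const e2)).add (hh.smul_const e3)

theorem hasDerivAt_fr {a b c : ℝ → ℝ} {a' b' c' x : ℝ} (ha : HasDerivAt a a' x)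
    (hb : HasDerivAt b b' x) (hc : HasDerivAt c c' x) :
    HasDerivAt (fun y => fr (a y) (b y) (c y) y) (fr (a' - b x) (a x + b') c' x) x := by
  have h1 := (ha.mul (Real.hasDerivAt_sin x)).add (hb.mul (Real.hasDerivAt_cos x))
  have h2 := (ha.mul (Real.hasDerivAt_cos x)).neg.add (hb.mul (Real.hasDerivAt_sin x))
  have h3 := B1_vec h1 h2 hc
  have h4 : fr (a' - b x) (a x + b') c' x =
    vec (a' * Real.sin x + a x * Real.cos x + (b' * Real.cos x + b x * -Real.sin x))
      (-(a' * Real.cos x + a x * -Real.sin x) + (b' * Real.sin x + b x * Real.cos x)) c' := by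
    unfold fr
    congr 1 <;> ring
  rw [h4]
  exact h3

theorem contDiff_fr {n : WithTop ℕ∞} {a b c : ℝ → ℝ} (ha : ContDiff ℝ n a) (hb : ContDiff ℝ n b)
    (hc : ContDiff ℝ n c) : ContDiff ℝ n (fun y => fr (a y) (b y) (c y) y) := by
  unfold fr vec
  have hs : ContDiff ℝ n Real.sin := Real.contDiff_sin
  have hco : ContDiff ℝ n Real.cos := Real.contDiff_cos
  fun_prop


end Pool.Agent.Helper331.TT
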