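import Pool.Agent.Helper331.TT.Defs
import Pool.Agent.Helper331.TT.B1
set_option autoImplicit false
open scoped Manifold ContDiff
open Set Filter Topology

namespace Pool.Agent.Helper331.TT

theorem C1_fr0 (a b c x : ℝ) : fr a b c x 0 = a * Real.sin x + b * Real.cos x := by simp [fr]
theorem C1_fr1 (a b c x : ℝ) : fr a b c x 1 = -(a * Real.cos x) + b * Real.sin x := by simp [fr]
theorem C1_fr2 (a b c x : ℝ) : fr a b c x 2 = c := by simp [fr]
theorem C1_smul (r a b c x : ℝ) : r • fr a b c x = fr (r * a) (r * b) (r * c) x := by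
  apply ext3
  · simp only [PiLp.smul_apply, smul_eq_mul, C1_fr0]; ring
  · simp only [PiLp.smul_apply, smul_eq_mul, C1_fr1]; ring
  · simp only [PiLp.smul_apply, smul_eq_mul, C1_fr2]
theorem C1_add (a b c a' b' c' x : ℝ) :
    fr a b c x + fr a' b' c' x = fr (a + a') (b + b') (c + c') x := by
  apply ext3
  · simp only [PiLp.add_apply, C1_fr0]; ring
  · simp only [PiLp.add_apply, C1_fr1]; ring
  · simp only [PiLp.add_apply, C1_fr2]
theorem C1_crs (a b c a' b' c' x : ℝ) :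
    crs (fr a b c x) (fr a' b' c' x)
      = fr (b * c' - c * b') (c * a' - a * c') (a * b' - b * a') x := by
  have h := Real.sin_sq_add_cos_sq x
  apply ext3
  · simp only [crs, vec_0, C1_fr0, C1_fr1, C1_fr2]; ring
  · simp only [crs, vec_1, C1_fr0, C1_fr1, C1_fr2]; ring
  · simp only [crs, vec_2, C1_fr0, C1_fr1, C1_fr2]
    linear_combination (a * b' - b * a') * h
theorem C1_det3 (a b c a' b' c' a'' b'' c'' x : ℝ) :
    det3 (fr a b c x) (fr a' b' c' x) (fr a'' b'' c'' x)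
      = a * (b' * c'' - c' * b'') - b * (a' * c'' - c' * a'') + c * (a' * b'' - b' * a'') := by
  have h := Real.sin_sq_add_cos_sq x
  simp only [det3, C1_fr0, C1_fr1, C1_fr2]
  linear_combination (a * (b' * c'' - c' * b'') - b * (a' * c'' - c' * a'')
    + c * (a' * b'' - b' * a'')) * h
theorem C1_dt (a b c a' b' c' x : ℝ) :
    dt (fr a b c x) (fr a' b' c' x) = a * a' + b * b' + c * c' := by
  have h := Real.sin_sq_add_cos_sq x
  simp only [dt, C1_fr0, C1_fr1, C1_fr2]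
  linear_combination (a * a' + b * b') * h
theorem C1_congr {a b c a' b' c' x : ℝ} (h1 : a = a') (h2 : b = b') (h3 : c = c') :
    fr a b c x = fr a' b' c' x := by rw [h1, h2, h3]
theorem C1_hd {g : ℝ → ℝ} (hg : ContDiff ℝ ∞ g) (x : ℝ) : HasDerivAt g (deriv g x) x :=
  (hg.differentiable (by simp)).differentiableAt.hasDerivAt
theorem C1_omq (D : Data) (x : ℝ) : HasDerivAt (fun y => D.om y * D.q y)
    (deriv D.om x * D.q x + D.om x * deriv D.q x) x :=
  (C1_hd D.om_smooth x).mul (C1_hd D.q_smooth x)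
theorem C1_dP (D : Data) (x : ℝ) : HasDerivAt D.P
    (fr (-(deriv D.om x * D.q x + D.om x * deriv D.q x) - D.om x)
      (-(D.om x * D.q x) + deriv D.om x)
      (deriv D.om x * D.q x + D.om x * deriv D.q x) x) x :=
  hasDerivAt_fr (a := fun y => -(D.om y * D.q y)) (b := D.om) (c := fun y => D.om y * D.q y)
    (C1_omq D x).neg (C1_hd D.om_smooth x) (C1_omq D x)
theorem C1_dc (D : Data) (x : ℝ) : HasDerivAt D.c
    (fr (D.w x * D.Q x) (-(D.w x * D.q x)) (D.w x * (1 + D.Q x)) x) x := by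
  have h := hasDerivAt_fr (a := fun y => D.Fr y + D.ze y) (b := D.Ft) (c := D.ze)
    ((C1_hd D.Fr_smooth x).add (C1_hd D.ze_smooth x)) (C1_hd D.Ft_smooth x)
    (C1_hd D.ze_smooth x)
  have e := C1_congr (x := x)
    (a := (deriv D.Fr x + deriv D.ze x) - D.Ft x)
    (b := (D.Fr x + D.ze x) + deriv D.Ft x) (c := deriv D.ze x)
    (a' := D.w x * D.Q x) (b' := -(D.w x * D.q x)) (c' := D.w x * (1 + D.Q x))
    (by rw [D.dFr, D.dze]; unfold Data.w Data.Q; ring)
    (by rw [D.dFt]; unfold Data.w; ring)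
    (by rw [D.dze]; unfold Data.w Data.Q; ring)
  rw [← e]
  exact h
theorem C1_dX (D : Data) (x : ℝ) : HasDerivAt D.X
    (fr (deriv D.Xr x - D.Xt x) (D.Xr x + deriv D.Xt x) (deriv D.Xz x) x) x :=
  hasDerivAt_fr (C1_hd D.Xr_smooth x) (C1_hd D.Xt_smooth x) (C1_hd D.Xz_smooth x)
theorem C1_dF (D : Data) (x : ℝ) : HasDerivAt D.F
    (fr (deriv D.Fr x - D.Ft x) (D.Fr x + deriv D.Ft x) 0 x) x :=
  hasDerivAt_fr (C1_hd D.Fr_smooth x) (C1_hd D.Ft_smooth x) (hasDerivAt_const x (0 : ℝ))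
theorem C1_ddl (x : ℝ) : HasDerivAt dl (fr 0 1 0 x) x := by
  have h := hasDerivAt_fr (a := fun _ => (1 : ℝ)) (b := fun _ => (0 : ℝ)) (c := fun _ => (1 : ℝ))
    (hasDerivAt_const x (1 : ℝ)) (hasDerivAt_const x (0 : ℝ)) (hasDerivAt_const x (1 : ℝ))
  have e := C1_congr (x := x) (a := (0 : ℝ) - 0) (b := (1 : ℝ) + 0) (c := (0 : ℝ))
    (a' := 0) (b' := 1) (c' := 0) (by ring) (by ring) rfl
  rw [← e]
  exact h
theorem C1_Dv_pos (D : Data) (x : ℝ) : 0 < D.Dv x := D.D_pos x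

theorem Data.deriv_c (D : Data) (x : ℝ) : deriv D.c x = crs (D.P x) (deriv D.P x) := by
  rw [(C1_dc D x).deriv, (C1_dP D x).deriv]
  unfold Data.P
  rw [C1_crs]
  unfold Data.w Data.Q
  apply C1_congr <;> ring
theorem Data.deriv_X (D : Data) (x : ℝ) : deriv D.X x = deriv D.f x • D.P x := by
  rw [(C1_dX D x).deriv]
  unfold Data.P
  rw [C1_smul, D.dXr, D.dXt, D.dXz]
  apply C1_congr <;> ring
theorem Data.crs_PX (D : Data) (x : ℝ) : crs (D.P x) (D.X x) = D.A x • (dl x + D.E x) := by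
  have hD := (C1_Dv_pos D x).ne'
  have hk : D.Dv x * D.k x = -(D.Xr x + D.Xz x) := by
    unfold Data.k; field_simp
  have hDv : D.Dv x = D.Xr x * D.Q x - D.q x * D.Xt x + D.Xz x * (1 + D.Q x) := rfl
  unfold Data.P Data.X dl Data.E Data.A
  rw [C1_crs, C1_add, C1_smul]
  apply C1_congr
  · linear_combination (-(D.om x) * D.Q x) * hk + (-(D.om x)) * hDv
  · linear_combination (D.om x * D.q x) * hk
  · linear_combination (-(D.om x) * (1 + D.Q x)) * hk + (-(D.om x)) * hDv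
theorem Data.E_eq (D : Data) (x : ℝ) : D.E x = (D.k x / D.w x) • deriv D.c x := by
  have hw : D.w x ≠ 0 := (pow_pos (D.om_pos x) 2).ne'
  rw [(C1_dc D x).deriv, C1_smul]
  unfold Data.E
  apply C1_congr <;> field_simp
theorem Data.det_dl (D : Data) (x : ℝ) : det3 (deriv D.c x) (dl x) (deriv dl x) = D.w x := by
  rw [(C1_dc D x).deriv, (C1_ddl x).deriv]
  unfold dl
  rw [C1_det3]
  ring
theorem Data.P_dl (D : Data) (x : ℝ) : dt (D.P x) (dl x) = 0 := by
  unfold Data.P dl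
  rw [C1_dt]
  ring
theorem Data.A_pos (D : Data) (x : ℝ) : 0 < D.A x :=
  mul_pos (D.om_pos x) (C1_Dv_pos D x)
theorem Data.c_eq (D : Data) (x : ℝ) : D.c x = D.F x + D.ze x • dl x := by
  unfold Data.c Data.F dl
  rw [C1_smul, C1_add]
  apply C1_congr <;> ring
theorem Data.deriv_F (D : Data) (x : ℝ) : deriv D.F x = fr (-(D.w x)) (-(D.b x)) 0 x := by
  rw [(C1_dF D x).deriv, D.dFr, D.dFt]
  unfold Data.b Data.w
  apply C1_congr
  · ring
  · ring
  · rfl


end Pool.Agent.Helper331.TT
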