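import Pool.Agent.Helper331.TT.Defs
import Pool.Agent.Helper331.TT.B1
set_option autoImplicit false
open scoped Manifold ContDiff
open Set Filter Topology

namespace Pool.Agent.Helper331.TT

theorem C1s_dq (D : Data) : ContDiff ℝ ∞ (deriv D.q) := by
  have h := D.q_smooth
  exact (contDiff_infty_iff_deriv.1 h).2
theorem C1s_Q (D : Data) : ContDiff ℝ ∞ D.Q := by
  have h := D.q_smooth
  have h1 := C1s_dq D
  show ContDiff ℝ ∞ (fun x => deriv D.q x + D.q x ^ 2)
  exact h1.add (h.pow 2)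
theorem C1s_Dv (D : Data) : ContDiff ℝ ∞ D.Dv := by
  have h1 := C1s_Q D
  have h2 := D.q_smooth
  have h3 := D.Xr_smooth
  have h4 := D.Xt_smooth
  have h5 := D.Xz_smooth
  show ContDiff ℝ ∞ (fun x => D.Xr x * D.Q x - D.q x * D.Xt x + D.Xz x * (1 + D.Q x))
  exact ((h3.mul h1).sub (h2.mul h4)).add (h5.mul (contDiff_const.add h1))
theorem C1s_k (D : Data) : ContDiff ℝ ∞ D.k := by
  have h1 := C1s_Dv D
  have h3 := D.Xr_smooth
  have h5 := D.Xz_smooth
  show ContDiff ℝ ∞ (fun x => -(D.Xr x + D.Xz x) / D.Dv x)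
  exact ((h3.add h5).neg).div h1 (fun x => (D.D_pos x).ne')
theorem Data.smooth_P (D : Data) : ContDiff ℝ ∞ D.P := by
  have h1 := D.om_smooth
  have h2 := D.q_smooth
  exact contDiff_fr (h1.mul h2).neg h1 (h1.mul h2)
theorem Data.smooth_X (D : Data) : ContDiff ℝ ∞ D.X :=
  contDiff_fr D.Xr_smooth D.Xt_smooth D.Xz_smooth
theorem Data.smooth_F (D : Data) : ContDiff ℝ ∞ D.F :=
  contDiff_fr D.Fr_smooth D.Ft_smooth contDiff_const
theorem Data.smooth_c (D : Data) : ContDiff ℝ ∞ D.c :=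
  contDiff_fr (D.Fr_smooth.add D.ze_smooth) D.Ft_smooth D.ze_smooth
theorem Data.smooth_A (D : Data) : ContDiff ℝ ∞ D.A :=
  D.om_smooth.mul (C1s_Dv D)
theorem Data.smooth_E (D : Data) : ContDiff ℝ ∞ D.E :=
  contDiff_fr ((C1s_k D).mul (C1s_Q D)) ((C1s_k D).mul D.q_smooth).neg
    ((C1s_k D).mul (contDiff_const.add (C1s_Q D)))
theorem smooth_dl : ContDiff ℝ ∞ dl :=
  contDiff_fr contDiff_const contDiff_const contDiff_const
theorem smooth_dh : ContDiff ℝ ∞ dh :=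
  contDiff_fr contDiff_const contDiff_const contDiff_const
theorem smooth_gam : ContDiff ℝ ∞ gam := by
  show ContDiff ℝ ∞ (fun t : ℝ => t * (1 - Real.smoothTransition ((t ^ 2 - 1) / 3)))
  have h : ContDiff ℝ ∞ Real.smoothTransition := Real.smoothTransition.contDiff
  have h2 : ContDiff ℝ ∞ (fun t : ℝ => (t ^ 2 - 1) / 3) :=
    ((contDiff_id.pow 2).sub contDiff_const).div_const 3
  exact contDiff_id.mul (contDiff_const.sub (h.comp h2))
theorem smooth_bmp : ContDiff ℝ ∞ bmp := by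
  show ContDiff ℝ ∞ (fun t : ℝ => expNegInvGlue t * expNegInvGlue (1 - t))
  have h : ContDiff ℝ ∞ expNegInvGlue := expNegInvGlue.contDiff
  exact h.mul (h.comp (contDiff_const.sub contDiff_id))
theorem smooth_Bth (D : Data) (ε : ℝ) : ContDiff ℝ ∞ (Bth D ε) := by
  show ContDiff ℝ ∞ (fun p : ℝ × ℝ => D.c p.1 + p.2 • dl p.1 + (ε * gam (p.2 / ε)) • D.E p.1)
  have hc : ContDiff ℝ ∞ (fun p : ℝ × ℝ => D.c p.1) := (Data.smooth_c D).comp contDiff_fst
  have hl : ContDiff ℝ ∞ (fun p : ℝ × ℝ => dl p.1) := smooth_dl.comp contDiff_fst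
  have hE : ContDiff ℝ ∞ (fun p : ℝ × ℝ => D.E p.1) := (Data.smooth_E D).comp contDiff_fst
  have hg : ContDiff ℝ ∞ (fun p : ℝ × ℝ => ε * gam (p.2 / ε)) :=
    contDiff_const.mul (smooth_gam.comp (contDiff_snd.div_const ε))
  exact (hc.add (contDiff_snd.smul hl)).add (hg.smul hE)


end Pool.Agent.Helper331.TT
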