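import Pool.Agent.Helper331.TT.Defs
import Pool.Agent.Helper331.TT.C1
import Pool.Agent.Helper331.TT.C1s
set_option autoImplicit false
open scoped Manifold ContDiff
open Set Filter Topology

namespace Pool.Agent.Helper331.TT

theorem A3b_bdd {E : Type*} [NormedAddCommGroup E] (f : ℝ → E) (hf : Continuous f)
    (hp : Function.Periodic f (2 * Real.pi)) : ∃ C : ℝ, ∀ x, ‖f x‖ ≤ C := by
  obtain ⟨C, hC⟩ := (isCompact_Icc (a := (0 : ℝ)) (b := 2 * Real.pi)).exists_bound_of_continuousOn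
    hf.continuousOn
  refine ⟨C, fun x => ?_⟩
  obtain ⟨y, hy, hxy⟩ := hp.exists_mem_Ico₀ Real.two_pi_pos x
  rw [hxy]
  exact hC y (Ico_subset_Icc_self hy)

theorem A3b_deriv_per {E : Type*} [NormedAddCommGroup E] [NormedSpace ℝ E] (f : ℝ → E)
    (hp : Function.Periodic f (2 * Real.pi)) : Function.Periodic (deriv f) (2 * Real.pi) := by
  intro x
  have h1 : (fun y => f (y + 2 * Real.pi)) = f := funext hp
  rw [← deriv_comp_add_const, h1]

theorem A3b_cont_deriv {E : Type*} [NormedAddCommGroup E] [NormedSpace ℝ E] (f : ℝ → E)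
    (hf : ContDiff ℝ ∞ f) : Continuous (deriv f) :=
  hf.continuous_deriv (by simp)

theorem A3b_fr_per (a b c : ℝ → ℝ) (ha : Function.Periodic a (2 * Real.pi))
    (hb : Function.Periodic b (2 * Real.pi)) (hc : Function.Periodic c (2 * Real.pi)) :
    Function.Periodic (fun x => fr (a x) (b x) (c x) x) (2 * Real.pi) := by
  intro x
  simp only [fr]
  rw [ha x, hb x, hc x, Real.sin_add_two_pi, Real.cos_add_two_pi]

theorem Data.bounds (D : Data) : ∃ C : ℝ, 1 ≤ C ∧ (∀ x, ‖D.F x‖ ≤ C) ∧ (∀ x, ‖deriv D.F x‖ ≤ C) ∧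
    (∀ x, |D.b x| ≤ C) ∧ (∀ x, |D.w x| ≤ C) ∧ (∀ x, |deriv D.w x| ≤ C) ∧ (∀ x, |deriv D.b x| ≤ C) ∧
    (∀ x, |D.ze x| ≤ C) := by
  have pF : Function.Periodic D.F (2 * Real.pi) :=
    A3b_fr_per D.Fr D.Ft (fun _ => 0) D.Fr_per D.Ft_per (fun _ => rfl)
  have pw : Function.Periodic D.w (2 * Real.pi) := by
    intro x
    simp only [Data.w]
    rw [D.om_per x]
  have pb : Function.Periodic D.b (2 * Real.pi) := by
    intro x
    simp only [Data.b]
    rw [pw x, D.q_per x, D.ze_per x]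
  have sw : ContDiff ℝ ∞ D.w := D.om_smooth.pow 2
  have sb : ContDiff ℝ ∞ D.b := (sw.mul D.q_smooth).add D.ze_smooth
  obtain ⟨C1, h1⟩ := A3b_bdd D.F D.smooth_F.continuous pF
  obtain ⟨C2, h2⟩ := A3b_bdd _ (A3b_cont_deriv D.F D.smooth_F) (A3b_deriv_per D.F pF)
  obtain ⟨C3, h3⟩ := A3b_bdd D.b sb.continuous pb
  obtain ⟨C4, h4⟩ := A3b_bdd D.w sw.continuous pw
  obtain ⟨C5, h5⟩ := A3b_bdd _ (A3b_cont_deriv D.w sw) (A3b_deriv_per D.w pw)
  obtain ⟨C6, h6⟩ := A3b_bdd _ (A3b_cont_deriv D.b sb) (A3b_deriv_per D.b pb)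
  obtain ⟨C7, h7⟩ := A3b_bdd D.ze D.ze_smooth.continuous D.ze_per
  refine ⟨1 + |C1| + |C2| + |C3| + |C4| + |C5| + |C6| + |C7|, ?_, ?_, ?_, ?_, ?_, ?_, ?_, ?_⟩
  · have := abs_nonneg C1; have := abs_nonneg C2; have := abs_nonneg C3; have := abs_nonneg C4
    have := abs_nonneg C5; have := abs_nonneg C6; have := abs_nonneg C7
    linarith
  all_goals
    intro x
    have g1 := h1 x; have g2 := h2 x; have g3 := h3 x; have g4 := h4 x
    have g5 := h5 x; have g6 := h6 x; have g7 := h7 x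
    simp only [Real.norm_eq_abs] at g3 g4 g5 g6 g7
    have := le_abs_self C1; have := le_abs_self C2; have := le_abs_self C3
    have := le_abs_self C4; have := le_abs_self C5; have := le_abs_self C6
    have := le_abs_self C7
    have := abs_nonneg C1; have := abs_nonneg C2; have := abs_nonneg C3; have := abs_nonneg C4
    have := abs_nonneg C5; have := abs_nonneg C6; have := abs_nonneg C7
    linarith


end Pool.Agent.Helper331.TT
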