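import Pool.Agent.Helper331.TT.Defs
import Pool.Agent.Helper331.TT.A3b
import Pool.Agent.Helper331.TT.A2
set_option autoImplicit false
open scoped Manifold ContDiff
open Set Filter Topology

namespace Pool.Agent.Helper331.TT

theorem A3_conc1 {C t0 s b : ℝ} (hC : 1 ≤ C) (ht : 3 * C ≤ t0) (hs : t0 ≤ |s|) (hb : |b| ≤ C) :
    0 < s * (s - b) := by
  have h1 := abs_le.1 hb
  rcases le_or_gt 0 s with h | h
  · rw [abs_of_nonneg h] at hs
    exact mul_pos (by linarith) (by linarith)
  · rw [abs_of_neg h] at hs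
    exact mul_pos_of_neg_of_neg h (by linarith)

theorem A3_conc2 {C t0 s b w w' b' : ℝ} (hC : 1 ≤ C) (ht : 3 * C ≤ t0) (hs : t0 ≤ |s|)
    (hb : |b| ≤ C) (hw : |w| ≤ C) (hw' : |w'| ≤ C) (hb' : |b'| ≤ C) :
    0 < (s - b) ^ 2 + w ^ 2 + (s - b) * w' + w * b' := by
  have h1 : 2 * C ≤ |s - b| := by
    have := abs_sub_abs_le_abs_sub s b
    linarith
  have h2 : |(s - b) * w'| ≤ |s - b| * C := by
    rw [abs_mul]; exact mul_le_mul_of_nonneg_left hw' (abs_nonneg _)
  have h3 : |w * b'| ≤ C * C := by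
    rw [abs_mul]; exact mul_le_mul hw hb' (abs_nonneg _) (by linarith)
  have h4 := (abs_le.1 h2).1
  have h5 := (abs_le.1 h3).1
  have h6 : (s - b) ^ 2 = |s - b| ^ 2 := (sq_abs _).symm
  have h7 := sq_nonneg w
  rw [h6]
  have h8 : 2 * C * C ≤ |s - b| * (|s - b| - C) := by
    have : C ≤ |s - b| - C := by linarith
    exact mul_le_mul h1 this (by linarith) (abs_nonneg _)
  nlinarith

theorem exists_compat (D : Data) : ∃ (R : Prof) (C0 : ℝ), Compat D R C0 := by
  obtain ⟨C, hC, hF, hdF, hb, hw, hw', hb', hze⟩ := D.bounds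
  obtain ⟨R, h0, h1, hs⟩ := exists_prof (3 * C) (by linarith)
  refine ⟨R, C, ?_⟩
  exact {
    C0_pos := by linarith
    F_le := hF
    dF_le := hdF
    slope := fun s => by
      have := hs s
      have h2 := abs_nonneg (deriv R.χ s)
      nlinarith
    t1_large := by rw [h1]; linarith
    conc1 := fun x s h => A3_conc1 hC h0 h (hb x)
    conc2 := fun x s h => A3_conc2 hC h0 h (hb x) (hw x) (hw' x) (hb' x)
    ze_le := fun x => by have := hze x; linarith }


end Pool.Agent.Helper331.TT
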