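import Pool.Agent.Helper331.TT.Defs
set_option autoImplicit false
open scoped Manifold ContDiff
open Set Filter Topology

namespace Pool.Agent.Helper331.TT


theorem B2_fst {Ψ : ℝ × ℝ → E3} (hΨ : Differentiable ℝ Ψ) {p : ℝ × ℝ} {v : E3}
    (h : HasDerivAt (fun x => Ψ (x, p.2)) v p.1) : d1 Ψ p = v := by
  have h1 : HasFDerivAt Ψ (fderiv ℝ Ψ p) (p.1, p.2) := (hΨ p).hasFDerivAt
  have h2 : HasDerivAt (fun x : ℝ => (x, p.2)) ((1 : ℝ), (0 : ℝ)) p.1 :=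
    (hasDerivAt_id p.1).prodMk (hasDerivAt_const p.1 p.2)
  have h3 := h1.comp_hasDerivAt p.1 h2
  exact h3.unique h

theorem B2_snd {Ψ : ℝ × ℝ → E3} (hΨ : Differentiable ℝ Ψ) {p : ℝ × ℝ} {v : E3}
    (h : HasDerivAt (fun s => Ψ (p.1, s)) v p.2) : d2 Ψ p = v := by
  have h1 : HasFDerivAt Ψ (fderiv ℝ Ψ p) (p.1, p.2) := (hΨ p).hasFDerivAt
  have h2 : HasDerivAt (fun s : ℝ => (p.1, s)) ((0 : ℝ), (1 : ℝ)) p.2 :=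
    (hasDerivAt_const p.2 p.1).prodMk (hasDerivAt_id p.2)
  have h3 := h1.comp_hasDerivAt p.2 h2
  exact h3.unique h

theorem B2_diff {Ψ : ℝ × ℝ → E3} (hΨ : ContDiff ℝ ∞ Ψ) (w : ℝ × ℝ) :
    Differentiable ℝ (fun p => fderiv ℝ Ψ p w) := by
  have h0 : ContDiff ℝ 2 Ψ := hΨ.of_le (WithTop.coe_le_coe.2 (le_top : (2 : ℕ∞) ≤ ⊤))
  have h1 : ContDiff ℝ 1 (fderiv ℝ Ψ) := h0.fderiv_right (by norm_num)
  have h2 : ContDiff ℝ 1 (fun p => fderiv ℝ Ψ p w) := h1.clm_apply contDiff_const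
  exact h2.differentiable (by norm_num)

theorem Kdet_eq (Φ Φ1 Φ2 Φ11 Φ12 Φ22 : ℝ × ℝ → E3) (hΦ : ContDiff ℝ ∞ Φ)
    (h1 : ∀ p : ℝ × ℝ, HasDerivAt (fun x => Φ (x, p.2)) (Φ1 p) p.1)
    (h2 : ∀ p : ℝ × ℝ, HasDerivAt (fun s => Φ (p.1, s)) (Φ2 p) p.2)
    (h11 : ∀ p : ℝ × ℝ, HasDerivAt (fun x => Φ1 (x, p.2)) (Φ11 p) p.1)
    (h12 : ∀ p : ℝ × ℝ, HasDerivAt (fun s => Φ1 (p.1, s)) (Φ12 p) p.2)
    (h22 : ∀ p : ℝ × ℝ, HasDerivAt (fun s => Φ2 (p.1, s)) (Φ22 p) p.2) (p : ℝ × ℝ) :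
    Kdet Φ p = det3 (Φ1 p) (Φ2 p) (Φ11 p) * det3 (Φ1 p) (Φ2 p) (Φ22 p)
      - det3 (Φ1 p) (Φ2 p) (Φ12 p) ^ 2 := by
  have hd : Differentiable ℝ Φ := hΦ.differentiable (by simp)
  have e1 : d1 Φ = Φ1 := funext fun q => B2_fst hd (h1 q)
  have e2 : d2 Φ = Φ2 := funext fun q => B2_snd hd (h2 q)
  have hd1 : Differentiable ℝ Φ1 := by
    rw [← e1]
    exact B2_diff hΦ (1, 0)
  have hd2 : Differentiable ℝ Φ2 := by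
    rw [← e2]
    exact B2_diff hΦ (0, 1)
  unfold Kdet
  rw [e1, e2, B2_fst hd1 (h11 p), B2_snd hd1 (h12 p), B2_snd hd2 (h22 p)]


end Pool.Agent.Helper331.TT
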