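import Pool.Agent.Helper331.TT.Defs
import Pool.Agent.Helper331.TT.B1
import Pool.Agent.Helper331.TT.B2
import Pool.Agent.Helper331.TT.C1
import Pool.Agent.Helper331.TT.C1s
set_option autoImplicit false
open scoped Manifold ContDiff
open Set Filter Topology

namespace Pool.Agent.Helper331.TT

theorem C2_det_orth (P u v w : E3) (hu : dt P u = 0) (hv : dt P v = 0) (hw : dt P w = 0)
    (hP : 0 < dt P P) : det3 u v w = 0 := by
  have h : det3 u v w * dt P P = 0 := by
    unfold det3 dt at *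
    linear_combination (P 0 * (v 1 * w 2 - v 2 * w 1) - P 1 * (v 0 * w 2 - v 2 * w 0)
      + P 2 * (v 0 * w 1 - v 1 * w 0)) * hu
      + (P 0 * (w 1 * u 2 - w 2 * u 1) - P 1 * (w 0 * u 2 - w 2 * u 0)
      + P 2 * (w 0 * u 1 - w 1 * u 0)) * hv
      + (P 0 * (u 1 * v 2 - u 2 * v 1) - P 1 * (u 0 * v 2 - u 2 * v 0)
      + P 2 * (u 0 * v 1 - u 1 * v 0)) * hw
  exact (mul_eq_zero.mp h).resolve_right hP.ne'

theorem C2_PP (D : Data) (x : ℝ) : 0 < dt (D.P x) (D.P x) := by
  have h1 : dt (D.P x) (D.P x) = (D.om x * D.q x) ^ 2 + D.om x ^ 2 + (D.om x * D.q x) ^ 2 := by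
    unfold Data.P fr dt
    simp only [vec_0, vec_1, vec_2]
    have := Real.sin_sq_add_cos_sq x
    linear_combination ((D.om x * D.q x) ^ 2 + D.om x ^ 2) * this
  rw [h1]
  have := D.om_pos x
  positivity

theorem C2_crs1 (u v : E3) : dt u (crs u v) = 0 := by
  unfold dt crs
  simp only [vec_0, vec_1, vec_2]
  ring

theorem C2_crs2 (u v : E3) : dt v (crs u v) = 0 := by
  unfold dt crs
  simp only [vec_0, vec_1, vec_2]
  ring

theorem C2_dt_smul (u v : E3) (a : ℝ) : dt u (a • v) = a * dt u v := by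
  unfold dt
  simp only [PiLp.smul_apply, smul_eq_mul]
  ring

theorem C2_dt_add (u v w : E3) : dt u (v + w) = dt u v + dt u w := by
  unfold dt
  simp only [PiLp.add_apply]
  ring

theorem C2_hdt {u v : ℝ → E3} {u' v' : E3} {x : ℝ} (hu : HasDerivAt u u' x)
    (hv : HasDerivAt v v' x) : HasDerivAt (fun y => dt (u y) (v y)) (dt (u x) v' + dt u' (v x)) x := by
  have h := hu.inner ℝ hv
  simp only [inner_eq_dt] at h
  exact h

theorem C2_der {f : ℝ → E3} (hf : ContDiff ℝ ∞ f) (x : ℝ) : HasDerivAt f (deriv f x) x :=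
  ((hf.differentiable (by simp)) x).hasDerivAt

theorem C2_derR {f : ℝ → ℝ} (hf : ContDiff ℝ ∞ f) (x : ℝ) : HasDerivAt f (deriv f x) x :=
  ((hf.differentiable (by simp)) x).hasDerivAt

theorem C2_sm {f : ℝ → E3} (hf : ContDiff ℝ ∞ f) : ContDiff ℝ ∞ (deriv f) :=
  (contDiff_infty_iff_deriv.mp hf).2

theorem C2_smR {f : ℝ → ℝ} (hf : ContDiff ℝ ∞ f) : ContDiff ℝ ∞ (deriv f) :=
  (contDiff_infty_iff_deriv.mp hf).2

/-- orthogonality relations -/
theorem C2_orth (D : Data) (x : ℝ) : dt (D.P x) (deriv D.c x) = 0 ∧ dt (D.P x) (dl x) = 0 ∧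
    dt (D.P x) (D.E x) = 0 ∧ dt (D.P x) (deriv (deriv D.c) x) = 0 ∧
    dt (D.P x) (deriv D.E x) = 0 := by
  have h1 : ∀ x, dt (D.P x) (deriv D.c x) = 0 := by
    intro x
    rw [D.deriv_c]
    exact C2_crs1 _ _
  have h2 : ∀ x, dt (deriv D.P x) (deriv D.c x) = 0 := by
    intro x
    rw [D.deriv_c]
    exact C2_crs2 _ _
  have h3 : ∀ x, dt (D.P x) (D.E x) = 0 := by
    intro x
    rw [D.E_eq, C2_dt_smul, h1, mul_zero]
  have h4 : dt (deriv D.P x) (D.E x) = 0 := by
    rw [D.E_eq, C2_dt_smul, h2, mul_zero]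
  refine ⟨h1 x, D.P_dl x, h3 x, ?_, ?_⟩
  · have h5 := C2_hdt (C2_der D.smooth_P x) (C2_der (C2_sm D.smooth_c) x)
    have h6 : (fun y => dt (D.P y) (deriv D.c y)) = fun _ => 0 := funext h1
    rw [h6] at h5
    have h7 := h5.unique (hasDerivAt_const x (0 : ℝ))
    rw [h2, add_zero] at h7
    exact h7
  · have h5 := C2_hdt (C2_der D.smooth_P x) (C2_der D.smooth_E x)
    have h6 : (fun y => dt (D.P y) (D.E y)) = fun _ => 0 := funext h3
    rw [h6] at h5
    have h7 := h5.unique (hasDerivAt_const x (0 : ℝ))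
    rw [h4, add_zero] at h7
    exact h7

/-- the limit determinant -/
noncomputable def C2_H (D : Data) (ε x σ : ℝ) : ℝ :=
  det3 (deriv D.c x + ε • (σ • deriv dl x + gam σ • deriv D.E x)) (dl x + deriv gam σ • D.E x)
      (deriv (deriv D.c) x + ε • (σ • deriv (deriv dl) x + gam σ • deriv (deriv D.E) x)) *
    (deriv (deriv gam) σ * det3 (σ • deriv dl x + gam σ • deriv D.E x) (dl x) (D.E x)) -
  det3 (deriv D.c x + ε • (σ • deriv dl x + gam σ • deriv D.E x)) (dl x + deriv gam σ • D.E x)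
      (deriv dl x + deriv gam σ • deriv D.E x) ^ 2

theorem C2_H0 (D : Data) (x σ : ℝ) : C2_H D 0 x σ < 0 := by
  obtain ⟨h1, h2, h3, h4, h5⟩ := C2_orth D x
  have hP := C2_PP D x
  unfold C2_H
  rw [zero_smul, add_zero, zero_smul, add_zero]
  have e1 : det3 (deriv D.c x) (dl x + deriv gam σ • D.E x) (deriv (deriv D.c) x) = 0 := by
    apply C2_det_orth (D.P x) _ _ _ h1 _ h4 hP
    rw [C2_dt_add, C2_dt_smul, h2, h3, mul_zero, add_zero]
  have e2 : det3 (deriv D.c x) (dl x) (deriv D.E x) = 0 :=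
    C2_det_orth (D.P x) _ _ _ h1 h2 h5 hP
  have e3 : det3 (deriv D.c x) (dl x + deriv gam σ • D.E x)
      (deriv dl x + deriv gam σ • deriv D.E x) = D.w x := by
    rw [← D.det_dl x]
    rw [D.E_eq x]
    have e4 : det3 (deriv D.c x) (dl x + deriv gam σ • (D.k x / D.w x) • deriv D.c x)
        (deriv dl x + deriv gam σ • deriv D.E x) =
        det3 (deriv D.c x) (dl x) (deriv dl x) +
        deriv gam σ * det3 (deriv D.c x) (dl x) (deriv D.E x) := by
      unfold det3
      simp only [PiLp.add_apply, PiLp.smul_apply, smul_eq_mul]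
      ring
    rw [e4, e2, mul_zero, add_zero]
  rw [e1, e3, zero_mul, zero_sub]
  have hw : 0 < D.w x := by
    unfold Data.w
    have := D.om_pos x
    positivity
  have : 0 < D.w x ^ 2 := by positivity
  linarith

theorem C2_K (D : Data) (ε : ℝ) (hε : 0 < ε) (x l : ℝ) :
    Kdet (Bth D ε) (x, l) = C2_H D ε x (l / ε) := by
  have hg : ∀ s, HasDerivAt (fun s => ε * gam (s / ε)) (deriv gam (s / ε)) s := by
    intro s
    have h1 := ((C2_derR smooth_gam (s / ε)).comp s ((hasDerivAt_id s).div_const ε)).const_mul ε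
    have h2 : ε * (deriv gam (s / ε) * (1 / ε)) = deriv gam (s / ε) := by field_simp
    rw [h2] at h1
    exact h1
  have hg1 : ∀ s, HasDerivAt (fun s => deriv gam (s / ε)) (deriv (deriv gam) (s / ε) / ε) s := by
    intro s
    have h1 := (C2_derR (C2_smR smooth_gam) (s / ε)).comp s ((hasDerivAt_id s).div_const ε)
    have h2 : deriv (deriv gam) (s / ε) * (1 / ε) = deriv (deriv gam) (s / ε) / ε := by ring
    rw [h2] at h1
    exact h1
  rw [Kdet_eq (Bth D ε)
    (fun p => deriv D.c p.1 + p.2 • deriv dl p.1 + (ε * gam (p.2 / ε)) • deriv D.E p.1)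
    (fun p => dl p.1 + deriv gam (p.2 / ε) • D.E p.1)
    (fun p => deriv (deriv D.c) p.1 + p.2 • deriv (deriv dl) p.1 +
      (ε * gam (p.2 / ε)) • deriv (deriv D.E) p.1)
    (fun p => deriv dl p.1 + deriv gam (p.2 / ε) • deriv D.E p.1)
    (fun p => (deriv (deriv gam) (p.2 / ε) / ε) • D.E p.1) (smooth_Bth D ε) ?_ ?_ ?_ ?_ ?_]
  · have hE := D.E_eq x
    have hl : l = ε * (l / ε) := by field_simp
    set σ := l / ε with hσ
    unfold C2_H
    have e1 : deriv D.c x + l • deriv dl x + (ε * gam σ) • deriv D.E x =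
        deriv D.c x + ε • (σ • deriv dl x + gam σ • deriv D.E x) := by
      rw [hl]
      module
    have e2 : deriv (deriv D.c) x + l • deriv (deriv dl) x + (ε * gam σ) • deriv (deriv D.E) x =
        deriv (deriv D.c) x + ε • (σ • deriv (deriv dl) x + gam σ • deriv (deriv D.E) x) := by
      rw [hl]
      module
    have e3 : det3 (deriv D.c x + ε • (σ • deriv dl x + gam σ • deriv D.E x))
        (dl x + deriv gam σ • D.E x) ((deriv (deriv gam) σ / ε) • D.E x) =
        deriv (deriv gam) σ * det3 (σ • deriv dl x + gam σ • deriv D.E x) (dl x) (D.E x) := by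
      rw [hE]
      unfold det3
      simp only [PiLp.add_apply, PiLp.smul_apply, smul_eq_mul]
      field_simp
      ring
    simp only
    rw [e1, e2, e3]
  · intro p
    have h1 := C2_der D.smooth_c p.1
    have h2 := (C2_der smooth_dl p.1).const_smul p.2
    have h3 := (C2_der D.smooth_E p.1).const_smul (ε * gam (p.2 / ε))
    exact (h1.add h2).add h3
  · intro p
    have h2 := (hasDerivAt_id p.2).smul_const (dl p.1)
    rw [one_smul] at h2
    have h3 := (hg p.2).smul_const (D.E p.1)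
    exact (h2.const_add (D.c p.1)).add h3
  · intro p
    have h1 := C2_der (C2_sm D.smooth_c) p.1
    have h2 := (C2_der (C2_sm smooth_dl) p.1).const_smul p.2
    have h3 := (C2_der (C2_sm D.smooth_E) p.1).const_smul (ε * gam (p.2 / ε))
    exact (h1.add h2).add h3
  · intro p
    have h2 := (hasDerivAt_id p.2).smul_const (deriv dl p.1)
    rw [one_smul] at h2
    have h3 := (hg p.2).smul_const (deriv D.E p.1)
    exact (h2.const_add (deriv D.c p.1)).add h3
  · intro p
    exact ((hg1 p.2).smul_const (D.E p.1)).const_add (dl p.1)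

theorem C2_cdet {X : Type} [TopologicalSpace X] {u v w : X → E3} (hu : Continuous u)
    (hv : Continuous v) (hw : Continuous w) : Continuous fun x => det3 (u x) (v x) (w x) := by
  have h : ∀ (f : X → E3), Continuous f → ∀ i : Fin 3, Continuous fun x => f x i :=
    fun f hf i => (EuclideanSpace.proj i : E3 →L[ℝ] ℝ).continuous.comp hf
  have u0 := h u hu 0
  have u1 := h u hu 1
  have u2 := h u hu 2
  have v0 := h v hv 0
  have v1 := h v hv 1
  have v2 := h v hv 2
  have w0 := h w hw 0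
  have w1 := h w hw 1
  have w2 := h w hw 2
  unfold det3
  exact ((u0.mul ((v1.mul w2).sub (v2.mul w1))).sub (u1.mul ((v0.mul w2).sub (v2.mul w0)))).add
    (u2.mul ((v0.mul w1).sub (v1.mul w0)))

theorem C2_Hc (D : Data) : Continuous fun z : ℝ × (ℝ × ℝ) => C2_H D z.1 z.2.1 z.2.2 := by
  have k0 : Continuous fun z : ℝ × (ℝ × ℝ) => z.1 := continuous_fst
  have k1 : Continuous fun z : ℝ × (ℝ × ℝ) => z.2.1 := continuous_fst.comp continuous_snd
  have k2 : Continuous fun z : ℝ × (ℝ × ℝ) => z.2.2 := continuous_snd.comp continuous_snd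
  have c1 := (C2_sm D.smooth_c).continuous.comp k1
  have c2 := (C2_sm (C2_sm D.smooth_c)).continuous.comp k1
  have l0 := smooth_dl.continuous.comp k1
  have l1 := (C2_sm smooth_dl).continuous.comp k1
  have l2 := (C2_sm (C2_sm smooth_dl)).continuous.comp k1
  have a0 := D.smooth_E.continuous.comp k1
  have a1 := (C2_sm D.smooth_E).continuous.comp k1
  have a2 := (C2_sm (C2_sm D.smooth_E)).continuous.comp k1
  have g0 := smooth_gam.continuous.comp k2
  have g1 := (C2_smR smooth_gam).continuous.comp k2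
  have g2 := (C2_smR (C2_smR smooth_gam)).continuous.comp k2
  have m1 := (k2.smul l1).add (g0.smul a1)
  have m2 := (k2.smul l2).add (g0.smul a2)
  have m3 := c1.add (k0.smul m1)
  have m4 := l0.add (g1.smul a0)
  have m5 := c2.add (k0.smul m2)
  have m6 := l1.add (g1.smul a1)
  unfold C2_H
  exact ((C2_cdet m3 m4 m5).mul (g2.mul (C2_cdet m1 l0 a0))).sub ((C2_cdet m3 m4 m6).pow 2)

theorem C2_perd {f : ℝ → E3} {T : ℝ} (h : Function.Periodic f T) :
    Function.Periodic (deriv f) T := by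
  intro x
  rw [← deriv_comp_add_const]
  congr 1
  funext y
  exact h y

theorem C2_frp {a b c : ℝ → ℝ} (ha : Function.Periodic a (2 * Real.pi))
    (hb : Function.Periodic b (2 * Real.pi)) (hc : Function.Periodic c (2 * Real.pi)) :
    Function.Periodic (fun x => fr (a x) (b x) (c x) x) (2 * Real.pi) := by
  intro x
  simp only [fr]
  rw [ha, hb, hc, Real.sin_add_two_pi, Real.cos_add_two_pi]

theorem C2_Hp (D : Data) (ε σ : ℝ) : Function.Periodic (fun x => C2_H D ε x σ) (2 * Real.pi) := by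
  have hq : Function.Periodic (deriv D.q) (2 * Real.pi) := by
    intro x
    rw [← deriv_comp_add_const]
    congr 1
    funext y
    exact D.q_per y
  have hQ : Function.Periodic D.Q (2 * Real.pi) := by
    intro x
    unfold Data.Q
    rw [hq, D.q_per]
  have hc : Function.Periodic D.c (2 * Real.pi) := by
    apply C2_frp _ D.Ft_per D.ze_per
    intro x
    simp only
    rw [D.Fr_per, D.ze_per]
  have hDv : Function.Periodic D.Dv (2 * Real.pi) := by
    intro x
    unfold Data.Dv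
    rw [hQ, D.q_per, D.Xr_per, D.Xt_per, D.Xz_per]
  have hk : Function.Periodic D.k (2 * Real.pi) := by
    intro x
    unfold Data.k
    rw [hDv, D.Xr_per, D.Xz_per]
  have hE : Function.Periodic D.E (2 * Real.pi) := by
    apply C2_frp
    · intro x
      simp only
      rw [hk, hQ]
    · intro x
      simp only
      rw [hk, D.q_per]
    · intro x
      simp only
      rw [hk, hQ]
  have hl : Function.Periodic dl (2 * Real.pi) :=
    C2_frp (fun _ => rfl) (fun _ => rfl) (fun _ => rfl)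
  intro x
  simp only [C2_H]
  rw [C2_perd hc, C2_perd hl, C2_perd hE, hl, hE, C2_perd (C2_perd hc), C2_perd (C2_perd hl),
    C2_perd (C2_perd hE)]

theorem thin_neg (D : Data) : ∃ ε1 : ℝ, 0 < ε1 ∧ ∀ ε, 0 < ε → ε < ε1 → ∀ x l, |l| ≤ 3 * ε →
    Kdet (Bth D ε) (x, l) < 0 := by
  have hK : IsCompact (Icc (0 : ℝ) (2 * Real.pi) ×ˢ Icc (-3 : ℝ) 3) :=
    isCompact_Icc.prod isCompact_Icc
  have hev := hK.eventually_forall_of_forall_eventually (x₀ := (0 : ℝ))
    (P := fun ε y => C2_H D ε y.1 y.2 < 0) (by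
      intro y _
      exact (C2_Hc D).continuousAt.eventually_lt continuousAt_const (C2_H0 D y.1 y.2))
  rw [Metric.eventually_nhds_iff] at hev
  obtain ⟨ε1, hε1, h⟩ := hev
  refine ⟨ε1, hε1, ?_⟩
  intro ε hε hεε x l hl
  rw [C2_K D ε hε]
  obtain ⟨y, hy, hxy⟩ := (C2_Hp D ε (l / ε)).exists_mem_Ico₀ Real.two_pi_pos x
  have hxy' : C2_H D ε x (l / ε) = C2_H D ε y (l / ε) := hxy
  rw [hxy']
  have hσ : l / ε ∈ Icc (-3 : ℝ) 3 := by
    rw [Set.mem_Icc, ← abs_le, abs_div, abs_of_pos hε, div_le_iff₀ hε]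
    exact hl
  have hd : dist ε 0 < ε1 := by
    rw [Real.dist_0_eq_abs, abs_of_pos hε]
    exact hεε
  exact h hd (y, l / ε) ⟨Ico_subset_Icc_self hy, hσ⟩


end Pool.Agent.Helper331.TT
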