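import Pool.Agent.Helper331.TT.Defs
import Pool.Agent.Helper331.TT.C1
import Pool.Agent.Helper331.TT.C1s
set_option autoImplicit false
open scoped Manifold ContDiff
open Set Filter Topology

namespace Pool.Agent.Helper331.TT

theorem C4_gam_abs (t : ℝ) : |gam t| ≤ 2 := by
  unfold gam
  have h0 := Real.smoothTransition.nonneg ((t ^ 2 - 1) / 3)
  have h1 := Real.smoothTransition.le_one ((t ^ 2 - 1) / 3)
  by_cases ht : |t| ≤ 2
  · rw [abs_mul, abs_of_nonneg (by linarith : (0:ℝ) ≤ 1 - Real.smoothTransition ((t ^ 2 - 1) / 3))]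
    calc |t| * (1 - Real.smoothTransition ((t ^ 2 - 1) / 3)) ≤ 2 * 1 :=
          mul_le_mul ht (by linarith) (by linarith) (by norm_num)
      _ = 2 := by norm_num
  · push Not at ht
    have h2 : (4:ℝ) ≤ t ^ 2 := by
      rw [← sq_abs]
      nlinarith
    rw [Real.smoothTransition.one_of_one_le (by linarith)]
    norm_num

theorem C4_den (D : Data) {ε : ℝ} (hε : 0 < ε) (hεA : ∀ x, |D.f x| * ε ≤ D.A x / 2) (x t : ℝ) :
    |D.f x * (ε * gam t) / (2 * D.A x)| ≤ 1 / 2 := by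
  have hA := D.A_pos x
  have h1 := hεA x
  have h2 := C4_gam_abs t
  rw [abs_div, abs_of_pos (by linarith : (0:ℝ) < 2 * D.A x), div_le_iff₀ (by linarith), abs_mul,
    abs_mul, abs_of_pos hε]
  have h3 : |D.f x| * (ε * |gam t|) = (|D.f x| * ε) * |gam t| := by ring
  rw [h3]
  have h4 : 0 ≤ |D.f x| * ε := by positivity
  calc (|D.f x| * ε) * |gam t| ≤ (D.A x / 2) * 2 :=
        mul_le_mul h1 h2 (abs_nonneg _) (by linarith)
    _ = 1 / 2 * (2 * D.A x) := by ring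

theorem C4_den_lo (D : Data) {ε : ℝ} (hε : 0 < ε) (hεA : ∀ x, |D.f x| * ε ≤ D.A x / 2) (x t : ℝ) :
    1 / 2 ≤ 1 - D.f x * (ε * gam t) / (2 * D.A x) ∧
      1 - D.f x * (ε * gam t) / (2 * D.A x) ≤ 3 / 2 := by
  have h := abs_le.1 (C4_den D hε hεA x t)
  constructor <;> linarith [h.1, h.2]

theorem C4_bmp_zero (t : ℝ) (ht : t ≤ 0 ∨ 1 ≤ t) : bmp t = 0 := by
  unfold bmp
  rcases ht with ht | ht
  · rw [expNegInvGlue.zero_of_nonpos ht, zero_mul]
  · rw [expNegInvGlue.zero_of_nonpos (by linarith : 1 - t ≤ 0), mul_zero]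

theorem C4_bmp_nonneg (t : ℝ) : 0 ≤ bmp t := by
  unfold bmp
  exact mul_nonneg (expNegInvGlue.nonneg _) (expNegInvGlue.nonneg _)

theorem C4_dbmp_zero (t : ℝ) (ht : t ≤ 0 ∨ 1 ≤ t) : deriv bmp t = 0 := by
  apply IsLocalMin.deriv_eq_zero
  refine Filter.Eventually.of_forall fun y => ?_
  rw [C4_bmp_zero t ht]
  exact C4_bmp_nonneg y

theorem smooth_vth (D : Data) {ε e0 : ℝ} (hε : 0 < ε) (he0 : 0 < e0)
    (hεA : ∀ x, |D.f x| * ε ≤ D.A x / 2) : ContDiff ℝ ∞ (vth D ε e0) := by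
  have hf : ContDiff ℝ ∞ (fun p : ℝ × ℝ => D.f p.1) := D.f_smooth.comp contDiff_fst
  have hA : ContDiff ℝ ∞ (fun p : ℝ × ℝ => D.A p.1) := D.smooth_A.comp contDiff_fst
  have hP : ContDiff ℝ ∞ (fun p : ℝ × ℝ => D.P p.1) := D.smooth_P.comp contDiff_fst
  have hX : ContDiff ℝ ∞ (fun p : ℝ × ℝ => D.X p.1) := D.smooth_X.comp contDiff_fst
  have h2A : ContDiff ℝ ∞ (fun p : ℝ × ℝ => 2 * D.A p.1) := contDiff_const.mul hA
  have hA0 : ∀ p : ℝ × ℝ, 2 * D.A p.1 ≠ 0 := fun p => by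
    have := D.A_pos p.1
    positivity
  have hu : ContDiff ℝ ∞ (fun p : ℝ × ℝ => uu D p) := contDiff_snd.div h2A hA0
  have hrho : ContDiff ℝ ∞ (fun p : ℝ × ℝ => rho D p) := contDiff_const.sub (hf.mul hu)
  have hg : ContDiff ℝ ∞ (fun p : ℝ × ℝ => ε * gam (p.2 / ε)) :=
    contDiff_const.mul (smooth_gam.comp (contDiff_snd.div_const ε))
  have hden : ContDiff ℝ ∞ (fun p : ℝ × ℝ =>
      1 - D.f p.1 * (ε * gam (p.2 / ε)) / (2 * D.A p.1)) :=
    contDiff_const.sub ((hf.mul hg).div h2A hA0)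
  have hden0 : ∀ p : ℝ × ℝ, 1 - D.f p.1 * (ε * gam (p.2 / ε)) / (2 * D.A p.1) ≠ 0 := fun p => by
    have := (C4_den_lo D hε hεA p.1 (p.2 / ε)).1
    linarith
  have heta : ContDiff ℝ ∞ (fun p : ℝ × ℝ => eta D ε p) := hu.div hden hden0
  have hz : ContDiff ℝ ∞ (fun p : ℝ × ℝ => eta D ε p / e0) := heta.div_const e0
  have hdb : ContDiff ℝ ∞ (deriv bmp) := (contDiff_infty_iff_deriv.1 smooth_bmp).2
  have hb1 : ContDiff ℝ ∞ (fun p : ℝ × ℝ => bmp (eta D ε p / e0)) := smooth_bmp.comp hz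
  have hb2 : ContDiff ℝ ∞ (fun p : ℝ × ℝ => deriv bmp (eta D ε p / e0) / e0) :=
    (hdb.comp hz).div_const e0
  have ha : ContDiff ℝ ∞ (fun p : ℝ × ℝ =>
      (-(deriv bmp (eta D ε p / e0) / e0) + 2 * D.f p.1 * rho D p * bmp (eta D ε p / e0))) :=
    hb2.neg.add (((contDiff_const.mul hf).mul hrho).mul hb1)
  have hb : ContDiff ℝ ∞ (fun p : ℝ × ℝ => (2 * uu D p * (deriv bmp (eta D ε p / e0) / e0)
        - 4 * rho D p * bmp (eta D ε p / e0))) :=
    ((contDiff_const.mul hu).mul hb2).sub ((contDiff_const.mul hrho).mul hb1)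
  exact (ha.smul hP).add (hb.smul hX)

theorem vth_supp (D : Data) {ε e0 : ℝ} (hε : 0 < ε) (he0 : 0 < e0)
    (hεA : ∀ x, |D.f x| * ε ≤ D.A x / 2) (he0A : ∀ x, 3 * D.A x * e0 < ε) (x l : ℝ)
    (h : vth D ε e0 (x, l) ≠ 0) : 0 < l ∧ l < 3 * D.A x * e0 := by
  have hA := D.A_pos x
  have hrange : 0 < eta D ε (x, l) / e0 ∧ eta D ε (x, l) / e0 < 1 := by
    by_contra hcon
    have h1 : eta D ε (x, l) / e0 ≤ 0 ∨ 1 ≤ eta D ε (x, l) / e0 := by
      by_contra h2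
      push Not at h2
      exact hcon h2
    apply h
    unfold vth
    rw [C4_bmp_zero _ h1, C4_dbmp_zero _ h1]
    simp
  obtain ⟨h1, h2⟩ := hrange
  rw [lt_div_iff₀ he0, zero_mul] at h1
  rw [div_lt_one he0] at h2
  obtain ⟨d1, d2⟩ := C4_den_lo D hε hεA x (l / ε)
  have heq : eta D ε (x, l) = l / (2 * D.A x) / (1 - D.f x * (ε * gam (l / ε)) / (2 * D.A x)) := rfl
  generalize 1 - D.f x * (ε * gam (l / ε)) / (2 * D.A x) = den at d1 d2 heq
  have hdpos : 0 < den := by linarith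
  have heq2 : l = eta D ε (x, l) * den * (2 * D.A x) := by
    rw [heq]
    field_simp
  generalize eta D ε (x, l) = η at h1 h2 heq2
  have h2A : 0 < 2 * D.A x := by linarith
  constructor
  · rw [heq2]
    positivity
  · rw [heq2]
    have h3 : η * den < e0 * (3 / 2) := by
      calc η * den < e0 * den := mul_lt_mul_of_pos_right h2 hdpos
        _ ≤ e0 * (3 / 2) := mul_le_mul_of_nonneg_left d2 he0.le
    calc η * den * (2 * D.A x) < e0 * (3 / 2) * (2 * D.A x) := mul_lt_mul_of_pos_right h3 h2A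
      _ = 3 * D.A x * e0 := by ring


end Pool.Agent.Helper331.TT
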