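import Pool.Agent.Helper331.TT.Defs
set_option autoImplicit false
open scoped Manifold ContDiff
open Set Filter Topology

namespace Pool.Agent.Helper331.TT

theorem C6_smooth_d1 {B : ℝ × ℝ → E3} (hB : ContDiff ℝ ∞ B) : ContDiff ℝ ∞ (d1 B) := by
  have h : ContDiff ℝ ∞ (fderiv ℝ B) := hB.fderiv_right (by simp)
  exact h.clm_apply contDiff_const

theorem C6_smooth_d2 {B : ℝ × ℝ → E3} (hB : ContDiff ℝ ∞ B) : ContDiff ℝ ∞ (d2 B) := by
  have h : ContDiff ℝ ∞ (fderiv ℝ B) := hB.fderiv_right (by simp)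
  exact h.clm_apply contDiff_const

theorem C6_fd {B V : ℝ × ℝ → E3} (hB : ContDiff ℝ ∞ B) (hV : ContDiff ℝ ∞ V) (τ : ℝ) (p : ℝ × ℝ) :
    fderiv ℝ (fun p => B p + τ • V p) p = fderiv ℝ B p + τ • fderiv ℝ V p := by
  have h1 : DifferentiableAt ℝ B p := hB.contDiffAt.differentiableAt (by simp)
  have h2 : DifferentiableAt ℝ V p := hV.contDiffAt.differentiableAt (by simp)
  exact (h1.hasFDerivAt.add (h2.hasFDerivAt.const_smul τ)).fderiv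

theorem C6_d1 {B V : ℝ × ℝ → E3} (hB : ContDiff ℝ ∞ B) (hV : ContDiff ℝ ∞ V) (τ : ℝ) :
    d1 (fun p => B p + τ • V p) = fun p => d1 B p + τ • d1 V p := by
  funext p; simp only [d1]; rw [C6_fd hB hV]; rfl

theorem C6_d2 {B V : ℝ × ℝ → E3} (hB : ContDiff ℝ ∞ B) (hV : ContDiff ℝ ∞ V) (τ : ℝ) :
    d2 (fun p => B p + τ • V p) = fun p => d2 B p + τ • d2 V p := by
  funext p; simp only [d2]; rw [C6_fd hB hV]; rfl

theorem C6_cont_det3 {Y : Type*} [TopologicalSpace Y] {u v w : Y → E3} (hu : Continuous u)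
    (hv : Continuous v) (hw : Continuous w) : Continuous (fun y => det3 (u y) (v y) (w y)) := by
  have hc : ∀ (i : Fin 3) {g : Y → E3}, Continuous g → Continuous (fun y => g y i) := by
    intro i g hg
    exact (EuclideanSpace.proj i : E3 →L[ℝ] ℝ).continuous.comp hg
  have u0 := hc 0 hu
  have u1 := hc 1 hu
  have u2 := hc 2 hu
  have v0 := hc 0 hv
  have v1 := hc 1 hv
  have v2 := hc 2 hv
  have w0 := hc 0 hw
  have w1 := hc 1 hw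
  have w2 := hc 2 hw
  unfold det3
  exact ((u0.mul ((v1.mul w2).sub (v2.mul w1))).sub (u1.mul ((v0.mul w2).sub (v2.mul w0)))).add
    (u2.mul ((v0.mul w1).sub (v1.mul w0)))

theorem C6_fd_per {Φ : ℝ × ℝ → E3} (h : ∀ x l, Φ (x + 2 * Real.pi, l) = Φ (x, l)) (x l : ℝ) :
    fderiv ℝ Φ (x + 2 * Real.pi, l) = fderiv ℝ Φ (x, l) := by
  have hf : (fun q : ℝ × ℝ => Φ (q + (2 * Real.pi, 0))) = Φ := by
    funext q
    obtain ⟨a, b⟩ := q
    have := h a b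
    simpa using this
  have h2 := fderiv_comp_add_right (𝕜 := ℝ) (f := Φ) (x := (x, l)) (2 * Real.pi, 0)
  rw [hf] at h2
  have h3 : ((x, l) : ℝ × ℝ) + (2 * Real.pi, 0) = (x + 2 * Real.pi, l) := by simp
  rw [h3] at h2
  exact h2.symm

theorem C6_K_per {Φ : ℝ × ℝ → E3} (h : ∀ x l, Φ (x + 2 * Real.pi, l) = Φ (x, l)) (x l : ℝ) :
    Kdet Φ (x + 2 * Real.pi, l) = Kdet Φ (x, l) := by
  have h1 : ∀ x l, d1 Φ (x + 2 * Real.pi, l) = d1 Φ (x, l) := by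
    intro x l; simp only [d1]; rw [C6_fd_per h]
  have h2 : ∀ x l, d2 Φ (x + 2 * Real.pi, l) = d2 Φ (x, l) := by
    intro x l; simp only [d2]; rw [C6_fd_per h]
  have h11 : d1 (d1 Φ) (x + 2 * Real.pi, l) = d1 (d1 Φ) (x, l) := by
    show fderiv ℝ (d1 Φ) _ _ = fderiv ℝ (d1 Φ) _ _
    rw [C6_fd_per h1]
  have h21 : d2 (d1 Φ) (x + 2 * Real.pi, l) = d2 (d1 Φ) (x, l) := by
    show fderiv ℝ (d1 Φ) _ _ = fderiv ℝ (d1 Φ) _ _
    rw [C6_fd_per h1]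
  have h22 : d2 (d2 Φ) (x + 2 * Real.pi, l) = d2 (d2 Φ) (x, l) := by
    show fderiv ℝ (d2 Φ) _ _ = fderiv ℝ (d2 Φ) _ _
    rw [C6_fd_per h2]
  simp only [Kdet]
  rw [h1, h2, h11, h21, h22]

theorem C6_cont {B V : ℝ × ℝ → E3} (hB : ContDiff ℝ ∞ B) (hV : ContDiff ℝ ∞ V) :
    Continuous (fun y : ℝ × (ℝ × ℝ) => Kdet (fun p => B p + y.1 • V p) y.2) := by
  have e1' : ∀ τ : ℝ, d1 (fun p => B p + τ • V p) = fun p => d1 B p + τ • d1 V p := C6_d1 hB hV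
  have e2' : ∀ τ : ℝ, d2 (fun p => B p + τ • V p) = fun p => d2 B p + τ • d2 V p := C6_d2 hB hV
  have e11 : ∀ τ : ℝ, d1 (d1 (fun p => B p + τ • V p)) = fun p => d1 (d1 B) p + τ • d1 (d1 V) p := by
    intro τ; rw [e1']; exact C6_d1 (C6_smooth_d1 hB) (C6_smooth_d1 hV) τ
  have e21 : ∀ τ : ℝ, d2 (d1 (fun p => B p + τ • V p)) = fun p => d2 (d1 B) p + τ • d2 (d1 V) p := by
    intro τ; rw [e1']; exact C6_d2 (C6_smooth_d1 hB) (C6_smooth_d1 hV) τ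
  have e22 : ∀ τ : ℝ, d2 (d2 (fun p => B p + τ • V p)) = fun p => d2 (d2 B) p + τ • d2 (d2 V) p := by
    intro τ; rw [e2']; exact C6_d2 (C6_smooth_d2 hB) (C6_smooth_d2 hV) τ
  have cont2 : ∀ (f g : ℝ × ℝ → E3), Continuous f → Continuous g →
      Continuous (fun y : ℝ × (ℝ × ℝ) => f y.2 + y.1 • g y.2) := by
    intro f g hf hg
    exact (hf.comp continuous_snd).add (continuous_fst.smul (hg.comp continuous_snd))
  have k1 := cont2 _ _ (C6_smooth_d1 hB).continuous (C6_smooth_d1 hV).continuous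
  have k2 := cont2 _ _ (C6_smooth_d2 hB).continuous (C6_smooth_d2 hV).continuous
  have k11 := cont2 _ _ (C6_smooth_d1 (C6_smooth_d1 hB)).continuous (C6_smooth_d1 (C6_smooth_d1 hV)).continuous
  have k21 := cont2 _ _ (C6_smooth_d2 (C6_smooth_d1 hB)).continuous (C6_smooth_d2 (C6_smooth_d1 hV)).continuous
  have k22 := cont2 _ _ (C6_smooth_d2 (C6_smooth_d2 hB)).continuous (C6_smooth_d2 (C6_smooth_d2 hV)).continuous
  have m1 := C6_cont_det3 k1 k2 k11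
  have m2 := C6_cont_det3 k1 k2 k22
  have m3 := C6_cont_det3 k1 k2 k21
  have m4 := (m1.mul m2).sub (m3.pow 2)
  refine m4.congr ?_
  intro y
  have a1 := congrFun (e1' y.1) y.2
  have a2 := congrFun (e2' y.1) y.2
  have a11 := congrFun (e11 y.1) y.2
  have a21 := congrFun (e21 y.1) y.2
  have a22 := congrFun (e22 y.1) y.2
  unfold Kdet
  rw [a1, a2, a11, a21, a22]
  simp only [Pi.sub_apply, Pi.mul_apply, Pi.pow_apply]

theorem C6_tube (G : ℝ × (ℝ × ℝ) → ℝ) (hG : Continuous G)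
    (hper : ∀ τ x l, G (τ, (x + 2 * Real.pi, l)) = G (τ, (x, l))) (ρ : ℝ)
    (h0 : ∀ x l, |l| ≤ ρ → G (0, (x, l)) < 0) :
    ∃ τ0 : ℝ, 0 < τ0 ∧ ∀ τ, |τ| ≤ τ0 → ∀ x l, |l| ≤ ρ → G (τ, (x, l)) < 0 := by
  have hopen : IsOpen {y : ℝ × (ℝ × ℝ) | G y < 0} := isOpen_lt hG continuous_const
  have hKc : IsCompact (Icc (0 : ℝ) (2 * Real.pi) ×ˢ Icc (-ρ) ρ) := isCompact_Icc.prod isCompact_Icc
  have hsub : ({0} : Set ℝ) ×ˢ (Icc (0 : ℝ) (2 * Real.pi) ×ˢ Icc (-ρ) ρ)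
      ⊆ {y : ℝ × (ℝ × ℝ) | G y < 0} := by
    rintro ⟨t, x, l⟩ ⟨ht, hx, hl⟩
    have ht0 : t = 0 := ht
    subst ht0
    exact h0 x l (abs_le.2 ⟨hl.1, hl.2⟩)
  obtain ⟨U, W, hU, hW, hU0, hWK, hUW⟩ := generalized_tube_lemma isCompact_singleton hKc hopen hsub
  obtain ⟨r, hr, hball⟩ := Metric.isOpen_iff.1 hU 0 (hU0 rfl)
  refine ⟨r / 2, half_pos hr, ?_⟩
  intro τ hτ x l hl
  have hτU : τ ∈ U := hball (by rw [Metric.mem_ball, dist_zero_right, Real.norm_eq_abs]; linarith)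
  have hp : Function.Periodic (fun x => G (τ, (x, l))) (2 * Real.pi) := fun x => hper τ x l
  obtain ⟨y, hy, hxy⟩ := hp.exists_mem_Ico₀ Real.two_pi_pos x
  have hxy' : G (τ, (x, l)) = G (τ, (y, l)) := hxy
  rw [hxy']
  have hm : ((y, l) : ℝ × ℝ) ∈ W := hWK ⟨⟨hy.1, hy.2.le⟩, (abs_le.1 hl)⟩
  exact hUW (show ((τ, (y, l)) : ℝ × (ℝ × ℝ)) ∈ U ×ˢ W from ⟨hτU, hm⟩)

theorem perturb_neg {B V : ℝ × ℝ → E3} (hB : ContDiff ℝ ∞ B) (hV : ContDiff ℝ ∞ V)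
    (pB : ∀ x l, B (x + 2 * Real.pi, l) = B (x, l)) (pV : ∀ x l, V (x + 2 * Real.pi, l) = V (x, l))
    {ρ : ℝ} (hρ : 0 < ρ) (hK : ∀ x l, |l| ≤ ρ → Kdet B (x, l) < 0) :
    ∃ τ0 : ℝ, 0 < τ0 ∧ ∀ τ, |τ| ≤ τ0 → ∀ x l, |l| ≤ ρ → Kdet (fun p => B p + τ • V p) (x, l) < 0 := by
  refine C6_tube (fun y : ℝ × (ℝ × ℝ) => Kdet (fun p => B p + y.1 • V p) y.2) (C6_cont hB hV) ?_ ρ ?_
  · intro τ x l
    show Kdet (fun p => B p + τ • V p) (x + 2 * Real.pi, l) = Kdet (fun p => B p + τ • V p) (x, l)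
    apply C6_K_per
    intro x l
    show B (x + 2 * Real.pi, l) + τ • V (x + 2 * Real.pi, l) = B (x, l) + τ • V (x, l)
    rw [pB, pV]
  · intro x l hl
    show Kdet (fun p => B p + (0 : ℝ) • V p) (x, l) < 0
    have h0 : (fun p => B p + (0 : ℝ) • V p) = B := by funext p; simp
    rw [h0]
    exact hK x l hl


end Pool.Agent.Helper331.TT
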