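import Pool.Agent.Helper331.TT.Defs
set_option autoImplicit false
open scoped Manifold ContDiff
open Set Filter Topology

namespace Pool.Agent.Helper331.TT

theorem strip_bound {V : ℝ × ℝ → E3} (hV : Continuous V) (pV : ∀ x l, V (x + 2 * Real.pi, l) = V (x, l))
    (ρ : ℝ) : ∃ C : ℝ, 0 < C ∧ ∀ x l, |l| ≤ ρ → ‖V (x, l)‖ ≤ C := by
  have hK : IsCompact (Icc (0 : ℝ) (2 * Real.pi) ×ˢ Icc (-ρ) ρ) := isCompact_Icc.prod isCompact_Icc
  obtain ⟨C, hC⟩ := hK.exists_bound_of_continuousOn hV.continuousOn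
  refine ⟨max C 1, lt_of_lt_of_le one_pos (le_max_right _ _), ?_⟩
  intro x l hl
  have hper : Function.Periodic (fun x => V (x, l)) (2 * Real.pi) := fun x => pV x l
  obtain ⟨y, hy, hxy⟩ := hper.exists_mem_Ico₀ Real.two_pi_pos x
  have hxy' : V (x, l) = V (y, l) := hxy
  rw [hxy']
  refine (hC (y, l) ⟨⟨hy.1, hy.2.le⟩, ?_⟩).trans (le_max_left _ _)
  exact abs_le.1 hl


end Pool.Agent.Helper331.TT
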