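import Pool.Agent.Helper331.TT.Defs
set_option autoImplicit false
open scoped Manifold ContDiff
open Set Filter Topology

namespace Pool.Agent.Helper331.TT

theorem F2p_fr (a b c x : ℝ) : fr a b c (x + 2 * Real.pi) = fr a b c x := by
  unfold fr
  rw [Real.sin_add_two_pi, Real.cos_add_two_pi]
theorem F2p_dh (x : ℝ) : dh (x + 2 * Real.pi) = dh x := F2p_fr _ _ _ x
theorem F2p_dl (x : ℝ) : dl (x + 2 * Real.pi) = dl x := F2p_fr _ _ _ x
theorem F2p_deriv (g : ℝ → ℝ) (h : Function.Periodic g (2 * Real.pi)) (x : ℝ) :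
    deriv g (x + 2 * Real.pi) = deriv g x := by
  rw [← deriv_comp_add_const]
  congr 1
  funext y
  exact h y
theorem F2p_w (D : Data) (x : ℝ) : D.w (x + 2 * Real.pi) = D.w x := by
  unfold Data.w
  rw [D.om_per x]
theorem F2p_Q (D : Data) (x : ℝ) : D.Q (x + 2 * Real.pi) = D.Q x := by
  unfold Data.Q
  rw [D.q_per x, F2p_deriv _ D.q_per x]
theorem F2p_Dv (D : Data) (x : ℝ) : D.Dv (x + 2 * Real.pi) = D.Dv x := by
  unfold Data.Dv
  rw [F2p_Q, D.Xr_per x, D.Xt_per x, D.Xz_per x, D.q_per x]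
theorem F2p_A (D : Data) (x : ℝ) : D.A (x + 2 * Real.pi) = D.A x := by
  unfold Data.A
  rw [F2p_Dv, D.om_per x]
theorem F2p_P (D : Data) (x : ℝ) : D.P (x + 2 * Real.pi) = D.P x := by
  unfold Data.P
  rw [F2p_fr, D.om_per x, D.q_per x]
theorem F2p_X (D : Data) (x : ℝ) : D.X (x + 2 * Real.pi) = D.X x := by
  unfold Data.X
  rw [F2p_fr, D.Xr_per x, D.Xt_per x, D.Xz_per x]
theorem F2p_F (D : Data) (x : ℝ) : D.F (x + 2 * Real.pi) = D.F x := by
  unfold Data.F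
  rw [F2p_fr, D.Fr_per x, D.Ft_per x]
theorem F2p_c (D : Data) (x : ℝ) : D.c (x + 2 * Real.pi) = D.c x := by
  unfold Data.c
  rw [F2p_fr, D.Fr_per x, D.Ft_per x, D.ze_per x]
theorem F2p_k (D : Data) (x : ℝ) : D.k (x + 2 * Real.pi) = D.k x := by
  unfold Data.k
  rw [F2p_Dv, D.Xr_per x, D.Xz_per x]
theorem F2p_E (D : Data) (x : ℝ) : D.E (x + 2 * Real.pi) = D.E x := by
  unfold Data.E
  rw [F2p_fr, F2p_k, F2p_Q, D.q_per x]
theorem F2p_vth (D : Data) (ε e0 x l : ℝ) :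
    vth D ε e0 (x + 2 * Real.pi, l) = vth D ε e0 (x, l) := by
  have h1 : uu D (x + 2 * Real.pi, l) = uu D (x, l) := by
    unfold uu
    rw [F2p_A]
  have h2 : rho D (x + 2 * Real.pi, l) = rho D (x, l) := by
    unfold rho
    rw [h1, D.f_per x]
  have h3 : eta D ε (x + 2 * Real.pi, l) = eta D ε (x, l) := by
    unfold eta
    rw [h1, D.f_per x, F2p_A]
  unfold vth
  rw [h1, h2, h3, F2p_P, F2p_X, D.f_per x]
theorem per_Φin (D : Data) (R : Prof) (ε e0 τ' x s : ℝ) :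
    Φin D R ε e0 τ' (x + 2 * Real.pi, s) = Φin D R ε e0 τ' (x, s) := by
  unfold Φin Bin
  rw [F2p_F, F2p_dh, D.ze_per x, F2p_E, F2p_vth]
theorem per_Φout (R : Prof) (x s : ℝ) : Φout R (x + 2 * Real.pi, s) = Φout R (x, s) := by
  have h : x + 2 * Real.pi + R.θ s = x + R.θ s + 2 * Real.pi := by ring
  unfold Φout
  rw [h, F2p_dh]
theorem per_Bth (D : Data) (ε x l : ℝ) : Bth D ε (x + 2 * Real.pi, l) = Bth D ε (x, l) := by
  unfold Bth
  rw [F2p_c, F2p_dl, F2p_E]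
theorem per_vth (D : Data) (ε e0 x l : ℝ) : vth D ε e0 (x + 2 * Real.pi, l) = vth D ε e0 (x, l) := by
  exact F2p_vth D ε e0 x l


end Pool.Agent.Helper331.TT
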