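import Pool.Agent.Helper331.TT.Defs
set_option autoImplicit false
open scoped Manifold ContDiff
open Set Filter Topology

namespace Pool.Agent.Helper331.TT

theorem H1_Zmono (R : Prof) : StrictMonoOn R.Z (Icc (-R.t1) R.t1) := by
  apply strictMonoOn_of_deriv_pos (convex_Icc _ _) R.Z_smooth.continuous.continuousOn
  intro x hx
  rw [interior_Icc] at hx
  exact R.Z_pos x (abs_lt.2 hx)

theorem H1_zanti (R : Prof) : StrictAntiOn R.z (Icc R.t2 (R.t2 + R.La)) := by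
  apply strictAntiOn_of_deriv_neg (convex_Icc _ _) R.z_smooth.continuous.continuousOn
  intro x hx
  rw [interior_Icc] at hx
  have hl : R.t2 ∈ Icc R.t2 (R.t2 + R.La) := ⟨le_rfl, by linarith [R.La_pos]⟩
  have hr : R.t2 + R.La ∈ Icc R.t2 (R.t2 + R.La) := ⟨by linarith [R.La_pos], le_rfl⟩
  have hx' : x ∈ Icc R.t2 (R.t2 + R.La) := ⟨hx.1.le, hx.2.le⟩
  have h0 : 0 < R.θ x := by
    have := R.θ_mono hl hx' hx.1
    rwa [R.θ_lo R.t2 le_rfl] at this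
  have h1 : R.θ x < Real.pi := by
    have := R.θ_mono hx' hr hx.2
    rwa [R.θ_hi _ le_rfl] at this
  rw [R.dz x]
  have := mul_pos (R.κ_pos x) (Real.sin_pos_of_pos_of_lt_pi h0 h1)
  linarith

theorem Prof.t0_lt_H (R : Prof) : R.t0 < R.H := by
  have h0 := R.t0_pos
  have h1 := R.t01
  have e1 : R.Z R.t0 = R.t0 := R.Z_id _ (by rw [abs_of_pos h0])
  have e2 : R.Z R.t1 = R.H := R.Z_top _ le_rfl
  have := H1_Zmono R (a := R.t0) (b := R.t1) ⟨by linarith, by linarith⟩ ⟨by linarith, le_rfl⟩ h1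
  rwa [e1, e2] at this
theorem Prof.Z_lt (R : Prof) (s : ℝ) (hs : |s| < R.t1) : |R.Z s| < R.H := by
  have h0 := R.t0_pos
  have h1 := R.t01
  rw [abs_lt] at hs
  have e1 : R.Z (-R.t1) = -R.H := R.Z_bot _ le_rfl
  have e2 : R.Z R.t1 = R.H := R.Z_top _ le_rfl
  have k1 := H1_Zmono R (a := -R.t1) (b := s) ⟨le_rfl, by linarith⟩ ⟨hs.1.le, hs.2.le⟩ hs.1
  have k2 := H1_Zmono R (a := s) (b := R.t1) ⟨hs.1.le, hs.2.le⟩ ⟨by linarith, le_rfl⟩ hs.2
  rw [e1] at k1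
  rw [e2] at k2
  exact abs_lt.2 ⟨k1, k2⟩
theorem Prof.z_mem (R : Prof) (s : ℝ) : |R.z s| ≤ R.H ∧ (R.z s = R.H ↔ s ≤ R.t2) ∧
    (R.z s = -R.H ↔ R.t2 + R.La ≤ s) := by
  have hH := R.H_pos
  have hL := R.La_pos
  rcases le_or_gt s R.t2 with h | h
  · rw [R.z_lo s h]
    refine ⟨by rw [abs_of_pos hH], ⟨fun _ => h, fun _ => rfl⟩, ⟨fun h' => ?_, fun h' => ?_⟩⟩
    · linarith
    · linarith
  · rcases le_or_gt (R.t2 + R.La) s with h2 | h2
    · rw [R.z_hi s h2]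
      refine ⟨by rw [abs_neg, abs_of_pos hH], ⟨fun h' => ?_, fun h' => ?_⟩,
        ⟨fun _ => h2, fun _ => rfl⟩⟩
      · linarith
      · linarith
    · have k1 := H1_zanti R (a := R.t2) (b := s) ⟨le_rfl, by linarith⟩ ⟨h.le, h2.le⟩ h
      have k2 := H1_zanti R (a := s) (b := R.t2 + R.La) ⟨h.le, h2.le⟩ ⟨by linarith, le_rfl⟩ h2
      rw [R.z_lo _ le_rfl] at k1
      rw [R.z_hi _ le_rfl] at k2
      refine ⟨(abs_lt.2 ⟨k2, k1⟩).le, ⟨fun h' => ?_, fun h' => ?_⟩, ⟨fun h' => ?_, fun h' => ?_⟩⟩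
      · linarith
      · linarith
      · linarith
      · linarith
theorem Prof.t2_T (R : Prof) : 0 < R.τ2 ∧ 2 * R.t2 < R.T ∧ R.t2 + R.La < R.T - R.t2 := by
  have h0 := R.t0_pos
  have h1 := R.t01
  have h2 := R.t12
  have h3 := R.t2t2'
  have h4 := R.La_pos
  unfold Prof.T
  refine ⟨by linarith, by linarith, by linarith⟩


end Pool.Agent.Helper331.TT
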