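import Pool.Agent.Helper331.TT.Defs
import Pool.Agent.Helper331.TT.H1
import Pool.Agent.Helper331.TT.C1
import Pool.Agent.Helper331.TT.C1s
import Pool.Agent.Helper331.TT.C2
import Pool.Agent.Helper331.TT.C4
import Pool.Agent.Helper331.TT.C6
import Pool.Agent.Helper331.TT.C7
import Pool.Agent.Helper331.TT.F2p
set_option autoImplicit false
open scoped Manifold ContDiff
open Set Filter Topology

namespace Pool.Agent.Helper331.TT

theorem A4_bd {F : Type*} [NormedAddCommGroup F] {g : ℝ → F} (hc : Continuous g)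
    (hp : Function.Periodic g (2 * Real.pi)) : ∃ C : ℝ, 0 < C ∧ ∀ x, ‖g x‖ ≤ C := by
  have hcomp : IsCompact (Set.range g) := hp.compact_of_continuous (by positivity) hc
  obtain ⟨C, hC⟩ := hcomp.isBounded.exists_norm_le
  refine ⟨max C 1, lt_max_of_lt_right one_pos, fun x => ?_⟩
  exact (hC _ ⟨x, rfl⟩).trans (le_max_left _ _)

theorem A4_lower {g : ℝ → ℝ} (hc : Continuous g)
    (hp : Function.Periodic g (2 * Real.pi)) (hpos : ∀ x, 0 < g x) :
    ∃ a : ℝ, 0 < a ∧ ∀ x, a ≤ g x := by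
  have hcomp : IsCompact (Set.range g) := hp.compact_of_continuous (by positivity) hc
  obtain ⟨a, ⟨x0, hx0⟩, ha⟩ := hcomp.exists_isLeast (Set.range_nonempty g)
  exact ⟨a, hx0 ▸ hpos x0, fun x => ha ⟨x, rfl⟩⟩

theorem A4_Q_per (D : Data) (x : ℝ) : D.Q (x + 2 * Real.pi) = D.Q x := by
  have h1 : deriv D.q (x + 2 * Real.pi) = deriv D.q x := by
    have h2 : (fun y => D.q (y + 2 * Real.pi)) = D.q := funext D.q_per
    have h3 := deriv_comp_add_const D.q (2 * Real.pi) x
    rw [← h3, h2]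
  unfold Data.Q
  rw [h1, D.q_per x]

theorem A4_Dv_per (D : Data) (x : ℝ) : D.Dv (x + 2 * Real.pi) = D.Dv x := by
  unfold Data.Dv
  rw [A4_Q_per, D.Xr_per x, D.q_per x, D.Xt_per x, D.Xz_per x]

theorem A4_A_per (D : Data) : Function.Periodic D.A (2 * Real.pi) := by
  intro x
  unfold Data.A
  rw [A4_Dv_per, D.om_per x]

theorem A4_E_per (D : Data) : Function.Periodic D.E (2 * Real.pi) := by
  intro x
  unfold Data.E Data.k fr
  rw [A4_Q_per, A4_Dv_per, D.Xr_per x, D.q_per x, D.Xz_per x, Real.sin_add_two_pi,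
    Real.cos_add_two_pi]

theorem A4_gam (t : ℝ) : |gam t| ≤ 2 := by
  unfold gam
  have h0 := Real.smoothTransition.nonneg ((t ^ 2 - 1) / 3)
  have h1 := Real.smoothTransition.le_one ((t ^ 2 - 1) / 3)
  by_cases h : |t| ≤ 2
  · rw [abs_mul, abs_of_nonneg (by linarith : 0 ≤ 1 - Real.smoothTransition ((t ^ 2 - 1) / 3))]
    calc |t| * (1 - Real.smoothTransition ((t ^ 2 - 1) / 3)) ≤ 2 * 1 :=
          mul_le_mul h (by linarith) (by linarith) (by norm_num)
      _ = 2 := by norm_num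
  · push Not at h
    have h2 : 4 ≤ t ^ 2 := by
      have := sq_abs t
      nlinarith
    rw [Real.smoothTransition.one_of_one_le (by linarith)]
    simp

theorem A4_coord (u : E3) : |u 2| ≤ ‖u‖ := by
  have h := norm_sq_eq_dt u
  unfold dt at h
  apply abs_le_of_sq_le_sq _ (norm_nonneg u) |> fun h => h
  nlinarith [mul_self_nonneg (u 0), mul_self_nonneg (u 1)]

theorem exists_good (D : Data) (R : Prof) {C0 : ℝ} (h : Compat D R C0) :
    ∃ ε e0 τ : ℝ, Good D R C0 ε e0 τ := by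
  obtain ⟨ε1, hε1, hthin⟩ := thin_neg D
  obtain ⟨a, ha, haA⟩ := A4_lower D.smooth_A.continuous (A4_A_per D) D.A_pos
  obtain ⟨a', ha', haA'⟩ := A4_bd D.smooth_A.continuous (A4_A_per D)
  obtain ⟨Cf, hCf, hf⟩ := A4_bd D.f_smooth.continuous D.f_per
  obtain ⟨CE, hCE, hE⟩ := A4_bd D.smooth_E.continuous (A4_E_per D)
  obtain ⟨ε, hε0, hεε1, hε8, hεa, hεC⟩ : ∃ ε : ℝ, 0 < ε ∧ ε < ε1 ∧ ε ≤ 1 / 8 ∧ Cf * ε ≤ a / 2 ∧
      2 * ε * CE ≤ 1 / 16 := by
    refine ⟨min (ε1 / 2) (min (1 / 8) (min (a / (2 * Cf)) (1 / (32 * CE)))), ?_, ?_, ?_, ?_, ?_⟩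
    · positivity
    · exact lt_of_le_of_lt (min_le_left _ _) (by linarith)
    · exact (min_le_right _ _).trans (min_le_left _ _)
    · have h1 : min (ε1 / 2) (min (1 / 8) (min (a / (2 * Cf)) (1 / (32 * CE)))) ≤ a / (2 * Cf) :=
        (min_le_right _ _).trans ((min_le_right _ _).trans (min_le_left _ _))
      calc _ ≤ Cf * (a / (2 * Cf)) := mul_le_mul_of_nonneg_left h1 hCf.le
        _ = a / 2 := by field_simp
    · have h1 : min (ε1 / 2) (min (1 / 8) (min (a / (2 * Cf)) (1 / (32 * CE)))) ≤ 1 / (32 * CE) :=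
        (min_le_right _ _).trans ((min_le_right _ _).trans (min_le_right _ _))
      calc _ ≤ 2 * (1 / (32 * CE)) * CE := by
            apply mul_le_mul_of_nonneg_right _ hCE.le
            linarith
        _ = 1 / 16 := by field_simp; norm_num
  have hεA : ∀ x, |D.f x| * ε ≤ D.A x / 2 := by
    intro x
    have h1 : |D.f x| * ε ≤ Cf * ε := mul_le_mul_of_nonneg_right (hf x) hε0.le
    linarith [haA x]
  have he0 : 0 < ε / (6 * a') := by positivity
  have he0A : ∀ x, 3 * D.A x * (ε / (6 * a')) < ε := by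
    intro x
    have h1 : D.A x ≤ a' := (le_abs_self _).trans (haA' x)
    have h2 : 3 * D.A x * (ε / (6 * a')) ≤ 3 * a' * (ε / (6 * a')) :=
      mul_le_mul_of_nonneg_right (by linarith) he0.le
    have h3 : 3 * a' * (ε / (6 * a')) = ε / 2 := by field_simp; norm_num
    linarith
  have hsv := smooth_vth D hε0 he0 hεA
  have hsV : ContDiff ℝ ∞ (fun p => Sm (vth D ε (ε / (6 * a')) p)) :=
    Sm.contDiff.comp hsv
  have hpV : ∀ x l, (fun p => Sm (vth D ε (ε / (6 * a')) p)) (x + 2 * Real.pi, l) =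
      (fun p => Sm (vth D ε (ε / (6 * a')) p)) (x, l) := by
    intro x l
    simp only
    rw [per_vth]
  obtain ⟨τ0, hτ0, hK⟩ := perturb_neg (smooth_Bth D ε) hsV (per_Bth D ε) hpV
    (ρ := 3 * ε) (by positivity) (hthin ε hε0 hεε1)
  obtain ⟨C, hC, hVC⟩ := strip_bound hsV.continuous hpV (3 * ε)
  refine ⟨ε, ε / (6 * a'), min τ0 (1 / (8 * C)), ?_⟩
  refine { toCompat := h, ε_pos := hε0, ε_lt := by linarith, ε_A := hεA, e0_pos := he0,
           e0_A := he0A, τ_pos := lt_min hτ0 (by positivity), K_neg := ?_, z_lt := ?_ }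
  · intro τ' hτ' x l hl
    exact hK τ' (hτ'.trans (min_le_left _ _)) x l hl
  · intro τ' hτ' x l hl
    have hz : Mth D ε (ε / (6 * a')) τ' (x, l) 2 = D.ze x + l + ε * gam (l / ε) * (D.E x 2) +
        τ' * (Sm (vth D ε (ε / (6 * a')) (x, l)) 2) := by
      have hc : D.c x 2 = D.ze x := by simp [Data.c, fr]
      have hd : dl x 2 = 1 := by simp [dl, fr]
      simp only [Mth, Bth, PiLp.add_apply, PiLp.smul_apply, smul_eq_mul, hc, hd, mul_one]
    have h1 : |ε * gam (l / ε) * (D.E x 2)| ≤ 1 / 16 := by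
      rw [abs_mul, abs_mul, abs_of_pos hε0]
      have h2 := A4_gam (l / ε)
      have h3 := (A4_coord (D.E x)).trans (hE x)
      calc ε * |gam (l / ε)| * |D.E x 2| ≤ ε * 2 * CE :=
            mul_le_mul (mul_le_mul_of_nonneg_left h2 hε0.le) h3 (abs_nonneg _) (by positivity)
        _ = 2 * ε * CE := by ring
        _ ≤ 1 / 16 := hεC
    have h4 : |τ' * (Sm (vth D ε (ε / (6 * a')) (x, l)) 2)| ≤ 1 / 8 := by
      rw [abs_mul]
      have h5 := (A4_coord (Sm (vth D ε (ε / (6 * a')) (x, l)))).trans (hVC x l hl)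
      calc |τ'| * |Sm (vth D ε (ε / (6 * a')) (x, l)) 2| ≤ (1 / (8 * C)) * C :=
            mul_le_mul (hτ'.trans (min_le_right _ _)) h5 (abs_nonneg _) (by positivity)
        _ = 1 / 8 := by field_simp
    have h6 := h.ze_le x
    have h7 := R.t0_lt_H
    rw [hz]
    rw [abs_le] at h1 h4 hl
    have h8 := abs_le.mp (le_refl |D.ze x|)
    rw [abs_lt]
    constructor <;> linarith [h8.1, h8.2, h1.1, h1.2, h4.1, h4.2, hl.1, hl.2]


end Pool.Agent.Helper331.TT
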