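import Pool.Agent.Helper331.TT.Defs
set_option autoImplicit false
open scoped Manifold ContDiff
open Set Filter Topology

namespace Pool.Agent.Helper331.TT

theorem B3_d1 {Φ Ψ : ℝ × ℝ → E3} {p : ℝ × ℝ} (h : Φ =ᶠ[𝓝 p] Ψ) : d1 Φ =ᶠ[𝓝 p] d1 Ψ := by
  filter_upwards [h.fderiv (𝕜 := ℝ)] with q hq
  unfold d1
  rw [hq]
theorem B3_d2 {Φ Ψ : ℝ × ℝ → E3} {p : ℝ × ℝ} (h : Φ =ᶠ[𝓝 p] Ψ) : d2 Φ =ᶠ[𝓝 p] d2 Ψ := by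
  filter_upwards [h.fderiv (𝕜 := ℝ)] with q hq
  unfold d2
  rw [hq]

theorem Kdet_congr {Φ Ψ : ℝ × ℝ → E3} {p : ℝ × ℝ} (h : Φ =ᶠ[𝓝 p] Ψ) : Kdet Φ p = Kdet Ψ p := by
  have h1 := B3_d1 h
  have h2 := B3_d2 h
  have h11 := B3_d1 h1
  have h21 := B3_d2 h1
  have h22 := B3_d2 h2
  unfold Kdet
  rw [h1.eq_of_nhds, h2.eq_of_nhds, h11.eq_of_nhds, h21.eq_of_nhds, h22.eq_of_nhds]
theorem NoMax_congr {Φ Ψ : ℝ × ℝ → E3} {p : ℝ × ℝ} (h : Φ =ᶠ[𝓝 p] Ψ) (hN : NoMax Ψ p) :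
    NoMax Φ p := by
  intro ℓ hℓ hmax
  refine hN ℓ hℓ ?_
  have h1 : (fun q => ℓ (Φ q)) =ᶠ[𝓝 p] (fun q => ℓ (Ψ q)) := by
    filter_upwards [h] with q hq
    rw [hq]
  exact hmax.congr h1 
theorem Imm_congr {Φ Ψ : ℝ × ℝ → E3} {p : ℝ × ℝ} (h : Φ =ᶠ[𝓝 p] Ψ) (hN : Imm Ψ p) :
    Imm Φ p := by
  unfold Imm at *
  rw [h.fderiv_eq]
  exact hN


end Pool.Agent.Helper331.TT
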