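import Pool.Agent.Helper331.TT.Defs
set_option autoImplicit false
open scoped Manifold ContDiff
open Set Filter Topology

namespace Pool.Agent.Helper331.TT

theorem B4_lin (ℓ : E3 →L[ℝ] ℝ) (u : E3) : ℓ u = u 0 * ℓ e1 + u 1 * ℓ e2 + u 2 * ℓ e3 := by
  conv_lhs => rw [eq_vec u]
  simp [vec]

theorem B4_second {Φ : ℝ × ℝ → E3} (hΦ : ContDiff ℝ ∞ Φ) (p v : ℝ × ℝ) (ℓ : E3 →L[ℝ] ℝ)
    (hmax : IsLocalMax (fun q => ℓ (Φ q)) p) :
    ℓ (fderiv ℝ Φ p v) = 0 ∧ ℓ (fderiv ℝ (fderiv ℝ Φ) p v v) ≤ 0 := by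
  have hd : Differentiable ℝ Φ := hΦ.differentiable (by simp)
  have hd1 : ContDiff ℝ ∞ (fderiv ℝ Φ) := hΦ.fderiv_right (by simp)
  have hd2 : Differentiable ℝ (fderiv ℝ Φ) := hd1.differentiable (by simp)
  set g : ℝ → ℝ := fun t => ℓ (Φ (p + t • v)) with hg
  have hline : ∀ t : ℝ, HasDerivAt (fun t : ℝ => p + t • v) v t := by
    intro t
    have := ((hasDerivAt_id t).smul_const v).const_add p
    simpa using this
  have hg1 : ∀ t, HasDerivAt g (ℓ (fderiv ℝ Φ (p + t • v) v)) t := by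
    intro t
    have h1 : HasDerivAt (fun t : ℝ => Φ (p + t • v)) (fderiv ℝ Φ (p + t • v) v) t :=
      ((hd (p + t • v)).hasFDerivAt).comp_hasDerivAt t (hline t)
    exact ℓ.hasFDerivAt.comp_hasDerivAt t h1
  have hg1' : deriv g = fun t => ℓ (fderiv ℝ Φ (p + t • v) v) := funext fun t => (hg1 t).deriv
  have hg2 : ∀ t, HasDerivAt (deriv g) (ℓ (fderiv ℝ (fderiv ℝ Φ) (p + t • v) v v)) t := by
    intro t
    rw [hg1']
    have h1 : HasDerivAt (fun t : ℝ => fderiv ℝ Φ (p + t • v))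
        (fderiv ℝ (fderiv ℝ Φ) (p + t • v) v) t :=
      ((hd2 (p + t • v)).hasFDerivAt).comp_hasDerivAt t (hline t)
    have h2 : HasDerivAt (fun t : ℝ => fderiv ℝ Φ (p + t • v) v)
        (fderiv ℝ (fderiv ℝ Φ) (p + t • v) v v) t := by
      have := h1.clm_apply (hasDerivAt_const t v)
      simpa using this
    exact ℓ.hasFDerivAt.comp_hasDerivAt t h2
  have hgm : IsLocalMax g 0 := by
    have hc : ContinuousAt (fun t : ℝ => p + t • v) 0 := (hline 0).continuousAt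
    have hmax' : IsLocalMax (fun q => ℓ (Φ q)) ((fun t : ℝ => p + t • v) 0) := by simpa using hmax
    exact IsLocalMax.comp_continuous (g := fun t : ℝ => p + t • v) (b := (0:ℝ)) hmax' hc
  have h0 : deriv g 0 = 0 := hgm.deriv_eq_zero
  constructor
  · have := (hg1 0).deriv
    rw [h0] at this
    simpa using this.symm
  · by_contra hpos
    push Not at hpos
    have h2 : 0 < deriv (deriv g) 0 := by
      rw [(hg2 0).deriv]
      simpa using hpos
    have hmin : IsLocalMin g 0 := isLocalMin_of_deriv_deriv_pos h2 h0 (hg1 0).continuousAt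
    have hconst : g =ᶠ[𝓝 0] fun _ => g 0 := by
      filter_upwards [hgm, hmin] with t h1 h2
      exact le_antisymm h1 h2
    have h3 : deriv g =ᶠ[𝓝 0] deriv (fun _ => g 0) := hconst.deriv
    have h4 : deriv (deriv g) 0 = deriv (deriv (fun _ : ℝ => g 0)) 0 := h3.deriv_eq
    rw [h4] at h2
    simp at h2

theorem saddle {Φ : ℝ × ℝ → E3} (hΦ : ContDiff ℝ ∞ Φ) {p : ℝ × ℝ} (hK : Kdet Φ p < 0) :
    NoMax Φ p ∧ Imm Φ p := by
  have hd1 : ContDiff ℝ ∞ (fderiv ℝ Φ) := hΦ.fderiv_right (by simp)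
  have hd2 : Differentiable ℝ (fderiv ℝ Φ) := hd1.differentiable (by simp)
  have hap : ∀ u v : ℝ × ℝ, fderiv ℝ (fun q => fderiv ℝ Φ q u) p v =
      fderiv ℝ (fderiv ℝ Φ) p v u := by
    intro u v
    have h1 : HasFDerivAt (fun q => fderiv ℝ Φ q u)
        ((fderiv ℝ (fderiv ℝ Φ) p).flip u) p := by
      have := (hd2 p).hasFDerivAt.clm_apply (hasFDerivAt_const u p)
      simpa using this
    rw [h1.fderiv]
    rfl
  have hsym : ∀ u v : ℝ × ℝ, fderiv ℝ (fderiv ℝ Φ) p u v = fderiv ℝ (fderiv ℝ Φ) p v u := by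
    have hs : IsSymmSndFDerivAt ℝ Φ p := by
      apply (hΦ.contDiffAt).isSymmSndFDerivAt
      simp only [minSmoothness_of_isRCLikeNormedField]
      exact WithTop.coe_le_coe.2 (le_top : (2 : ℕ∞) ≤ ⊤)
    intro u v
    exact hs u v
  have h11 : d1 (d1 Φ) p = fderiv ℝ (fderiv ℝ Φ) p (1, 0) (1, 0) := hap (1, 0) (1, 0)
  have h12 : d2 (d1 Φ) p = fderiv ℝ (fderiv ℝ Φ) p (0, 1) (1, 0) := hap (1, 0) (0, 1)
  have h22 : d2 (d2 Φ) p = fderiv ℝ (fderiv ℝ Φ) p (0, 1) (0, 1) := hap (0, 1) (0, 1)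
  rw [Kdet, h11, h12, h22] at hK
  change det3 (fderiv ℝ Φ p (1, 0)) (fderiv ℝ Φ p (0, 1)) (fderiv ℝ (fderiv ℝ Φ) p (1, 0) (1, 0)) *
    det3 (fderiv ℝ Φ p (1, 0)) (fderiv ℝ Φ p (0, 1)) (fderiv ℝ (fderiv ℝ Φ) p (0, 1) (0, 1)) -
    det3 (fderiv ℝ Φ p (1, 0)) (fderiv ℝ Φ p (0, 1)) (fderiv ℝ (fderiv ℝ Φ) p (0, 1) (1, 0)) ^ 2 < 0
    at hK
  have hB : ∀ α β : ℝ, fderiv ℝ (fderiv ℝ Φ) p (α, β) (α, β) =
      α ^ 2 • fderiv ℝ (fderiv ℝ Φ) p (1, 0) (1, 0) +
      (2 * α * β) • fderiv ℝ (fderiv ℝ Φ) p (0, 1) (1, 0) +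
      β ^ 2 • fderiv ℝ (fderiv ℝ Φ) p (0, 1) (0, 1) := by
    intro α β
    have e : ((α, β) : ℝ × ℝ) = α • ((1, 0) : ℝ × ℝ) + β • ((0, 1) : ℝ × ℝ) := by
      ext <;> simp
    rw [e]
    simp only [map_add, map_smul, ContinuousLinearMap.add_apply, ContinuousLinearMap.smul_apply]
    rw [hsym (1, 0) (0, 1)]
    module
  have hA : ∀ α β : ℝ, fderiv ℝ Φ p (α, β) =
      α • fderiv ℝ Φ p (1, 0) + β • fderiv ℝ Φ p (0, 1) := by
    intro α β
    have e : ((α, β) : ℝ × ℝ) = α • ((1, 0) : ℝ × ℝ) + β • ((0, 1) : ℝ × ℝ) := by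
      ext <;> simp
    rw [e, map_add, map_smul, map_smul]
  set a := fderiv ℝ Φ p (1, 0) with ha
  set b := fderiv ℝ Φ p (0, 1) with hb
  set r := fderiv ℝ (fderiv ℝ Φ) p (1, 0) (1, 0) with hr
  set s := fderiv ℝ (fderiv ℝ Φ) p (0, 1) (1, 0) with hs
  set t := fderiv ℝ (fderiv ℝ Φ) p (0, 1) (0, 1) with ht
  -- the cross product
  obtain ⟨c0, hc0⟩ : ∃ c0, c0 = a 1 * b 2 - a 2 * b 1 := ⟨_, rfl⟩
  obtain ⟨c1, hc1⟩ : ∃ c1, c1 = a 2 * b 0 - a 0 * b 2 := ⟨_, rfl⟩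
  obtain ⟨c2, hc2⟩ : ∃ c2, c2 = a 0 * b 1 - a 1 * b 0 := ⟨_, rfl⟩
  have hdet : ∀ u : E3, det3 a b u = c0 * u 0 + c1 * u 1 + c2 * u 2 := by
    intro u
    rw [det3, hc0, hc1, hc2]; ring
  have hcpos : 0 < c0 ^ 2 + c1 ^ 2 + c2 ^ 2 := by
    by_contra hneg
    push Not at hneg
    have z0 : c0 = 0 := by nlinarith [sq_nonneg c0, sq_nonneg c1, sq_nonneg c2]
    have z1 : c1 = 0 := by nlinarith [sq_nonneg c0, sq_nonneg c1, sq_nonneg c2]
    have z2 : c2 = 0 := by nlinarith [sq_nonneg c0, sq_nonneg c1, sq_nonneg c2]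
    rw [hdet, hdet, hdet, z0, z1, z2] at hK
    norm_num at hK
  constructor
  · intro ℓ hℓ hmax
    have hla : ℓ a = 0 := (B4_second hΦ p (1, 0) ℓ hmax).1
    have hlb : ℓ b = 0 := (B4_second hΦ p (0, 1) ℓ hmax).1
    have hq : ∀ α β : ℝ, α ^ 2 * ℓ r + 2 * α * β * ℓ s + β ^ 2 * ℓ t ≤ 0 := by
      intro α β
      have := (B4_second hΦ p (α, β) ℓ hmax).2
      rw [hB] at this
      simpa [map_add, map_smul, smul_eq_mul] using this
    rw [B4_lin] at hla hlb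
    set n0 := ℓ e1 with hn0
    set n1 := ℓ e2 with hn1
    set n2 := ℓ e3 with hn2
    set N := c0 ^ 2 + c1 ^ 2 + c2 ^ 2 with hN
    set k := (n0 * c0 + n1 * c1 + n2 * c2) / N with hk
    have hkey : ∀ u : E3, ℓ u = k * det3 a b u := by
      intro u
      rw [hdet, hk, div_mul_eq_mul_div, eq_div_iff hcpos.ne', B4_lin, hN]
      rw [← hn0, ← hn1, ← hn2]
      rw [hc0, hc1, hc2]
      linear_combination
        (((a 2 * b 0 - a 0 * b 2) * a 2 - (a 0 * b 1 - a 1 * b 0) * a 1) * u 0 +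
          ((a 0 * b 1 - a 1 * b 0) * a 0 - (a 1 * b 2 - a 2 * b 1) * a 2) * u 1 +
          ((a 1 * b 2 - a 2 * b 1) * a 1 - (a 2 * b 0 - a 0 * b 2) * a 0) * u 2) * hlb -
        (((a 2 * b 0 - a 0 * b 2) * b 2 - (a 0 * b 1 - a 1 * b 0) * b 1) * u 0 +
          ((a 0 * b 1 - a 1 * b 0) * b 0 - (a 1 * b 2 - a 2 * b 1) * b 2) * u 1 +
          ((a 1 * b 2 - a 2 * b 1) * b 1 - (a 2 * b 0 - a 0 * b 2) * b 0) * u 2) * hla
    have hk0 : k ≠ 0 := by
      intro h0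
      apply hℓ
      ext u
      rw [hkey u, h0]
      simp
    have hdisc : ℓ r * ℓ t - ℓ s ^ 2 < 0 := by
      rw [hkey r, hkey s, hkey t]
      have : k * det3 a b r * (k * det3 a b t) - (k * det3 a b s) ^ 2 =
          k ^ 2 * (det3 a b r * det3 a b t - det3 a b s ^ 2) := by ring
      rw [this]
      have hk2 : 0 < k ^ 2 := by positivity
      nlinarith
    have q1 := hq 1 0
    have q2 := hq 0 1
    have q3 := hq (ℓ s) (-ℓ r)
    have q4 := hq (ℓ t) (-ℓ s)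
    have q5 := hq 1 1
    have q6 := hq 1 (-1)
    have r1 : ℓ r ≤ 0 := by linarith
    have r2 : ℓ t ≤ 0 := by linarith
    have e1 : ℓ r * (ℓ r * ℓ t - ℓ s ^ 2) ≤ 0 := by linarith
    have e2 : ℓ t * (ℓ r * ℓ t - ℓ s ^ 2) ≤ 0 := by linarith
    have z1 : ℓ r = 0 := by
      by_contra hne
      have : ℓ r < 0 := lt_of_le_of_ne r1 hne
      have := mul_pos_of_neg_of_neg this hdisc
      linarith
    have z2 : ℓ t = 0 := by
      by_contra hne
      have : ℓ t < 0 := lt_of_le_of_ne r2 hne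
      have := mul_pos_of_neg_of_neg this hdisc
      linarith
    rw [z1, z2] at hdisc q5 q6
    have z3 : ℓ s = 0 := by linarith
    rw [z3] at hdisc
    norm_num at hdisc
  · rw [Imm]
    have : Function.Injective (fderiv ℝ Φ p).toLinearMap := by
      rw [← LinearMap.ker_eq_bot, LinearMap.ker_eq_bot']
      rintro ⟨α, β⟩ h
      have h' : α • a + β • b = 0 := by
        rw [← hA]; exact h
      have w0 : α * a 0 + β * b 0 = 0 := by
        have := congrArg (fun v : E3 => v 0) h'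
        simpa using this
      have w1 : α * a 1 + β * b 1 = 0 := by
        have := congrArg (fun v : E3 => v 1) h'
        simpa using this
      have w2 : α * a 2 + β * b 2 = 0 := by
        have := congrArg (fun v : E3 => v 2) h'
        simpa using this
      have x0 : α * c0 = 0 := by rw [hc0]; linear_combination b 2 * w1 - b 1 * w2
      have x1 : α * c1 = 0 := by rw [hc1]; linear_combination b 0 * w2 - b 2 * w0
      have x2 : α * c2 = 0 := by rw [hc2]; linear_combination b 1 * w0 - b 0 * w1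
      have y0 : β * c0 = 0 := by rw [hc0]; linear_combination a 1 * w2 - a 2 * w1
      have y1 : β * c1 = 0 := by rw [hc1]; linear_combination a 2 * w0 - a 0 * w2
      have y2 : β * c2 = 0 := by rw [hc2]; linear_combination a 0 * w1 - a 1 * w0
      have hα : α = 0 := by
        have : α * (c0 ^ 2 + c1 ^ 2 + c2 ^ 2) = 0 := by
          linear_combination c0 * x0 + c1 * x1 + c2 * x2
        exact (mul_eq_zero.1 this).resolve_right hcpos.ne'
      have hβ : β = 0 := by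
        have : β * (c0 ^ 2 + c1 ^ 2 + c2 ^ 2) = 0 := by
          linear_combination c0 * y0 + c1 * y1 + c2 * y2
        exact (mul_eq_zero.1 this).resolve_right hcpos.ne'
      rw [hα, hβ]; rfl
    exact this


end Pool.Agent.Helper331.TT
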