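import Pool.Agent.Helper331.TT.Defs
set_option autoImplicit false
open scoped Manifold ContDiff
open Set Filter Topology

namespace Pool.Agent.Helper331.TT

theorem shear_transfer {Φ Ψ : ℝ × ℝ → E3} {ζ : ℝ → ℝ} (hζ : ContDiff ℝ ∞ ζ) (hΨ : ContDiff ℝ ∞ Ψ)
    {p : ℝ × ℝ} (h : Φ =ᶠ[𝓝 p] fun q => Ψ (q.1, q.2 - ζ q.1)) :
    (NoMax Ψ (p.1, p.2 - ζ p.1) → NoMax Φ p) ∧ (Imm Ψ (p.1, p.2 - ζ p.1) → Imm Φ p) := by
  have hSd : Differentiable ℝ (fun q : ℝ × ℝ => (q.1, q.2 - ζ q.1)) := by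
    have h1 : Differentiable ℝ ζ := hζ.differentiable (by simp)
    exact differentiable_fst.prodMk (differentiable_snd.sub (h1.comp differentiable_fst))
  have hTd : Differentiable ℝ (fun q : ℝ × ℝ => (q.1, q.2 + ζ q.1)) := by
    have h1 : Differentiable ℝ ζ := hζ.differentiable (by simp)
    exact differentiable_fst.prodMk (differentiable_snd.add (h1.comp differentiable_fst))
  have hΨd : Differentiable ℝ Ψ := hΨ.differentiable (by simp)
  constructor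
  · intro hN ℓ hℓ hmax
    apply hN ℓ hℓ
    have hT : Tendsto (fun q : ℝ × ℝ => (q.1, q.2 + ζ q.1)) (𝓝 (p.1, p.2 - ζ p.1)) (𝓝 p) := by
      have := hTd.continuous.tendsto (p.1, p.2 - ζ p.1)
      simpa using this
    have h0 : Φ p = Ψ (p.1, p.2 - ζ p.1) := h.self_of_nhds
    have h1 : ∀ᶠ q in 𝓝 p, ℓ (Φ q) ≤ ℓ (Φ p) := hmax
    have h2 := hT.eventually (h1.and h)
    show ∀ᶠ q in 𝓝 (p.1, p.2 - ζ p.1), ℓ (Ψ q) ≤ ℓ (Ψ (p.1, p.2 - ζ p.1))
    filter_upwards [h2] with q hq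
    obtain ⟨hq1, hq2⟩ := hq
    have h3 : Φ (q.1, q.2 + ζ q.1) = Ψ q := by
      rw [hq2]
      show Ψ (q.1, q.2 + ζ q.1 - ζ q.1) = Ψ q
      rw [add_sub_cancel_right]
    rw [h3, h0] at hq1
    exact hq1
  · intro hI
    show Function.Injective (fderiv ℝ Φ p)
    have h1 : fderiv ℝ Φ p = (fderiv ℝ Ψ (p.1, p.2 - ζ p.1)).comp
        (fderiv ℝ (fun q : ℝ × ℝ => (q.1, q.2 - ζ q.1)) p) := by
      rw [h.fderiv_eq]
      exact fderiv_comp p (hΨd _) (hSd p)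
    have h2 : (fderiv ℝ (fun q : ℝ × ℝ => (q.1, q.2 + ζ q.1)) (p.1, p.2 - ζ p.1)).comp
        (fderiv ℝ (fun q : ℝ × ℝ => (q.1, q.2 - ζ q.1)) p) = ContinuousLinearMap.id ℝ (ℝ × ℝ) := by
      have h3 := fderiv_comp (g := fun q : ℝ × ℝ => (q.1, q.2 + ζ q.1)) p (hTd _) (hSd p)
      rw [← h3]
      have h4 : (fun q : ℝ × ℝ => (q.1, q.2 + ζ q.1)) ∘ (fun q : ℝ × ℝ => (q.1, q.2 - ζ q.1)) =
          id := by
        funext q
        show (q.1, q.2 - ζ q.1 + ζ q.1) = q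
        rw [sub_add_cancel]
      rw [h4, fderiv_id]
    have h5 : Function.Injective (fderiv ℝ (fun q : ℝ × ℝ => (q.1, q.2 - ζ q.1)) p) := by
      intro x y hxy
      have h6 := congrArg (fun L : (ℝ × ℝ) →L[ℝ] (ℝ × ℝ) => L x) h2
      have h7 := congrArg (fun L : (ℝ × ℝ) →L[ℝ] (ℝ × ℝ) => L y) h2
      simp only [ContinuousLinearMap.comp_apply, ContinuousLinearMap.id_apply] at h6 h7
      rw [hxy] at h6
      exact h6.symm.trans h7
    rw [h1]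
    exact hI.comp h5

end Pool.Agent.Helper331.TT
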