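import Pool.Agent.Helper331.TT.Defs
set_option autoImplicit false
open scoped Manifold ContDiff
open Set Filter Topology

namespace Pool.Agent.Helper331.TT

theorem C3a_line (g : ℝ → ℝ) (g' x a : ℝ) (hg : HasDerivAt g g' x) :
    HasDerivAt (fun t : ℝ => g (x + t * a)) (a * g') 0 := by
  have h1 : HasDerivAt (fun t : ℝ => x + t * a) a 0 := by
    simpa using ((hasDerivAt_id (0:ℝ)).mul_const a).const_add x
  have h2 : HasDerivAt g g' (x + 0 * a) := by simpa using hg
  have h3 := h2.comp (0:ℝ) h1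
  rw [mul_comm] at h3
  exact h3

theorem C3a_congr {g : ℝ → ℝ} {a b : ℝ} (h : HasDerivAt g a 0) (e : a = b) :
    HasDerivAt g b 0 := e ▸ h

theorem C3a_comp (P : ℝ → E3) (hP : ContDiff ℝ ∞ P) (x : ℝ) (i : Fin 3) :
    HasDerivAt (fun y => P y i) ((deriv P x) i) x := by
  have h1 : HasDerivAt P (deriv P x) x :=
    ((hP.differentiable (by simp)) x).hasDerivAt
  exact (EuclideanSpace.proj i : E3 →L[ℝ] ℝ).hasFDerivAt.comp_hasDerivAt x h1

theorem C3a_S (u b : ℝ) : HasDerivAt (fun t : ℝ => u + t * b) b 0 := by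
  simpa using ((hasDerivAt_id (0:ℝ)).mul_const b).const_add u

theorem C3a_m {p q r s g : ℝ → ℝ} {p' q' r' s' g' : ℝ} (u b : ℝ) (hp : HasDerivAt p p' 0)
    (hq : HasDerivAt q q' 0) (hr : HasDerivAt r r' 0) (hs : HasDerivAt s s' 0)
    (hg : HasDerivAt g g' 0) :
    HasDerivAt (fun t : ℝ => g t + (2 * (u + t * b)) * (p t * q t - r t * s t))
      (g' + (2 * b * (p 0 * q 0 - r 0 * s 0) +
        2 * u * (p' * q 0 + p 0 * q' - (r' * s 0 + r 0 * s')))) 0 := by
  have h := hg.add (((C3a_S u b).const_mul 2).mul ((hp.mul hq).sub (hr.mul hs)))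
  refine C3a_congr h ?_
  simp only [Pi.mul_apply, Pi.sub_apply]
  ring

theorem C3a_v {A B p q : ℝ → ℝ} {A' B' p' q' : ℝ} (hA : HasDerivAt A A' 0)
    (hB : HasDerivAt B B' 0) (hp : HasDerivAt p p' 0) (hq : HasDerivAt q q' 0) :
    HasDerivAt (fun t : ℝ => A t * p t + B t * q t)
      (A' * p 0 + A 0 * p' + (B' * q 0 + B 0 * q')) 0 :=
  (hA.mul hp).add (hB.mul hq)

theorem C3a_curve (Φ : ℝ × ℝ → E3) (x u a b : ℝ) (h : DifferentiableAt ℝ Φ (x, u)) (i : Fin 3) :
    HasDerivAt (fun t : ℝ => Φ (x + t * a, u + t * b) i) ((fderiv ℝ Φ (x, u) (a, b)) i) 0 := by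
  have h1 : HasDerivAt (fun t : ℝ => (x + t * a, u + t * b)) (a, b) 0 :=
    (C3a_S x a).prodMk (C3a_S u b)
  have h2 : HasFDerivAt Φ (fderiv ℝ Φ (x, u)) (x + 0 * a, u + 0 * b) := by
    simpa using h.hasFDerivAt
  have h3 := h2.comp_hasDerivAt (0:ℝ) h1
  exact (EuclideanSpace.proj i : E3 →L[ℝ] ℝ).hasFDerivAt.comp_hasDerivAt (0:ℝ) h3

theorem bending_generic {P X c : ℝ → E3} {f Y : ℝ → ℝ} (hP : ContDiff ℝ ∞ P) (hX : ContDiff ℝ ∞ X)
    (hc : ContDiff ℝ ∞ c) (hf : ContDiff ℝ ∞ f) (hY : ContDiff ℝ ∞ Y)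
    (dX : ∀ x, deriv X x = deriv f x • P x) (dc : ∀ x, deriv c x = crs (P x) (deriv P x))
    (x u : ℝ) (hρ : 1 - f x * u ≠ 0) (w : ℝ × ℝ) :
    dt (fderiv ℝ (fun p : ℝ × ℝ => c p.1 + (2 * p.2) • crs (P p.1) (X p.1)) (x, u) w)
      (fderiv ℝ (fun p : ℝ × ℝ =>
        (-(deriv Y (p.2 / (1 - f p.1 * p.2))) + 2 * f p.1 * (1 - f p.1 * p.2) * Y (p.2 / (1 - f p.1 * p.2))) • P p.1
        + (2 * p.2 * deriv Y (p.2 / (1 - f p.1 * p.2)) - 4 * (1 - f p.1 * p.2) * Y (p.2 / (1 - f p.1 * p.2))) • X p.1)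
        (x, u) w) = 0 := by
  obtain ⟨a, b⟩ := w
  have hdP := hP.differentiable (by simp)
  have hdX := hX.differentiable (by simp)
  have hdc := hc.differentiable (by simp)
  have hdf := hf.differentiable (by simp)
  have hdY := hY.differentiable (by simp)
  have hdY1 : Differentiable ℝ (deriv Y) :=
    ((contDiff_infty_iff_deriv.1 hY).2).differentiable (by simp)
  have hPi : ∀ i : Fin 3, Differentiable ℝ (fun q : ℝ × ℝ => P q.1 i) := fun i =>
    (show Differentiable ℝ (fun y => P y i) from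
      fun y => (C3a_comp P hP y i).differentiableAt).comp differentiable_fst
  have hXi : ∀ i : Fin 3, Differentiable ℝ (fun q : ℝ × ℝ => X q.1 i) := fun i =>
    (show Differentiable ℝ (fun y => X y i) from
      fun y => (C3a_comp X hX y i).differentiableAt).comp differentiable_fst
  have h2 : Differentiable ℝ (fun p : ℝ × ℝ => 2 * p.2) := by fun_prop
  have hcr : Differentiable ℝ (fun p : ℝ × ℝ => crs (P p.1) (X p.1)) := by
    unfold crs vec
    exact (((((hPi 1).mul (hXi 2)).sub ((hPi 2).mul (hXi 1))).smul_const e1).add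
      ((((hPi 2).mul (hXi 0)).sub ((hPi 0).mul (hXi 2))).smul_const e2)).add
      ((((hPi 0).mul (hXi 1)).sub ((hPi 1).mul (hXi 0))).smul_const e3)
  have hcf : Differentiable ℝ (fun p : ℝ × ℝ => c p.1) := hdc.comp differentiable_fst
  have hPf : Differentiable ℝ (fun p : ℝ × ℝ => P p.1) := hdP.comp differentiable_fst
  have hXf : Differentiable ℝ (fun p : ℝ × ℝ => X p.1) := hdX.comp differentiable_fst
  have hff : Differentiable ℝ (fun p : ℝ × ℝ => f p.1) := hdf.comp differentiable_fst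
  have hΦ : Differentiable ℝ
      (fun p : ℝ × ℝ => c p.1 + (2 * p.2) • crs (P p.1) (X p.1)) := hcf.add (h2.smul hcr)
  have hρd' : Differentiable ℝ (fun p : ℝ × ℝ => 1 - f p.1 * p.2) :=
    (hff.mul differentiable_snd).const_sub 1
  have hρd := hρd' (x, u)
  have hη : DifferentiableAt ℝ (fun p : ℝ × ℝ => p.2 / (1 - f p.1 * p.2)) (x, u) := by
    have h3 : DifferentiableAt ℝ (fun r : ℝ => r⁻¹) (1 - f x * u) :=
      (hasDerivAt_inv hρ).differentiableAt
    have h4 : DifferentiableAt ℝ (fun p : ℝ × ℝ => (1 - f p.1 * p.2)⁻¹) (x, u) :=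
      DifferentiableAt.comp (x, u) (g := fun r : ℝ => r⁻¹)
        (f := fun p : ℝ × ℝ => 1 - f p.1 * p.2) h3 hρd
    simp only [div_eq_mul_inv]
    exact (show DifferentiableAt ℝ (fun p : ℝ × ℝ => p.2) (x, u) from
      differentiable_snd (x, u)).mul h4
  have hfd : DifferentiableAt ℝ (fun p : ℝ × ℝ => f p.1) (x, u) := hff (x, u)
  have hY0d : DifferentiableAt ℝ (fun p : ℝ × ℝ => Y (p.2 / (1 - f p.1 * p.2))) (x, u) :=
    hdY.differentiableAt.comp _ hη
  have hY1d : DifferentiableAt ℝ (fun p : ℝ × ℝ => deriv Y (p.2 / (1 - f p.1 * p.2))) (x, u) :=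
    hdY1.differentiableAt.comp _ hη
  have hΨ : DifferentiableAt ℝ (fun p : ℝ × ℝ =>
        (-(deriv Y (p.2 / (1 - f p.1 * p.2))) + 2 * f p.1 * (1 - f p.1 * p.2) * Y (p.2 / (1 - f p.1 * p.2))) • P p.1
        + (2 * p.2 * deriv Y (p.2 / (1 - f p.1 * p.2)) - 4 * (1 - f p.1 * p.2) * Y (p.2 / (1 - f p.1 * p.2))) • X p.1)
        (x, u) := by
    have hα : DifferentiableAt ℝ (fun p : ℝ × ℝ =>
        -(deriv Y (p.2 / (1 - f p.1 * p.2))) + 2 * f p.1 * (1 - f p.1 * p.2) *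
          Y (p.2 / (1 - f p.1 * p.2))) (x, u) :=
      hY1d.neg.add (((hfd.const_mul 2).mul hρd).mul hY0d)
    have hβ : DifferentiableAt ℝ (fun p : ℝ × ℝ =>
        2 * p.2 * deriv Y (p.2 / (1 - f p.1 * p.2)) - 4 * (1 - f p.1 * p.2) *
          Y (p.2 / (1 - f p.1 * p.2))) (x, u) :=
      ((h2 (x, u)).mul hY1d).sub ((hρd.const_mul 4).mul hY0d)
    exact (hα.smul (hPf (x, u))).add (hβ.smul (hXf (x, u)))
  -- one variable derivatives
  have dP : ∀ i : Fin 3, HasDerivAt (fun t : ℝ => P (x + t * a) i) (a * (deriv P x) i) 0 :=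
    fun i => C3a_line _ _ x a (C3a_comp P hP x i)
  have dX' : ∀ i : Fin 3, HasDerivAt (fun t : ℝ => X (x + t * a) i) (a * (deriv f x * P x i)) 0 := by
    intro i
    refine C3a_congr (C3a_line _ _ x a (C3a_comp X hX x i)) ?_
    rw [dX]
    simp
  have dc' : ∀ i : Fin 3, HasDerivAt (fun t : ℝ => c (x + t * a) i)
      (a * (crs (P x) (deriv P x)) i) 0 := by
    intro i
    refine C3a_congr (C3a_line _ _ x a (C3a_comp c hc x i)) ?_
    rw [dc]
  have df : HasDerivAt (fun t : ℝ => f (x + t * a)) (a * deriv f x) 0 :=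
    C3a_line _ _ x a (hdf x).hasDerivAt
  have dρ : HasDerivAt (fun t : ℝ => 1 - f (x + t * a) * (u + t * b))
      (-(a * deriv f x * u + f x * b)) 0 := by
    refine C3a_congr ((df.mul (C3a_S u b)).const_sub 1) ?_
    simp
  have hρ0 : (fun t : ℝ => 1 - f (x + t * a) * (u + t * b)) 0 ≠ 0 := by simpa using hρ
  obtain ⟨e', he'⟩ : ∃ e' : ℝ, e' = (b + a * deriv f x * u ^ 2) / (1 - f x * u) ^ 2 := ⟨_, rfl⟩
  have dη : HasDerivAt (fun t : ℝ => (u + t * b) / (1 - f (x + t * a) * (u + t * b))) e' 0 := by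
    refine C3a_congr ((C3a_S u b).div dρ hρ0) ?_
    rw [he']
    simp only [zero_mul, add_zero]
    field_simp
    ring
  have hη0 : (fun t : ℝ => (u + t * b) / (1 - f (x + t * a) * (u + t * b))) 0 =
      u / (1 - f x * u) := by simp
  have dY0 : HasDerivAt (fun t : ℝ => Y ((u + t * b) / (1 - f (x + t * a) * (u + t * b))))
      (deriv Y (u / (1 - f x * u)) * e') 0 := by
    have h1 := (hdY ((fun t : ℝ => (u + t * b) / (1 - f (x + t * a) * (u + t * b))) 0)).hasDerivAt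
    have h2 := h1.comp (0:ℝ) dη
    rw [hη0] at h2
    exact h2
  have dY1 : HasDerivAt (fun t : ℝ => deriv Y ((u + t * b) / (1 - f (x + t * a) * (u + t * b))))
      (deriv (deriv Y) (u / (1 - f x * u)) * e') 0 := by
    have h1 := (hdY1 ((fun t : ℝ => (u + t * b) / (1 - f (x + t * a) * (u + t * b))) 0)).hasDerivAt
    have h2 := h1.comp (0:ℝ) dη
    rw [hη0] at h2
    exact h2
  have dA : HasDerivAt (fun t : ℝ => -(deriv Y ((u + t * b) / (1 - f (x + t * a) * (u + t * b)))) +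
      2 * f (x + t * a) * (1 - f (x + t * a) * (u + t * b)) *
        Y ((u + t * b) / (1 - f (x + t * a) * (u + t * b))))
      (-(deriv (deriv Y) (u / (1 - f x * u)) * e') +
        (2 * (a * deriv f x) * (1 - f x * u) * Y (u / (1 - f x * u)) +
        2 * f x * (-(a * deriv f x * u + f x * b)) * Y (u / (1 - f x * u)) +
        2 * f x * (1 - f x * u) * (deriv Y (u / (1 - f x * u)) * e'))) 0 := by
    refine C3a_congr (dY1.neg.add (((df.const_mul 2).mul dρ).mul dY0)) ?_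
    simp only [Pi.mul_apply, zero_mul, add_zero]
    ring
  have dB : HasDerivAt (fun t : ℝ => 2 * (u + t * b) *
      deriv Y ((u + t * b) / (1 - f (x + t * a) * (u + t * b))) -
      4 * (1 - f (x + t * a) * (u + t * b)) *
        Y ((u + t * b) / (1 - f (x + t * a) * (u + t * b))))
      (2 * b * deriv Y (u / (1 - f x * u)) + 2 * u * (deriv (deriv Y) (u / (1 - f x * u)) * e') -
        (4 * (-(a * deriv f x * u + f x * b)) * Y (u / (1 - f x * u)) +
        4 * (1 - f x * u) * (deriv Y (u / (1 - f x * u)) * e'))) 0 := by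
    refine C3a_congr ((((C3a_S u b).const_mul 2).mul dY1).sub ((dρ.const_mul 4).mul dY0)) ?_
    simp only [Pi.mul_apply, zero_mul, add_zero]
  have M := fun i => C3a_curve _ x u a b hΦ.differentiableAt i
  have N := fun i => C3a_curve _ x u a b hΨ i
  beta_reduce at M N
  have E0 : (fun t : ℝ => (c (x + t * a) + (2 * (u + t * b)) •
      crs (P (x + t * a)) (X (x + t * a))) 0) = fun t : ℝ => c (x + t * a) 0 + (2 * (u + t * b)) *
      (P (x + t * a) 1 * X (x + t * a) 2 - P (x + t * a) 2 * X (x + t * a) 1) := by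
    funext t
    simp [crs]
  have E1 : (fun t : ℝ => (c (x + t * a) + (2 * (u + t * b)) •
      crs (P (x + t * a)) (X (x + t * a))) 1) = fun t : ℝ => c (x + t * a) 1 + (2 * (u + t * b)) *
      (P (x + t * a) 2 * X (x + t * a) 0 - P (x + t * a) 0 * X (x + t * a) 2) := by
    funext t
    simp [crs]
  have E2 : (fun t : ℝ => (c (x + t * a) + (2 * (u + t * b)) •
      crs (P (x + t * a)) (X (x + t * a))) 2) = fun t : ℝ => c (x + t * a) 2 + (2 * (u + t * b)) *
      (P (x + t * a) 0 * X (x + t * a) 1 - P (x + t * a) 1 * X (x + t * a) 0) := by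
    funext t
    simp [crs]
  have h0 := C3a_m u b (dP 1) (dX' 2) (dP 2) (dX' 1) (dc' 0)
  have h1 := C3a_m u b (dP 2) (dX' 0) (dP 0) (dX' 2) (dc' 1)
  have h3 := C3a_m u b (dP 0) (dX' 1) (dP 1) (dX' 0) (dc' 2)
  rw [← E0] at h0
  rw [← E1] at h1
  rw [← E2] at h3
  have m0 := (M 0).unique h0
  have m1 := (M 1).unique h1
  have m2 := (M 2).unique h3
  have v := fun i => C3a_v dA dB (dP i) (dX' i)
  have n := fun i => (N i).unique (v i)
  unfold dt
  rw [m0, m1, m2, n 0, n 1, n 2]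
  have hη' : e' * (1 - f x * u) ^ 2 = b + a * deriv f x * u ^ 2 := by
    rw [he']
    exact div_mul_cancel₀ _ (pow_ne_zero 2 hρ)
  simp only [crs, vec_0, vec_1, vec_2, zero_mul, add_zero]
  clear m0 m1 m2 n v M N E0 E1 E2 h0 h1 h3 dA dB dY0 dY1 dη hη0 dρ df dc' dX' dP he'
  generalize Y (u / (1 - f x * u)) = Y0
  generalize deriv Y (u / (1 - f x * u)) = Y1
  generalize deriv (deriv Y) (u / (1 - f x * u)) = Y2
  generalize deriv P x = Q
  generalize deriv f x = f' at hη' ⊢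
  generalize f x = F at hη' ⊢
  linear_combination (4 * a * (P x 0 * (X x 1 * Q 2 - X x 2 * Q 1) -
    P x 1 * (X x 0 * Q 2 - X x 2 * Q 0) + P x 2 * (X x 0 * Q 1 - X x 1 * Q 0)) * Y1) * hη'


end Pool.Agent.Helper331.TT
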