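import Pool.Agent.Helper331.TT.Defs
import Pool.Agent.Helper331.TT.C1
import Pool.Agent.Helper331.TT.C1s
import Pool.Agent.Helper331.TT.C3a
import Pool.Agent.Helper331.TT.C4
set_option autoImplicit false
open scoped Manifold ContDiff
open Set Filter Topology

namespace Pool.Agent.Helper331.TT

theorem C3_div {f g : ℝ × ℝ → ℝ} {p : ℝ × ℝ} (hf : DifferentiableAt ℝ f p)
    (hg : DifferentiableAt ℝ g p) (h : g p ≠ 0) : DifferentiableAt ℝ (fun q => f q / g q) p := by
  simp only [div_eq_mul_inv]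
  exact hf.mul (hg.inv h)

theorem C3_gam (t : ℝ) (ht : |t| ≤ 1) : gam t = t := by
  unfold gam
  have h : (t ^ 2 - 1) / 3 ≤ 0 := by
    have : t ^ 2 ≤ 1 := by
      rw [← sq_abs]
      nlinarith [abs_nonneg t]
    linarith
  rw [Real.smoothTransition.zero_of_nonpos h]
  ring

/-- the change of coordinates -/
noncomputable def C3_T (D : Data) (p : ℝ × ℝ) : ℝ × ℝ := (p.1, p.2 / (2 * D.A p.1))

/-- the ruled surface in generic coordinates -/
noncomputable def C3_m (D : Data) (p : ℝ × ℝ) : E3 :=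
  D.c p.1 + (2 * p.2) • crs (D.P p.1) (D.X p.1)

/-- the bending in generic coordinates -/
noncomputable def C3_V (D : Data) (Y : ℝ → ℝ) (p : ℝ × ℝ) : E3 :=
  (-(deriv Y (p.2 / (1 - D.f p.1 * p.2))) + 2 * D.f p.1 * (1 - D.f p.1 * p.2) * Y (p.2 / (1 - D.f p.1 * p.2))) • D.P p.1
    + (2 * p.2 * deriv Y (p.2 / (1 - D.f p.1 * p.2)) - 4 * (1 - D.f p.1 * p.2) * Y (p.2 / (1 - D.f p.1 * p.2))) • D.X p.1

theorem C3_T_diff (D : Data) (p : ℝ × ℝ) : DifferentiableAt ℝ (C3_T D) p := by
  have hA : DifferentiableAt ℝ (fun q : ℝ × ℝ => D.A q.1) p :=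
    ((D.smooth_A.differentiable (by simp)).comp differentiable_fst).differentiableAt
  have h0 : (2 * D.A p.1) ≠ 0 := by have := D.A_pos p.1; positivity
  unfold C3_T
  have h1 := C3_div (f := fun q : ℝ × ℝ => q.2) (g := fun q : ℝ × ℝ => 2 * D.A q.1) (p := p)
    differentiableAt_snd (hA.const_mul 2) h0
  exact differentiableAt_fst.prodMk h1

theorem C3_m_diff (D : Data) : Differentiable ℝ (C3_m D) := by
  have h : C3_m D = fun p => D.c p.1 + (2 * p.2) • (D.A p.1 • (dl p.1 + D.E p.1)) := by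
    funext p
    unfold C3_m
    rw [D.crs_PX]
  rw [h]
  have h1 : Differentiable ℝ (fun q : ℝ × ℝ => D.A q.1) :=
    (D.smooth_A.differentiable (by simp)).comp differentiable_fst
  have h2 : Differentiable ℝ (fun q : ℝ × ℝ => D.c q.1) :=
    (D.smooth_c.differentiable (by simp)).comp differentiable_fst
  have h3 : Differentiable ℝ (fun q : ℝ × ℝ => dl q.1) :=
    (smooth_dl.differentiable (by simp)).comp differentiable_fst
  have h4 : Differentiable ℝ (fun q : ℝ × ℝ => D.E q.1) :=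
    (D.smooth_E.differentiable (by simp)).comp differentiable_fst
  exact h2.add ((differentiable_snd.const_mul 2).smul (h1.smul (h3.add h4)))

theorem C3_V_diff (D : Data) {Y : ℝ → ℝ} (hY : ContDiff ℝ ∞ Y) (p : ℝ × ℝ)
    (hp : 1 - D.f p.1 * p.2 ≠ 0) : DifferentiableAt ℝ (C3_V D Y) p := by
  have hY0 : Differentiable ℝ Y := hY.differentiable (by simp)
  have hY1 : Differentiable ℝ (deriv Y) :=
    (contDiff_infty_iff_deriv.1 hY).2.differentiable (by simp)
  have h1 : DifferentiableAt ℝ (fun q : ℝ × ℝ => D.P q.1) p :=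
    ((D.smooth_P.differentiable (by simp)).comp differentiable_fst).differentiableAt
  have h2 : DifferentiableAt ℝ (fun q : ℝ × ℝ => D.X q.1) p :=
    ((D.smooth_X.differentiable (by simp)).comp differentiable_fst).differentiableAt
  have h3 : DifferentiableAt ℝ (fun q : ℝ × ℝ => D.f q.1) p :=
    ((D.f_smooth.differentiable (by simp)).comp differentiable_fst).differentiableAt
  have h4 : DifferentiableAt ℝ (fun q : ℝ × ℝ => 1 - D.f q.1 * q.2) p :=
    (h3.mul differentiableAt_snd).const_sub 1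
  have h5 : DifferentiableAt ℝ (fun q : ℝ × ℝ => q.2 / (1 - D.f q.1 * q.2)) p :=
    C3_div (f := fun q : ℝ × ℝ => q.2) (g := fun q : ℝ × ℝ => 1 - D.f q.1 * q.2)
      differentiableAt_snd h4 hp
  have h6 : DifferentiableAt ℝ (fun q : ℝ × ℝ => Y (q.2 / (1 - D.f q.1 * q.2))) p :=
    (hY0.differentiableAt).comp p h5
  have h7 : DifferentiableAt ℝ (fun q : ℝ × ℝ => deriv Y (q.2 / (1 - D.f q.1 * q.2))) p :=
    (hY1.differentiableAt).comp p h5
  unfold C3_V
  exact ((h7.neg.add (((h3.const_mul 2).mul h4).mul h6)).smul h1).add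
    ((((differentiableAt_snd.const_mul 2).mul h7).sub ((h4.const_mul 4).mul h6)).smul h2)

theorem C3_near (D : Data) {ε e0 : ℝ} (hε : 0 < ε) (he0 : 0 < e0) (p : ℝ × ℝ) (hp : |p.2| < ε) :
    Bth D ε p = C3_m D (C3_T D p) ∧ vth D ε e0 p = C3_V D (fun t => bmp (t / e0)) (C3_T D p) := by
  have hA := D.A_pos p.1
  have hg : ε * gam (p.2 / ε) = p.2 := by
    rw [C3_gam]
    · field_simp
    · rw [abs_div, abs_of_pos hε, div_le_one hε]; exact hp.le
  have hder : ∀ t, deriv (fun t => bmp (t / e0)) t = deriv bmp (t / e0) / e0 := by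
    intro t
    have hb : DifferentiableAt ℝ bmp (t / e0) := (smooth_bmp.differentiable (by simp)) _
    have h1 : HasDerivAt (fun t : ℝ => t / e0) (1 / e0) t := (hasDerivAt_id t).div_const e0
    have h2 := (HasDerivAt.comp t hb.hasDerivAt h1).deriv
    have h3 : (fun t => bmp (t / e0)) = bmp ∘ (fun t : ℝ => t / e0) := rfl
    rw [h3, h2]; ring
  constructor
  · unfold Bth C3_m C3_T
    simp only
    rw [hg, D.crs_PX, smul_smul, smul_add, add_assoc]
    have : 2 * (p.2 / (2 * D.A p.1)) * D.A p.1 = p.2 := by field_simp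
    rw [this]
  · have he : eta D ε p = uu D p / (1 - D.f p.1 * uu D p) := by
      unfold eta
      rw [hg]
      unfold uu
      rw [mul_div_assoc]
    unfold vth C3_V C3_T rho
    simp only
    rw [hder, he]
    rfl

theorem bending_thin (D : Data) {ε e0 : ℝ} (hε : 0 < ε) (he0 : 0 < e0)
    (hεA : ∀ x, |D.f x| * ε ≤ D.A x / 2) (he0A : ∀ x, 3 * D.A x * e0 < ε) (p w : ℝ × ℝ) :
    dt (fderiv ℝ (Bth D ε) p w) (fderiv ℝ (vth D ε e0) p w) = 0 := by
  by_cases hp : |p.2| < ε
  · have hnear : ∀ᶠ q : ℝ × ℝ in 𝓝 p, |q.2| < ε :=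
      (continuous_snd.abs.tendsto p).eventually (gt_mem_nhds hp)
    have hB : Bth D ε =ᶠ[𝓝 p] (C3_m D ∘ C3_T D) := by
      filter_upwards [hnear] with q hq
      exact (C3_near D hε he0 q hq).1
    have hV : vth D ε e0 =ᶠ[𝓝 p] (C3_V D (fun t => bmp (t / e0)) ∘ C3_T D) := by
      filter_upwards [hnear] with q hq
      exact (C3_near D hε he0 q hq).2
    have hY : ContDiff ℝ ∞ (fun t : ℝ => bmp (t / e0)) :=
      smooth_bmp.comp (contDiff_id.div_const e0)
    have hA := D.A_pos p.1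
    have hfu : 1 - D.f p.1 * (p.2 / (2 * D.A p.1)) ≠ 0 := by
      have h1 : |D.f p.1 * (p.2 / (2 * D.A p.1))| ≤ 1 / 4 := by
        rw [abs_mul, abs_div, abs_of_pos (show 0 < 2 * D.A p.1 by positivity), ← mul_div_assoc,
          div_le_iff₀ (by positivity)]
        have := hεA p.1
        have h2 := mul_le_mul_of_nonneg_left hp.le (abs_nonneg (D.f p.1))
        linarith
      have := le_abs_self (D.f p.1 * (p.2 / (2 * D.A p.1)))
      intro h
      linarith
    have hTd := C3_T_diff D p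
    have hmd := (C3_m_diff D) (C3_T D p)
    have hVd := C3_V_diff D hY (C3_T D p) hfu
    rw [hB.fderiv_eq, hV.fderiv_eq, fderiv_comp p hmd hTd, fderiv_comp p hVd hTd]
    exact bending_generic D.smooth_P D.smooth_X D.smooth_c D.f_smooth hY D.deriv_X D.deriv_c
      p.1 (p.2 / (2 * D.A p.1)) hfu (fderiv ℝ (C3_T D) p w)
  · have hz : vth D ε e0 =ᶠ[𝓝 p] (fun _ => (0 : E3)) := by
      have hAc : Continuous (fun q : ℝ × ℝ => 3 * D.A q.1 * e0) :=
        ((D.smooth_A.continuous.comp continuous_fst).const_mul 3).mul_const e0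
      rcases le_abs.1 (not_lt.1 hp) with h | h
      · have h1 : 3 * D.A p.1 * e0 < p.2 := lt_of_lt_of_le (he0A p.1) h
        have h2 : ∀ᶠ q : ℝ × ℝ in 𝓝 p, 3 * D.A q.1 * e0 < q.2 :=
          (isOpen_lt hAc continuous_snd).mem_nhds h1
        filter_upwards [h2] with q hq
        by_contra hne
        have := (vth_supp D hε he0 hεA he0A q.1 q.2 hne).2
        linarith
      · have h1 : p.2 < 0 := by linarith
        have h2 : ∀ᶠ q : ℝ × ℝ in 𝓝 p, q.2 < 0 :=
          (isOpen_lt continuous_snd continuous_const).mem_nhds h1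
        filter_upwards [h2] with q hq
        by_contra hne
        have := (vth_supp D hε he0 hεA he0A q.1 q.2 hne).1
        linarith
    rw [hz.fderiv_eq]
    simp [dt]


end Pool.Agent.Helper331.TT
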