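import Pool.Agent.Helper331.TT.Defs
import Pool.Agent.Helper331.TT.C1s
import Pool.Agent.Helper331.TT.C4
import Pool.Agent.Helper331.TT.C3
set_option autoImplicit false
open scoped Manifold ContDiff
open Set Filter Topology

namespace Pool.Agent.Helper331.TT

theorem C3b_dt_add_smul (a b : E3) (τ : ℝ) (h : dt (Lm a) (Lm b) = 0) :
    ‖Lm a + τ • Lm b‖ ^ 2 = ‖Lm a‖ ^ 2 + τ ^ 2 * ‖Lm b‖ ^ 2 := by
  simp only [norm_sq_eq_dt]
  simp only [dt, PiLp.add_apply, PiLp.smul_apply, smul_eq_mul] at h ⊢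
  linear_combination (2 * τ) * h

theorem iso_thin (D : Data) {ε e0 : ℝ} (hε : 0 < ε) (he0 : 0 < e0)
    (hεA : ∀ x, |D.f x| * ε ≤ D.A x / 2) (he0A : ∀ x, 3 * D.A x * e0 < ε) (τ : ℝ) (p w : ℝ × ℝ) :
    ‖fderiv ℝ (fun q => Lm (Mth D ε e0 τ q)) p w‖ = ‖fderiv ℝ (fun q => Lm (Mth D ε e0 (-τ) q)) p w‖ := by
  have hB : DifferentiableAt ℝ (Bth D ε) p :=
    (smooth_Bth D ε).contDiffAt.differentiableAt (by simp)
  have hv : DifferentiableAt ℝ (vth D ε e0) p :=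
    (smooth_vth D hε he0 hεA).contDiffAt.differentiableAt (by simp)
  have key : ∀ t : ℝ, fderiv ℝ (fun q => Lm (Mth D ε e0 t q)) p w
      = Lm (fderiv ℝ (Bth D ε) p w) + t • Lm (Sm (fderiv ℝ (vth D ε e0) p w)) := by
    intro t
    have h1 : HasFDerivAt (fun q => Mth D ε e0 t q)
        (fderiv ℝ (Bth D ε) p + t • (Sm.comp (fderiv ℝ (vth D ε e0) p))) p := by
      have h2 := hB.hasFDerivAt
      have h3 := (Sm.hasFDerivAt (x := vth D ε e0 p)).comp p hv.hasFDerivAt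
      exact h2.add (h3.const_smul t)
    have h4 := (Lm.hasFDerivAt (x := Mth D ε e0 t p)).comp p h1
    have h5 : fderiv ℝ (fun q => Lm (Mth D ε e0 t q)) p
        = Lm.comp (fderiv ℝ (Bth D ε) p + t • (Sm.comp (fderiv ℝ (vth D ε e0) p))) := h4.fderiv
    rw [h5]
    simp [map_add, map_smul]
  have hz : dt (Lm (fderiv ℝ (Bth D ε) p w)) (Lm (Sm (fderiv ℝ (vth D ε e0) p w))) = 0 := by
    rw [dt_Lm_Sm]; exact bending_thin D hε he0 hεA he0A p w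
  have hsq : ‖fderiv ℝ (fun q => Lm (Mth D ε e0 τ q)) p w‖ ^ 2
      = ‖fderiv ℝ (fun q => Lm (Mth D ε e0 (-τ) q)) p w‖ ^ 2 := by
    rw [key τ, key (-τ), C3b_dt_add_smul _ _ _ hz, C3b_dt_add_smul _ _ _ hz]
    ring
  exact (sq_eq_sq₀ (norm_nonneg _) (norm_nonneg _)).1 hsq


end Pool.Agent.Helper331.TT
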