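import Pool.Agent.Helper331.TT.Defs
import Pool.Agent.Helper331.TT.B1
import Pool.Agent.Helper331.TT.B2
import Pool.Agent.Helper331.TT.C1
import Pool.Agent.Helper331.TT.C1s
set_option autoImplicit false
open scoped Manifold ContDiff
open Set Filter Topology

namespace Pool.Agent.Helper331.TT

theorem D1a_fr_add (a b c a' b' c' x : ℝ) :
    fr a b c x + fr a' b' c' x = fr (a + a') (b + b') (c + c') x := by
  apply ext3 <;> simp [fr] <;> ring

theorem D1a_fr_smul (t a b c x : ℝ) : t • fr a b c x = fr (t * a) (t * b) (t * c) x := by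
  apply ext3 <;> simp [fr] <;> ring

theorem D1a_e3 (x : ℝ) : e3 = fr 0 0 1 x := by
  apply ext3 <;> simp [fr]

theorem D1a_det (a b c a' b' c' a'' b'' c'' x : ℝ) :
    det3 (fr a b c x) (fr a' b' c' x) (fr a'' b'' c'' x) =
      a * (b' * c'' - c' * b'') - b * (a' * c'' - c' * a'') + c * (a' * b'' - b' * a'') := by
  have h := Real.sin_sq_add_cos_sq x
  simp only [det3, fr, vec_0, vec_1, vec_2]
  linear_combination (a * (b' * c'' - c' * b'') - b * (a' * c'' - c' * a'') + c * (a' * b'' - b' * a'')) * h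

theorem D1a_w_smooth (D : Data) : ContDiff ℝ ∞ D.w := by
  unfold Data.w
  exact D.om_smooth.pow 2

theorem D1a_b_smooth (D : Data) : ContDiff ℝ ∞ D.b := by
  unfold Data.b
  exact ((D1a_w_smooth D).mul D.q_smooth).add D.ze_smooth

theorem Kdet_ruled (D : Data) {Z : ℝ → ℝ} (hZ : ContDiff ℝ ∞ Z) (x s : ℝ) :
    Kdet (fun p : ℝ × ℝ => D.F p.1 + p.2 • dh p.1 + Z p.2 • e3) (x, s) =
      deriv Z s * deriv (deriv Z) s * (s - D.b x) *
        ((s - D.b x) ^ 2 + D.w x ^ 2 + (s - D.b x) * deriv D.w x + D.w x * deriv D.b x)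
      - (deriv Z s * D.w x) ^ 2 := by
  have hw := D1a_w_smooth D
  have hb := D1a_b_smooth D
  have hdw : ∀ x, HasDerivAt D.w (deriv D.w x) x := fun x =>
    (hw.differentiable (by simp) x).hasDerivAt
  have hdb : ∀ x, HasDerivAt D.b (deriv D.b x) x := fun x =>
    (hb.differentiable (by simp) x).hasDerivAt
  have hdZ : ∀ s, HasDerivAt Z (deriv Z s) s := fun s =>
    (hZ.differentiable (by simp) s).hasDerivAt
  have hZ1 : ContDiff ℝ ∞ (deriv Z) := by
    have := hZ
    rw [contDiff_infty_iff_deriv] at this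
    exact this.2
  have hdZ1 : ∀ s, HasDerivAt (deriv Z) (deriv (deriv Z) s) s := fun s =>
    (hZ1.differentiable (by simp) s).hasDerivAt
  have hdh : ∀ x, HasDerivAt dh (fr 0 1 0 x) x := by
    intro x
    have := hasDerivAt_fr (hasDerivAt_const x (1:ℝ)) (hasDerivAt_const x (0:ℝ))
      (hasDerivAt_const x (0:ℝ))
    have h2 : fr (0 - 0) (1 + 0) 0 x = fr 0 1 0 x := by congr 1 <;> ring
    rw [h2] at this
    exact this
  have hdF : ∀ x, HasDerivAt D.F (fr (-(D.w x)) (-(D.b x)) 0 x) x := by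
    intro x
    rw [← D.deriv_F x]
    exact (D.smooth_F.differentiable (by simp) x).hasDerivAt
  have hΦ : ContDiff ℝ ∞ (fun p : ℝ × ℝ => D.F p.1 + p.2 • dh p.1 + Z p.2 • e3) := by
    have h1 := D.smooth_F
    have h2 := smooth_dh
    exact ((h1.comp contDiff_fst).add (contDiff_snd.smul (h2.comp contDiff_fst))).add
      ((hZ.comp contDiff_snd).smul contDiff_const)
  rw [Kdet_eq (fun p : ℝ × ℝ => D.F p.1 + p.2 • dh p.1 + Z p.2 • e3)
    (fun p => fr (-(D.w p.1)) (p.2 - D.b p.1) 0 p.1)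
    (fun p => fr 1 0 (deriv Z p.2) p.1)
    (fun p => fr (-(deriv D.w p.1) - (p.2 - D.b p.1)) (-(D.w p.1) + -(deriv D.b p.1)) 0 p.1)
    (fun p => fr 0 1 0 p.1)
    (fun p => fr 0 0 (deriv (deriv Z) p.2) p.1) hΦ]
  · simp only [D1a_det]
    ring
  · rintro ⟨x, s⟩
    have h1 : HasDerivAt (fun x => D.F x + s • dh x + Z s • e3)
        (fr (-(D.w x)) (-(D.b x)) 0 x + s • fr 0 1 0 x + 0) x :=
      ((hdF x).add ((hdh x).const_smul s)).add (hasDerivAt_const x (Z s • e3))
    refine h1.congr_deriv ?_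
    rw [D1a_fr_smul, D1a_fr_add, add_zero]
    congr 1 <;> ring
  · rintro ⟨x, s⟩
    have h1 : HasDerivAt (fun s => D.F x + s • dh x + Z s • e3)
        (0 + (1:ℝ) • dh x + deriv Z s • e3) s :=
      ((hasDerivAt_const s (D.F x)).add ((hasDerivAt_id s).smul_const (dh x))).add
      ((hdZ s).smul_const e3)
    refine h1.congr_deriv ?_
    rw [D1a_e3 x, dh, D1a_fr_smul, D1a_fr_smul, zero_add, D1a_fr_add]
    congr 1 <;> ring
  · rintro ⟨x, s⟩
    have h1 := hasDerivAt_fr (hdw x).neg ((hdb x).const_sub s) (hasDerivAt_const x (0:ℝ))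
    exact h1
  · rintro ⟨x, s⟩
    have h1 : HasDerivAt (fun s : ℝ => fr (-(D.w x)) (-(D.b x)) 0 x + s • fr 0 1 0 x)
        (0 + (1:ℝ) • fr 0 1 0 x) s :=
      (hasDerivAt_const s _).add ((hasDerivAt_id s).smul_const (fr 0 1 0 x))
    convert h1 using 1
    · funext s
      rw [D1a_fr_smul, D1a_fr_add]
      congr 1 <;> ring
    · simp
  · rintro ⟨x, s⟩
    have h1 : HasDerivAt (fun s : ℝ => fr 1 0 0 x + deriv Z s • fr 0 0 1 x)
        (0 + deriv (deriv Z) s • fr 0 0 1 x) s :=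
      (hasDerivAt_const s _).add ((hdZ1 s).smul_const (fr 0 0 1 x))
    convert h1 using 1
    · funext s
      rw [D1a_fr_smul, D1a_fr_add]
      congr 1 <;> ring
    · rw [D1a_fr_smul, zero_add]
      congr 1 <;> ring


end Pool.Agent.Helper331.TT
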