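import Pool.Agent.Helper331.TT.Defs
import Pool.Agent.Helper331.TT.B3
import Pool.Agent.Helper331.TT.C1
import Pool.Agent.Helper331.TT.C1s
import Pool.Agent.Helper331.TT.D1a
set_option autoImplicit false
open scoped Manifold ContDiff
open Set Filter Topology

namespace Pool.Agent.Helper331.TT

theorem Kdet_Bin (D : Data) (R : Prof) {C0 : ℝ} (h : Compat D R C0) (x s : ℝ) (hs : |s| < R.t1) :
    Kdet (Bin D R) (x, s) < 0 := by
  have h1 : Bin D R =ᶠ[𝓝 (x, s)] (fun p : ℝ × ℝ => D.F p.1 + p.2 • dh p.1 + R.Z p.2 • e3) := by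
    have h2 : ∀ᶠ p : ℝ × ℝ in 𝓝 (x, s), |p.2| < R.t1 :=
      (isOpen_lt (by fun_prop) continuous_const).mem_nhds hs
    filter_upwards [h2] with p hp
    unfold Bin
    rw [R.χ_one p.2 hp.le, one_smul]
  rw [Kdet_congr h1, Kdet_ruled D R.Z_smooth]
  have hZ := R.Z_pos s hs
  have hw : 0 < D.w x := by
    have := D.om_pos x
    unfold Data.w
    positivity
  have hsq : 0 < (deriv R.Z s * D.w x) ^ 2 := by positivity
  have hmain : deriv R.Z s * deriv (deriv R.Z) s * (s - D.b x) *
        ((s - D.b x) ^ 2 + D.w x ^ 2 + (s - D.b x) * deriv D.w x + D.w x * deriv D.b x) ≤ 0 := by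
    rcases lt_or_ge |s| R.t0 with h3 | h3
    · have h4 : R.Z =ᶠ[𝓝 s] id := by
        have h5 : ∀ᶠ u : ℝ in 𝓝 s, |u| < R.t0 :=
          (isOpen_lt continuous_abs continuous_const).mem_nhds h3
        filter_upwards [h5] with u hu
        exact R.Z_id u hu.le
      have h6 : deriv (deriv R.Z) s = 0 := by
        rw [h4.deriv.deriv_eq]
        have h7 : deriv (id : ℝ → ℝ) = fun _ => 1 := by
          funext u
          exact deriv_id u
        rw [h7, deriv_const]
      rw [h6]
      simp
    · have c1 := h.conc1 x s h3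
      have c2 := h.conc2 x s h3
      have c3 := R.Z_conc s
      have hs0 : s ≠ 0 := by
        rintro rfl
        rw [abs_zero] at h3
        exact absurd h3 (not_le.mpr R.t0_pos)
      have hs2 : 0 < s ^ 2 := by positivity
      have c4 : deriv (deriv R.Z) s * (s - D.b x) ≤ 0 := by
        by_contra hcon
        push Not at hcon
        have c5 : s ^ 2 * (deriv (deriv R.Z) s * (s - D.b x)) ≤ 0 := by
          have := mul_nonpos_of_nonpos_of_nonneg c3 c1.le
          calc s ^ 2 * (deriv (deriv R.Z) s * (s - D.b x)) =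
              s * deriv (deriv R.Z) s * (s * (s - D.b x)) := by ring
            _ ≤ 0 := this
        exact absurd c5 (not_le.mpr (mul_pos hs2 hcon))
      have c6 : deriv R.Z s * (deriv (deriv R.Z) s * (s - D.b x)) ≤ 0 :=
        mul_nonpos_of_nonneg_of_nonpos hZ.le c4
      rw [mul_assoc (deriv R.Z s)]
      exact mul_nonpos_of_nonpos_of_nonneg c6 c2.le
  linarith


end Pool.Agent.Helper331.TT
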