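import Pool.Agent.Helper331.TT.Defs
import Pool.Agent.Helper331.TT.B1
import Pool.Agent.Helper331.TT.C1
import Pool.Agent.Helper331.TT.C1s
set_option autoImplicit false
open scoped Manifold ContDiff
open Set Filter Topology

namespace Pool.Agent.Helper331.TT

theorem D2a_diff (D : Data) (R : Prof) : Differentiable ℝ (Bin D R) := by
  have h1 : Differentiable ℝ D.F := D.smooth_F.differentiable (by simp)
  have h2 : Differentiable ℝ dh := smooth_dh.differentiable (by simp)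
  have h3 : Differentiable ℝ R.χ := R.χ_smooth.differentiable (by simp)
  have h4 : Differentiable ℝ R.Z := R.Z_smooth.differentiable (by simp)
  have e1' : Differentiable ℝ (fun p : ℝ × ℝ => R.χ p.2 • D.F p.1) :=
    (h3.comp differentiable_snd).smul (h1.comp differentiable_fst)
  have h2' : Differentiable ℝ (fun p : ℝ × ℝ => dh p.1) := h2.comp differentiable_fst
  have e2' : Differentiable ℝ (fun p : ℝ × ℝ => p.2 • dh p.1) := by fun_prop
  have e3' : Differentiable ℝ (fun p : ℝ × ℝ => R.Z p.2 • e3) :=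
    (h4.comp differentiable_snd).smul_const _
  exact (e1'.add e2').add e3'

theorem D2a_d1 (D : Data) (R : Prof) (x s : ℝ) :
    d1 (Bin D R) (x, s) = R.χ s • deriv D.F x + s • deriv dh x := by
  have h1 : HasDerivAt (fun t : ℝ => ((t, s) : ℝ × ℝ)) ((1, 0) : ℝ × ℝ) x :=
    (hasDerivAt_id x).prodMk (hasDerivAt_const x s)
  have h2 : HasDerivAt (fun t : ℝ => Bin D R (t, s)) (fderiv ℝ (Bin D R) (x, s) (1, 0)) x :=
    HasFDerivAt.comp_hasDerivAt (f := fun t : ℝ => ((t, s) : ℝ × ℝ)) (l := Bin D R) x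
      ((D2a_diff D R (x, s)).hasFDerivAt) h1
  have hF : HasDerivAt D.F (deriv D.F x) x :=
    ((D.smooth_F.differentiable (by simp)) x).hasDerivAt
  have hd : HasDerivAt dh (deriv dh x) x :=
    ((smooth_dh.differentiable (by simp)) x).hasDerivAt
  have h3 : HasDerivAt (fun t : ℝ => Bin D R (t, s))
      (R.χ s • deriv D.F x + s • deriv dh x) x :=
    ((hF.const_smul (R.χ s)).add (hd.const_smul s)).add_const (R.Z s • e3)
  exact h2.unique h3

theorem D2a_d2 (D : Data) (R : Prof) (x s : ℝ) :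
    d2 (Bin D R) (x, s) = deriv R.χ s • D.F x + dh x + deriv R.Z s • e3 := by
  have h1 : HasDerivAt (fun t : ℝ => ((x, t) : ℝ × ℝ)) ((0, 1) : ℝ × ℝ) s :=
    (hasDerivAt_const s x).prodMk (hasDerivAt_id s)
  have h2 : HasDerivAt (fun t : ℝ => Bin D R (x, t)) (fderiv ℝ (Bin D R) (x, s) (0, 1)) s :=
    HasFDerivAt.comp_hasDerivAt (f := fun t : ℝ => ((x, t) : ℝ × ℝ)) (l := Bin D R) s
      ((D2a_diff D R (x, s)).hasFDerivAt) h1
  have hχ : HasDerivAt R.χ (deriv R.χ s) s :=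
    ((R.χ_smooth.differentiable (by simp)) s).hasDerivAt
  have hZ : HasDerivAt R.Z (deriv R.Z s) s :=
    ((R.Z_smooth.differentiable (by simp)) s).hasDerivAt
  have h3 : HasDerivAt (fun t : ℝ => Bin D R (x, t))
      (deriv R.χ s • D.F x + (1 : ℝ) • dh x + deriv R.Z s • e3) s :=
    ((hχ.smul_const (D.F x)).add ((hasDerivAt_id s).smul_const (dh x))).add (hZ.smul_const e3)
  have h4 := h2.unique h3
  rw [one_smul] at h4
  exact h4

theorem D2a_dZ (R : Prof) {s : ℝ} (hs : R.t1 ≤ |s|) : deriv R.Z s = 0 := by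
  have hZ : HasDerivAt R.Z (deriv R.Z s) s :=
    ((R.Z_smooth.differentiable (by simp)) s).hasDerivAt
  rcases le_abs.mp hs with h | h
  · have h1 : HasDerivWithinAt R.Z 0 (Ici R.t1) s := by
      refine (hasDerivWithinAt_const s (Ici R.t1) R.H).congr (fun y hy => ?_) ?_
      · exact R.Z_top y hy
      · exact R.Z_top s h
    exact (uniqueDiffOn_Ici R.t1 s h).eq_deriv _ hZ.hasDerivWithinAt h1
  · have h' : s ≤ -R.t1 := by linarith
    have h1 : HasDerivWithinAt R.Z 0 (Iic (-R.t1)) s := by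
      refine (hasDerivWithinAt_const s (Iic (-R.t1)) (-R.H)).congr (fun y hy => ?_) ?_
      · exact R.Z_bot y hy
      · exact R.Z_bot s h'
    exact (uniqueDiffOn_Iic (-R.t1) s h').eq_deriv _ hZ.hasDerivWithinAt h1

theorem D2a_ddh (x : ℝ) : deriv dh x = fr 0 1 0 x := by
  have h := hasDerivAt_fr (a := fun _ => (1:ℝ)) (b := fun _ => (0:ℝ)) (c := fun _ => (0:ℝ))
    (hasDerivAt_const x (1:ℝ)) (hasDerivAt_const x (0:ℝ)) (hasDerivAt_const x (0:ℝ))
  have h2 : HasDerivAt dh (fr (0 - 0) (1 + 0) 0 x) x := h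
  rw [h2.deriv]
  norm_num

theorem D2a_cs {a0 a1 b0 b1 A B : ℝ} (hA : 0 ≤ A) (hB : 0 ≤ B) (ha : a0 ^ 2 + a1 ^ 2 ≤ A ^ 2)
    (hb : b0 ^ 2 + b1 ^ 2 ≤ B ^ 2) : |a0 * b1 - a1 * b0| ≤ A * B := by
  apply abs_le_of_sq_le_sq _ (mul_nonneg hA hB)
  have h1 : (a0 * b1 - a1 * b0) ^ 2 ≤ (a0 ^ 2 + a1 ^ 2) * (b0 ^ 2 + b1 ^ 2) := by
    nlinarith [sq_nonneg (a0 * b0 + a1 * b1)]
  have h2 : (a0 ^ 2 + a1 ^ 2) * (b0 ^ 2 + b1 ^ 2) ≤ A ^ 2 * B ^ 2 :=
    mul_le_mul ha hb (by positivity) (by positivity)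
  calc _ ≤ _ := h1
    _ ≤ _ := h2
    _ = (A * B) ^ 2 := by ring

theorem D2a_sq {v : E3} {C : ℝ} (hv : ‖v‖ ≤ C) : v 0 ^ 2 + v 1 ^ 2 ≤ C ^ 2 := by
  have h1 := norm_sq_eq_dt v
  have h2 : ‖v‖ ^ 2 ≤ C ^ 2 := pow_le_pow_left₀ (norm_nonneg _) hv 2
  unfold dt at h1
  nlinarith [sq_nonneg (v 2)]

theorem flat_det (D : Data) (R : Prof) {C0 : ℝ} (h : Compat D R C0) (x s : ℝ) (hs : R.t1 ≤ |s|) :
    (d1 (Bin D R) (x, s)) 0 * (d2 (Bin D R) (x, s)) 1 - (d1 (Bin D R) (x, s)) 1 * (d2 (Bin D R) (x, s)) 0 ≠ 0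
    ∧ (d1 (Bin D R) (x, s)) 2 = 0 ∧ (d2 (Bin D R) (x, s)) 2 = 0 := by
  have hC : 0 < C0 := h.C0_pos
  rw [D2a_d1, D2a_d2, D2a_dZ R hs, D2a_ddh]
  have hF := D2a_sq (h.F_le x)
  have hF' := D2a_sq (h.dF_le x)
  have hsl := h.slope s
  have hχ := R.χ_mem s
  have ht := h.t1_large
  have hF2 : (D.F x) 2 = 0 := by
    simp [Data.F, fr]
  have hF'2 : (deriv D.F x) 2 = 0 := by
    rw [Data.deriv_F]; simp [fr]
  have hcs : Real.cos x ^ 2 + Real.sin x ^ 2 ≤ (1:ℝ) ^ 2 := by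
    rw [Real.cos_sq_add_sin_sq]; norm_num
  have hcs' : (-Real.sin x) ^ 2 + Real.cos x ^ 2 ≤ (1:ℝ) ^ 2 := by
    nlinarith [Real.cos_sq_add_sin_sq x]
  set F0 := (D.F x) 0 with hF0
  set F1 := (D.F x) 1 with hF1
  set G0 := (deriv D.F x) 0 with hG0
  set G1 := (deriv D.F x) 1 with hG1
  set c := deriv R.χ s with hc
  set X := R.χ s with hX
  have b1 : |G0 * F1 - G1 * F0| ≤ C0 * C0 := D2a_cs hC.le hC.le hF' hF
  have b2 : |Real.cos x * F1 - Real.sin x * F0| ≤ 1 * C0 := D2a_cs zero_le_one hC.le hcs hF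
  have b3 : |G0 * Real.cos x - G1 * (-Real.sin x)| ≤ C0 * 1 := D2a_cs hC.le zero_le_one hF' hcs'
  have e0 : (X • deriv D.F x + s • fr 0 1 0 x) 0 = X * G0 + s * Real.cos x := by
    simp [fr, hG0]
  have e1' : (X • deriv D.F x + s • fr 0 1 0 x) 1 = X * G1 + s * Real.sin x := by
    simp [fr, hG1]
  have e2' : (X • deriv D.F x + s • fr 0 1 0 x) 2 = 0 := by
    simp [fr, hF'2]
  have f0 : (c • D.F x + dh x + (0:ℝ) • e3) 0 = c * F0 + Real.sin x := by
    simp [dh, fr, hF0]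
  have f1 : (c • D.F x + dh x + (0:ℝ) • e3) 1 = c * F1 - Real.cos x := by
    simp [dh, fr, hF1]; ring
  have f2 : (c • D.F x + dh x + (0:ℝ) • e3) 2 = 0 := by
    simp [dh, fr, hF2]
  refine ⟨?_, e2', f2⟩
  rw [e0, e1', f0, f1]
  have hid : (X * G0 + s * Real.cos x) * (c * F1 - Real.cos x)
      - (X * G1 + s * Real.sin x) * (c * F0 + Real.sin x)
      = X * (c * (G0 * F1 - G1 * F0)) - X * (G0 * Real.cos x - G1 * (-Real.sin x))
        + s * (c * (Real.cos x * F1 - Real.sin x * F0)) - s := by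
    have := Real.cos_sq_add_sin_sq x
    linear_combination (-s) * this
  rw [hid]
  intro h0
  have h1 : s = X * (c * (G0 * F1 - G1 * F0)) - X * (G0 * Real.cos x - G1 * (-Real.sin x))
        + s * (c * (Real.cos x * F1 - Real.sin x * F0)) := by linarith
  have t1 : |X * (c * (G0 * F1 - G1 * F0))| ≤ C0 / 4 := by
    rw [abs_mul, abs_mul, abs_of_nonneg hχ.1]
    have h2 : |c| * |G0 * F1 - G1 * F0| ≤ |c| * (C0 * C0) :=
      mul_le_mul_of_nonneg_left b1 (abs_nonneg _)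
    have h3 : |c| * (C0 * C0) ≤ 1 / 4 * C0 := by
      rw [← mul_assoc]; exact mul_le_mul_of_nonneg_right hsl hC.le
    calc X * (|c| * |G0 * F1 - G1 * F0|) ≤ 1 * (|c| * |G0 * F1 - G1 * F0|) :=
          mul_le_mul_of_nonneg_right hχ.2 (by positivity)
      _ ≤ C0 / 4 := by linarith
  have t2 : |X * (G0 * Real.cos x - G1 * (-Real.sin x))| ≤ C0 := by
    rw [abs_mul, abs_of_nonneg hχ.1]
    calc X * |G0 * Real.cos x - G1 * (-Real.sin x)| ≤ 1 * |G0 * Real.cos x - G1 * (-Real.sin x)| :=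
          mul_le_mul_of_nonneg_right hχ.2 (abs_nonneg _)
      _ ≤ C0 := by linarith
  have t3 : |s * (c * (Real.cos x * F1 - Real.sin x * F0))| ≤ |s| / 4 := by
    rw [abs_mul, abs_mul]
    have h2 : |c| * |Real.cos x * F1 - Real.sin x * F0| ≤ |c| * (1 * C0) :=
      mul_le_mul_of_nonneg_left b2 (abs_nonneg _)
    have h3 : |c| * |Real.cos x * F1 - Real.sin x * F0| ≤ 1 / 4 := by
      rw [one_mul] at h2; linarith
    calc |s| * (|c| * |Real.cos x * F1 - Real.sin x * F0|) ≤ |s| * (1 / 4) :=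
          mul_le_mul_of_nonneg_left h3 (abs_nonneg _)
      _ = |s| / 4 := by ring
  have h2 : |s| ≤ C0 / 4 + C0 + |s| / 4 := by
    calc |s| = |X * (c * (G0 * F1 - G1 * F0)) - X * (G0 * Real.cos x - G1 * (-Real.sin x))
        + s * (c * (Real.cos x * F1 - Real.sin x * F0))| := by rw [← h1]
      _ ≤ |X * (c * (G0 * F1 - G1 * F0)) - X * (G0 * Real.cos x - G1 * (-Real.sin x))|
        + |s * (c * (Real.cos x * F1 - Real.sin x * F0))| := abs_add_le _ _
      _ ≤ (|X * (c * (G0 * F1 - G1 * F0))| + |X * (G0 * Real.cos x - G1 * (-Real.sin x))|)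
        + |s * (c * (Real.cos x * F1 - Real.sin x * F0))| := by
          gcongr
          exact abs_sub _ _
      _ ≤ _ := by linarith
  linarith


end Pool.Agent.Helper331.TT
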