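import Pool.Agent.Helper331.TT.Defs
import Pool.Agent.Helper331.TT.C1s
import Pool.Agent.Helper331.TT.D2a
set_option autoImplicit false
open scoped Manifold ContDiff
open Set Filter Topology

namespace Pool.Agent.Helper331.TT

theorem D2_diff (D : Data) (R : Prof) : Differentiable ℝ (Bin D R) := by
  have h1 : Differentiable ℝ (fun p : ℝ × ℝ => R.χ p.2) :=
    (R.χ_smooth.differentiable (by simp)).comp differentiable_snd
  have h2 : Differentiable ℝ (fun p : ℝ × ℝ => D.F p.1) :=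
    (D.smooth_F.differentiable (by simp)).comp differentiable_fst
  have h3 : Differentiable ℝ (fun p : ℝ × ℝ => dh p.1) :=
    (smooth_dh.differentiable (by simp)).comp differentiable_fst
  have h4 : Differentiable ℝ (fun p : ℝ × ℝ => R.Z p.2) :=
    (R.Z_smooth.differentiable (by simp)).comp differentiable_snd
  have h5 : Differentiable ℝ (fun p : ℝ × ℝ => p.2) := differentiable_snd
  exact ((h1.smul h2).add (h5.smul h3)).add (h4.smul (differentiable_const e3))

theorem D2_fderiv (Φ : ℝ × ℝ → E3) (p : ℝ × ℝ) (v : ℝ × ℝ) :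
    fderiv ℝ Φ p v = v.1 • d1 Φ p + v.2 • d2 Φ p := by
  have h1 : v = v.1 • ((1:ℝ), (0:ℝ)) + v.2 • ((0:ℝ), (1:ℝ)) := by
    ext <;> simp
  conv_lhs => rw [h1]
  rw [map_add, map_smul, map_smul]
  rfl

theorem D2_lin (a b c d u v : ℝ) (hdet : a * d - b * c ≠ 0) (h1 : a * u + b * v = 0)
    (h2 : c * u + d * v = 0) : u = 0 ∧ v = 0 := by
  constructor
  · have h3 : (a * d - b * c) * u = 0 := by linear_combination d * h1 - b * h2
    exact (mul_eq_zero.mp h3).resolve_left hdet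
  · have h3 : (a * d - b * c) * v = 0 := by linear_combination a * h2 - c * h1
    exact (mul_eq_zero.mp h3).resolve_left hdet

theorem D2_ell (ℓ : E3 →L[ℝ] ℝ) (u : E3) (hu : u 2 = 0) :
    ℓ u = u 0 * ℓ e1 + u 1 * ℓ e2 := by
  conv_lhs => rw [eq_vec u]
  unfold vec
  rw [map_add, map_add, map_smul, map_smul, map_smul, hu, zero_smul, add_zero]
  simp only [smul_eq_mul]

theorem flat_part (D : Data) (R : Prof) {C0 : ℝ} (h : Compat D R C0) (x s : ℝ) (hs : R.t1 ≤ |s|) :
    Imm (Bin D R) (x, s) ∧ ∀ ℓ : E3 →L[ℝ] ℝ, IsLocalMax (fun p => ℓ (Bin D R p)) (x, s) →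
      ℓ e1 = 0 ∧ ℓ e2 = 0 := by
  obtain ⟨hdet, hz1, hz2⟩ := flat_det D R h x s hs
  refine ⟨?_, fun ℓ hℓ => ?_⟩
  · show Function.Injective (fderiv ℝ (Bin D R) (x, s))
    refine (injective_iff_map_eq_zero (fderiv ℝ (Bin D R) (x, s))).mpr (fun v hv => ?_)
    rw [D2_fderiv] at hv
    have h0 := congrArg (fun u : E3 => u 0) hv
    have h1 := congrArg (fun u : E3 => u 1) hv
    simp only [PiLp.add_apply, PiLp.smul_apply, PiLp.zero_apply, smul_eq_mul] at h0 h1
    have h2 := D2_lin ((d1 (Bin D R) (x, s)) 0) ((d2 (Bin D R) (x, s)) 0)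
      ((d1 (Bin D R) (x, s)) 1) ((d2 (Bin D R) (x, s)) 1) v.1 v.2
      (by intro h'; apply hdet; linear_combination h')
      (by linear_combination h0) (by linear_combination h1)
    ext
    · exact h2.1
    · exact h2.2
  · have h1 := hℓ.fderiv_eq_zero
    have h2 : fderiv ℝ (fun p => ℓ (Bin D R p)) (x, s)
        = ℓ.comp (fderiv ℝ (Bin D R) (x, s)) := by
      have h3 := (ℓ.hasFDerivAt (x := Bin D R (x, s))).comp (x, s)
        ((D2_diff D R) (x, s)).hasFDerivAt
      exact h3.fderiv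
    rw [h2] at h1
    have h4 : ℓ (d1 (Bin D R) (x, s)) = 0 := by
      have := congrArg (fun L : ℝ × ℝ →L[ℝ] ℝ => L (1, 0)) h1
      exact this
    have h5 : ℓ (d2 (Bin D R) (x, s)) = 0 := by
      have := congrArg (fun L : ℝ × ℝ →L[ℝ] ℝ => L (0, 1)) h1
      exact this
    rw [D2_ell ℓ _ hz1] at h4
    rw [D2_ell ℓ _ hz2] at h5
    exact D2_lin _ _ _ _ _ _ hdet h4 h5


end Pool.Agent.Helper331.TT
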