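import Pool.Agent.Helper331.TT.Defs
import Pool.Agent.Helper331.TT.C1s
set_option autoImplicit false
open scoped Manifold ContDiff
open Set Filter Topology

namespace Pool.Agent.Helper331.TT

theorem D2s_norm_dh (x : ℝ) : ‖dh x‖ = 1 := by
  have h1 : ‖dh x‖ ^ 2 = 1 := by
    rw [norm_sq_eq_dt]
    simp only [dt, dh, fr, vec_0, vec_1, vec_2]
    have := Real.sin_sq_add_cos_sq x
    nlinarith
  have h2 : 0 ≤ ‖dh x‖ := norm_nonneg _
  nlinarith

theorem D2s_chi (D : Data) (R : Prof) {C0 : ℝ} (h : Compat D R C0) (s : ℝ) (hs : |s| ≤ R.τ2) :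
    R.χ s * C0 ≤ (R.τ2 - |s|) / 4 := by
  have hd : ∀ y ∈ (univ : Set ℝ), DifferentiableAt ℝ R.χ y := fun y _ =>
    (R.χ_smooth.differentiable (by simp)).differentiableAt
  have hb : ∀ y ∈ (univ : Set ℝ), ‖deriv R.χ y‖ ≤ 1 / (4 * C0) := by
    intro y _
    rw [Real.norm_eq_abs, le_div_iff₀ (by have := h.C0_pos; linarith)]
    have := h.slope y
    linarith
  have key : ∀ a, R.χ a = 0 → R.χ s ≤ 1 / (4 * C0) * |s - a| := by
    intro a ha
    have h1 := convex_univ.norm_image_sub_le_of_norm_deriv_le hd hb (mem_univ a) (mem_univ s)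
    rw [ha, sub_zero, Real.norm_eq_abs, Real.norm_eq_abs] at h1
    exact (le_abs_self _).trans h1
  have hC := h.C0_pos
  have fin : ∀ t, R.χ s ≤ 1 / (4 * C0) * t → R.χ s * C0 ≤ t / 4 := by
    intro t ht
    calc R.χ s * C0 ≤ (1 / (4 * C0) * t) * C0 := mul_le_mul_of_nonneg_right ht hC.le
      _ = t / 4 := by field_simp
  have hτ : 0 ≤ R.τ2 := (abs_nonneg s).trans hs
  rcases le_total 0 s with h0 | h0
  · rw [abs_of_nonneg h0] at hs ⊢
    have h1 := key R.τ2 (R.χ_zero _ (by rw [abs_of_nonneg hτ]))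
    rw [abs_sub_comm, abs_of_nonneg (by linarith)] at h1
    exact fin _ h1
  · rw [abs_of_nonpos h0] at hs ⊢
    have h1 := key (-R.τ2) (R.χ_zero _ (by rw [abs_neg, abs_of_nonneg hτ]))
    rw [abs_of_nonneg (by linarith)] at h1
    have h2 := fin _ h1
    linarith

theorem flat_size (D : Data) (R : Prof) {C0 : ℝ} (h : Compat D R C0) (x s : ℝ) (hs : |s| ≤ R.τ2) :
    ‖R.χ s • D.F x + s • dh x‖ ≤ R.τ2 := by
  have h1 := D2s_chi D R h s hs
  have h2 : ‖R.χ s • D.F x + s • dh x‖ ≤ R.χ s * C0 + |s| := by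
    refine (norm_add_le _ _).trans ?_
    rw [norm_smul, norm_smul, D2s_norm_dh, mul_one, Real.norm_eq_abs, Real.norm_eq_abs,
      abs_of_nonneg (R.χ_mem s).1]
    have := mul_le_mul_of_nonneg_left (h.F_le x) (R.χ_mem s).1
    linarith
  linarith


end Pool.Agent.Helper331.TT
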