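import Pool.Agent.Helper331.TT.Defs
import Pool.Agent.Helper331.TT.B1
import Pool.Agent.Helper331.TT.C1s
set_option autoImplicit false
open scoped Manifold ContDiff
open Set Filter Topology

namespace Pool.Agent.Helper331.TT

theorem D3a_r_pos (R : Prof) (s : ℝ) (h1 : R.τ2 < s) (h2 : s < R.T - R.τ2) : 0 < R.r s := by
  have ht0 := R.t0_pos
  have ht1 := R.t01
  have ht2 := R.t12
  have ht3 := R.τ2t2
  have ht4 := R.t2t2'
  have hLa := R.La_pos
  rcases le_or_gt s R.t2 with hs | hs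
  · rw [R.r_lo s hs]; linarith
  rcases le_or_gt (R.t2 + R.La) s with hs' | hs'
  · rw [R.r_hi s hs']
    unfold Prof.T at h2
    linarith
  have hdiff : Differentiable ℝ R.r := R.r_smooth.differentiable (by norm_num)
  have hcont : Continuous R.r := R.r_smooth.continuous
  have hmem_s : s ∈ Icc R.t2 (R.t2 + R.La) := ⟨hs.le, hs'.le⟩
  have hmem_l : R.t2 ∈ Icc R.t2 (R.t2 + R.La) := ⟨le_refl _, by linarith⟩
  have hmem_r : R.t2 + R.La ∈ Icc R.t2 (R.t2 + R.La) := ⟨by linarith, le_refl _⟩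
  have hth_l : R.θ R.t2 = 0 := R.θ_lo _ le_rfl
  have hth_r : R.θ (R.t2 + R.La) = Real.pi := R.θ_hi _ le_rfl
  rcases le_or_gt (R.θ s) (Real.pi / 2) with hth | hth
  · have hmono : MonotoneOn R.r (Icc R.t2 s) := by
      refine monotoneOn_of_deriv_nonneg (convex_Icc _ _) hcont.continuousOn
        hdiff.differentiableOn ?_
      intro u hu
      rw [interior_Icc] at hu
      have hmu : u ∈ Icc R.t2 (R.t2 + R.La) := ⟨hu.1.le, by linarith [hu.2]⟩
      have ha : R.θ R.t2 ≤ R.θ u := R.θ_mono.monotoneOn hmem_l hmu hu.1.le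
      have hb : R.θ u ≤ R.θ s := R.θ_mono.monotoneOn hmu hmem_s hu.2.le
      rw [R.dr]
      refine mul_nonneg (R.κ_pos u).le (Real.cos_nonneg_of_mem_Icc ⟨?_, ?_⟩)
      · rw [hth_l] at ha
        linarith [Real.pi_pos]
      · linarith
    have h := hmono ⟨le_refl _, hs.le⟩ ⟨hs.le, le_refl _⟩ hs.le
    rw [R.r_lo _ le_rfl] at h
    linarith
  · have hanti : AntitoneOn R.r (Icc s (R.t2 + R.La)) := by
      refine antitoneOn_of_deriv_nonpos (convex_Icc _ _) hcont.continuousOn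
        hdiff.differentiableOn ?_
      intro u hu
      rw [interior_Icc] at hu
      have hmu : u ∈ Icc R.t2 (R.t2 + R.La) := ⟨by linarith [hu.1], hu.2.le⟩
      have ha : R.θ s ≤ R.θ u := R.θ_mono.monotoneOn hmem_s hmu hu.1.le
      have hb : R.θ u ≤ R.θ (R.t2 + R.La) := R.θ_mono.monotoneOn hmu hmem_r hu.2.le
      rw [R.dr]
      refine mul_nonpos_of_nonneg_of_nonpos (R.κ_pos u).le
        (Real.cos_nonpos_of_pi_div_two_le_of_le ?_ ?_)
      · linarith
      · rw [hth_r] at hb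
        linarith [Real.pi_pos]
    have h := hanti ⟨le_refl _, hs'.le⟩ ⟨hs'.le, le_refl _⟩ hs'.le
    rw [R.r_hi _ le_rfl] at h
    linarith

theorem D3a_Φout_eq (R : Prof) : Φout R = fun p : ℝ × ℝ =>
    (R.r p.2 * Real.sin (p.1 + R.θ p.2)) • e1 + (-(R.r p.2 * Real.cos (p.1 + R.θ p.2))) • e2
      + R.z p.2 • e3 := by
  funext p
  apply ext3 <;> simp [Φout, dh, fr]

theorem D3a_hasFDerivAt (R : Prof) (x s : ℝ) : HasFDerivAt (Φout R)
    (((R.r s) • (Real.cos (x + R.θ s) • (ContinuousLinearMap.fst ℝ ℝ ℝ +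
          deriv R.θ s • ContinuousLinearMap.snd ℝ ℝ ℝ)) + Real.sin (x + R.θ s) •
          (deriv R.r s • ContinuousLinearMap.snd ℝ ℝ ℝ)).smulRight e1
      + (-((R.r s) • (-Real.sin (x + R.θ s) • (ContinuousLinearMap.fst ℝ ℝ ℝ +
          deriv R.θ s • ContinuousLinearMap.snd ℝ ℝ ℝ)) + Real.cos (x + R.θ s) •
          (deriv R.r s • ContinuousLinearMap.snd ℝ ℝ ℝ))).smulRight e2
      + (deriv R.z s • ContinuousLinearMap.snd ℝ ℝ ℝ).smulRight e3) (x, s) := by
  rw [D3a_Φout_eq]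
  have hr0 : HasDerivAt R.r (deriv R.r s) ((x, s) : ℝ × ℝ).2 :=
    (R.r_smooth.differentiable (by norm_num)).differentiableAt.hasDerivAt
  have hz0 : HasDerivAt R.z (deriv R.z s) ((x, s) : ℝ × ℝ).2 :=
    (R.z_smooth.differentiable (by norm_num)).differentiableAt.hasDerivAt
  have ht0 : HasDerivAt R.θ (deriv R.θ s) ((x, s) : ℝ × ℝ).2 :=
    (R.θ_smooth.differentiable (by norm_num)).differentiableAt.hasDerivAt
  have hsnd : HasFDerivAt (fun p : ℝ × ℝ => p.2) (ContinuousLinearMap.snd ℝ ℝ ℝ) (x, s) :=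
    hasFDerivAt_snd
  have hfst : HasFDerivAt (fun p : ℝ × ℝ => p.1) (ContinuousLinearMap.fst ℝ ℝ ℝ) (x, s) :=
    hasFDerivAt_fst
  have hr : HasFDerivAt (fun p : ℝ × ℝ => R.r p.2)
      (deriv R.r s • ContinuousLinearMap.snd ℝ ℝ ℝ) (x, s) :=
    HasDerivAt.comp_hasFDerivAt (x, s) hr0 hsnd
  have hz : HasFDerivAt (fun p : ℝ × ℝ => R.z p.2)
      (deriv R.z s • ContinuousLinearMap.snd ℝ ℝ ℝ) (x, s) :=
    HasDerivAt.comp_hasFDerivAt (x, s) hz0 hsnd
  have ht : HasFDerivAt (fun p : ℝ × ℝ => R.θ p.2)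
      (deriv R.θ s • ContinuousLinearMap.snd ℝ ℝ ℝ) (x, s) :=
    HasDerivAt.comp_hasFDerivAt (x, s) ht0 hsnd
  have hy : HasFDerivAt (fun p : ℝ × ℝ => p.1 + R.θ p.2)
      (ContinuousLinearMap.fst ℝ ℝ ℝ + deriv R.θ s • ContinuousLinearMap.snd ℝ ℝ ℝ) (x, s) :=
    hfst.add ht
  have hsin : HasFDerivAt (fun p : ℝ × ℝ => Real.sin (p.1 + R.θ p.2))
      (Real.cos (x + R.θ s) • (ContinuousLinearMap.fst ℝ ℝ ℝ +
          deriv R.θ s • ContinuousLinearMap.snd ℝ ℝ ℝ)) (x, s) := hy.sin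
  have hcos : HasFDerivAt (fun p : ℝ × ℝ => Real.cos (p.1 + R.θ p.2))
      (-Real.sin (x + R.θ s) • (ContinuousLinearMap.fst ℝ ℝ ℝ +
          deriv R.θ s • ContinuousLinearMap.snd ℝ ℝ ℝ)) (x, s) := hy.cos
  have hA := hr.mul hsin
  have hB := (hr.mul hcos).neg
  exact ((hA.smul_const e1).add (hB.smul_const e2)).add (hz.smul_const e3)

theorem outer_imm (R : Prof) (x s : ℝ) (h1 : R.τ2 < s) (h2 : s < R.T - R.τ2) : Imm (Φout R) (x, s) := by
  have hr := D3a_r_pos R s h1 h2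
  unfold Imm
  rw [(D3a_hasFDerivAt R x s).fderiv]
  rw [injective_iff_map_eq_zero]
  rintro ⟨h, k⟩ hhk
  have c0 := congrArg (fun u : E3 => u 0) hhk
  have c1 := congrArg (fun u : E3 => u 1) hhk
  have c2 := congrArg (fun u : E3 => u 2) hhk
  simp at c0 c1 c2
  have hκ := R.κ_pos s
  have hdr := R.dr s
  have hdz := R.dz s
  have hsc := Real.sin_sq_add_cos_sq (x + R.θ s)
  have hsc2 := Real.sin_sq_add_cos_sq (R.θ s)
  -- radial component
  have k1 : deriv R.r s * k = 0 := by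
    linear_combination Real.sin (x + R.θ s) * c0 - Real.cos (x + R.θ s) * c1
      - deriv R.r s * k * hsc
  -- tangential component
  have k2 : R.r s * (h + deriv R.θ s * k) = 0 := by
    linear_combination Real.cos (x + R.θ s) * c0 + Real.sin (x + R.θ s) * c1
      - R.r s * (h + deriv R.θ s * k) * hsc
  have k3 : deriv R.z s * k = 0 := by
    rcases c2 with h' | h' <;> simp [h']
  have k4 : k = 0 := by
    by_contra hk
    have e1' : deriv R.r s = 0 := (mul_eq_zero.mp k1).resolve_right hk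
    have e2' : deriv R.z s = 0 := (mul_eq_zero.mp k3).resolve_right hk
    rw [hdr] at e1'
    rw [hdz] at e2'
    have f1 : Real.cos (R.θ s) = 0 := (mul_eq_zero.mp e1').resolve_left hκ.ne'
    have f2 : Real.sin (R.θ s) = 0 := (mul_eq_zero.mp (neg_eq_zero.mp e2')).resolve_left hκ.ne'
    rw [f1, f2] at hsc2
    norm_num at hsc2
  have k5 : h + deriv R.θ s * k = 0 := (mul_eq_zero.mp k2).resolve_left hr.ne'
  rw [k4, mul_zero, add_zero] at k5
  rw [k4, k5]
  rfl


end Pool.Agent.Helper331.TT
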