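import Pool.Agent.Helper331.TT.Defs
import Pool.Agent.Helper331.TT.B1
import Pool.Agent.Helper331.TT.C1s
set_option autoImplicit false
open scoped Manifold ContDiff
open Set Filter Topology

namespace Pool.Agent.Helper331.TT

theorem D3b_apply (ℓ : E3 →L[ℝ] ℝ) (u : E3) :
    ℓ u = u 0 * ℓ e1 + u 1 * ℓ e2 + u 2 * ℓ e3 := by
  conv_lhs => rw [eq_vec u]
  unfold vec
  rw [map_add, map_add, map_smul, map_smul, map_smul, smul_eq_mul, smul_eq_mul, smul_eq_mul]

theorem D3b_dh (ℓ : E3 →L[ℝ] ℝ) (y : ℝ) :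
    ℓ (dh y) = ℓ e1 * Real.sin y - ℓ e2 * Real.cos y := by
  rw [D3b_apply]
  unfold dh fr
  rw [vec_0, vec_1, vec_2]
  ring

theorem D3b_out (R : Prof) (ℓ : E3 →L[ℝ] ℝ) (p : ℝ × ℝ) :
    ℓ (Φout R p) = R.r p.2 * (ℓ e1 * Real.sin (p.1 + R.θ p.2) -
      ℓ e2 * Real.cos (p.1 + R.θ p.2)) + R.z p.2 * ℓ e3 := by
  unfold Φout
  rw [map_add, map_smul, map_smul, D3b_dh, smul_eq_mul, smul_eq_mul]

theorem D3b_rpos (R : Prof) (s : ℝ) (h1 : R.τ2 < s) (h2 : s < R.T - R.τ2) : 0 < R.r s := by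
  have hT : R.T = R.t2 + R.La + R.t2' := rfl
  have a0 := R.t0_pos
  have a1 := R.t01
  have a2 := R.t12
  have a3 := R.τ2t2
  have a4 := R.t2t2'
  have a5 := R.La_pos
  rcases le_total s R.t2 with hs | hs
  · rw [R.r_lo s hs]; linarith
  rcases le_total (R.t2 + R.La) s with hs' | hs'
  · rw [R.r_hi s hs']; linarith
  have hdiff : Differentiable ℝ R.r := R.r_smooth.differentiable (by simp)
  have hmono : ∀ y z, R.t2 ≤ y → y ≤ z → z ≤ R.t2 + R.La → R.θ y ≤ R.θ z := by
    intro y z hy hyz hz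
    exact R.θ_mono.monotoneOn ⟨hy, hyz.trans hz⟩ ⟨hy.trans hyz, hz⟩ hyz
  have hlo := R.θ_lo R.t2 le_rfl
  have hhi := R.θ_hi (R.t2 + R.La) le_rfl
  have hpi := Real.pi_pos
  rcases le_total (R.θ s) (Real.pi / 2) with hθ | hθ
  · have hm : MonotoneOn R.r (Icc R.t2 s) := by
      apply monotoneOn_of_deriv_nonneg (convex_Icc _ _) hdiff.continuous.continuousOn
        hdiff.differentiableOn
      intro y hy
      rw [interior_Icc] at hy
      rw [R.dr y]
      apply mul_nonneg (R.κ_pos y).le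
      apply Real.cos_nonneg_of_mem_Icc
      have e1 := hmono R.t2 y le_rfl hy.1.le (hy.2.le.trans hs')
      have e2 := hmono y s hy.1.le hy.2.le hs'
      rw [hlo] at e1
      constructor <;> linarith
    have e := hm (left_mem_Icc.2 hs) (right_mem_Icc.2 hs) hs
    rw [R.r_lo R.t2 le_rfl] at e
    linarith
  · have hm : AntitoneOn R.r (Icc s (R.t2 + R.La)) := by
      apply antitoneOn_of_deriv_nonpos (convex_Icc _ _) hdiff.continuous.continuousOn
        hdiff.differentiableOn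
      intro y hy
      rw [interior_Icc] at hy
      rw [R.dr y]
      apply mul_nonpos_of_nonneg_of_nonpos (R.κ_pos y).le
      have e1 := hmono s y hs hy.1.le hy.2.le
      have e2 := hmono y (R.t2 + R.La) (hs.trans hy.1.le) hy.2.le le_rfl
      rw [hhi] at e2
      apply Real.cos_nonpos_of_pi_div_two_le_of_le <;> linarith
    have e := hm (left_mem_Icc.2 hs') (right_mem_Icc.2 hs') hs'
    rw [R.r_hi (R.t2 + R.La) le_rfl] at e
    linarith

theorem outer_max (R : Prof) (x s : ℝ) (h1 : R.τ2 < s) (h2 : s < R.T - R.τ2) (ℓ : E3 →L[ℝ] ℝ)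
    (hℓ : ℓ ≠ 0) (hm : IsLocalMax (fun p => ℓ (Φout R p)) (x, s)) :
    ∃ μ : ℝ, μ ≠ 0 ∧ (∀ u, ℓ u = μ * dt (nu R (x, s)) u) ∧
      (R.t2 < s → s < R.t2 + R.La → 0 < μ) := by
  have hr := D3b_rpos R s h1 h2
  obtain ⟨A, hA⟩ : ∃ A, A = ℓ e1 := ⟨_, rfl⟩
  obtain ⟨B, hB⟩ : ∃ B, B = ℓ e2 := ⟨_, rfl⟩
  obtain ⟨C, hC⟩ : ∃ C, C = ℓ e3 := ⟨_, rfl⟩
  have hout : ∀ p : ℝ × ℝ, ℓ (Φout R p) = R.r p.2 * (A * Real.sin (p.1 + R.θ p.2) -
      B * Real.cos (p.1 + R.θ p.2)) + R.z p.2 * C := by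
    intro p
    rw [D3b_out, hA, hB, hC]
  have hm' : ∀ᶠ p : ℝ × ℝ in 𝓝 (x, s), ℓ (Φout R p) ≤ ℓ (Φout R (x, s)) := hm
  -- restriction to the first variable
  have m1 : ∀ᶠ x' : ℝ in 𝓝 x, R.r s * (A * Real.sin (x' + R.θ s) - B * Real.cos (x' + R.θ s)) +
      R.z s * C ≤ R.r s * (A * Real.sin (x + R.θ s) - B * Real.cos (x + R.θ s)) + R.z s * C := by
    have hc : Continuous (fun x' : ℝ => (x', s)) := by fun_prop
    have := (hc.tendsto x).eventually hm'
    filter_upwards [this] with x' hx'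
    rw [hout, hout] at hx'
    exact hx'
  have m2 : ∀ᶠ s' : ℝ in 𝓝 s, R.r s' * (A * Real.sin (x + R.θ s') - B * Real.cos (x + R.θ s')) +
      R.z s' * C ≤ R.r s * (A * Real.sin (x + R.θ s) - B * Real.cos (x + R.θ s)) + R.z s * C := by
    have hc : Continuous (fun s' : ℝ => (x, s')) := by fun_prop
    have := (hc.tendsto s).eventually hm'
    filter_upwards [this] with s' hs'
    rw [hout, hout] at hs'
    exact hs'
  obtain ⟨y, hy⟩ : ∃ y, y = x + R.θ s := ⟨_, rfl⟩
  -- the first derivative vanishes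
  have hb : A * Real.cos y + B * Real.sin y = 0 := by
    have hin : HasDerivAt (fun x' : ℝ => x' + R.θ s) 1 x := (hasDerivAt_id x).add_const _
    have hd : HasDerivAt (fun x' : ℝ => R.r s * (A * Real.sin (x' + R.θ s) -
        B * Real.cos (x' + R.θ s)) + R.z s * C)
        (R.r s * (A * (Real.cos (x + R.θ s) * 1) - B * (-Real.sin (x + R.θ s) * 1))) x :=
      (((hin.sin.const_mul A).sub (hin.cos.const_mul B)).const_mul (R.r s)).add_const _
    have hz := IsLocalMax.hasDerivAt_eq_zero (f := fun x' : ℝ => R.r s *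
      (A * Real.sin (x' + R.θ s) - B * Real.cos (x' + R.θ s)) + R.z s * C) m1 hd
    rw [← hy] at hz
    have := (mul_eq_zero.1 hz).resolve_left hr.ne'
    linarith
  have hθd : HasDerivAt R.θ (deriv R.θ s) s :=
    ((R.θ_smooth.differentiable (by simp)) s).hasDerivAt
  have hrd : HasDerivAt R.r (R.κ s * Real.cos (R.θ s)) s := by
    rw [← R.dr s]; exact ((R.r_smooth.differentiable (by simp)) s).hasDerivAt
  have hzd : HasDerivAt R.z (-(R.κ s * Real.sin (R.θ s))) s := by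
    rw [← R.dz s]; exact ((R.z_smooth.differentiable (by simp)) s).hasDerivAt
  have hc : Real.cos (R.θ s) * (A * Real.sin y - B * Real.cos y) = Real.sin (R.θ s) * C := by
    have hin : HasDerivAt (fun s' : ℝ => x + R.θ s') (deriv R.θ s) s := hθd.const_add x
    have hd : HasDerivAt (fun s' : ℝ => R.r s' * (A * Real.sin (x + R.θ s') -
        B * Real.cos (x + R.θ s')) + R.z s' * C)
        ((R.κ s * Real.cos (R.θ s)) * (A * Real.sin (x + R.θ s) - B * Real.cos (x + R.θ s)) +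
          R.r s * (A * (Real.cos (x + R.θ s) * deriv R.θ s) -
            B * (-Real.sin (x + R.θ s) * deriv R.θ s)) +
          (-(R.κ s * Real.sin (R.θ s))) * C) s :=
      (hrd.mul ((hin.sin.const_mul A).sub (hin.cos.const_mul B))).add (hzd.mul_const C)
    have hz := IsLocalMax.hasDerivAt_eq_zero (f := fun s' : ℝ => R.r s' *
      (A * Real.sin (x + R.θ s') - B * Real.cos (x + R.θ s')) + R.z s' * C) m2 hd
    rw [← hy] at hz
    have hk := R.κ_pos s
    have h3 : R.κ s * (Real.cos (R.θ s) * (A * Real.sin y - B * Real.cos y) -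
        Real.sin (R.θ s) * C) = 0 := by
      linear_combination hz - R.r s * deriv R.θ s * hb
    have := (mul_eq_zero.1 h3).resolve_left hk.ne'
    linarith
  obtain ⟨a, ha⟩ : ∃ a, a = A * Real.sin y - B * Real.cos y := ⟨_, rfl⟩
  rw [← ha] at hc
  have hA' : A = a * Real.sin y := by
    have := Real.sin_sq_add_cos_sq y
    rw [ha]; linear_combination (-A) * this + Real.cos y * hb
  have hB' : B = -(a * Real.cos y) := by
    have := Real.sin_sq_add_cos_sq y
    rw [ha]; linear_combination (-B) * this + Real.sin y * hb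
  obtain ⟨μ, hμ⟩ : ∃ μ, μ = Real.sin (R.θ s) * a + Real.cos (R.θ s) * C := ⟨_, rfl⟩
  have hsc := Real.sin_sq_add_cos_sq (R.θ s)
  have haμ : a = μ * Real.sin (R.θ s) := by
    rw [hμ]; linear_combination (-a) * hsc + Real.cos (R.θ s) * hc
  have hCμ : C = μ * Real.cos (R.θ s) := by
    rw [hμ]; linear_combination (-C) * hsc - Real.sin (R.θ s) * hc
  have hform : ∀ u, ℓ u = μ * dt (nu R (x, s)) u := by
    intro u
    rw [D3b_apply, ← hA, ← hB, ← hC]
    have n0 : nu R (x, s) 0 = Real.sin (R.θ s) * Real.sin y := by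
      unfold nu dh fr
      simp [← hy]
    have n1 : nu R (x, s) 1 = -(Real.sin (R.θ s) * Real.cos y) := by
      unfold nu dh fr
      simp [← hy]
    have n2 : nu R (x, s) 2 = Real.cos (R.θ s) := by
      unfold nu dh fr
      simp
    unfold dt
    rw [n0, n1, n2, hA', hB', hCμ, haμ]
    ring
  have hμ0 : μ ≠ 0 := by
    intro h0
    apply hℓ
    ext u
    rw [hform, h0, zero_mul]
    rfl
  refine ⟨μ, hμ0, hform, ?_⟩
  intro hs1 hs2
  by_contra hneg
  have hμneg : μ < 0 := lt_of_le_of_ne (not_lt.1 hneg) hμ0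
  have hpi := Real.pi_pos
  have hLa := R.La_pos
  have hθ0 : 0 < R.θ s := by
    have := R.θ_mono (left_mem_Icc.2 (by linarith)) ⟨hs1.le, hs2.le⟩ hs1
    rwa [R.θ_lo R.t2 le_rfl] at this
  have hθπ : R.θ s < Real.pi := by
    have := R.θ_mono ⟨hs1.le, hs2.le⟩ (right_mem_Icc.2 (by linarith)) hs2
    rwa [R.θ_hi (R.t2 + R.La) le_rfl] at this
  have hsin := Real.sin_pos_of_pos_of_lt_pi hθ0 hθπ
  have haneg : a < 0 := by rw [haμ]; exact mul_neg_of_neg_of_pos hμneg hsin
  -- points close to `x`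
  have m3 : ∀ᶠ x' : ℝ in 𝓝[>] x, x < x' := self_mem_nhdsWithin
  have m4 : ∀ᶠ x' : ℝ in 𝓝 x, x' < x + Real.pi := gt_mem_nhds (by linarith)
  have m5 : ∀ᶠ x' : ℝ in 𝓝[>] x, x' < x + Real.pi := m4.filter_mono nhdsWithin_le_nhds
  have m6 := m1.filter_mono (nhdsWithin_le_nhds (s := Ioi x))
  obtain ⟨x', e1, e2, e3'⟩ := (m6.and (m3.and m5)).exists
  have hcos : Real.cos (x' - x) < 1 := by
    rw [← Real.cos_zero]
    exact Real.strictAntiOn_cos ⟨le_rfl, hpi.le⟩ ⟨by linarith, by linarith⟩ (by linarith)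
  have f1 : A * Real.sin (x' + R.θ s) - B * Real.cos (x' + R.θ s) = a * Real.cos (x' - x) := by
    have : x' - x = (x' + R.θ s) - y := by rw [hy]; ring
    rw [this, Real.cos_sub, hA', hB']; ring
  rw [f1, ← hy, ← ha] at e1
  have f2 : R.r s * (a * Real.cos (x' - x)) ≤ R.r s * a := by linarith
  have f3 := le_of_mul_le_mul_left f2 hr
  nlinarith


end Pool.Agent.Helper331.TT
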