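import Pool.Agent.Helper331.TT.Defs
set_option autoImplicit false
open scoped Manifold ContDiff
open Set Filter Topology

namespace Pool.Agent.Helper331.TT

theorem D3c_nu0 (R : Prof) (x s : ℝ) :
    nu R (x, s) 0 = Real.sin (R.θ s) * Real.sin (x + R.θ s) := by
  simp [nu, dh, fr]

theorem D3c_nu1 (R : Prof) (x s : ℝ) :
    nu R (x, s) 1 = -(Real.sin (R.θ s) * Real.cos (x + R.θ s)) := by
  simp [nu, dh, fr]

theorem D3c_nu2 (R : Prof) (x s : ℝ) :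
    nu R (x, s) 2 = Real.cos (R.θ s) := by
  simp [nu, dh, fr]

theorem D3c_th (R : Prof) (s : ℝ) (h1 : R.t2 < s) (h2 : s < R.t2 + R.La) :
    0 < R.θ s ∧ R.θ s < Real.pi := by
  have hLa := R.La_pos
  have e1 : R.θ R.t2 = 0 := R.θ_lo _ le_rfl
  have e2 : R.θ (R.t2 + R.La) = Real.pi := R.θ_hi _ le_rfl
  constructor
  · rw [← e1]
    exact R.θ_mono ⟨le_rfl, by linarith⟩ ⟨h1.le, h2.le⟩ h1
  · rw [← e2]
    exact R.θ_mono ⟨h1.le, h2.le⟩ ⟨by linarith, le_rfl⟩ h2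

theorem nu_inj (R : Prof) (x s x' s' μ μ' : ℝ) (h1 : R.t2 < s) (h2 : s < R.t2 + R.La)
    (h1' : R.t2 < s') (h2' : s' < R.t2 + R.La) (hμ : 0 < μ) (hμ' : 0 < μ')
    (h : ∀ u, μ * dt (nu R (x, s)) u = μ' * dt (nu R (x', s')) u) :
    s = s' ∧ ∃ n : ℤ, x' = x + n * (2 * Real.pi) := by
  have hth := D3c_th R s h1 h2
  have hth' := D3c_th R s' h1' h2'
  have g0 := h e1
  have g1 := h e2
  have g2 := h e3
  simp only [dt, D3c_nu0, D3c_nu1, D3c_nu2, e1_0, e1_1, e1_2, e2_0, e2_1, e2_2, e3_0, e3_1, e3_2,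
    mul_zero, mul_one, add_zero, zero_add] at g0 g1 g2
  have q1 := Real.sin_sq_add_cos_sq (x + R.θ s)
  have q2 := Real.sin_sq_add_cos_sq (x' + R.θ s')
  have q3 := Real.sin_sq_add_cos_sq (R.θ s)
  have q4 := Real.sin_sq_add_cos_sq (R.θ s')
  have hsin := Real.sin_pos_of_pos_of_lt_pi hth.1 hth.2
  have hmu : μ = μ' := by
    have h3 : μ ^ 2 = μ' ^ 2 := by
      have h4 : μ ^ 2 = (μ * (Real.sin (R.θ s) * Real.sin (x + R.θ s))) ^ 2 +
          (μ * -(Real.sin (R.θ s) * Real.cos (x + R.θ s))) ^ 2 + (μ * Real.cos (R.θ s)) ^ 2 := by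
        have : (μ * (Real.sin (R.θ s) * Real.sin (x + R.θ s))) ^ 2 +
          (μ * -(Real.sin (R.θ s) * Real.cos (x + R.θ s))) ^ 2 + (μ * Real.cos (R.θ s)) ^ 2 =
          μ ^ 2 * (Real.sin (R.θ s) ^ 2 *
            (Real.sin (x + R.θ s) ^ 2 + Real.cos (x + R.θ s) ^ 2) + Real.cos (R.θ s) ^ 2) := by
          ring
        rw [this, q1, mul_one, q3, mul_one]
      have h5 : μ' ^ 2 = (μ' * (Real.sin (R.θ s') * Real.sin (x' + R.θ s'))) ^ 2 +
          (μ' * -(Real.sin (R.θ s') * Real.cos (x' + R.θ s'))) ^ 2 +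
          (μ' * Real.cos (R.θ s')) ^ 2 := by
        have : (μ' * (Real.sin (R.θ s') * Real.sin (x' + R.θ s'))) ^ 2 +
          (μ' * -(Real.sin (R.θ s') * Real.cos (x' + R.θ s'))) ^ 2 +
          (μ' * Real.cos (R.θ s')) ^ 2 =
          μ' ^ 2 * (Real.sin (R.θ s') ^ 2 *
            (Real.sin (x' + R.θ s') ^ 2 + Real.cos (x' + R.θ s') ^ 2) +
              Real.cos (R.θ s') ^ 2) := by
          ring
        rw [this, q2, mul_one, q4, mul_one]
      rw [h4, h5, g0, g1, g2]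
    nlinarith
  subst hmu
  have g2' := mul_left_cancel₀ hμ.ne' g2
  have hθ : R.θ s = R.θ s' :=
    Real.injOn_cos ⟨hth.1.le, hth.2.le⟩ ⟨hth'.1.le, hth'.2.le⟩ g2'
  have hs : s = s' := R.θ_mono.injOn ⟨h1.le, h2.le⟩ ⟨h1'.le, h2'.le⟩ hθ
  refine ⟨hs, ?_⟩
  subst hs
  have g0' := mul_left_cancel₀ hsin.ne' (mul_left_cancel₀ hμ.ne' g0)
  have g1' := mul_left_cancel₀ hsin.ne' (neg_injective (mul_left_cancel₀ hμ.ne' g1))
  have hc : Real.cos (x' - x) = 1 := by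
    have : x' - x = (x' + R.θ s) - (x + R.θ s) := by ring
    rw [this, Real.cos_sub, g0', g1']
    nlinarith
  rw [Real.cos_eq_one_iff] at hc
  obtain ⟨n, hn⟩ := hc
  exact ⟨n, by linarith⟩


end Pool.Agent.Helper331.TT
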