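import Mathlib
set_option autoImplicit false
open scoped Manifold ContDiff
open Set Filter Topology

namespace Pool.Agent.Helper331.TT

/-- Euclidean 3-space -/
abbrev E3 := EuclideanSpace ℝ (Fin 3)

noncomputable def e1 : E3 := EuclideanSpace.single (0 : Fin 3) (1 : ℝ)
noncomputable def e2 : E3 := EuclideanSpace.single (1 : Fin 3) (1 : ℝ)
noncomputable def e3 : E3 := EuclideanSpace.single (2 : Fin 3) (1 : ℝ)

/-- vector from coordinates -/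
noncomputable def vec (a b c : ℝ) : E3 := a • e1 + b • e2 + c • e3

/-- determinant of three vectors -/
def det3 (u v w : E3) : ℝ :=
  u 0 * (v 1 * w 2 - v 2 * w 1) - u 1 * (v 0 * w 2 - v 2 * w 0) + u 2 * (v 0 * w 1 - v 1 * w 0)

/-- dot product in coordinates -/
def dt (u v : E3) : ℝ := u 0 * v 0 + u 1 * v 1 + u 2 * v 2

/-- cross product -/
noncomputable def crs (u v : E3) : E3 :=
  vec (u 1 * v 2 - u 2 * v 1) (u 2 * v 0 - u 0 * v 2) (u 0 * v 1 - u 1 * v 0)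

/-- partial derivatives of a map of the plane into space -/
noncomputable def d1 (Φ : ℝ × ℝ → E3) (p : ℝ × ℝ) : E3 := fderiv ℝ Φ p (1, 0)
noncomputable def d2 (Φ : ℝ × ℝ → E3) (p : ℝ × ℝ) : E3 := fderiv ℝ Φ p (0, 1)

/-- `L N - M ^ 2` (up to the positive factor `|Φ_x × Φ_s| ^ 2`), negative exactly at hyperbolic points -/
noncomputable def Kdet (Φ : ℝ × ℝ → E3) (p : ℝ × ℝ) : ℝ :=
  det3 (d1 Φ p) (d2 Φ p) (d1 (d1 Φ) p) * det3 (d1 Φ p) (d2 Φ p) (d2 (d2 Φ) p)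
    - det3 (d1 Φ p) (d2 Φ p) (d2 (d1 Φ) p) ^ 2

/-- no nonzero linear functional has a local maximum at `p` -/
def NoMax (Φ : ℝ × ℝ → E3) (p : ℝ × ℝ) : Prop :=
  ∀ ℓ : E3 →L[ℝ] ℝ, ℓ ≠ 0 → ¬ IsLocalMax (fun q => ℓ (Φ q)) p

/-- immersed at `p` -/
def Imm (Φ : ℝ × ℝ → E3) (p : ℝ × ℝ) : Prop := Function.Injective (fderiv ℝ Φ p)

/-- rotating frame: `a e_r + b e_θ + c e_z`, `e_r = (sin x, -cos x, 0)`, `e_θ = (cos x, sin x, 0)` -/
noncomputable def fr (a b c x : ℝ) : E3 :=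
  vec (a * Real.sin x + b * Real.cos x) (-(a * Real.cos x) + b * Real.sin x) c

/-- the one-variable data of the construction -/
structure Data where
  om : ℝ → ℝ
  q : ℝ → ℝ
  f : ℝ → ℝ
  ze : ℝ → ℝ
  Fr : ℝ → ℝ
  Ft : ℝ → ℝ
  Xr : ℝ → ℝ
  Xt : ℝ → ℝ
  Xz : ℝ → ℝ
  om_smooth : ContDiff ℝ ∞ om
  q_smooth : ContDiff ℝ ∞ q
  f_smooth : ContDiff ℝ ∞ f
  ze_smooth : ContDiff ℝ ∞ ze
  Fr_smooth : ContDiff ℝ ∞ Fr
  Ft_smooth : ContDiff ℝ ∞ Ft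
  Xr_smooth : ContDiff ℝ ∞ Xr
  Xt_smooth : ContDiff ℝ ∞ Xt
  Xz_smooth : ContDiff ℝ ∞ Xz
  om_per : Function.Periodic om (2 * Real.pi)
  q_per : Function.Periodic q (2 * Real.pi)
  f_per : Function.Periodic f (2 * Real.pi)
  ze_per : Function.Periodic ze (2 * Real.pi)
  Fr_per : Function.Periodic Fr (2 * Real.pi)
  Ft_per : Function.Periodic Ft (2 * Real.pi)
  Xr_per : Function.Periodic Xr (2 * Real.pi)
  Xt_per : Function.Periodic Xt (2 * Real.pi)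
  Xz_per : Function.Periodic Xz (2 * Real.pi)
  dze : ∀ x, deriv ze x = om x ^ 2 * (1 + (deriv q x + q x ^ 2))
  dFr : ∀ x, deriv Fr x = Ft x - om x ^ 2
  dFt : ∀ x, deriv Ft x = -Fr x - (om x ^ 2 * q x + ze x)
  dXr : ∀ x, deriv Xr x = Xt x - deriv f x * om x * q x
  dXt : ∀ x, deriv Xt x = -Xr x + deriv f x * om x
  dXz : ∀ x, deriv Xz x = deriv f x * om x * q x
  om_pos : ∀ x, 0 < om x
  D_pos : ∀ x, 0 < Xr x * (deriv q x + q x ^ 2) - q x * Xt x + Xz x * (1 + (deriv q x + q x ^ 2))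

namespace Data
variable (D : Data)
noncomputable def w (x : ℝ) : ℝ := D.om x ^ 2
noncomputable def Q (x : ℝ) : ℝ := deriv D.q x + D.q x ^ 2
noncomputable def b (x : ℝ) : ℝ := D.w x * D.q x + D.ze x
noncomputable def Dv (x : ℝ) : ℝ := D.Xr x * D.Q x - D.q x * D.Xt x + D.Xz x * (1 + D.Q x)
noncomputable def A (x : ℝ) : ℝ := D.om x * D.Dv x
noncomputable def P (x : ℝ) : E3 := fr (-(D.om x * D.q x)) (D.om x) (D.om x * D.q x) x
noncomputable def X (x : ℝ) : E3 := fr (D.Xr x) (D.Xt x) (D.Xz x) x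
noncomputable def F (x : ℝ) : E3 := fr (D.Fr x) (D.Ft x) 0 x
noncomputable def c (x : ℝ) : E3 := fr (D.Fr x + D.ze x) (D.Ft x) (D.ze x) x
noncomputable def k (x : ℝ) : ℝ := -(D.Xr x + D.Xz x) / D.Dv x
noncomputable def E (x : ℝ) : E3 := fr (D.k x * D.Q x) (-(D.k x * D.q x)) (D.k x * (1 + D.Q x)) x
end Data

/-- horizontal unit vector -/
noncomputable def dh (x : ℝ) : E3 := fr 1 0 0 x
/-- ruling direction -/
noncomputable def dl (x : ℝ) : E3 := fr 1 0 1 x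

/-- smooth cutoff of the identity: `gam t = t` for `|t| ≤ 1`, `gam t = 0` for `|t| ≥ 2` -/
noncomputable def gam (t : ℝ) : ℝ := t * (1 - Real.smoothTransition ((t ^ 2 - 1) / 3))

/-- smooth bump, zero outside `(0,1)` -/
noncomputable def bmp (t : ℝ) : ℝ := expNegInvGlue t * expNegInvGlue (1 - t)

/-- base surface in the thin zone, coordinates `(x, λ)` -/
noncomputable def Bth (D : Data) (ε : ℝ) (p : ℝ × ℝ) : E3 :=
  D.c p.1 + p.2 • dl p.1 + (ε * gam (p.2 / ε)) • D.E p.1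

noncomputable def uu (D : Data) (p : ℝ × ℝ) : ℝ := p.2 / (2 * D.A p.1)
noncomputable def rho (D : Data) (p : ℝ × ℝ) : ℝ := 1 - D.f p.1 * uu D p
noncomputable def eta (D : Data) (ε : ℝ) (p : ℝ × ℝ) : ℝ :=
  uu D p / (1 - D.f p.1 * (ε * gam (p.2 / ε)) / (2 * D.A p.1))

/-- the infinitesimal bending in the thin zone -/
noncomputable def vth (D : Data) (ε e0 : ℝ) (p : ℝ × ℝ) : E3 :=
  (-(deriv bmp (eta D ε p / e0) / e0) + 2 * D.f p.1 * rho D p * bmp (eta D ε p / e0)) • D.P p.1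
  + (2 * uu D p * (deriv bmp (eta D ε p / e0) / e0) - 4 * rho D p * bmp (eta D ε p / e0)) • D.X p.1

/-- the linear map `L (x,y,z) = (x+z, 2y+z, z)` -/
noncomputable def Lm : E3 →L[ℝ] E3 :=
  ((EuclideanSpace.proj (0 : Fin 3) + EuclideanSpace.proj (2 : Fin 3) : E3 →L[ℝ] ℝ).smulRight e1)
  + (((2 : ℝ) • EuclideanSpace.proj (1 : Fin 3) + EuclideanSpace.proj (2 : Fin 3) : E3 →L[ℝ] ℝ).smulRight e2)
  + ((EuclideanSpace.proj (2 : Fin 3) : E3 →L[ℝ] ℝ).smulRight e3)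

/-- `(Lᵀ L)⁻¹` -/
noncomputable def Sm : E3 →L[ℝ] E3 :=
  (((2 : ℝ) • EuclideanSpace.proj (0 : Fin 3) + (1/2 : ℝ) • EuclideanSpace.proj (1 : Fin 3) - EuclideanSpace.proj (2 : Fin 3) : E3 →L[ℝ] ℝ).smulRight e1)
  + (((1/2 : ℝ) • EuclideanSpace.proj (0 : Fin 3) + (1/2 : ℝ) • EuclideanSpace.proj (1 : Fin 3) - (1/2 : ℝ) • EuclideanSpace.proj (2 : Fin 3) : E3 →L[ℝ] ℝ).smulRight e2)
  + ((-EuclideanSpace.proj (0 : Fin 3) - (1/2 : ℝ) • EuclideanSpace.proj (1 : Fin 3) + EuclideanSpace.proj (2 : Fin 3) : E3 →L[ℝ] ℝ).smulRight e3)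

/-- parameters and profile functions of the global construction -/
structure Prof where
  -- inner profile
  t0 : ℝ
  t1 : ℝ
  H : ℝ
  Z : ℝ → ℝ
  t0_pos : 0 < t0
  t01 : t0 < t1
  H_pos : 0 < H
  Z_smooth : ContDiff ℝ ∞ Z
  Z_id : ∀ s, |s| ≤ t0 → Z s = s
  Z_top : ∀ s, t1 ≤ s → Z s = H
  Z_bot : ∀ s, s ≤ -t1 → Z s = -H
  Z_pos : ∀ s, |s| < t1 → 0 < deriv Z s
  Z_conc : ∀ s, s * deriv (deriv Z) s ≤ 0
  -- cutoff
  τ2 : ℝ
  t12 : t1 < τ2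
  χ : ℝ → ℝ
  χ_smooth : ContDiff ℝ ∞ χ
  χ_one : ∀ s, |s| ≤ t1 → χ s = 1
  χ_zero : ∀ s, τ2 ≤ |s| → χ s = 0
  χ_mem : ∀ s, 0 ≤ χ s ∧ χ s ≤ 1
  -- outer profile
  t2 : ℝ
  t2' : ℝ
  La : ℝ
  r : ℝ → ℝ
  z : ℝ → ℝ
  θ : ℝ → ℝ
  κ : ℝ → ℝ
  τ2t2 : τ2 < t2
  t2t2' : t2 < t2'
  La_pos : 0 < La
  r_smooth : ContDiff ℝ ∞ r
  z_smooth : ContDiff ℝ ∞ z
  θ_smooth : ContDiff ℝ ∞ θ
  κ_pos : ∀ s, 0 < κ s
  dr : ∀ s, deriv r s = κ s * Real.cos (θ s)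
  dz : ∀ s, deriv z s = -(κ s * Real.sin (θ s))
  θ_lo : ∀ s, s ≤ t2 → θ s = 0
  θ_hi : ∀ s, t2 + La ≤ s → θ s = Real.pi
  θ_mono : StrictMonoOn θ (Icc t2 (t2 + La))
  r_lo : ∀ s, s ≤ t2 → r s = s
  z_lo : ∀ s, s ≤ t2 → z s = H
  r_hi : ∀ s, t2 + La ≤ s → r s = t2 + La + t2' - s
  z_hi : ∀ s, t2 + La ≤ s → z s = -H

/-- total length of the second parameter -/
noncomputable def Prof.T (R : Prof) : ℝ := R.t2 + R.La + R.t2'

/-- inner base surface, coordinates `(x,s)` -/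
noncomputable def Bin (D : Data) (R : Prof) (p : ℝ × ℝ) : E3 :=
  R.χ p.2 • D.F p.1 + p.2 • dh p.1 + R.Z p.2 • e3

/-- inner patch -/
noncomputable def Φin (D : Data) (R : Prof) (ε e0 τ : ℝ) (p : ℝ × ℝ) : E3 :=
  Bin D R p + (ε * gam ((p.2 - D.ze p.1) / ε)) • D.E p.1
    + τ • Sm (vth D ε e0 (p.1, p.2 - D.ze p.1))

/-- outer patch -/
noncomputable def Φout (R : Prof) (p : ℝ × ℝ) : E3 :=
  R.r p.2 • dh (p.1 + R.θ p.2) + R.z p.2 • e3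

/-- the covering map of the torus -/
noncomputable def cov (T : ℝ) (p : ℝ × ℝ) : Circle × Circle :=
  (Circle.exp p.1, Circle.exp (2 * Real.pi / T * p.2))

/-! ### basic coordinate lemmas -/
@[simp] theorem e1_0 : e1 0 = 1 := by simp [e1]
@[simp] theorem e1_1 : e1 1 = 0 := by simp [e1]
@[simp] theorem e1_2 : e1 2 = 0 := by simp [e1]
@[simp] theorem e2_0 : e2 0 = 0 := by simp [e2]
@[simp] theorem e2_1 : e2 1 = 1 := by simp [e2]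
@[simp] theorem e2_2 : e2 2 = 0 := by simp [e2]
@[simp] theorem e3_0 : e3 0 = 0 := by simp [e3]
@[simp] theorem e3_1 : e3 1 = 0 := by simp [e3]
@[simp] theorem e3_2 : e3 2 = 1 := by simp [e3]
@[simp] theorem vec_0 (a b c : ℝ) : vec a b c 0 = a := by simp [vec]
@[simp] theorem vec_1 (a b c : ℝ) : vec a b c 1 = b := by simp [vec]
@[simp] theorem vec_2 (a b c : ℝ) : vec a b c 2 = c := by simp [vec]
theorem ext3 {u v : E3} (h0 : u 0 = v 0) (h1 : u 1 = v 1) (h2 : u 2 = v 2) : u = v := by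
  ext i; fin_cases i <;> assumption
theorem eq_vec (u : E3) : u = vec (u 0) (u 1) (u 2) := by apply ext3 <;> simp
@[simp] theorem Lm_0 (u : E3) : Lm u 0 = u 0 + u 2 := by simp [Lm]
@[simp] theorem Lm_1 (u : E3) : Lm u 1 = 2 * u 1 + u 2 := by simp [Lm]
@[simp] theorem Lm_2 (u : E3) : Lm u 2 = u 2 := by simp [Lm]
@[simp] theorem Sm_0 (u : E3) : Sm u 0 = 2 * u 0 + 1/2 * u 1 - u 2 := by simp [Sm]
@[simp] theorem Sm_1 (u : E3) : Sm u 1 = 1/2 * u 0 + 1/2 * u 1 - 1/2 * u 2 := by simp [Sm]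
@[simp] theorem Sm_2 (u : E3) : Sm u 2 = -u 0 - 1/2 * u 1 + u 2 := by simp [Sm]
theorem inner_eq_dt (u v : E3) : inner ℝ u v = dt u v := by
  simp [dt, PiLp.inner_apply, Fin.sum_univ_three]; ring
theorem norm_sq_eq_dt (u : E3) : ‖u‖ ^ 2 = dt u u := by
  rw [← inner_eq_dt, real_inner_self_eq_norm_sq]
theorem dt_Lm_Sm (u v : E3) : dt (Lm u) (Lm (Sm v)) = dt u v := by
  simp only [dt, Lm_0, Lm_1, Lm_2, Sm_0, Sm_1, Sm_2]; ring
/-- compatibility of the profile with the data -/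
structure Compat (D : Data) (R : Prof) (C0 : ℝ) : Prop where
  C0_pos : 0 < C0
  F_le : ∀ x, ‖D.F x‖ ≤ C0
  dF_le : ∀ x, ‖deriv D.F x‖ ≤ C0
  slope : ∀ s, |deriv R.χ s| * C0 ≤ 1 / 4
  t1_large : 2 * C0 < R.t1
  conc1 : ∀ x s, R.t0 ≤ |s| → 0 < s * (s - D.b x)
  conc2 : ∀ x s, R.t0 ≤ |s| →
    0 < (s - D.b x) ^ 2 + D.w x ^ 2 + (s - D.b x) * deriv D.w x + D.w x * deriv D.b x
  ze_le : ∀ x, |D.ze x| + 1 ≤ R.t0

/-- the thin-zone surface `Bth + τ' Sm vth` -/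
noncomputable def Mth (D : Data) (ε e0 τ : ℝ) (p : ℝ × ℝ) : E3 :=
  Bth D ε p + τ • Sm (vth D ε e0 p)

/-- all smallness conditions on the parameters -/
structure Good (D : Data) (R : Prof) (C0 ε e0 τ : ℝ) : Prop extends Compat D R C0 where
  ε_pos : 0 < ε
  ε_lt : 3 * ε < 1 / 2
  ε_A : ∀ x, |D.f x| * ε ≤ D.A x / 2
  e0_pos : 0 < e0
  e0_A : ∀ x, 3 * D.A x * e0 < ε
  τ_pos : 0 < τ
  K_neg : ∀ τ', |τ'| ≤ τ → ∀ x l, |l| ≤ 3 * ε → Kdet (Mth D ε e0 τ') (x, l) < 0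
  z_lt : ∀ τ', |τ'| ≤ τ → ∀ x l, |l| ≤ 3 * ε → |Mth D ε e0 τ' (x, l) 2| < R.H

/-- outer unit normal -/
noncomputable def nu (R : Prof) (p : ℝ × ℝ) : E3 :=
  Real.sin (R.θ p.2) • dh (p.1 + R.θ p.2) + Real.cos (R.θ p.2) • e3

/-- the flat top and bottom annuli as subsets of the torus -/
def KTop (R : Prof) : Set (Circle × Circle) := {p | ∃ x s, R.t1 ≤ s ∧ s ≤ R.t2 ∧ p = cov R.T (x, s)}
def KBot (R : Prof) : Set (Circle × Circle) :=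
  {p | ∃ x s, R.t2 + R.La ≤ s ∧ s ≤ R.T - R.t1 ∧ p = cov R.T (x, s)}

/-- a torus map assembled from the inner and the outer patch -/
structure TMap (D : Data) (R : Prof) (ε e0 τ' : ℝ) (M : Circle × Circle → E3) : Prop where
  smooth : ContMDiff ((𝓡 1).prod (𝓡 1)) 𝓘(ℝ, E3) ((⊤ : ℕ∞) : WithTop ℕ∞) M
  hin : ∀ x s, |s| < R.t2 → M (cov R.T (x, s)) = Φin D R ε e0 τ' (x, s)
  hout : ∀ x s, R.τ2 < s → s < R.T - R.τ2 → M (cov R.T (x, s)) = Φout R (x, s)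


end Pool.Agent.Helper331.TT
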