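import Pool.Agent.Helper331.TT.Defs
set_option autoImplicit false
open scoped Manifold ContDiff
open Set Filter Topology

namespace Pool.Agent.Helper331.TT

theorem E1_cov_eq {T : ℝ} (hT : 0 < T) {p p' : ℝ × ℝ} (h : cov T p = cov T p') :
    (∃ n : ℤ, p.1 = p'.1 + n * (2 * Real.pi)) ∧ ∃ m : ℤ, p.2 = p'.2 + m * T := by
  unfold cov at h
  rw [Prod.mk.injEq] at h
  obtain ⟨h1, h2⟩ := h
  constructor
  · exact Circle.exp_eq_exp.1 h1
  · obtain ⟨m, hm⟩ := Circle.exp_eq_exp.1 h2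
    refine ⟨m, ?_⟩
    have hpi := Real.pi_pos
    field_simp at hm
    rw [hm]
    ring

theorem E1_per {Φ : ℝ × ℝ → E3} (p1 : ∀ x s, Φ (x + 2 * Real.pi, s) = Φ (x, s)) (x s : ℝ) (n : ℤ) :
    Φ (x + n * (2 * Real.pi), s) = Φ (x, s) := by
  have h1 : Function.Periodic (fun x => Φ (x, s)) (2 * Real.pi) := fun x => p1 x s
  exact (h1.int_mul n) x

theorem E1_cov_add {T : ℝ} (hT : 0 < T) (x s : ℝ) : cov T (x, s + T) = cov T (x, s) := by
  unfold cov
  have h1 : Circle.exp (2 * Real.pi / T * (s + T)) = Circle.exp (2 * Real.pi / T * s) := by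
    rw [Circle.exp_eq_exp]
    refine ⟨1, ?_⟩
    push_cast
    field_simp
  exact Prod.ext rfl h1

local instance E1_fact : Fact (Module.finrank ℝ ℂ = 1 + 1) := Complex.finrank_real_complex_fact

theorem E1_sec (x0 : ℝ) (z0 : Circle) (h0 : Circle.exp x0 = z0) :
    ∃ σ : Circle → ℝ, (∀ z, Circle.exp (σ z) = z) ∧ σ z0 = x0 ∧
      ContMDiffAt (𝓡 1) 𝓘(ℝ, ℝ) ((⊤ : ℕ∞) : WithTop ℕ∞) σ z0 := by
  refine ⟨fun z => x0 + Complex.arg ((z * z0⁻¹ : Circle) : ℂ), ?_, ?_, ?_⟩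
  · intro z
    rw [Circle.exp_add, h0, Circle.exp_arg]
    rw [mul_comm, inv_mul_cancel_right]
  · simp
  · have hc : ContMDiff (𝓡 1) 𝓘(ℝ, ℂ) ((⊤ : ℕ∞) : WithTop ℕ∞) (fun z : Circle => (z : ℂ)) :=
      contMDiff_coe_sphere (E := ℂ) (n := 1)
    have hg : ContDiffAt ℝ ((⊤ : ℕ∞) : WithTop ℕ∞)
        (fun w : ℂ => x0 + (Complex.log (w * ((z0⁻¹ : Circle) : ℂ))).im) (z0 : ℂ) := by
      have h1 : ContDiffAt ℝ ((⊤ : ℕ∞) : WithTop ℕ∞)
          (fun w : ℂ => w * ((z0⁻¹ : Circle) : ℂ)) (z0 : ℂ) :=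
        contDiffAt_id.mul contDiffAt_const
      have hone : (z0 : ℂ) * ((z0⁻¹ : Circle) : ℂ) = 1 := by
        rw [← Circle.coe_mul, mul_inv_cancel, Circle.coe_one]
      have h2 : ContDiffAt ℝ ((⊤ : ℕ∞) : WithTop ℕ∞) Complex.log
          ((z0 : ℂ) * ((z0⁻¹ : Circle) : ℂ)) := by
        rw [hone]
        exact (Complex.contDiffAt_log (by simp)).restrict_scalars ℝ
      have h3' : ContDiffAt ℝ ((⊤ : ℕ∞) : WithTop ℕ∞)
          (Complex.log ∘ (fun w : ℂ => w * ((z0⁻¹ : Circle) : ℂ))) (z0 : ℂ) :=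
        ContDiffAt.comp (z0 : ℂ) h2 h1
      have h3 : ContDiffAt ℝ ((⊤ : ℕ∞) : WithTop ℕ∞)
          (fun w : ℂ => Complex.log (w * ((z0⁻¹ : Circle) : ℂ))) (z0 : ℂ) := h3'
      have h4 : ContDiffAt ℝ ((⊤ : ℕ∞) : WithTop ℕ∞)
          (fun w : ℂ => (Complex.log (w * ((z0⁻¹ : Circle) : ℂ))).im) (z0 : ℂ) :=
        (Complex.imCLM.contDiff.contDiffAt (x := Complex.log ((z0 : ℂ) * ((z0⁻¹ : Circle) : ℂ)))).comp
          (z0 : ℂ) h3
      exact contDiffAt_const.add h4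
    have h5 : ContMDiffAt (𝓡 1) 𝓘(ℝ, ℝ) ((⊤ : ℕ∞) : WithTop ℕ∞)
        ((fun w : ℂ => x0 + (Complex.log (w * ((z0⁻¹ : Circle) : ℂ))).im) ∘
          (fun z : Circle => (z : ℂ))) z0 :=
      ContMDiffAt.comp z0 hg.contMDiffAt (hc z0)
    refine h5.congr_of_eventuallyEq (Filter.Eventually.of_forall fun z => ?_)
    simp only [Function.comp_apply, Complex.log_im, Circle.coe_mul]

theorem exists_torus_map {T a b : ℝ} (ha : 0 < a) (hab : a < b) (hb : 2 * b < T)
    {Φ1 Φ2 : ℝ × ℝ → E3} (h1 : ContDiff ℝ ∞ Φ1) (h2 : ContDiff ℝ ∞ Φ2)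
    (p1 : ∀ x s, Φ1 (x + 2 * Real.pi, s) = Φ1 (x, s)) (p2 : ∀ x s, Φ2 (x + 2 * Real.pi, s) = Φ2 (x, s))
    (e1' : ∀ x s, a < s → s < b → Φ1 (x, s) = Φ2 (x, s))
    (e2' : ∀ x s, -b < s → s < -a → Φ1 (x, s) = Φ2 (x, s + T)) :
    ∃ f : Circle × Circle → E3,
      ContMDiff ((𝓡 1).prod (𝓡 1)) 𝓘(ℝ, E3) ((⊤ : ℕ∞) : WithTop ℕ∞) f ∧
      (∀ x s, |s| < b → f (cov T (x, s)) = Φ1 (x, s)) ∧
      (∀ x s, a < s → s < T - a → f (cov T (x, s)) = Φ2 (x, s)) := by
  classical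
  have hT : 0 < T := by linarith
  have hpi := Real.pi_pos
  obtain ⟨f, hf⟩ : ∃ f : Circle × Circle → E3, f = fun z =>
      if h : ∃ p : ℝ × ℝ, |p.2| < b ∧ cov T p = z then Φ1 h.choose
      else if h2 : ∃ p : ℝ × ℝ, (a < p.2 ∧ p.2 < T - a) ∧ cov T p = z then Φ2 h2.choose
      else 0 := ⟨_, rfl⟩
  have F1 : ∀ x s, |s| < b → f (cov T (x, s)) = Φ1 (x, s) := by
    intro x s hs
    have hex : ∃ p : ℝ × ℝ, |p.2| < b ∧ cov T p = cov T (x, s) := ⟨(x, s), hs, rfl⟩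
    rw [hf]
    beta_reduce
    rw [dif_pos hex]
    obtain ⟨g1, g2⟩ := hex.choose_spec
    obtain ⟨⟨n, hn⟩, ⟨m, hm⟩⟩ := E1_cov_eq hT g2
    obtain ⟨q, hq⟩ : ∃ q, q = hex.choose := ⟨_, rfl⟩
    rw [← hq] at g1 g2 hn hm ⊢
    have hm0 : m = 0 := by
      rw [abs_lt] at g1 hs
      have h3 : (m : ℝ) * T < T := by simp only at hm; linarith
      have h4 : -T < (m : ℝ) * T := by simp only at hm; linarith
      have h5 : (m : ℝ) < 1 := by
        by_contra hcon
        push Not at hcon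
        nlinarith
      have h6 : (-1 : ℝ) < m := by
        by_contra hcon
        push Not at hcon
        nlinarith
      have h7 : m < 1 := by exact_mod_cast h5
      have h8 : -1 < m := by exact_mod_cast h6
      omega
    rw [hm0] at hm
    have hq2 : q = (x + n * (2 * Real.pi), s) := by
      apply Prod.ext
      · exact hn
      · rw [hm]; simp
    rw [hq2]
    exact E1_per p1 x s n
  have F2 : ∀ x s, a < s → s < T - a → f (cov T (x, s)) = Φ2 (x, s) := by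
    intro x s hs1 hs2
    by_cases hex : ∃ p : ℝ × ℝ, |p.2| < b ∧ cov T p = cov T (x, s)
    · obtain ⟨q, g1, g2⟩ := hex
      rw [← g2]
      have h1 := F1 q.1 q.2 g1
      rw [h1]
      obtain ⟨⟨n, hn⟩, ⟨m, hm⟩⟩ := E1_cov_eq hT g2
      simp only at hn hm
      rw [abs_lt] at g1
      have h5 : (m : ℝ) < 1 := by
        by_contra hcon
        push Not at hcon
        nlinarith
      have h6 : (-2 : ℝ) < m := by
        by_contra hcon
        push Not at hcon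
        nlinarith
      have h7 : m < 1 := by exact_mod_cast h5
      have h8 : -2 < m := by exact_mod_cast h6
      rw [hn, E1_per p1]
      rcases (show m = 0 ∨ m = -1 by omega) with hm0 | hm0
      · rw [hm0] at hm
        have hq2 : q.2 = s := by rw [hm]; simp
        rw [hq2] at g1 ⊢
        exact e1' x s hs1 (by linarith [g1.2])
      · rw [hm0] at hm
        push_cast at hm
        have h9 := e2' x q.2 g1.1 (by linarith)
        rw [h9]
        congr 2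
        linarith
    · have hex2 : ∃ p : ℝ × ℝ, (a < p.2 ∧ p.2 < T - a) ∧ cov T p = cov T (x, s) :=
        ⟨(x, s), ⟨hs1, hs2⟩, rfl⟩
      rw [hf]
      beta_reduce
      rw [dif_neg hex, dif_pos hex2]
      obtain ⟨g1, g2⟩ := hex2.choose_spec
      obtain ⟨⟨n, hn⟩, ⟨m, hm⟩⟩ := E1_cov_eq hT g2
      obtain ⟨q, hq⟩ : ∃ q, q = hex2.choose := ⟨_, rfl⟩
      rw [← hq] at g1 g2 hn hm ⊢
      have hm0 : m = 0 := by
        have h5 : (m : ℝ) < 1 := by
          by_contra hcon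
          push Not at hcon
          simp only at hm
          nlinarith
        have h6 : (-1 : ℝ) < m := by
          by_contra hcon
          push Not at hcon
          simp only at hm
          nlinarith
        have h7 : m < 1 := by exact_mod_cast h5
        have h8 : -1 < m := by exact_mod_cast h6
        omega
      rw [hm0] at hm
      have hq2 : q = (x + n * (2 * Real.pi), s) := by
        apply Prod.ext
        · exact hn
        · rw [hm]; simp
      rw [hq2]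
      exact E1_per p2 x s n
  refine ⟨f, ?_, F1, F2⟩
  -- smoothness
  have hloc : ∀ (Φ : ℝ × ℝ → E3) (hΦ : ContDiff ℝ ∞ Φ) (O : Set ℝ) (hO : IsOpen O)
      (hfΦ : ∀ x s, s ∈ O → f (cov T (x, s)) = Φ (x, s)) (x0 s0 : ℝ) (hs0 : s0 ∈ O),
      ContMDiffAt ((𝓡 1).prod (𝓡 1)) 𝓘(ℝ, E3) ((⊤ : ℕ∞) : WithTop ℕ∞) f (cov T (x0, s0)) := by
    intro Φ hΦ O hO hfΦ x0 s0 hs0
    obtain ⟨σ1, a1, a2, a3⟩ := E1_sec x0 (Circle.exp x0) rfl
    obtain ⟨σ2, b1, b2, b3⟩ := E1_sec (2 * Real.pi / T * s0) (Circle.exp (2 * Real.pi / T * s0)) rfl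
    have hcov : cov T (x0, s0) = (Circle.exp x0, Circle.exp (2 * Real.pi / T * s0)) := rfl
    rw [hcov]
    have c1 : ContMDiffAt ((𝓡 1).prod (𝓡 1)) 𝓘(ℝ, ℝ) ((⊤ : ℕ∞) : WithTop ℕ∞)
        (fun w : Circle × Circle => σ1 w.1)
        (Circle.exp x0, Circle.exp (2 * Real.pi / T * s0)) :=
      ContMDiffAt.comp (Circle.exp x0, Circle.exp (2 * Real.pi / T * s0)) a3 contMDiffAt_fst
    have c2 : ContMDiffAt ((𝓡 1).prod (𝓡 1)) 𝓘(ℝ, ℝ) ((⊤ : ℕ∞) : WithTop ℕ∞)
        (fun w : Circle × Circle => σ2 w.2)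
        (Circle.exp x0, Circle.exp (2 * Real.pi / T * s0)) :=
      ContMDiffAt.comp (Circle.exp x0, Circle.exp (2 * Real.pi / T * s0)) b3 contMDiffAt_snd
    have c3 := c1.prodMk_space c2
    have hlin : ContDiff ℝ ∞ (fun p : ℝ × ℝ => Φ (p.1, T / (2 * Real.pi) * p.2)) := by
      apply hΦ.comp
      fun_prop
    have c4 : ContMDiffAt ((𝓡 1).prod (𝓡 1)) 𝓘(ℝ, E3) ((⊤ : ℕ∞) : WithTop ℕ∞)
        ((fun p : ℝ × ℝ => Φ (p.1, T / (2 * Real.pi) * p.2)) ∘
          (fun w : Circle × Circle => (σ1 w.1, σ2 w.2)))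
        (Circle.exp x0, Circle.exp (2 * Real.pi / T * s0)) :=
      ContMDiffAt.comp _ hlin.contDiffAt.contMDiffAt c3
    refine c4.congr_of_eventuallyEq ?_
    have hcont : ContinuousAt (fun w : Circle × Circle => T / (2 * Real.pi) * σ2 w.2)
        (Circle.exp x0, Circle.exp (2 * Real.pi / T * s0)) :=
      continuousAt_const.mul c2.continuousAt
    have hval : T / (2 * Real.pi) * σ2 (Circle.exp (2 * Real.pi / T * s0)) = s0 := by
      rw [b2]
      field_simp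
    have hev : ∀ᶠ w in 𝓝 (Circle.exp x0, Circle.exp (2 * Real.pi / T * s0)),
        T / (2 * Real.pi) * σ2 w.2 ∈ O := by
      apply hcont.eventually_mem
      apply hO.mem_nhds
      show T / (2 * Real.pi) * σ2 (Circle.exp (2 * Real.pi / T * s0)) ∈ O
      rw [hval]
      exact hs0
    filter_upwards [hev] with w hw
    have h1 := hfΦ (σ1 w.1) (T / (2 * Real.pi) * σ2 w.2) hw
    have h2 : cov T (σ1 w.1, T / (2 * Real.pi) * σ2 w.2) = w := by
      unfold cov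
      apply Prod.ext
      · exact a1 w.1
      · show Circle.exp (2 * Real.pi / T * (T / (2 * Real.pi) * σ2 w.2)) = w.2
        have h3 : 2 * Real.pi / T * (T / (2 * Real.pi) * σ2 w.2) = σ2 w.2 := by
          field_simp
        rw [h3, b1]
    rw [h2] at h1
    exact h1
  intro z
  have hL1 := hloc Φ1 h1 {s | |s| < b} (isOpen_lt continuous_abs continuous_const)
    (fun x s hs => F1 x s hs)
  have hL2 := hloc Φ2 h2 (Ioo a (T - a)) isOpen_Ioo (fun x s hs => F2 x s hs.1 hs.2)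
  obtain ⟨z1, z2⟩ := z
  obtain ⟨s, hs⟩ : ∃ s, s = T / (2 * Real.pi) * Complex.arg z2 := ⟨_, rfl⟩
  have hz : cov T (Complex.arg z1, s) = (z1, z2) := by
    unfold cov
    apply Prod.ext
    · exact Circle.exp_arg z1
    · show Circle.exp (2 * Real.pi / T * s) = z2
      have h3 : 2 * Real.pi / T * s = Complex.arg z2 := by
        rw [hs]
        field_simp
      rw [h3, Circle.exp_arg]
  have hs1 : s ≤ T / 2 := by
    rw [hs]
    have := Complex.arg_le_pi (z2 : ℂ)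
    calc T / (2 * Real.pi) * Complex.arg z2 ≤ T / (2 * Real.pi) * Real.pi := by gcongr
      _ = T / 2 := by field_simp
  have hs2 : -(T / 2) < s := by
    rw [hs]
    have := Complex.neg_pi_lt_arg (z2 : ℂ)
    calc -(T / 2) = T / (2 * Real.pi) * (-Real.pi) := by field_simp
      _ < T / (2 * Real.pi) * Complex.arg z2 := by
          apply mul_lt_mul_of_pos_left this (by positivity)
  by_cases hsb : |s| < b
  · rw [← hz]
    exact hL1 _ _ hsb
  · rcases le_total 0 s with h0 | h0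
    · rw [abs_of_nonneg h0] at hsb
      rw [← hz]
      exact hL2 _ _ ⟨by linarith, by linarith⟩
    · rw [abs_of_nonpos h0] at hsb
      rw [← hz, ← E1_cov_add hT]
      exact hL2 _ _ ⟨by linarith, by linarith⟩


end Pool.Agent.Helper331.TT
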