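import Pool.Agent.Helper331.TT.Defs
set_option autoImplicit false
open scoped Manifold ContDiff
open Set Filter Topology

namespace Pool.Agent.Helper331.TT

theorem cov_surj {T a b : ℝ} (ha : 0 < a) (hab : a < b) (hb : 2 * b < T) (p : Circle × Circle) :
    ∃ x s, p = cov T (x, s) ∧ (|s| < b ∨ (a < s ∧ s < T - a)) := by
  have hT : 0 < T := by linarith
  have hpi := Real.pi_pos
  set θ : ℝ := Complex.arg (p.2 : ℂ) with hθ
  have h1 : -Real.pi < θ := Complex.neg_pi_lt_arg _
  have h2 : θ ≤ Real.pi := Complex.arg_le_pi _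
  set s0 : ℝ := T / (2 * Real.pi) * θ with hs0
  have e0 : 2 * Real.pi / T * s0 = θ := by
    rw [hs0]
    field_simp
  have hup : s0 ≤ T / 2 := by
    have h : T / (2 * Real.pi) * θ ≤ T / (2 * Real.pi) * Real.pi :=
      mul_le_mul_of_nonneg_left h2 (by positivity)
    have e : T / (2 * Real.pi) * Real.pi = T / 2 := by field_simp
    rw [e] at h
    exact h
  have hlo : -(T / 2) < s0 := by
    have h : T / (2 * Real.pi) * (-Real.pi) < T / (2 * Real.pi) * θ :=
      mul_lt_mul_of_pos_left h1 (by positivity)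
    have e : T / (2 * Real.pi) * (-Real.pi) = -(T / 2) := by field_simp
    rw [e] at h
    exact h
  have hcov : p = cov T (Complex.arg (p.1 : ℂ), s0) := by
    unfold cov
    simp only
    rw [e0, Circle.exp_arg, hθ, Circle.exp_arg]
  have hcov2 : p = cov T (Complex.arg (p.1 : ℂ), s0 + T) := by
    unfold cov
    simp only
    have e1 : 2 * Real.pi / T * (s0 + T) = θ + 2 * Real.pi := by
      rw [mul_add, e0]
      field_simp
    rw [e1, Circle.exp_add, Circle.exp_two_pi, mul_one, Circle.exp_arg, hθ, Circle.exp_arg]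
  by_cases hb1 : |s0| < b
  · exact ⟨_, s0, hcov, Or.inl hb1⟩
  · rw [not_lt, le_abs] at hb1
    rcases hb1 with h | h
    · exact ⟨_, s0, hcov, Or.inr ⟨by linarith, by linarith⟩⟩
    · exact ⟨_, s0 + T, hcov2, Or.inr ⟨by linarith, by linarith⟩⟩


end Pool.Agent.Helper331.TT
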