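import Pool.Agent.Helper331.TT.Defs
set_option autoImplicit false
open scoped Manifold ContDiff
open Set Filter Topology

namespace Pool.Agent.Helper331.TT

theorem cov_nhds {T : ℝ} (hT : 0 < T) (p : ℝ × ℝ) : Filter.map (cov T) (𝓝 p) = 𝓝 (cov T p) := by
  obtain ⟨a, b⟩ := p
  have hc : 2 * Real.pi / T ≠ 0 := by
    have := Real.pi_pos
    positivity
  have h1 : Filter.map (fun x : ℝ => Circle.exp x) (𝓝 a) = 𝓝 (Circle.exp a) :=
    isLocalHomeomorph_circleExp.map_nhds_eq a
  have h2 : Filter.map (fun x : ℝ => Circle.exp (2 * Real.pi / T * x)) (𝓝 b)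
      = 𝓝 (Circle.exp (2 * Real.pi / T * b)) := by
    have h3 : Filter.map (fun x : ℝ => 2 * Real.pi / T * x) (𝓝 b) = 𝓝 (2 * Real.pi / T * b) :=
      (Homeomorph.mulLeft₀ (2 * Real.pi / T) hc).map_nhds_eq b
    have h4 : Filter.map (fun x : ℝ => Circle.exp x) (𝓝 (2 * Real.pi / T * b))
        = 𝓝 (Circle.exp (2 * Real.pi / T * b)) :=
      isLocalHomeomorph_circleExp.map_nhds_eq _
    rw [← h4, ← h3, Filter.map_map]
    rfl
  have h5 : cov T = Prod.map (fun x : ℝ => Circle.exp x)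
      (fun x : ℝ => Circle.exp (2 * Real.pi / T * x)) := by
    funext q
    rfl
  rw [nhds_prod_eq, h5, ← Filter.prod_map_map_eq', h1, h2, ← nhds_prod_eq]
  rfl


end Pool.Agent.Helper331.TT
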