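import Pool.Agent.Helper331.TT.Defs
set_option autoImplicit false
open scoped Manifold ContDiff
open Set Filter Topology

namespace Pool.Agent.Helper331.TT

theorem E4_cov_smooth (T : ℝ) :
    ContMDiff 𝓘(ℝ, ℝ × ℝ) ((𝓡 1).prod (𝓡 1)) ((⊤ : ℕ∞) : WithTop ℕ∞) (cov T) := by
  have h1 : ContMDiff 𝓘(ℝ, ℝ × ℝ) 𝓘(ℝ, ℝ) ((⊤ : ℕ∞) : WithTop ℕ∞) (fun p : ℝ × ℝ => p.1) :=
    contDiff_fst.contMDiff
  have h2 : ContMDiff 𝓘(ℝ, ℝ × ℝ) 𝓘(ℝ, ℝ) ((⊤ : ℕ∞) : WithTop ℕ∞)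
      (fun p : ℝ × ℝ => 2 * Real.pi / T * p.2) :=
    (contDiff_const.mul contDiff_snd).contMDiff
  exact (contMDiff_circleExp.comp h1).prodMk (contMDiff_circleExp.comp h2)

theorem E4_inj {V W : Type*} {X : Type*} (c : V → W) (g : W → X) (hc : Function.Surjective c)
    (h : Function.Injective (g ∘ c)) : Function.Injective g := by
  intro a b hab
  obtain ⟨a', rfl⟩ := hc a
  obtain ⟨b', rfl⟩ := hc b
  rw [h hab]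

theorem mfderiv_inj {T : ℝ} (hT : 0 < T) {f : Circle × Circle → E3} {Φ : ℝ × ℝ → E3} {p : ℝ × ℝ}
    (hf : ContMDiff ((𝓡 1).prod (𝓡 1)) 𝓘(ℝ, E3) ((⊤ : ℕ∞) : WithTop ℕ∞) f)
    (h : (fun q => f (cov T q)) =ᶠ[𝓝 p] Φ) (hI : Imm Φ p) :
    Function.Injective (mfderiv ((𝓡 1).prod (𝓡 1)) 𝓘(ℝ, E3) f (cov T p)) := by
  have hfd : MDifferentiableAt ((𝓡 1).prod (𝓡 1)) 𝓘(ℝ, E3) f (cov T p) :=
    (hf (cov T p)).mdifferentiableAt (by simp)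
  have hcd : MDifferentiableAt 𝓘(ℝ, ℝ × ℝ) ((𝓡 1).prod (𝓡 1)) (cov T) p :=
    ((E4_cov_smooth T) p).mdifferentiableAt (by simp)
  have h1 := mfderiv_comp p hfd hcd
  have h2 : mfderiv 𝓘(ℝ, ℝ × ℝ) 𝓘(ℝ, E3) (f ∘ cov T) p = fderiv ℝ Φ p := by
    rw [mfderiv_eq_fderiv]
    exact h.fderiv_eq
  rw [h2] at h1
  have h3 : Function.Injective ((mfderiv ((𝓡 1).prod (𝓡 1)) 𝓘(ℝ, E3) f (cov T p)) ∘
      (mfderiv 𝓘(ℝ, ℝ × ℝ) ((𝓡 1).prod (𝓡 1)) (cov T) p)) := by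
    have h4 := hI
    unfold Imm at h4
    rw [h1] at h4
    exact h4
  refine E4_inj _ _ ?_ h3
  have h5 : Function.Injective (mfderiv 𝓘(ℝ, ℝ × ℝ) ((𝓡 1).prod (𝓡 1)) (cov T) p) :=
    Function.Injective.of_comp h3
  have h6 : Module.finrank ℝ (TangentSpace 𝓘(ℝ, ℝ × ℝ) p) =
      Module.finrank ℝ (TangentSpace ((𝓡 1).prod (𝓡 1)) (cov T p)) := by
    show Module.finrank ℝ (ℝ × ℝ) = Module.finrank ℝ (EuclideanSpace ℝ (Fin 1) × EuclideanSpace ℝ (Fin 1))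
    simp
  haveI : FiniteDimensional ℝ (TangentSpace 𝓘(ℝ, ℝ × ℝ) p) :=
    inferInstanceAs (FiniteDimensional ℝ (ℝ × ℝ))
  haveI : FiniteDimensional ℝ (TangentSpace ((𝓡 1).prod (𝓡 1)) (cov T p)) :=
    inferInstanceAs (FiniteDimensional ℝ (EuclideanSpace ℝ (Fin 1) × EuclideanSpace ℝ (Fin 1)))
  exact (LinearMap.injective_iff_surjective_of_finrank_eq_finrank h6
    (f := (mfderiv 𝓘(ℝ, ℝ × ℝ) ((𝓡 1).prod (𝓡 1)) (cov T) p : _ →ₗ[ℝ] _))).mp h5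


end Pool.Agent.Helper331.TT
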