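import Pool.Agent.Helper331.TT.Defs
set_option autoImplicit false
open scoped Manifold ContDiff
open Set Filter Topology

namespace Pool.Agent.Helper331.TT

theorem E5_exp_mdiff (x : ℝ) : MDifferentiableAt 𝓘(ℝ, ℝ) (𝓡 1) Circle.exp x :=
  (contMDiff_circleExp (m := 1) x).mdifferentiableAt one_ne_zero

theorem E5_coe_mdiff (z : Circle) :
    MDifferentiableAt (𝓡 1) 𝓘(ℝ, ℂ) (fun z : Circle => (z : ℂ)) z := by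
  haveI : Fact (Module.finrank ℝ ℂ = 1 + 1) := finrank_real_complex_fact'
  have h : ContMDiff (𝓡 1) 𝓘(ℝ, ℂ) 1 (fun z : Circle => (z : ℂ)) := contMDiff_coe_sphere
  exact (h z).mdifferentiableAt one_ne_zero

/-- the derivative of `Circle.exp` as a plain linear map -/
noncomputable def E5_L (x : ℝ) : ℝ →L[ℝ] EuclideanSpace ℝ (Fin 1) :=
  mfderiv 𝓘(ℝ, ℝ) (𝓡 1) Circle.exp x

theorem E5_L_ne (x : ℝ) : E5_L x 1 ≠ 0 := by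
  intro h0
  have h1 : mfderiv 𝓘(ℝ, ℝ) 𝓘(ℝ, ℂ) ((fun z : Circle => (z : ℂ)) ∘ Circle.exp) x =
      (mfderiv (𝓡 1) 𝓘(ℝ, ℂ) (fun z : Circle => (z : ℂ)) (Circle.exp x)).comp
        (mfderiv 𝓘(ℝ, ℝ) (𝓡 1) Circle.exp x) :=
    mfderiv_comp x (E5_coe_mdiff _) (E5_exp_mdiff x)
  have h2 : (mfderiv 𝓘(ℝ, ℝ) 𝓘(ℝ, ℂ) ((fun z : Circle => (z : ℂ)) ∘ Circle.exp) x) (1 : ℝ) = (0 : ℂ) := by
    rw [h1]
    show (mfderiv (𝓡 1) 𝓘(ℝ, ℂ) (fun z : Circle => (z : ℂ)) (Circle.exp x)) (E5_L x 1) = (0 : ℂ)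
    rw [h0]
    exact map_zero _
  rw [mfderiv_eq_fderiv] at h2
  have h3 : ((fun z : Circle => (z : ℂ)) ∘ Circle.exp) = fun t : ℝ => Complex.exp ((t : ℂ) * Complex.I) := by
    funext t
    simp [Circle.coe_exp]
  have h4 : HasDerivAt (fun t : ℝ => Complex.exp ((t : ℂ) * Complex.I))
      (Complex.exp ((x : ℂ) * Complex.I) * (1 * Complex.I)) x := by
    have := ((Complex.ofRealCLM.hasDerivAt (x := x)).mul_const Complex.I).cexp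
    simpa using this
  rw [h3] at h2
  have h2' : (fderiv ℝ (fun t : ℝ => Complex.exp ((t : ℂ) * Complex.I)) x) 1 = 0 := h2
  rw [fderiv_apply_one_eq_deriv, h4.deriv] at h2'
  have h5 : Complex.exp ((x : ℂ) * Complex.I) * (1 * Complex.I) ≠ 0 :=
    mul_ne_zero (Complex.exp_ne_zero _) (mul_ne_zero one_ne_zero Complex.I_ne_zero)
  exact h5 h2'

theorem E5_L_surj (x : ℝ) (v : EuclideanSpace ℝ (Fin 1)) : ∃ c : ℝ, E5_L x c = v := by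
  have h0 : (E5_L x 1) 0 ≠ 0 := by
    intro h
    apply E5_L_ne x
    ext i
    have hi : i = 0 := Subsingleton.elim _ _
    rw [hi, h]
    rfl
  refine ⟨v 0 / (E5_L x 1) 0, ?_⟩
  have h1 : E5_L x (v 0 / (E5_L x 1) 0) = (v 0 / (E5_L x 1) 0) • E5_L x 1 := by
    rw [← map_smul, smul_eq_mul, mul_one]
  rw [h1]
  ext i
  have hi : i = 0 := Subsingleton.elim _ _
  rw [hi]
  show (v 0 / (E5_L x 1) 0) * (E5_L x 1) 0 = v 0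
  field_simp

theorem E5_fst_has (p : ℝ × ℝ) : HasMFDerivAt 𝓘(ℝ, ℝ × ℝ) (𝓡 1) (fun q : ℝ × ℝ => Circle.exp q.1) p
    ((E5_L p.1).comp (ContinuousLinearMap.fst ℝ ℝ ℝ)) := by
  have h1 : HasMFDerivAt 𝓘(ℝ, ℝ) (𝓡 1) Circle.exp p.1 (E5_L p.1) := (E5_exp_mdiff p.1).hasMFDerivAt
  have h2 : HasMFDerivAt 𝓘(ℝ, ℝ × ℝ) 𝓘(ℝ, ℝ) (fun q : ℝ × ℝ => q.1) p
      (ContinuousLinearMap.fst ℝ ℝ ℝ) := hasFDerivAt_fst.hasMFDerivAt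
  exact h1.comp p h2

theorem E5_snd_has (c : ℝ) (p : ℝ × ℝ) :
    HasMFDerivAt 𝓘(ℝ, ℝ × ℝ) (𝓡 1) (fun q : ℝ × ℝ => Circle.exp (c * q.2)) p
    ((E5_L (c * p.2)).comp (c • ContinuousLinearMap.snd ℝ ℝ ℝ)) := by
  have h1 : HasMFDerivAt 𝓘(ℝ, ℝ) (𝓡 1) Circle.exp (c * p.2) (E5_L (c * p.2)) :=
    (E5_exp_mdiff _).hasMFDerivAt
  have h2 : HasMFDerivAt 𝓘(ℝ, ℝ × ℝ) 𝓘(ℝ, ℝ) (fun q : ℝ × ℝ => c * q.2) p
      (c • ContinuousLinearMap.snd ℝ ℝ ℝ) := (hasFDerivAt_snd.const_mul c).hasMFDerivAt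
  exact h1.comp p h2

theorem E5_cov_has (T : ℝ) (p : ℝ × ℝ) :
    HasMFDerivAt 𝓘(ℝ, ℝ × ℝ) ((𝓡 1).prod (𝓡 1)) (cov T) p
    (((E5_L p.1).comp (ContinuousLinearMap.fst ℝ ℝ ℝ)).prod
      ((E5_L (2 * Real.pi / T * p.2)).comp ((2 * Real.pi / T) • ContinuousLinearMap.snd ℝ ℝ ℝ))) :=
  (E5_fst_has p).prodMk (E5_snd_has (2 * Real.pi / T) p)

theorem E5_key {T : ℝ} {f : Circle × Circle → E3} {Φ : ℝ × ℝ → E3} {p : ℝ × ℝ}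
    (hf : ContMDiff ((𝓡 1).prod (𝓡 1)) 𝓘(ℝ, E3) ((⊤ : ℕ∞) : WithTop ℕ∞) f)
    (h : (fun q => f (cov T q)) =ᶠ[𝓝 p] Φ) (w : ℝ × ℝ) :
    (mfderiv ((𝓡 1).prod (𝓡 1)) 𝓘(ℝ, E3) f (cov T p))
      (((E5_L p.1) w.1, (E5_L (2 * Real.pi / T * p.2)) (2 * Real.pi / T * w.2)) :
        EuclideanSpace ℝ (Fin 1) × EuclideanSpace ℝ (Fin 1)) = (fderiv ℝ Φ p w : E3) := by
  have h1 : HasMFDerivAt ((𝓡 1).prod (𝓡 1)) 𝓘(ℝ, E3) f (cov T p)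
      (mfderiv ((𝓡 1).prod (𝓡 1)) 𝓘(ℝ, E3) f (cov T p)) :=
    ((hf (cov T p)).mdifferentiableAt (by simp)).hasMFDerivAt
  have h2 := h1.comp p (E5_cov_has T p)
  obtain ⟨Lf, hLf⟩ : ∃ Lf : (EuclideanSpace ℝ (Fin 1) × EuclideanSpace ℝ (Fin 1)) →L[ℝ] E3,
      Lf = mfderiv ((𝓡 1).prod (𝓡 1)) 𝓘(ℝ, E3) f (cov T p) := ⟨_, rfl⟩
  have h3 : HasFDerivAt (f ∘ cov T) (Lf.comp
      (((E5_L p.1).comp (ContinuousLinearMap.fst ℝ ℝ ℝ)).prod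
      ((E5_L (2 * Real.pi / T * p.2)).comp ((2 * Real.pi / T) • ContinuousLinearMap.snd ℝ ℝ ℝ)))) p := by
    rw [hLf]
    exact hasMFDerivAt_iff_hasFDerivAt.1 h2
  have h4 : fderiv ℝ Φ p = fderiv ℝ (f ∘ cov T) p := (Filter.EventuallyEq.fderiv_eq h).symm
  have h5 : fderiv ℝ (f ∘ cov T) p = _ := h3.fderiv
  rw [h4, h5, ← hLf]
  rfl

theorem mfderiv_norm {T : ℝ} (hT : 0 < T) {f g : Circle × Circle → E3} {Φ Ψ : ℝ × ℝ → E3} {p : ℝ × ℝ}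
    (hf : ContMDiff ((𝓡 1).prod (𝓡 1)) 𝓘(ℝ, E3) ((⊤ : ℕ∞) : WithTop ℕ∞) f)
    (hg : ContMDiff ((𝓡 1).prod (𝓡 1)) 𝓘(ℝ, E3) ((⊤ : ℕ∞) : WithTop ℕ∞) g)
    (h : (fun q => f (cov T q)) =ᶠ[𝓝 p] Φ) (h' : (fun q => g (cov T q)) =ᶠ[𝓝 p] Ψ)
    (hN : ∀ w, ‖fderiv ℝ Φ p w‖ = ‖fderiv ℝ Ψ p w‖) (v : EuclideanSpace ℝ (Fin 1) × EuclideanSpace ℝ (Fin 1)) :
    @Norm.norm (EuclideanSpace ℝ (Fin 3)) _ (mfderiv ((𝓡 1).prod (𝓡 1)) 𝓘(ℝ, E3) f (cov T p) v)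
      = @Norm.norm (EuclideanSpace ℝ (Fin 3)) _ (mfderiv ((𝓡 1).prod (𝓡 1)) 𝓘(ℝ, E3) g (cov T p) v) := by
  have hc : (2 * Real.pi / T) ≠ 0 := by positivity
  obtain ⟨c1, hc1⟩ := E5_L_surj p.1 v.1
  obtain ⟨c2, hc2⟩ := E5_L_surj (2 * Real.pi / T * p.2) v.2
  have hv : v = ((E5_L p.1) c1, (E5_L (2 * Real.pi / T * p.2)) (2 * Real.pi / T * (c2 / (2 * Real.pi / T)))) := by
    have : 2 * Real.pi / T * (c2 / (2 * Real.pi / T)) = c2 := by field_simp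
    rw [this, hc1, hc2]
  have k1 := E5_key (T := T) hf h (c1, c2 / (2 * Real.pi / T))
  have k2 := E5_key (T := T) hg h' (c1, c2 / (2 * Real.pi / T))
  rw [hv]
  simp only at k1 k2
  rw [k1, k2]
  exact hN _



end Pool.Agent.Helper331.TT
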