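import Pool.Agent.Helper331.TT.Defs
set_option autoImplicit false
open scoped Manifold ContDiff
open Set Filter Topology

namespace Pool.Agent.Helper331.TT

theorem cov_eq {T : ℝ} (hT : 0 < T) (x s x' s' : ℝ) :
    cov T (x, s) = cov T (x', s') ↔ ∃ m n : ℤ, x' = x + m * (2 * Real.pi) ∧ s' = s + n * T := by
  unfold cov
  rw [Prod.mk.injEq, Circle.exp_eq_exp, Circle.exp_eq_exp]
  have hpi : (0 : ℝ) < 2 * Real.pi := by positivity
  constructor
  · rintro ⟨⟨m, hm⟩, ⟨n, hn⟩⟩
    refine ⟨-m, -n, ?_, ?_⟩
    · simp only at hm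
      push_cast
      linarith
    · simp only at hn
      push_cast
      have h1 : 2 * Real.pi / T * s = 2 * Real.pi * (s / T) := by ring
      have h2 : 2 * Real.pi / T * s' = 2 * Real.pi * (s' / T) := by ring
      rw [h1, h2] at hn
      have h3 : 2 * Real.pi * (s / T) = 2 * Real.pi * (s' / T + n) := by linarith
      have h4 := mul_left_cancel₀ hpi.ne' h3
      field_simp at h4
      linarith
  · rintro ⟨m, n, hm, hn⟩
    refine ⟨⟨-m, ?_⟩, ⟨-n, ?_⟩⟩
    · simp only
      push_cast
      linarith
    · simp only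
      push_cast
      rw [hn]
      field_simp
      ring


end Pool.Agent.Helper331.TT
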