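import Pool.Agent.Helper331.TT.Defs
set_option autoImplicit false
open scoped Manifold ContDiff
open Set Filter Topology

namespace Pool.Agent.Helper331.TT

theorem superlevel_criterion {X : Type*} [TopologicalSpace X] [CompactSpace X] [LocallyConnectedSpace X]
    {h : X → ℝ} (hh : Continuous h) (c : ℝ) (K : Set X) (hK : IsPreconnected K)
    (hKc : ∀ p ∈ K, c < h p) (hm : ∀ p, c < h p → IsLocalMax h p → p ∈ K) :
    IsPreconnected {p | c < h p} := by
  obtain ⟨U, hU⟩ : ∃ U, U = {p | c < h p} := ⟨_, rfl⟩
  rw [← hU]
  have hUo : IsOpen U := by rw [hU]; exact isOpen_lt continuous_const hh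
  have hKU : K ⊆ U := by
    intro p hp
    rw [hU]
    exact hKc p hp
  have hmeet : ∀ x ∈ U, ∃ p ∈ K, p ∈ connectedComponentIn U x := by
    intro x hx
    have hxC : x ∈ connectedComponentIn U x := mem_connectedComponentIn hx
    obtain ⟨p, hp, hmax⟩ := (isClosed_closure (s := connectedComponentIn U x)).isCompact.exists_isMaxOn
      ⟨x, subset_closure hxC⟩ hh.continuousOn
    have hpU : c < h p := by
      have h1 : c < h x := by rw [hU] at hx; exact hx
      exact lt_of_lt_of_le h1 (hmax (subset_closure hxC))
    have hpC : p ∈ connectedComponentIn U x := by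
      have h1 : IsPreconnected (insert p (connectedComponentIn U x)) :=
        isPreconnected_connectedComponentIn.subset_closure (subset_insert _ _)
          (insert_subset hp subset_closure)
      have h2 : insert p (connectedComponentIn U x) ⊆ U :=
        insert_subset (by rw [hU]; exact hpU) (connectedComponentIn_subset U x)
      exact h1.subset_connectedComponentIn (mem_insert_of_mem _ hxC) h2 (mem_insert _ _)
    refine ⟨p, hm p hpU ?_, hpC⟩
    filter_upwards [hUo.connectedComponentIn.mem_nhds hpC] with y hy
    exact hmax (subset_closure hy)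
  rcases U.eq_empty_or_nonempty with hE | ⟨x, hx⟩
  · rw [hE]; exact isPreconnected_empty
  · obtain ⟨p, hpK, hp⟩ := hmeet x hx
    have hKx : K ⊆ connectedComponentIn U x := by
      rw [connectedComponentIn_eq hp]
      exact hK.subset_connectedComponentIn hpK hKU
    have hUx : U ⊆ connectedComponentIn U x := by
      intro y hy
      obtain ⟨q, hqK, hq⟩ := hmeet y hy
      have h1 := connectedComponentIn_eq hq
      have h2 := connectedComponentIn_eq (hKx hqK)
      rw [h2, ← h1]
      exact mem_connectedComponentIn hy
    have h3 : U = connectedComponentIn U x := hUx.antisymm (connectedComponentIn_subset U x)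
    rw [h3]
    exact isPreconnected_connectedComponentIn


end Pool.Agent.Helper331.TT
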