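import Pool.Agent.Helper331.TT.Defs
import Pool.Agent.Helper331.TT.C1
import Pool.Agent.Helper331.TT.C1s
import Pool.Agent.Helper331.TT.C4
set_option autoImplicit false
open scoped Manifold ContDiff
open Set Filter Topology

namespace Pool.Agent.Helper331.TT

theorem F2_Bin (D : Data) (R : Prof) : ContDiff ℝ ∞ (Bin D R) := by
  have h1 : ContDiff ℝ ∞ fun p : ℝ × ℝ => R.χ p.2 := R.χ_smooth.comp contDiff_snd
  have h2 : ContDiff ℝ ∞ fun p : ℝ × ℝ => D.F p.1 := D.smooth_F.comp contDiff_fst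
  have h3 : ContDiff ℝ ∞ fun p : ℝ × ℝ => dh p.1 := smooth_dh.comp contDiff_fst
  have h4 : ContDiff ℝ ∞ fun p : ℝ × ℝ => R.Z p.2 := R.Z_smooth.comp contDiff_snd
  unfold Bin
  exact ((h1.smul h2).add (contDiff_snd.smul h3)).add (h4.smul contDiff_const)

theorem smooth_Φin {D : Data} {R : Prof} {C0 ε e0 τ : ℝ} (G : Good D R C0 ε e0 τ) (τ' : ℝ) :
    ContDiff ℝ ∞ (Φin D R ε e0 τ') := by
  have hv := smooth_vth D G.ε_pos G.e0_pos G.ε_A
  have hz : ContDiff ℝ ∞ fun p : ℝ × ℝ => D.ze p.1 := D.ze_smooth.comp contDiff_fst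
  have hs : ContDiff ℝ ∞ fun p : ℝ × ℝ => p.2 - D.ze p.1 := contDiff_snd.sub hz
  have hE : ContDiff ℝ ∞ fun p : ℝ × ℝ => D.E p.1 := D.smooth_E.comp contDiff_fst
  have hg : ContDiff ℝ ∞ fun p : ℝ × ℝ => gam ((p.2 - D.ze p.1) / ε) :=
    smooth_gam.comp (hs.div_const ε)
  have hp : ContDiff ℝ ∞ fun p : ℝ × ℝ => (p.1, p.2 - D.ze p.1) := contDiff_fst.prodMk hs
  have hV : ContDiff ℝ ∞ fun p : ℝ × ℝ => Sm (vth D ε e0 (p.1, p.2 - D.ze p.1)) :=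
    Sm.contDiff.comp (hv.comp hp)
  unfold Φin
  exact ((F2_Bin D R).add ((contDiff_const.mul hg).smul hE)).add (hV.const_smul τ')
theorem smooth_Φout (R : Prof) : ContDiff ℝ ∞ (Φout R) := by
  have h1 : ContDiff ℝ ∞ fun p : ℝ × ℝ => R.r p.2 := R.r_smooth.comp contDiff_snd
  have h2 : ContDiff ℝ ∞ fun p : ℝ × ℝ => R.z p.2 := R.z_smooth.comp contDiff_snd
  have h3 : ContDiff ℝ ∞ fun p : ℝ × ℝ => R.θ p.2 := R.θ_smooth.comp contDiff_snd
  have h4 : ContDiff ℝ ∞ fun p : ℝ × ℝ => dh (p.1 + R.θ p.2) :=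
    smooth_dh.comp (contDiff_fst.add h3)
  unfold Φout
  exact (h1.smul h4).add (h2.smul contDiff_const)
theorem smooth_Bin (D : Data) (R : Prof) : ContDiff ℝ ∞ (Bin D R) := F2_Bin D R
theorem smooth_Mth {D : Data} {R : Prof} {C0 ε e0 τ : ℝ} (G : Good D R C0 ε e0 τ) (τ' : ℝ) :
    ContDiff ℝ ∞ (Mth D ε e0 τ') := by
  have hv := smooth_vth D G.ε_pos G.e0_pos G.ε_A
  have hV : ContDiff ℝ ∞ fun p : ℝ × ℝ => Sm (vth D ε e0 p) := Sm.contDiff.comp hv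
  unfold Mth
  exact (smooth_Bth D ε).add (hV.const_smul τ')


end Pool.Agent.Helper331.TT
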