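import Pool.Agent.Helper331.TT.Defs
import Pool.Agent.Helper331.TT.C1
import Pool.Agent.Helper331.TT.C1s
import Pool.Agent.Helper331.TT.C4
set_option autoImplicit false
open scoped Manifold ContDiff
open Set Filter Topology

namespace Pool.Agent.Helper331.TT

theorem F3_dl_eq (x : ℝ) : dl x = dh x + e3 := by
  apply ext3 <;> simp [dl, dh, fr]

theorem F3_thin_point {D : Data} {R : Prof} {C0 ε e0 τ : ℝ} (G : Good D R C0 ε e0 τ) (τ' x s : ℝ)
    (h : |s - D.ze x| < 3 * ε) :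
    Φin D R ε e0 τ' (x, s) = Mth D ε e0 τ' (x, s - D.ze x) := by
  have h1 := G.ze_le x
  have h2 := G.ε_lt
  have h3 : |s| < R.t0 := by
    have : |s| ≤ |s - D.ze x| + |D.ze x| := by
      have := abs_add_le (s - D.ze x) (D.ze x)
      simpa using this
    linarith
  have hχ : R.χ s = 1 := R.χ_one s (by linarith [R.t01])
  have hZ : R.Z s = s := R.Z_id s h3.le
  have hb : Bin D R (x, s) = D.c x + (s - D.ze x) • dl x := by
    simp only [Bin, hχ, hZ, one_smul]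
    rw [D.c_eq, F3_dl_eq]
    module
  simp only [Φin, Mth, Bth, hb]

theorem Φin_thin {D : Data} {R : Prof} {C0 ε e0 τ : ℝ} (G : Good D R C0 ε e0 τ) (τ' x s : ℝ)
    (h : |s - D.ze x| < 3 * ε) :
    Φin D R ε e0 τ' =ᶠ[𝓝 (x, s)] fun q => Mth D ε e0 τ' (q.1, q.2 - D.ze q.1) := by
  have hc : Continuous fun q : ℝ × ℝ => |q.2 - D.ze q.1| :=
    (continuous_snd.sub (D.ze_smooth.continuous.comp continuous_fst)).abs
  have ho : ∀ᶠ q : ℝ × ℝ in 𝓝 (x, s), |q.2 - D.ze q.1| < 3 * ε :=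
    hc.continuousAt.eventually_lt continuousAt_const h
  filter_upwards [ho] with q hq
  exact F3_thin_point G τ' q.1 q.2 hq

theorem F3_gam_zero {t : ℝ} (h : 2 ≤ |t|) : gam t = 0 := by
  have h1 : 1 ≤ (t ^ 2 - 1) / 3 := by
    have : 2 ^ 2 ≤ |t| ^ 2 := by gcongr
    rw [sq_abs] at this
    linarith
  simp [gam, Real.smoothTransition.one_of_one_le h1]

theorem Φin_far {D : Data} {R : Prof} {C0 ε e0 τ : ℝ} (G : Good D R C0 ε e0 τ) (τ' x s : ℝ)
    (h : 2 * ε < |s - D.ze x|) :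
    Φin D R ε e0 τ' =ᶠ[𝓝 (x, s)] Bin D R := by
  have hc : Continuous fun q : ℝ × ℝ => |q.2 - D.ze q.1| :=
    (continuous_snd.sub (D.ze_smooth.continuous.comp continuous_fst)).abs
  have ho : ∀ᶠ q : ℝ × ℝ in 𝓝 (x, s), 2 * ε < |q.2 - D.ze q.1| :=
    continuousAt_const.eventually_lt hc.continuousAt h
  have hε := G.ε_pos
  filter_upwards [ho] with q hq
  have hg : gam ((q.2 - D.ze q.1) / ε) = 0 := by
    apply F3_gam_zero
    rw [abs_div, abs_of_pos hε, le_div_iff₀ hε]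
    exact hq.le
  have hv : vth D ε e0 (q.1, q.2 - D.ze q.1) = 0 := by
    by_contra hne
    obtain ⟨h0, h1⟩ := vth_supp D hε G.e0_pos G.ε_A G.e0_A q.1 (q.2 - D.ze q.1) hne
    rw [abs_of_pos h0] at hq
    have := G.e0_A q.1
    linarith
  simp [Φin, hg, hv]


end Pool.Agent.Helper331.TT
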