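import Pool.Agent.Helper331.TT.Defs
import Pool.Agent.Helper331.TT.C1
import Pool.Agent.Helper331.TT.C1s
import Pool.Agent.Helper331.TT.C4
set_option autoImplicit false
open scoped Manifold ContDiff
open Set Filter Topology

namespace Pool.Agent.Helper331.TT

theorem Φin_off {D : Data} {R : Prof} {C0 ε e0 τ : ℝ} (G : Good D R C0 ε e0 τ) (τ' τ'' x s : ℝ)
    (h : s < D.ze x ∨ ε ≤ s - D.ze x) :
    Φin D R ε e0 τ' =ᶠ[𝓝 (x, s)] Φin D R ε e0 τ'' := by
  have hze : Continuous D.ze := D.ze_smooth.continuous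
  have hA : Continuous D.A := D.smooth_A.continuous
  have hA0 : 3 * D.A x * e0 < ε := G.e0_A x
  have key : ∀ᶠ p : ℝ × ℝ in 𝓝 (x, s),
      p.2 - D.ze p.1 < 0 ∨ 3 * D.A p.1 * e0 < p.2 - D.ze p.1 := by
    rcases h with h | h
    · have ho : IsOpen {p : ℝ × ℝ | p.2 - D.ze p.1 < 0} :=
        isOpen_lt (by fun_prop) continuous_const
      filter_upwards [ho.mem_nhds (show s - D.ze x < 0 by linarith)] with p hp
      exact Or.inl hp
    · have ho : IsOpen {p : ℝ × ℝ | 3 * D.A p.1 * e0 < p.2 - D.ze p.1} :=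
        isOpen_lt (by fun_prop) (by fun_prop)
      filter_upwards [ho.mem_nhds (show 3 * D.A x * e0 < s - D.ze x by linarith)] with p hp
      exact Or.inr hp
  filter_upwards [key] with p hp
  have hv : vth D ε e0 (p.1, p.2 - D.ze p.1) = 0 := by
    by_contra hne
    obtain ⟨h1, h2⟩ := vth_supp D G.ε_pos G.e0_pos G.ε_A G.e0_A _ _ hne
    rcases hp with hp | hp <;> linarith
  unfold Φin
  rw [hv]
  simp


end Pool.Agent.Helper331.TT
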