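import Pool.Agent.Helper331.TT.Defs
import Pool.Agent.Helper331.TT.F3
set_option autoImplicit false
open scoped Manifold ContDiff
open Set Filter Topology

namespace Pool.Agent.Helper331.TT

theorem F4_dh_pi (x : ℝ) : dh (x + Real.pi) = -dh x := by
  unfold dh fr
  rw [Real.sin_add_pi, Real.cos_add_pi]
  apply ext3
  · simp
  · simp
  · simp

theorem F4_far {D : Data} {R : Prof} {C0 ε e0 τ : ℝ} (G : Good D R C0 ε e0 τ) (x s : ℝ)
    (h : R.τ2 < |s|) : 2 * ε < |s - D.ze x| := by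
  have h1 := G.toCompat.ze_le x
  have h2 := R.t01
  have h3 := R.t12
  have h4 := G.ε_lt
  have h5 := G.ε_pos
  have h6 : |s| - |D.ze x| ≤ |s - D.ze x| := abs_sub_abs_le_abs_sub _ _
  linarith

theorem Φin_Φout_top {D : Data} {R : Prof} {C0 ε e0 τ : ℝ} (G : Good D R C0 ε e0 τ) (τ' x s : ℝ)
    (h1 : R.τ2 < s) (h2 : s < R.t2) : Φin D R ε e0 τ' (x, s) = Φout R (x, s) := by
  have h3 := R.t12
  have h4 := R.t01
  have h5 := R.t0_pos
  have hs : 0 < s := by linarith
  have habs : |s| = s := abs_of_pos hs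
  have hfar := F4_far G x s (by rw [habs]; exact h1)
  rw [(Φin_far G τ' x s hfar).eq_of_nhds]
  unfold Bin Φout
  show R.χ s • D.F x + s • dh x + R.Z s • e3 = R.r s • dh (x + R.θ s) + R.z s • e3
  rw [R.χ_zero s (by rw [habs]; exact h1.le), R.Z_top s (by linarith), R.r_lo s h2.le,
    R.θ_lo s h2.le, R.z_lo s h2.le, zero_smul, zero_add, add_zero]

theorem Φin_Φout_bot {D : Data} {R : Prof} {C0 ε e0 τ : ℝ} (G : Good D R C0 ε e0 τ) (τ' x s : ℝ)
    (h1 : -R.t2 < s) (h2 : s < -R.τ2) : Φin D R ε e0 τ' (x, s) = Φout R (x, s + R.T) := by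
  have h3 := R.t12
  have h4 := R.t01
  have h5 := R.t0_pos
  have h6 := R.t2t2'
  have hs : s < 0 := by linarith
  have habs : |s| = -s := abs_of_neg hs
  have hfar := F4_far G x s (by rw [habs]; linarith)
  have hT : R.T = R.t2 + R.La + R.t2' := rfl
  have hge : R.t2 + R.La ≤ s + R.T := by rw [hT]; linarith
  rw [(Φin_far G τ' x s hfar).eq_of_nhds]
  unfold Bin Φout
  show R.χ s • D.F x + s • dh x + R.Z s • e3 =
    R.r (s + R.T) • dh (x + R.θ (s + R.T)) + R.z (s + R.T) • e3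
  rw [R.χ_zero s (by rw [habs]; linarith), R.Z_bot s (by linarith), R.r_hi _ hge,
    R.θ_hi _ hge, R.z_hi _ hge, zero_smul, zero_add, F4_dh_pi, hT]
  have h7 : R.t2 + R.La + R.t2' - (s + (R.t2 + R.La + R.t2')) = -s := by ring
  rw [h7, smul_neg, neg_smul s, neg_neg]


end Pool.Agent.Helper331.TT
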