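import Pool.Agent.Helper331.TT.Defs
import Pool.Agent.Helper331.TT.B3
import Pool.Agent.Helper331.TT.B4
import Pool.Agent.Helper331.TT.B5
import Pool.Agent.Helper331.TT.C1s
import Pool.Agent.Helper331.TT.D1
import Pool.Agent.Helper331.TT.D2
import Pool.Agent.Helper331.TT.F2
import Pool.Agent.Helper331.TT.F3
set_option autoImplicit false
open scoped Manifold ContDiff
open Set Filter Topology

namespace Pool.Agent.Helper331.TT

theorem Φin_neg {D : Data} {R : Prof} {C0 ε e0 τ : ℝ} (G : Good D R C0 ε e0 τ) (τ' x s : ℝ)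
    (hτ : |τ'| ≤ τ) (hs : |s| < R.t1) :
    NoMax (Φin D R ε e0 τ') (x, s) ∧ Imm (Φin D R ε e0 τ') (x, s) := by
  by_cases h : |s - D.ze x| < 3 * ε
  · have h1 := shear_transfer (p := (x, s)) D.ze_smooth (smooth_Mth G τ') (Φin_thin G τ' x s h)
    have h2 := saddle (smooth_Mth G τ') (G.K_neg τ' hτ x (s - D.ze x) h.le)
    exact ⟨h1.1 h2.1, h1.2 h2.2⟩
  · push Not at h
    have hε := G.ε_pos
    have h1 := Φin_far G τ' x s (by linarith)
    have h2 := saddle (smooth_Bin D R) (Kdet_Bin D R G.toCompat x s hs)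
    exact ⟨NoMax_congr h1 h2.1, Imm_congr h1 h2.2⟩

theorem Φin_flat {D : Data} {R : Prof} {C0 ε e0 τ : ℝ} (G : Good D R C0 ε e0 τ) (τ' x s : ℝ)
    (hs : R.t1 ≤ |s|) :
    Imm (Φin D R ε e0 τ') (x, s) ∧ ∀ ℓ : E3 →L[ℝ] ℝ,
      IsLocalMax (fun p => ℓ (Φin D R ε e0 τ' p)) (x, s) → ℓ e1 = 0 ∧ ℓ e2 = 0 := by
  have hε := G.ε_pos
  have hε2 := G.ε_lt
  have h0 := G.ze_le x
  have h01 := R.t01
  have habs : |s| - |D.ze x| ≤ |s - D.ze x| := abs_sub_abs_le_abs_sub _ _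
  have h1 := Φin_far G τ' x s (by linarith)
  have h2 := flat_part D R G.toCompat x s hs
  refine ⟨Imm_congr h1 h2.1, fun ℓ hℓ => h2.2 ℓ ?_⟩
  have h3 : (fun p => ℓ (Φin D R ε e0 τ' p)) =ᶠ[𝓝 (x, s)] (fun p => ℓ (Bin D R p)) := by
    filter_upwards [h1] with p hp
    rw [hp]
  exact (h3.isLocalMax_iff).1 hℓ


end Pool.Agent.Helper331.TT
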