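import Pool.Agent.Helper331.TT.Defs
import Pool.Agent.Helper331.TT.H1
import Pool.Agent.Helper331.TT.F3
set_option autoImplicit false
open scoped Manifold ContDiff
open Set Filter Topology

namespace Pool.Agent.Helper331.TT

theorem F6_Bin_z (D : Data) (R : Prof) (x s : ℝ) : Bin D R (x, s) 2 = R.Z s := by
  simp [Bin, Data.F, dh, fr]

theorem Φin_z {D : Data} {R : Prof} {C0 ε e0 τ : ℝ} (G : Good D R C0 ε e0 τ) (τ' x s : ℝ)
    (hτ : |τ'| ≤ τ) :
    |Φin D R ε e0 τ' (x, s) 2| ≤ R.H ∧ (Φin D R ε e0 τ' (x, s) 2 = R.H ↔ R.t1 ≤ s) ∧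
      (Φin D R ε e0 τ' (x, s) 2 = -R.H ↔ s ≤ -R.t1) := by
  rcases lt_or_ge |s - D.ze x| (3 * ε) with h | h
  · have he : Φin D R ε e0 τ' (x, s) = Mth D ε e0 τ' (x, s - D.ze x) :=
      (Φin_thin G τ' x s h).eq_of_nhds
    have hz := G.z_lt τ' hτ x (s - D.ze x) h.le
    rw [← he] at hz
    have h1 := G.ε_lt
    have h2 := G.ze_le x
    have h3 := R.t01
    obtain ⟨a1, a2⟩ := abs_lt.mp h
    obtain ⟨b1, b2⟩ := abs_le.mp (le_refl |D.ze x|)
    obtain ⟨c1, c2⟩ := abs_lt.mp hz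
    refine ⟨hz.le, ⟨fun h4 => ?_, fun h4 => ?_⟩, ⟨fun h4 => ?_, fun h4 => ?_⟩⟩
    · linarith
    · linarith
    · linarith
    · linarith
  · have hε := G.ε_pos
    have he : Φin D R ε e0 τ' (x, s) = Bin D R (x, s) :=
      (Φin_far G τ' x s (by linarith)).eq_of_nhds
    rw [he, F6_Bin_z]
    have hH := R.H_pos
    have h0 := R.t0_pos
    have h01 := R.t01
    rcases lt_or_ge |s| R.t1 with h1 | h1
    · have hz := R.Z_lt s h1
      obtain ⟨c1, c2⟩ := abs_lt.mp hz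
      obtain ⟨a1, a2⟩ := abs_lt.mp h1
      refine ⟨hz.le, ⟨fun h4 => ?_, fun h4 => ?_⟩, ⟨fun h4 => ?_, fun h4 => ?_⟩⟩
      · linarith
      · linarith
      · linarith
      · linarith
    · rcases le_abs.mp h1 with h2 | h2
      · rw [R.Z_top s h2, abs_of_pos hH]
        refine ⟨le_refl _, ⟨fun _ => h2, fun _ => rfl⟩, ⟨fun h4 => ?_, fun h4 => ?_⟩⟩
        · linarith
        · linarith
      · have h3 : s ≤ -R.t1 := by linarith
        rw [R.Z_bot s h3, abs_neg, abs_of_pos hH]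
        refine ⟨le_refl _, ⟨fun h4 => ?_, fun h4 => ?_⟩, ⟨fun _ => h3, fun _ => rfl⟩⟩
        · linarith
        · linarith


end Pool.Agent.Helper331.TT
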