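import Pool.Agent.Helper331.TT.Defs
import Pool.Agent.Helper331.TT.C1s
import Pool.Agent.Helper331.TT.C3b
import Pool.Agent.Helper331.TT.F2
import Pool.Agent.Helper331.TT.F3
import Pool.Agent.Helper331.TT.F3v
set_option autoImplicit false
open scoped Manifold ContDiff
open Set Filter Topology

namespace Pool.Agent.Helper331.TT

theorem iso_in {D : Data} {R : Prof} {C0 ε e0 τ : ℝ} (G : Good D R C0 ε e0 τ) (τ' : ℝ) (p w : ℝ × ℝ) :
    ‖fderiv ℝ (fun q => Lm (Φin D R ε e0 τ' q)) p w‖ = ‖fderiv ℝ (fun q => Lm (Φin D R ε e0 (-τ') q)) p w‖ := by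
  obtain ⟨x, s⟩ := p
  by_cases hp : |s - D.ze x| < 3 * ε
  · have hS : ContDiff ℝ ∞ (fun q : ℝ × ℝ => ((q.1, q.2 - D.ze q.1) : ℝ × ℝ)) :=
      contDiff_fst.prodMk (contDiff_snd.sub (D.ze_smooth.comp contDiff_fst))
    have hSd : DifferentiableAt ℝ (fun q : ℝ × ℝ => ((q.1, q.2 - D.ze q.1) : ℝ × ℝ)) (x, s) :=
      (hS.differentiable (by simp)).differentiableAt
    have key : ∀ σ : ℝ, fderiv ℝ (fun q => Lm (Φin D R ε e0 σ q)) (x, s) w =
        fderiv ℝ (fun q => Lm (Mth D ε e0 σ q)) (x, s - D.ze x)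
          (fderiv ℝ (fun q : ℝ × ℝ => ((q.1, q.2 - D.ze q.1) : ℝ × ℝ)) (x, s) w) := by
      intro σ
      have h1 : (fun q => Lm (Φin D R ε e0 σ q)) =ᶠ[𝓝 (x, s)]
          ((fun q => Lm (Mth D ε e0 σ q)) ∘ (fun q : ℝ × ℝ => ((q.1, q.2 - D.ze q.1) : ℝ × ℝ))) := by
        filter_upwards [Φin_thin G σ x s hp] with q hq
        simp only [Function.comp_apply, hq]
      have hM : ContDiff ℝ ∞ (fun q => Lm (Mth D ε e0 σ q)) :=
        Lm.contDiff.comp (smooth_Mth G σ)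
      have h2 : DifferentiableAt ℝ (fun q => Lm (Mth D ε e0 σ q))
          ((fun q : ℝ × ℝ => ((q.1, q.2 - D.ze q.1) : ℝ × ℝ)) (x, s)) :=
        (hM.differentiable (by simp)).differentiableAt
      rw [h1.fderiv_eq, fderiv_comp (x, s) h2 hSd]
      rfl
    rw [key, key]
    exact iso_thin D G.ε_pos G.e0_pos G.ε_A G.e0_A τ' _ _
  · have hε := G.ε_pos
    have h1 : s < D.ze x ∨ ε ≤ s - D.ze x := by
      rw [not_lt] at hp
      rcases le_abs.1 hp with h | h
      · right; linarith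
      · left; linarith
    have h2 : (fun q => Lm (Φin D R ε e0 τ' q)) =ᶠ[𝓝 (x, s)]
        (fun q => Lm (Φin D R ε e0 (-τ') q)) := by
      filter_upwards [Φin_off G τ' (-τ') x s h1] with q hq
      rw [hq]
    rw [h2.fderiv_eq]


end Pool.Agent.Helper331.TT
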