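import Pool.Agent.Helper331.TT.Defs
set_option autoImplicit false
open scoped Manifold ContDiff
open Set Filter Topology

namespace Pool.Agent.Helper331.TT

theorem G1_great {X : Type*} (ψ : X ≃ X) (f g : X → ℝ) (S T : Set X) (m n x y : ℝ)
    (hf : IsGreatest (f '' S) m) (hg : IsGreatest (g '' T) n) (hST : ∀ p, ψ p ∈ S ↔ p ∈ T)
    (he : ∀ p ∈ T, f (ψ p) + x = g p + y) : m + x = n + y := by
  apply le_antisymm
  · obtain ⟨q, hq, hqm⟩ := hf.1
    have h1 : ψ (ψ.symm q) = q := ψ.apply_symm_apply q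
    have h2 : ψ.symm q ∈ T := (hST _).mp (by rw [h1]; exact hq)
    have h3 := he _ h2
    rw [h1] at h3
    have h4 := hg.2 ⟨_, h2, rfl⟩
    linarith
  · obtain ⟨p, hp, hpn⟩ := hg.1
    have h3 := he _ hp
    have h4 := hf.2 ⟨ψ p, (hST p).mpr hp, rfl⟩
    linarith

theorem G1_inv (w : E3) : Lm (vec (w 0 - w 2) ((w 1 - w 2) / 2) (w 2)) = w := by
  apply ext3
  · simp
  · simp only [Lm_1, vec_1, vec_2]; ring
  · simp

theorem G1_dt_comm (u v : E3) : dt u v = dt v u := by unfold dt; ring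

theorem G1_dt_add (u v w : E3) : dt u (v + w) = dt u v + dt u w := by
  simp [dt]; ring

theorem G1_dt_U (U : E3 ≃ₗᵢ[ℝ] E3) (u v : E3) : dt u (U v) = dt (U.symm u) v := by
  rw [← inner_eq_dt, ← inner_eq_dt]
  conv_lhs => rw [← U.apply_symm_apply u]
  exact U.inner_map_map _ _

theorem G1_dt_UU (U : E3 ≃ₗᵢ[ℝ] E3) (u : E3) : dt (U u) (U u) = dt u u := by
  rw [← norm_sq_eq_dt, ← norm_sq_eq_dt, U.norm_map]

theorem G1_dt_UU' (U : E3 ≃ₗᵢ[ℝ] E3) (u : E3) : dt (U.symm u) (U.symm u) = dt u u := by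
  rw [← norm_sq_eq_dt, ← norm_sq_eq_dt, U.symm.norm_map]

set_option maxHeartbeats 4000000 in
theorem A_eq_id {M N : Circle × Circle → E3} {KT KB : Set (Circle × Circle)} {H t t' : ℝ}
    (hH : 0 < H) (ht : 0 < t) (htt : t < t')
    (zM : ∀ p, M p 2 ≤ H ∧ -H ≤ M p 2) (zN : ∀ p, N p 2 ≤ H ∧ -H ≤ N p 2)
    (topM : ∀ p, M p 2 = H ↔ p ∈ KT) (topN : ∀ p, N p 2 = H ↔ p ∈ KT)
    (botM : ∀ p, M p 2 = -H ↔ p ∈ KB) (botN : ∀ p, N p 2 = -H ↔ p ∈ KB)
    (hKT : KT.Nontrivial) (hKB : KB.Nonempty)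
    (argM : ∀ ℓ : E3 →L[ℝ] ℝ, (ℓ e1 ≠ 0 ∨ ℓ e2 ≠ 0) → {p | ∀ q, ℓ (M q) ≤ ℓ (M p)}.Subsingleton)
    (supTM : ∀ α β : ℝ, IsGreatest ((fun p => α * M p 0 + β * M p 1) '' KT) (t * √(α ^ 2 + β ^ 2)))
    (supTN : ∀ α β : ℝ, IsGreatest ((fun p => α * N p 0 + β * N p 1) '' KT) (t * √(α ^ 2 + β ^ 2)))
    (supBM : ∀ α β : ℝ, IsGreatest ((fun p => α * M p 0 + β * M p 1) '' KB) (t' * √(α ^ 2 + β ^ 2)))
    (supBN : ∀ α β : ℝ, IsGreatest ((fun p => α * N p 0 + β * N p 1) '' KB) (t' * √(α ^ 2 + β ^ 2)))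
    (A : E3 ≃ᵃⁱ[ℝ] E3) (ψ : (Circle × Circle) ≃ (Circle × Circle))
    (hA : ∀ p, Lm (N (ψ p)) = A (Lm (M p))) : ∀ v, A v = v := by
  classical
  set U : E3 ≃ₗᵢ[ℝ] E3 := A.linearIsometryEquiv with hU
  set a : E3 := A 0 with ha
  have hAv : ∀ v, A v = U v + a := by
    intro v
    have h := A.map_vadd (0 : E3) v
    simpa using h
  let ℓ : E3 →L[ℝ] ℝ := (EuclideanSpace.proj (2 : Fin 3) : E3 →L[ℝ] ℝ).comp
    ((U.toContinuousLinearEquiv : E3 →L[ℝ] E3).comp Lm)
  have hℓ : ∀ v, ℓ v = (U (Lm v)) 2 := fun v => rfl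
  have hN2 : ∀ p, N (ψ p) 2 = ℓ (M p) + a 2 := by
    intro p
    have h := hA p
    have h2 : (Lm (N (ψ p))) 2 = (A (Lm (M p))) 2 := by rw [h]
    rw [Lm_2, hAv] at h2
    rw [h2, hℓ]
    rfl
  -- the argmax set is nontrivial
  obtain ⟨q1, hq1, q2, hq2, hq12⟩ := hKT
  have hmax : ∀ q ∈ KT, ψ.symm q ∈ {p | ∀ q, ℓ (M q) ≤ ℓ (M p)} := by
    intro q hq r
    have h1 := hN2 r
    have h2 := hN2 (ψ.symm q)
    rw [ψ.apply_symm_apply, (topN q).mpr hq] at h2
    have h3 := (zN (ψ r)).1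
    linarith
  have hℓ12 : ℓ e1 = 0 ∧ ℓ e2 = 0 := by
    by_contra hcon
    have h1 : ℓ e1 ≠ 0 ∨ ℓ e2 ≠ 0 := by
      by_contra h2
      push Not at h2
      exact hcon h2
    have h2 := argM ℓ h1 (hmax q1 hq1) (hmax q2 hq2)
    exact hq12 (ψ.symm.injective h2)
  set b : ℝ := ℓ e3 with hb
  have hℓv : ∀ v, ℓ v = b * v 2 := by
    intro v
    conv_lhs => rw [eq_vec v]
    unfold vec
    rw [map_add, map_add, map_smul, map_smul, map_smul, hℓ12.1, hℓ12.2]
    simp only [smul_eq_mul]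
    ring
  have hU2 : ∀ w, (U w) 2 = b * w 2 := by
    intro w
    have h := hℓv (vec (w 0 - w 2) ((w 1 - w 2) / 2) (w 2))
    rw [hℓ, G1_inv, vec_2] at h
    exact h
  have hN2' : ∀ p, N (ψ p) 2 = b * M p 2 + a 2 := by
    intro p
    rw [hN2, hℓv]
  -- b ^ 2 = 1
  have hb2 : b ^ 2 = 1 := by
    have h1 : (U (U.symm e3)) 2 = b * (U.symm e3) 2 := hU2 _
    rw [U.apply_symm_apply, e3_2] at h1
    have h2 : dt (U.symm e3) (U.symm e3) = 1 := by rw [G1_dt_UU']; simp [dt]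
    have h3 : dt (U e3) (U e3) = 1 := by rw [G1_dt_UU]; simp [dt]
    have h4 : (U e3) 2 = b := by rw [hU2, e3_2, mul_one]
    have h5 : ((U.symm e3) 2) ^ 2 ≤ 1 := by
      unfold dt at h2
      nlinarith [sq_nonneg ((U.symm e3) 0), sq_nonneg ((U.symm e3) 1)]
    have h6 : b ^ 2 ≤ 1 := by
      rw [← h4]
      unfold dt at h3
      nlinarith [sq_nonneg ((U e3) 0), sq_nonneg ((U e3) 1)]
    have h7 : 1 = b ^ 2 * ((U.symm e3) 2) ^ 2 := by
      rw [← mul_pow, ← h1]; norm_num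
    nlinarith [sq_nonneg b]
  have hb0 : b ≠ 0 := by
    intro h0
    rw [h0] at hb2
    norm_num at hb2
  -- horizontal vectors
  have hhor : ∀ α β : ℝ, (U.symm (vec α β 0)) 2 = 0 := by
    intro α β
    have h1 := hU2 (U.symm (vec α β 0))
    rw [U.apply_symm_apply, vec_2] at h1
    rcases mul_eq_zero.mp h1.symm with h2 | h2
    · exact absurd h2 hb0
    · exact h2
  have hnorm : ∀ α β : ℝ, ((U.symm (vec α β 0)) 0) ^ 2 + ((U.symm (vec α β 0)) 1) ^ 2
      = α ^ 2 + β ^ 2 := by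
    intro α β
    have h1 := G1_dt_UU' U (vec α β 0)
    unfold dt at h1
    rw [hhor] at h1
    simp only [vec_0, vec_1, vec_2] at h1
    linarith
  -- the main identity
  have hmain : ∀ (α β : ℝ) p, α * N (ψ p) 0 + 2 * β * N (ψ p) 1 + (α + β) * N (ψ p) 2
      = (U.symm (vec α β 0)) 0 * M p 0 + 2 * (U.symm (vec α β 0)) 1 * M p 1
        + ((U.symm (vec α β 0)) 0 + (U.symm (vec α β 0)) 1) * M p 2 + dt (vec α β 0) a := by
    intro α β p
    have h1 : dt (vec α β 0) (Lm (N (ψ p))) = dt (vec α β 0) (A (Lm (M p))) := by rw [hA p]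
    rw [hAv, G1_dt_add, G1_dt_U] at h1
    have h2 : dt (vec α β 0) (Lm (N (ψ p)))
        = α * N (ψ p) 0 + 2 * β * N (ψ p) 1 + (α + β) * N (ψ p) 2 := by
      simp only [dt, vec_0, vec_1, vec_2, Lm_0, Lm_1, Lm_2]; ring
    have h3 : dt (U.symm (vec α β 0)) (Lm (M p))
        = (U.symm (vec α β 0)) 0 * M p 0 + 2 * (U.symm (vec α β 0)) 1 * M p 1
        + ((U.symm (vec α β 0)) 0 + (U.symm (vec α β 0)) 1) * M p 2 := by
      simp only [dt, Lm_0, Lm_1, Lm_2, hhor]; ring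
    rw [h2, h3] at h1
    exact h1
  have hneg : ∀ α β : ℝ, (U.symm (vec (-α) (-β) 0)) = -(U.symm (vec α β 0)) := by
    intro α β
    have : vec (-α) (-β) 0 = -(vec α β 0) := by
      apply ext3 <;> simp
    rw [this, map_neg]
  have hneg0 : ∀ α β : ℝ, (U.symm (vec (-α) (-β) 0)) 0 = -((U.symm (vec α β 0)) 0) := by
    intro α β; rw [hneg]; rfl
  have hneg1 : ∀ α β : ℝ, (U.symm (vec (-α) (-β) 0)) 1 = -((U.symm (vec α β 0)) 1) := by
    intro α β; rw [hneg]; rfl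
  have hnega : ∀ α β : ℝ, dt (vec (-α) (-β) 0) a = - dt (vec α β 0) a := by
    intro α β
    simp only [dt, vec_0, vec_1, vec_2]; ring
  rcases (show b = 1 ∨ b = -1 by
    have h0 : (b - 1) * (b + 1) = 0 := by nlinarith
    rcases mul_eq_zero.mp h0 with h | h
    · left; linarith
    · right; linarith) with hb1 | hb1
  · -- b = 1
    rw [hb1] at hN2'
    have ha2 : a 2 = 0 := by
      have h1 := hN2' (ψ.symm q1)
      rw [ψ.apply_symm_apply, (topN q1).mpr hq1] at h1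
      have h2 := hN2' q1
      rw [(topM q1).mpr hq1] at h2
      have h3 := (zM (ψ.symm q1)).1
      have h4 := (zN (ψ q1)).1
      linarith
    have hKT' : ∀ p, ψ p ∈ KT ↔ p ∈ KT := by
      intro p
      rw [← topN, ← topM, hN2', ha2]
      constructor <;> intro h <;> linarith
    have hKB' : ∀ p, ψ p ∈ KB ↔ p ∈ KB := by
      intro p
      rw [← botN, ← botM, hN2', ha2]
      constructor <;> intro h <;> linarith
    have hT1 : ∀ α β : ℝ, t * √(α ^ 2 + (2 * β) ^ 2) + (α + β) * H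
        = t * √((U.symm (vec α β 0) 0) ^ 2 + (2 * (U.symm (vec α β 0)) 1) ^ 2)
          + (((U.symm (vec α β 0)) 0 + (U.symm (vec α β 0)) 1) * H + dt (vec α β 0) a) := by
      intro α β
      apply G1_great ψ _ _ KT KT _ _ _ _ (supTN α (2 * β))
        (supTM ((U.symm (vec α β 0)) 0) (2 * (U.symm (vec α β 0)) 1)) hKT'
      intro p hp
      have h1 := hmain α β p
      rw [(topM p).mpr hp, (topN (ψ p)).mpr ((hKT' p).mpr hp)] at h1
      linarith
    have hB1 : ∀ α β : ℝ, t' * √(α ^ 2 + (2 * β) ^ 2) + (α + β) * (-H)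
        = t' * √((U.symm (vec α β 0) 0) ^ 2 + (2 * (U.symm (vec α β 0)) 1) ^ 2)
          + (((U.symm (vec α β 0)) 0 + (U.symm (vec α β 0)) 1) * (-H) + dt (vec α β 0) a) := by
      intro α β
      apply G1_great ψ _ _ KB KB _ _ _ _ (supBN α (2 * β))
        (supBM ((U.symm (vec α β 0)) 0) (2 * (U.symm (vec α β 0)) 1)) hKB'
      intro p hp
      have h1 := hmain α β p
      rw [(botM p).mpr hp, (botN (ψ p)).mpr ((hKB' p).mpr hp)] at h1
      linarith
    have hsq : ∀ α β : ℝ, √(α ^ 2 + (2 * β) ^ 2)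
        = √((U.symm (vec α β 0) 0) ^ 2 + (2 * (U.symm (vec α β 0)) 1) ^ 2) := by
      intro α β
      have h1 := hT1 α β
      have h2 := hT1 (-α) (-β)
      rw [hneg0, hneg1, hnega, neg_sq, mul_neg, neg_sq, neg_sq, mul_neg, neg_sq] at h2
      have h3 : t * √(α ^ 2 + (2 * β) ^ 2)
        = t * √((U.symm (vec α β 0) 0) ^ 2 + (2 * (U.symm (vec α β 0)) 1) ^ 2) := by
        linarith
      exact mul_left_cancel₀ ht.ne' h3
    have hsq2 : ∀ α β : ℝ, α ^ 2 + (2 * β) ^ 2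
        = (U.symm (vec α β 0) 0) ^ 2 + (2 * (U.symm (vec α β 0)) 1) ^ 2 := by
      intro α β
      have h1 := hsq α β
      rwa [Real.sqrt_inj (by positivity) (by positivity)] at h1
    have hc : ∀ α β : ℝ, dt (vec α β 0) a = 0 ∧
        α + β = (U.symm (vec α β 0)) 0 + (U.symm (vec α β 0)) 1 := by
      intro α β
      have h1 := hT1 α β
      have h2 := hB1 α β
      have h3 := hsq α β
      rw [h3] at h1 h2
      have h4 : dt (vec α β 0) a = 0 := by linarith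
      refine ⟨h4, ?_⟩
      rw [h4] at h1
      have h5 : (α + β) * H = ((U.symm (vec α β 0)) 0 + (U.symm (vec α β 0)) 1) * H := by
        linarith
      exact mul_right_cancel₀ hH.ne' h5
    -- the images of the basis vectors
    have hv1 : vec 1 0 0 = e1 := by apply ext3 <;> simp
    have hv2 : vec 0 1 0 = e2 := by apply ext3 <;> simp
    have hs1 : U.symm e1 = e1 := by
      have h1 := hsq2 1 0
      have h2 := hnorm 1 0
      have h3 := (hc 1 0).2
      have h4 := hhor 1 0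
      rw [hv1] at h1 h2 h3 h4
      have h5 : (U.symm e1) 1 = 0 := by
        have : ((U.symm e1) 1) ^ 2 = 0 := by nlinarith
        exact pow_eq_zero_iff (two_ne_zero) |>.mp this
      apply ext3
      · rw [e1_0]; linarith
      · rw [e1_1]; exact h5
      · rw [e1_2]; exact h4
    have hs2 : U.symm e2 = e2 := by
      have h1 := hsq2 0 1
      have h2 := hnorm 0 1
      have h3 := (hc 0 1).2
      have h4 := hhor 0 1
      rw [hv2] at h1 h2 h3 h4
      have h5 : (U.symm e2) 0 = 0 := by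
        have : ((U.symm e2) 0) ^ 2 = 0 := by nlinarith
        exact pow_eq_zero_iff (two_ne_zero) |>.mp this
      apply ext3
      · rw [e2_0]; exact h5
      · rw [e2_1]; linarith
      · rw [e2_2]; exact h4
    have hs1' : U e1 = e1 := by
      conv_lhs => rw [← hs1]
      exact U.apply_symm_apply e1
    have hs2' : U e2 = e2 := by
      conv_lhs => rw [← hs2]
      exact U.apply_symm_apply e2
    have hs3' : U e3 = e3 := by
      have h3 : dt (U e3) (U e3) = 1 := by rw [G1_dt_UU]; simp [dt]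
      have h4 : (U e3) 2 = 1 := by rw [hU2, e3_2, mul_one, hb1]
      unfold dt at h3
      rw [h4] at h3
      have h5 : (U e3) 0 ^ 2 + (U e3) 1 ^ 2 = 0 := by linarith
      have h6 : (U e3) 0 ^ 2 = 0 := by nlinarith [sq_nonneg ((U e3) 0), sq_nonneg ((U e3) 1)]
      have h7 : (U e3) 1 ^ 2 = 0 := by nlinarith [sq_nonneg ((U e3) 0), sq_nonneg ((U e3) 1)]
      apply ext3
      · rw [e3_0]; exact pow_eq_zero_iff (two_ne_zero) |>.mp h6
      · rw [e3_1]; exact pow_eq_zero_iff (two_ne_zero) |>.mp h7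
      · rw [e3_2]; exact h4
    have ha0 : a = 0 := by
      have h1 := (hc 1 0).1
      have h2 := (hc 0 1).1
      simp only [dt, vec_0, vec_1, vec_2] at h1 h2
      apply ext3
      · show a 0 = 0
        linarith
      · show a 1 = 0
        linarith
      · show a 2 = 0
        exact ha2
    intro v
    rw [hAv, ha0, add_zero]
    conv_lhs => rw [eq_vec v]
    conv_rhs => rw [eq_vec v]
    unfold vec
    rw [map_add, map_add, map_smul, map_smul, map_smul, hs1', hs2', hs3']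
  · -- b = -1
    exfalso
    rw [hb1] at hN2'
    obtain ⟨q3, hq3⟩ := hKB
    have ha2 : a 2 = 0 := by
      have h1 := hN2' (ψ.symm q1)
      rw [ψ.apply_symm_apply, (topN q1).mpr hq1] at h1
      have h2 := hN2' (ψ.symm q3)
      rw [ψ.apply_symm_apply, (botN q3).mpr hq3] at h2
      have h3 := (zM (ψ.symm q1)).2
      have h4 := (zM (ψ.symm q3)).1
      linarith
    have hKT' : ∀ p, ψ p ∈ KT ↔ p ∈ KB := by
      intro p
      rw [← topN, ← botM, hN2', ha2]
      constructor <;> intro h <;> linarith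
    have hT1 : ∀ α β : ℝ, t * √(α ^ 2 + (2 * β) ^ 2) + (α + β) * H
        = t' * √((U.symm (vec α β 0) 0) ^ 2 + (2 * (U.symm (vec α β 0)) 1) ^ 2)
          + (((U.symm (vec α β 0)) 0 + (U.symm (vec α β 0)) 1) * (-H) + dt (vec α β 0) a) := by
      intro α β
      apply G1_great ψ _ _ KT KB _ _ _ _ (supTN α (2 * β))
        (supBM ((U.symm (vec α β 0)) 0) (2 * (U.symm (vec α β 0)) 1)) hKT'
      intro p hp
      have h1 := hmain α β p
      rw [(botM p).mpr hp, (topN (ψ p)).mpr ((hKT' p).mpr hp)] at h1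
      linarith
    have h1 := hT1 1 0
    have h2 := hT1 (-1) (-0)
    rw [hneg0, hneg1, hnega, neg_sq, mul_neg, neg_sq, neg_sq, mul_neg, neg_sq] at h2
    have h3 : t * √((1 : ℝ) ^ 2 + (2 * 0) ^ 2)
        = t' * √((U.symm (vec 1 0 0) 0) ^ 2 + (2 * (U.symm (vec 1 0 0)) 1) ^ 2) := by
      linarith
    have h4 := hnorm 1 0
    have h5 : √((1 : ℝ) ^ 2 + (2 * 0) ^ 2) = 1 := by norm_num
    rw [h5, mul_one] at h3
    have h6 : 1 ≤ √((U.symm (vec 1 0 0) 0) ^ 2 + (2 * (U.symm (vec 1 0 0)) 1) ^ 2) := by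
      rw [Real.one_le_sqrt]
      have h9 := sq_nonneg ((U.symm (vec 1 0 0)) 1)
      have h10 : (2 * (U.symm (vec 1 0 0)) 1) ^ 2 = 4 * ((U.symm (vec 1 0 0)) 1) ^ 2 := by ring
      rw [h10]
      linarith
    have h7 : 0 < t' := lt_trans ht htt
    have h8 : t' * 1 ≤ t' * √((U.symm (vec 1 0 0) 0) ^ 2 + (2 * (U.symm (vec 1 0 0)) 1) ^ 2) :=
      mul_le_mul_of_nonneg_left h6 h7.le
    linarith



end Pool.Agent.Helper331.TT
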