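import Pool.Agent.Helper331.TT.Defs
set_option autoImplicit false
open scoped Manifold ContDiff
open Set Filter Topology

namespace Pool.Agent.Helper331.TT

theorem path_fix {X Y : Type*} [TopologicalSpace X] [T2Space X] {M N : X → Y} {ψ : X → X} (hψ : Continuous ψ)
    (hMN : ∀ p, N (ψ p) = M p) {γ : ℝ → X} (hγ : Continuous γ) {a b : ℝ} (hab : a ≤ b)
    (h0 : ψ (γ a) = γ a)
    (hloc : ∀ t, a ≤ t → t < b → ∃ U ∈ 𝓝 (γ t), InjOn N U ∧ ∀ q ∈ U, M q = N q) :
    ψ (γ b) = γ b := by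
  have hcl : IsClosed {t : ℝ | ψ (γ t) = γ t} := isClosed_eq (hψ.comp hγ) hγ
  have hsub : Icc a b ⊆ {t : ℝ | ψ (γ t) = γ t} := by
    apply IsClosed.Icc_subset_of_forall_mem_nhdsWithin (hcl.inter isClosed_Icc)
    · exact h0
    · rintro x ⟨hx, hxa, hxb⟩
      have hx' : ψ (γ x) = γ x := hx
      obtain ⟨U, hU, hinj, hMNU⟩ := hloc x hxa hxb
      apply mem_nhdsWithin_of_mem_nhds
      have h1 : ∀ᶠ t in 𝓝 x, γ t ∈ U := hγ.continuousAt.eventually hU
      have h2 : ∀ᶠ t in 𝓝 x, ψ (γ t) ∈ U := by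
        have hc : ContinuousAt (fun t => ψ (γ t)) x := (hψ.comp hγ).continuousAt
        apply hc.eventually
        show U ∈ 𝓝 (ψ (γ x))
        rw [hx']
        exact hU
      filter_upwards [h1, h2] with t ht1 ht2
      show ψ (γ t) = γ t
      apply hinj ht2 ht1
      rw [hMN, hMNU _ ht1]
  exact hsub ⟨hab, le_rfl⟩


end Pool.Agent.Helper331.TT
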