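import Pool.Agent.Helper331.TT.Defs
set_option autoImplicit false
open scoped Manifold ContDiff
open Set Filter Topology

namespace Pool.Agent.Helper331.TT

theorem G4_aux {E F : Type} [NormedAddCommGroup E] [NormedSpace ℝ E] [NormedAddCommGroup F]
    [NormedSpace ℝ F] [FiniteDimensional ℝ E] (f : E → F) (f' : E →L[ℝ] F) (p : E)
    (hs : HasStrictFDerivAt f f' p) (hI : Function.Injective f') :
    ∃ U ∈ 𝓝 p, InjOn f U := by
  obtain ⟨K, hK0, hK⟩ := LinearMap.exists_antilipschitzWith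
    (f' : E →ₗ[ℝ] F) (LinearMap.ker_eq_bot.mpr hI)
  have hK0' : (0 : ℝ) < K := hK0
  have hlow : ∀ v : E, ‖v‖ ≤ K * ‖f' v‖ := by
    intro v
    have h := hK.le_mul_dist v 0
    rw [map_zero, dist_zero_right, dist_zero_right] at h
    exact h
  have h1 := hs.isLittleO.def (c := 1 / (2 * K)) (by positivity)
  rw [nhds_prod_eq] at h1
  obtain ⟨U, hU, hUU⟩ := Filter.mem_prod_same_iff.mp h1
  refine ⟨U, hU, ?_⟩
  intro a ha b hb hab
  have h2 : ‖f a - f b - f' (a - b)‖ ≤ 1 / (2 * K) * ‖a - b‖ :=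
    hUU (Set.mk_mem_prod ha hb)
  rw [hab, sub_self, zero_sub, norm_neg] at h2
  have h3 := hlow (a - b)
  have h4 : (K : ℝ) * ‖f' (a - b)‖ ≤ K * (1 / (2 * K) * ‖a - b‖) := by gcongr
  have h5 : (K : ℝ) * (1 / (2 * K) * ‖a - b‖) = ‖a - b‖ / 2 := by
    field_simp
  rw [h5] at h4
  have h6 : ‖a - b‖ = 0 := by
    have := norm_nonneg (a - b)
    linarith
  exact sub_eq_zero.mp (norm_eq_zero.mp h6)

theorem imm_locInj {Φ : ℝ × ℝ → E3} (hΦ : ContDiff ℝ ∞ Φ) {p : ℝ × ℝ} (hI : Imm Φ p) :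
    ∃ U ∈ 𝓝 p, InjOn Φ U :=
  G4_aux Φ (fderiv ℝ Φ p) p (hΦ.contDiffAt.hasStrictFDerivAt (by simp)) hI


end Pool.Agent.Helper331.TT
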