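import Pool.Agent.Helper331.TT.Defs
set_option autoImplicit false
open scoped Manifold ContDiff
open Set Filter Topology

namespace Pool.Agent.Helper331.TT

theorem no_meet {B V : ℝ × ℝ → E3} {p : ℝ × ℝ} (hB : ContDiff ℝ ∞ B) (hI : Imm B p) (n : E3)
    (hn : ∀ w, dt n (fderiv ℝ B p w) = 0) {δ : ℝ} (hδ : 0 < δ)
    (hV : ∀ᶠ q in 𝓝 p, δ * ‖V q‖ ≤ dt n (V q)) :
    ∃ U ∈ 𝓝 p, ∀ q ∈ U, ∀ q' ∈ U, V q ≠ 0 → B q + V q ≠ B q' - V q' := by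
  obtain ⟨K, hK0, hK⟩ := LinearMap.exists_antilipschitzWith ((fderiv ℝ B p : (ℝ × ℝ) →L[ℝ] E3) : (ℝ × ℝ) →ₗ[ℝ] E3)
    (LinearMap.ker_eq_bot.mpr hI)
  have hK0' : (0 : ℝ) < K := hK0
  have hKb : ∀ w : ℝ × ℝ, ‖w‖ ≤ K * ‖fderiv ℝ B p w‖ := by
    intro w
    have h := hK.le_mul_dist w 0
    simpa [dist_zero_right] using h
  have hn0 : 0 ≤ ‖n‖ := norm_nonneg n
  set c : ℝ := δ / (2 * K * (δ + ‖n‖)) with hc
  have hc0 : 0 < c := by positivity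
  have hcK : K * c * (δ + ‖n‖) = δ / 2 := by
    rw [hc]; field_simp
  have hs : HasStrictFDerivAt B (fderiv ℝ B p) p :=
    (hB.contDiffAt (x := p)).hasStrictFDerivAt (by simp)
  have hlo := hs.isLittleO.def hc0
  rw [nhds_prod_eq] at hlo
  obtain ⟨U1, hU1, U2, hU2, hU12⟩ := Filter.mem_prod_iff.mp hlo
  refine ⟨U1 ∩ U2 ∩ {q | δ * ‖V q‖ ≤ dt n (V q)}, Filter.inter_mem (Filter.inter_mem hU1 hU2) hV, ?_⟩
  rintro q ⟨⟨hq1, hq2⟩, hq3⟩ q' ⟨⟨hq1', hq2'⟩, hq3'⟩ hVq heq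
  simp only [Set.mem_setOf_eq] at hq3 hq3'
  have hb : ‖B q' - B q - fderiv ℝ B p (q' - q)‖ ≤ c * ‖q' - q‖ := by
    have := hU12 (Set.mk_mem_prod hq1' hq2)
    simpa using this
  have hdiff : B q' - B q = V q + V q' := by
    have h1 : B q' = B q + V q + V q' := by rw [heq]; abel
    rw [h1]; abel
  have hdtadd : ∀ u v : E3, dt n (u + v) = dt n u + dt n v := by
    intro u v; rw [← inner_eq_dt, ← inner_eq_dt, ← inner_eq_dt, inner_add_right]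
  have hdtsub : ∀ u v : E3, dt n (u - v) = dt n u - dt n v := by
    intro u v; rw [← inner_eq_dt, ← inner_eq_dt, ← inner_eq_dt, inner_sub_right]
  have hdtle : ∀ u : E3, dt n u ≤ ‖n‖ * ‖u‖ := by
    intro u; rw [← inner_eq_dt]; exact real_inner_le_norm n u
  have h1 : δ * ‖B q' - B q‖ ≤ ‖n‖ * (c * ‖q' - q‖) := by
    calc δ * ‖B q' - B q‖ = δ * ‖V q + V q'‖ := by rw [hdiff]
      _ ≤ δ * (‖V q‖ + ‖V q'‖) := by gcongr; exact norm_add_le _ _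
      _ ≤ dt n (V q) + dt n (V q') := by linarith
      _ = dt n (B q' - B q) := by rw [hdiff, hdtadd]
      _ = dt n (B q' - B q - fderiv ℝ B p (q' - q)) := by rw [hdtsub _ (fderiv ℝ B p (q' - q)), hn]; ring
      _ ≤ ‖n‖ * ‖B q' - B q - fderiv ℝ B p (q' - q)‖ := hdtle _
      _ ≤ ‖n‖ * (c * ‖q' - q‖) := by gcongr
  have h2 : ‖fderiv ℝ B p (q' - q)‖ ≤ ‖B q' - B q‖ + c * ‖q' - q‖ := by
    have : fderiv ℝ B p (q' - q) = (B q' - B q) - (B q' - B q - fderiv ℝ B p (q' - q)) := by abel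
    calc ‖fderiv ℝ B p (q' - q)‖ = ‖(B q' - B q) - (B q' - B q - fderiv ℝ B p (q' - q))‖ := by rw [← this]
      _ ≤ ‖B q' - B q‖ + ‖B q' - B q - fderiv ℝ B p (q' - q)‖ := norm_sub_le _ _
      _ ≤ _ := by gcongr
  have h3 := hKb (q' - q)
  have hw0 : 0 ≤ ‖q' - q‖ := norm_nonneg _
  have h4 : δ * ‖q' - q‖ ≤ (K * c * (δ + ‖n‖)) * ‖q' - q‖ := by
    calc δ * ‖q' - q‖ ≤ δ * (K * ‖fderiv ℝ B p (q' - q)‖) := by gcongr
      _ ≤ δ * (K * (‖B q' - B q‖ + c * ‖q' - q‖)) := by gcongr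
      _ = K * (δ * ‖B q' - B q‖) + K * c * δ * ‖q' - q‖ := by ring
      _ ≤ K * (‖n‖ * (c * ‖q' - q‖)) + K * c * δ * ‖q' - q‖ := by gcongr
      _ = _ := by ring
  rw [hcK] at h4
  have hw : ‖q' - q‖ = 0 := by nlinarith
  have hqq : q' = q := sub_eq_zero.mp (norm_eq_zero.mp hw)
  subst hqq
  have hz : V q' + V q' = 0 := by rw [← hdiff]; simp
  apply hVq
  have h5 : (2 : ℝ) • V q' = 0 := by rw [two_smul]; exact hz
  exact (smul_eq_zero.mp h5).resolve_left (by norm_num)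


end Pool.Agent.Helper331.TT
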