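import Pool.Agent.Helper331.TT.Defs
import Pool.Agent.Helper331.TT.B1
import Pool.Agent.Helper331.TT.C1
import Pool.Agent.Helper331.TT.C1s
import Pool.Agent.Helper331.TT.C4
set_option autoImplicit false
open scoped Manifold ContDiff
open Set Filter Topology

namespace Pool.Agent.Helper331.TT


theorem G6_bmp_nonneg (t : ℝ) : 0 ≤ bmp t :=
  mul_nonneg (expNegInvGlue.nonneg t) (expNegInvGlue.nonneg _)

theorem G6_bmp_zero {t : ℝ} (ht : t ≤ 0) : bmp t = 0 := by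
  simp [bmp, expNegInvGlue.zero_of_nonpos ht]

theorem G6_dbmp_zero {t : ℝ} (ht : t ≤ 0) : deriv bmp t = 0 := by
  apply IsLocalMin.deriv_eq_zero
  refine Filter.Eventually.of_forall (fun s => ?_)
  rw [G6_bmp_zero ht]; exact G6_bmp_nonneg s

theorem G6_dbmp {t : ℝ} (h0 : 0 < t) (h1 : t < 1) :
    deriv bmp t = bmp t * (1 / t ^ 2 - 1 / (1 - t) ^ 2) := by
  have hev : bmp =ᶠ[𝓝 t] fun s => Real.exp (-s⁻¹) * Real.exp (-(1 - s)⁻¹) := by
    filter_upwards [Ioo_mem_nhds h0 h1] with s hs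
    have a1 : ¬ s ≤ 0 := not_le.mpr hs.1
    have a2 : ¬ (1 - s) ≤ 0 := not_le.mpr (by linarith [hs.2])
    simp [bmp, expNegInvGlue, a1, a2]
  have hne : t ≠ 0 := h0.ne'
  have hne' : 1 - t ≠ 0 := by linarith
  have hd : HasDerivAt (fun s => Real.exp (-s⁻¹) * Real.exp (-(1 - s)⁻¹))
      (Real.exp (-t⁻¹) * (-(-(1:ℝ) / t ^ 2)) * Real.exp (-(1 - t)⁻¹)
        + Real.exp (-t⁻¹) * (Real.exp (-(1 - t)⁻¹) * (-(-(-1:ℝ) / (1 - t) ^ 2)))) t := by
    have e1 : HasDerivAt (fun s : ℝ => -s⁻¹) (-(-(1:ℝ) / t ^ 2)) t := ((hasDerivAt_id t).inv hne).neg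
    have e2 : HasDerivAt (fun s : ℝ => -(1 - s)⁻¹) (-(-(-1:ℝ) / (1 - t) ^ 2)) t :=
      (((hasDerivAt_id t).const_sub 1).inv hne').neg
    exact e1.exp.mul e2.exp
  rw [hev.deriv_eq, hd.deriv, hev.self_of_nhds]
  ring

noncomputable def G6_h (t : ℝ) : ℝ := t ^ 2 * (1 - t) ^ 2 / (1 - 2 * t)

theorem G6_bmp_eq {t : ℝ} (ht : t < 1 / 2) : bmp t = G6_h t * deriv bmp t := by
  rcases le_or_gt t 0 with h | h
  · rw [G6_bmp_zero h, G6_dbmp_zero h, mul_zero]
  · rw [G6_dbmp h (by linarith), G6_h]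
    have h1 : t ≠ 0 := h.ne'
    have h2 : 1 - t ≠ 0 := by linarith
    have h3 : 1 - 2 * t ≠ 0 := by linarith
    have h4 : t ^ 2 * (1 - t) ^ 2 / (1 - 2 * t) * (bmp t * (1 / t ^ 2 - 1 / (1 - t) ^ 2))
        = bmp t * (((1 - t) ^ 2 - t ^ 2) / (1 - 2 * t)) := by
      field_simp
    rw [h4, show (1 - t) ^ 2 - t ^ 2 = 1 - 2 * t by ring, div_self h3, mul_one]

theorem G6_dbmp_pos {t : ℝ} (h0 : 0 < t) (ht : t < 1 / 2) : 0 < deriv bmp t := by
  rw [G6_dbmp h0 (by linarith)]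
  have hb : 0 < bmp t := mul_pos (expNegInvGlue.pos_of_pos h0) (expNegInvGlue.pos_of_pos (by linarith))
  apply mul_pos hb
  have h1 : (0:ℝ) < t ^ 2 := by positivity
  have h2 : t ^ 2 < (1 - t) ^ 2 := by nlinarith
  have := one_div_lt_one_div_of_lt h1 h2
  linarith

theorem G6_dbmp_nonneg {t : ℝ} (ht : t < 1 / 2) : 0 ≤ deriv bmp t := by
  rcases le_or_gt t 0 with h | h
  · rw [G6_dbmp_zero h]
  · exact (G6_dbmp_pos h ht).le

theorem G6_gam_ev : gam =ᶠ[𝓝 0] fun t => t := by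
  filter_upwards [Ioo_mem_nhds (show (-1:ℝ) < 0 by norm_num) (show (0:ℝ) < 1 by norm_num)] with t ht
  have : (t ^ 2 - 1) / 3 ≤ 0 := by
    have : t ^ 2 ≤ 1 := by nlinarith [ht.1, ht.2]
    linarith
  simp [gam, Real.smoothTransition.zero_of_nonpos this]

theorem G6_gam_zero : gam 0 = 0 := by simp [gam]

theorem G6_gam_deriv : HasDerivAt gam 1 0 :=
  (hasDerivAt_id (0:ℝ)).congr_of_eventuallyEq G6_gam_ev

theorem G6_Sm_pos (v : E3) (hv : v ≠ 0) : 0 < dt v (Sm v) := by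
  have hne : 0 < dt v v := by
    rw [← norm_sq_eq_dt]; positivity
  simp only [dt, Sm_0, Sm_1, Sm_2] at *
  by_contra hcon
  push Not at hcon
  have key : v 0 * (2 * v 0 + 1 / 2 * v 1 - v 2) + v 1 * (1 / 2 * v 0 + 1 / 2 * v 1 - 1 / 2 * v 2)
      + v 2 * (-v 0 - 1 / 2 * v 1 + v 2) = (v 0) ^ 2 + (v 1 / 2) ^ 2 + (v 0 + v 1 / 2 - v 2) ^ 2 := by ring
  rw [key] at hcon
  have h0 : v 0 = 0 := by
    have : (v 0) ^ 2 ≤ 0 := by nlinarith [sq_nonneg (v 1 / 2), sq_nonneg (v 0 + v 1 / 2 - v 2)]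
    nlinarith [sq_nonneg (v 0), pow_eq_zero_iff (n := 2) (a := v 0) (by norm_num) |>.1 (le_antisymm this (sq_nonneg _))]
  have h1 : v 1 = 0 := by
    have : (v 1 / 2) ^ 2 ≤ 0 := by nlinarith [sq_nonneg (v 0), sq_nonneg (v 0 + v 1 / 2 - v 2)]
    have := pow_eq_zero_iff (n := 2) (a := v 1 / 2) (by norm_num) |>.1 (le_antisymm this (sq_nonneg _))
    linarith
  have h2 : v 2 = 0 := by
    have : (v 0 + v 1 / 2 - v 2) ^ 2 ≤ 0 := by nlinarith [sq_nonneg (v 0), sq_nonneg (v 1 / 2)]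
    have := pow_eq_zero_iff (n := 2) (a := v 0 + v 1 / 2 - v 2) (by norm_num) |>.1 (le_antisymm this (sq_nonneg _))
    linarith
  rw [h0, h1, h2] at hne
  norm_num at hne

theorem G6_P_ne (D : Data) (x : ℝ) : D.P x ≠ 0 := by
  intro h
  have h0 : dt (D.P x) (D.P x) = 0 := by rw [h]; simp [dt]
  have hom := D.om_pos x
  have : dt (D.P x) (D.P x) = 2 * (D.om x * D.q x) ^ 2 + (D.om x) ^ 2 := by
    simp only [dt, Data.P, fr, vec_0, vec_1, vec_2]
    have := Real.sin_sq_add_cos_sq x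
    linear_combination ((D.om x * D.q x) ^ 2 + (D.om x) ^ 2) * this
  have h3 : 0 < (D.om x) ^ 2 := by positivity
  nlinarith [sq_nonneg (D.om x * D.q x)]

/-- `dt u` as a continuous linear map -/
noncomputable def G6_dtL (u : E3) : E3 →L[ℝ] ℝ :=
  u 0 • EuclideanSpace.proj (0 : Fin 3) + u 1 • EuclideanSpace.proj (1 : Fin 3)
    + u 2 • EuclideanSpace.proj (2 : Fin 3)

theorem G6_dtL_apply (u v : E3) : G6_dtL u v = dt u v := by
  simp [G6_dtL, dt]

/-- the normalised bending field -/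
noncomputable def G6_W (D : Data) (ε e0 : ℝ) (p : ℝ × ℝ) : E3 :=
  (-(1 / e0) + 2 * D.f p.1 * rho D p * G6_h (eta D ε p / e0)) • D.P p.1
  + (2 * uu D p * (1 / e0) - 4 * rho D p * G6_h (eta D ε p / e0)) • D.X p.1

theorem G6_vth_eq (D : Data) (ε e0 : ℝ) (p : ℝ × ℝ) (h : eta D ε p / e0 < 1 / 2) :
    vth D ε e0 p = deriv bmp (eta D ε p / e0) • G6_W D ε e0 p := by
  rw [vth, G6_W, G6_bmp_eq h, smul_add, smul_smul, smul_smul]
  congr 1
  · congr 1; ring
  · congr 1; ring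

theorem G6_cont_eta (D : Data) (ε : ℝ) (x0 : ℝ) : ContinuousAt (eta D ε) (x0, 0) := by
  have hA : Continuous D.A := D.smooth_A.continuous
  have hf : Continuous D.f := D.f_smooth.continuous
  have hg : Continuous gam := smooth_gam.continuous
  have hA0 : D.A x0 ≠ 0 := (D.A_pos x0).ne'
  unfold eta uu
  apply ContinuousAt.div
  · apply ContinuousAt.div
    · fun_prop
    · fun_prop
    · simpa using hA0
  · apply ContinuousAt.sub
    · fun_prop
    · apply ContinuousAt.div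
      · fun_prop
      · fun_prop
      · simpa using hA0
  · simp [G6_gam_zero]

theorem G6_cont_uu (D : Data) (x0 : ℝ) : ContinuousAt (uu D) (x0, 0) := by
  have hA : Continuous D.A := D.smooth_A.continuous
  have hA0 : D.A x0 ≠ 0 := (D.A_pos x0).ne'
  unfold uu
  apply ContinuousAt.div
  · fun_prop
  · fun_prop
  · simpa using hA0

theorem G6_eta0 (D : Data) (ε : ℝ) (x0 : ℝ) : eta D ε (x0, 0) = 0 := by simp [eta, uu]

theorem G6_W0 (D : Data) (ε e0 : ℝ) (x0 : ℝ) : G6_W D ε e0 (x0, 0) = (-(1 / e0)) • D.P x0 := by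
  simp [G6_W, G6_eta0, uu, G6_h]

theorem G6_cont_W (D : Data) (ε e0 : ℝ) (x0 : ℝ) : ContinuousAt (G6_W D ε e0) (x0, 0) := by
  have hf : Continuous D.f := D.f_smooth.continuous
  have hP : Continuous D.P := D.smooth_P.continuous
  have hX : Continuous D.X := D.smooth_X.continuous
  have hη := G6_cont_eta D ε x0
  have hu := G6_cont_uu D x0
  have hρ : ContinuousAt (rho D) (x0, 0) := by
    unfold rho
    exact continuousAt_const.sub ((hf.comp continuous_fst).continuousAt.mul hu)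
  have hh : ContinuousAt (fun p => G6_h (eta D ε p / e0)) (x0, 0) := by
    have h1 : ContinuousAt G6_h (eta D ε (x0, 0) / e0) := by
      rw [G6_eta0, zero_div]
      unfold G6_h
      apply ContinuousAt.div
      · fun_prop
      · fun_prop
      · norm_num
    exact ContinuousAt.comp (f := fun p => eta D ε p / e0) (g := G6_h) h1 (hη.div_const e0)
  have hf' : ContinuousAt (fun p : ℝ × ℝ => D.f p.1) (x0, 0) := (hf.comp continuous_fst).continuousAt
  have hP' : ContinuousAt (fun p : ℝ × ℝ => D.P p.1) (x0, 0) := (hP.comp continuous_fst).continuousAt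
  have hX' : ContinuousAt (fun p : ℝ × ℝ => D.X p.1) (x0, 0) := (hX.comp continuous_fst).continuousAt
  unfold G6_W
  fun_prop

theorem G6_eta_pos_ev (D : Data) {ε : ℝ} (x0 : ℝ) :
    ∀ᶠ l in 𝓝[>] (0:ℝ), 0 < eta D ε (x0, l) := by
  have hA0 := D.A_pos x0
  have hden : ContinuousAt (fun l : ℝ => 1 - D.f x0 * (ε * gam (l / ε)) / (2 * D.A x0)) 0 := by
    have hg : Continuous gam := smooth_gam.continuous
    fun_prop
  have hpos : ∀ᶠ l in 𝓝 (0:ℝ), 0 < 1 - D.f x0 * (ε * gam (l / ε)) / (2 * D.A x0) := by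
    apply hden.eventually (lt_mem_nhds _)
    simp [G6_gam_zero]
  filter_upwards [self_mem_nhdsWithin, nhdsWithin_le_nhds hpos] with l hl h2
  unfold eta uu
  simp only
  have hl' : (0:ℝ) < l := hl
  positivity

theorem vth_dir (D : Data) {ε e0 : ℝ} (hε : 0 < ε) (he0 : 0 < e0)
    (hεA : ∀ x, |D.f x| * ε ≤ D.A x / 2) (he0A : ∀ x, 3 * D.A x * e0 < ε) (x0 : ℝ) :
    (∃ δ : ℝ, 0 < δ ∧ ∀ᶠ q in 𝓝 (x0, (0 : ℝ)), δ * ‖Sm (vth D ε e0 q)‖ ≤ dt (-(D.P x0)) (Sm (vth D ε e0 q)))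
    ∧ (∃ᶠ q in 𝓝 (x0, (0 : ℝ)), vth D ε e0 q ≠ 0)
    ∧ (∀ w, dt (-(D.P x0)) (fderiv ℝ (Bth D ε) (x0, 0) w) = 0) := by
  have hη : ∀ᶠ q in 𝓝 (x0, (0:ℝ)), eta D ε q / e0 < 1 / 2 := by
    have h1 : ContinuousAt (fun q => eta D ε q / e0) (x0, 0) := (G6_cont_eta D ε x0).div_const e0
    apply h1.eventually (gt_mem_nhds _)
    show eta D ε (x0, 0) / e0 < 1 / 2
    rw [G6_eta0]; norm_num
  have hPne := G6_P_ne D x0
  have hκ := G6_Sm_pos _ hPne
  set κ := dt (D.P x0) (Sm (D.P x0)) with hκdef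
  set N := ‖Sm (D.P x0)‖ with hN
  have hN0 : 0 ≤ N := norm_nonneg _
  have hW := G6_cont_W D ε e0 x0
  refine ⟨⟨κ / (N + 1), by positivity, ?_⟩, ?_, ?_⟩
  · have hc : ContinuousAt (fun q => G6_dtL (-(D.P x0)) (Sm (G6_W D ε e0 q))
        - κ / (N + 1) * ‖Sm (G6_W D ε e0 q)‖) (x0, 0) := by
      have h1 : ContinuousAt (fun q => Sm (G6_W D ε e0 q)) (x0, 0) :=
        Sm.continuous.continuousAt.comp hW
      exact ((G6_dtL (-(D.P x0))).continuous.continuousAt.comp h1).sub (h1.norm.const_mul _)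
    have hpos : 0 < G6_dtL (-(D.P x0)) (Sm (G6_W D ε e0 (x0, 0)))
        - κ / (N + 1) * ‖Sm (G6_W D ε e0 (x0, 0))‖ := by
      rw [G6_W0, map_smul, map_smul, norm_smul, G6_dtL_apply]
      have e1 : dt (-(D.P x0)) (Sm (D.P x0)) = -κ := by
        simp only [hκdef, dt, PiLp.neg_apply]; ring
      rw [e1, ← hN, norm_neg, Real.norm_of_nonneg (by positivity : (0:ℝ) ≤ 1 / e0)]
      have e2 : κ / (N + 1) * N < κ := by
        rw [div_mul_eq_mul_div, div_lt_iff₀ (by positivity)]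
        nlinarith
      have e3 : 0 < 1 / e0 := by positivity
      have e4 : κ / (N + 1) * (1 / e0 * N) = (1 / e0) * (κ / (N + 1) * N) := by ring
      rw [e4, smul_eq_mul]
      nlinarith
    filter_upwards [hη, hc.eventually (lt_mem_nhds hpos)] with q h1 h2
    rw [G6_vth_eq D ε e0 q h1, map_smul, norm_smul, Real.norm_of_nonneg (G6_dbmp_nonneg h1)]
    rw [← G6_dtL_apply, map_smul, smul_eq_mul]
    have h3 := G6_dbmp_nonneg h1
    have h4 : κ / (N + 1) * ‖Sm (G6_W D ε e0 q)‖ ≤ G6_dtL (-(D.P x0)) (Sm (G6_W D ε e0 q)) := by linarith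
    calc κ / (N + 1) * (deriv bmp (eta D ε q / e0) * ‖Sm (G6_W D ε e0 q)‖)
        = deriv bmp (eta D ε q / e0) * (κ / (N + 1) * ‖Sm (G6_W D ε e0 q)‖) := by ring
      _ ≤ _ := mul_le_mul_of_nonneg_left h4 h3
  · have hWne : ∀ᶠ q in 𝓝 (x0, (0:ℝ)), G6_W D ε e0 q ≠ 0 := by
      apply hW.eventually_ne
      rw [G6_W0]
      apply smul_ne_zero _ hPne
      have : (0:ℝ) < 1 / e0 := by positivity
      linarith
    have htend : Tendsto (fun l : ℝ => (x0, l)) (𝓝[>] 0) (𝓝 (x0, (0:ℝ))) := by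
      have : Continuous (fun l : ℝ => (x0, l)) := by fun_prop
      exact (this.tendsto 0).mono_left nhdsWithin_le_nhds
    have hev : ∀ᶠ l in 𝓝[>] (0:ℝ), vth D ε e0 (x0, l) ≠ 0 := by
      filter_upwards [htend.eventually hη, htend.eventually hWne, G6_eta_pos_ev D (ε := ε) x0] with l a1 a2 a3
      rw [G6_vth_eq D ε e0 _ a1]
      exact smul_ne_zero (G6_dbmp_pos (by positivity) a1).ne' a2
    exact htend.frequently hev.frequently
  · intro w
    have hc : HasFDerivAt (fun p : ℝ × ℝ => D.c p.1)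
        ((ContinuousLinearMap.fst ℝ ℝ ℝ).smulRight (deriv D.c x0)) (x0, 0) := by
      have h1 : HasDerivAt D.c (deriv D.c x0) x0 :=
        (D.smooth_c.differentiable (by simp) x0).hasDerivAt
      have h2 : HasFDerivAt D.c ((1 : ℝ →L[ℝ] ℝ).smulRight (deriv D.c x0)) ((x0, (0:ℝ)).1) := h1.hasFDerivAt
      have h3 := h2.comp (x0, (0:ℝ)) hasFDerivAt_fst
      refine h3.congr_fderiv ?_
      ext <;> simp
    have hdl : HasFDerivAt (fun p : ℝ × ℝ => p.2 • dl p.1)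
        ((ContinuousLinearMap.snd ℝ ℝ ℝ).smulRight (dl x0)) (x0, 0) := by
      have h1 : DifferentiableAt ℝ (fun p : ℝ × ℝ => dl p.1) (x0, 0) := by
        have := (smooth_dl.differentiable (by simp) x0)
        exact DifferentiableAt.comp (x0, (0:ℝ)) (f := Prod.fst) (g := dl) this differentiableAt_fst
      have h3 := (hasFDerivAt_snd (𝕜 := ℝ) (p := (x0, (0:ℝ)))).smul h1.hasFDerivAt
      refine h3.congr_fderiv ?_
      ext <;> simp
    have hE : HasFDerivAt (fun p : ℝ × ℝ => (ε * gam (p.2 / ε)) • D.E p.1)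
        ((ContinuousLinearMap.snd ℝ ℝ ℝ).smulRight (D.E x0)) (x0, 0) := by
      have h1 : DifferentiableAt ℝ (fun p : ℝ × ℝ => D.E p.1) (x0, 0) := by
        have := (D.smooth_E.differentiable (by simp) x0)
        exact DifferentiableAt.comp (x0, (0:ℝ)) (f := Prod.fst) (g := D.E) this differentiableAt_fst
      have h2 : HasDerivAt (fun l : ℝ => ε * gam (l / ε)) 1 0 := by
        have a1 : HasDerivAt (fun l : ℝ => l / ε) (1 / ε) 0 := (hasDerivAt_id (0:ℝ)).div_const ε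
        have a2 : HasDerivAt gam 1 ((0:ℝ) / ε) := by rw [zero_div]; exact G6_gam_deriv
        have a3 := (a2.comp (0:ℝ) a1).const_mul ε
        refine a3.congr_deriv ?_
        field_simp
      have h2' : HasFDerivAt (fun l : ℝ => ε * gam (l / ε)) ((1 : ℝ →L[ℝ] ℝ).smulRight (1:ℝ)) ((x0, (0:ℝ)).2) :=
        h2.hasFDerivAt
      have h3 := (h2'.comp (x0, (0:ℝ)) hasFDerivAt_snd).smul h1.hasFDerivAt
      refine h3.congr_fderiv ?_
      ext <;> simp [G6_gam_zero]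
    have hB : HasFDerivAt (Bth D ε) ((ContinuousLinearMap.fst ℝ ℝ ℝ).smulRight (deriv D.c x0)
        + (ContinuousLinearMap.snd ℝ ℝ ℝ).smulRight (dl x0)
        + (ContinuousLinearMap.snd ℝ ℝ ℝ).smulRight (D.E x0)) (x0, 0) := (hc.add hdl).add hE
    rw [hB.fderiv]
    have p1 : dt (D.P x0) (deriv D.c x0) = 0 := by
      rw [D.deriv_c]
      simp only [dt, crs, vec_0, vec_1, vec_2]; ring
    have p2 := D.P_dl x0
    have p3 : dt (D.P x0) (D.E x0) = 0 := by
      rw [D.E_eq, ← G6_dtL_apply, map_smul, G6_dtL_apply, p1, smul_zero]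
    have q0 : ∀ v, dt (-(D.P x0)) v = - dt (D.P x0) v := by
      intro v; simp only [dt, PiLp.neg_apply]; ring
    rw [q0, ← G6_dtL_apply]
    simp only [_root_.add_apply, ContinuousLinearMap.smulRight_apply, map_add, map_smul,
      G6_dtL_apply, p1, p2, p3, smul_zero, add_zero, neg_zero]


end Pool.Agent.Helper331.TT
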