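import Pool.Agent.Helper331.TT.Defs
import Pool.Agent.Helper331.TT.H1
import Pool.Agent.Helper331.TT.E1
import Pool.Agent.Helper331.TT.F2
import Pool.Agent.Helper331.TT.F2p
import Pool.Agent.Helper331.TT.F4
set_option autoImplicit false
open scoped Manifold ContDiff
open Set Filter Topology

namespace Pool.Agent.Helper331.TT

theorem exists_TMap {D : Data} {R : Prof} {C0 ε e0 τ : ℝ} (G : Good D R C0 ε e0 τ) (τ' : ℝ) :
    ∃ M, TMap D R ε e0 τ' M := by
  obtain ⟨hτ, h2, h3⟩ := Prof.t2_T R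
  have hlt : R.τ2 < R.t2 := by
    exact R.τ2t2
  obtain ⟨f, hf1, hf2, hf3⟩ := exists_torus_map hτ hlt h2 (smooth_Φin G τ') (smooth_Φout R)
    (per_Φin D R ε e0 τ') (per_Φout R) (fun x s h1 h2 => Φin_Φout_top G τ' x s h1 h2)
    (fun x s h1 h2 => Φin_Φout_bot G τ' x s h1 h2)
  exact ⟨f, hf1, hf2, hf3⟩


end Pool.Agent.Helper331.TT
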