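import Pool.Agent.Helper331.TT.Defs
import Pool.Agent.Helper331.TT.H1
import Pool.Agent.Helper331.TT.E2
import Pool.Agent.Helper331.TT.E3
import Pool.Agent.Helper331.TT.E6
import Pool.Agent.Helper331.TT.F5
import Pool.Agent.Helper331.TT.D3b
set_option autoImplicit false
open scoped Manifold ContDiff
open Set Filter Topology

namespace Pool.Agent.Helper331.TT

theorem TMap.locmax {D : Data} {R : Prof} {C0 ε e0 τ τ' : ℝ} (G : Good D R C0 ε e0 τ) (hτ : |τ'| ≤ τ)
    {M : Circle × Circle → E3} (hM : TMap D R ε e0 τ' M) (ℓ : E3 →L[ℝ] ℝ) (hℓ : ℓ ≠ 0)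
    (p : Circle × Circle) (hp : IsLocalMax (fun q => ℓ (M q)) p) :
    (∃ x s μ : ℝ, p = cov R.T (x, s) ∧ R.t2 < s ∧ s < R.t2 + R.La ∧ 0 < μ ∧
      ∀ u, ℓ u = μ * dt (nu R (x, s)) u) ∨
    (ℓ e1 = 0 ∧ ℓ e2 = 0 ∧ (p ∈ KTop R ∨ p ∈ KBot R)) := by
  obtain ⟨h1, h2, h3⟩ := R.t2_T
  have hT : 0 < R.T := by have := R.τ2t2; linarith
  obtain ⟨x, s, hpx, hs⟩ := cov_surj h1 R.τ2t2 h2 p
  subst hpx
  have hev : ∀ᶠ q in 𝓝 (x, s), ℓ (M (cov R.T q)) ≤ ℓ (M (cov R.T (x, s))) := by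
    have h : ∀ᶠ q in 𝓝 (cov R.T (x, s)), ℓ (M q) ≤ ℓ (M (cov R.T (x, s))) := hp
    rw [← cov_nhds hT] at h
    exact Filter.eventually_map.mp h
  rcases hs with hs | ⟨hsa, hsb⟩
  · have hopen : ∀ᶠ q : ℝ × ℝ in 𝓝 (x, s), |q.2| < R.t2 := by
      have : IsOpen {q : ℝ × ℝ | |q.2| < R.t2} :=
        isOpen_lt (continuous_abs.comp continuous_snd) continuous_const
      exact this.mem_nhds hs
    have hlm : IsLocalMax (fun q => ℓ (Φin D R ε e0 τ' q)) (x, s) := by
      filter_upwards [hev, hopen] with q hq1 hq2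
      have e1 : M (cov R.T q) = Φin D R ε e0 τ' q := hM.hin q.1 q.2 hq2
      have e2 := hM.hin x s hs
      rw [e1, e2] at hq1
      exact hq1
    by_cases ht : |s| < R.t1
    · exact absurd hlm ((Φin_neg G τ' x s hτ ht).1 ℓ hℓ)
    · right
      rw [not_lt] at ht
      obtain ⟨ha, hb⟩ := (Φin_flat G τ' x s ht).2 ℓ hlm
      refine ⟨ha, hb, ?_⟩
      rcases le_total 0 s with h0 | h0
      · left
        rw [abs_of_nonneg h0] at hs ht
        exact ⟨x, s, ht, hs.le, rfl⟩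
      · right
        rw [abs_of_nonpos h0] at hs ht
        refine ⟨x, s + R.T, by linarith, by linarith, ?_⟩
        rw [cov_eq hT]
        exact ⟨0, 1, by simp, by simp⟩
  · have hopen : ∀ᶠ q : ℝ × ℝ in 𝓝 (x, s), R.τ2 < q.2 ∧ q.2 < R.T - R.τ2 := by
      have : IsOpen {q : ℝ × ℝ | R.τ2 < q.2 ∧ q.2 < R.T - R.τ2} :=
        (isOpen_lt continuous_const continuous_snd).inter
          (isOpen_lt continuous_snd continuous_const)
      exact this.mem_nhds ⟨hsa, hsb⟩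
    have hlm : IsLocalMax (fun q => ℓ (Φout R q)) (x, s) := by
      filter_upwards [hev, hopen] with q hq1 hq2
      have e1 : M (cov R.T q) = Φout R q := hM.hout q.1 q.2 hq2.1 hq2.2
      have e2 := hM.hout x s hsa hsb
      rw [e1, e2] at hq1
      exact hq1
    obtain ⟨μ, hμ, hform, hpos⟩ := outer_max R x s hsa hsb ℓ hℓ hlm
    by_cases hA : R.t2 < s
    · by_cases hB : s < R.t2 + R.La
      · left
        exact ⟨x, s, μ, rfl, hA, hB, hpos hA hB, hform⟩
      · right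
        rw [not_lt] at hB
        have hθ : R.θ s = Real.pi := R.θ_hi s hB
        refine ⟨?_, ?_, Or.inr ⟨x, s, hB, ?_, rfl⟩⟩
        · rw [hform]; simp [nu, hθ, dt]
        · rw [hform]; simp [nu, hθ, dt]
        · have := R.t12; linarith
    · right
      rw [not_lt] at hA
      have hθ : R.θ s = 0 := R.θ_lo s hA
      refine ⟨?_, ?_, Or.inl ⟨x, s, ?_, hA, rfl⟩⟩
      · rw [hform]; simp [nu, hθ, dt]
      · rw [hform]; simp [nu, hθ, dt]
      · have := R.t12; linarith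


end Pool.Agent.Helper331.TT
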