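import Pool.Agent.Helper331.TT.Defs
import Pool.Agent.Helper331.TT.E6
import Pool.Agent.Helper331.TT.D3c
import Pool.Agent.Helper331.TT.T3
set_option autoImplicit false
open scoped Manifold ContDiff
open Set Filter Topology

namespace Pool.Agent.Helper331.TT

theorem TMap.locmax_unique {D : Data} {R : Prof} {C0 ε e0 τ τ' : ℝ} (G : Good D R C0 ε e0 τ) (hτ : |τ'| ≤ τ)
    {M : Circle × Circle → E3} (hM : TMap D R ε e0 τ' M) (ℓ : E3 →L[ℝ] ℝ) (hℓ : ℓ e1 ≠ 0 ∨ ℓ e2 ≠ 0) :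
    {p | IsLocalMax (fun q => ℓ (M q)) p}.Subsingleton := by
  have hℓ0 : ℓ ≠ 0 := by
    rintro rfl
    rcases hℓ with h | h <;> exact h rfl
  have hT : 0 < R.T := by
    have h1 := G.toCompat.C0_pos
    have h2 := G.toCompat.t1_large
    have h3 := R.t12
    have h4 := R.τ2t2
    have h5 := R.t2t2'
    have h6 := R.La_pos
    unfold Prof.T
    linarith
  intro p hp q hq
  have hp' := TMap.locmax G hτ hM ℓ hℓ0 p hp
  have hq' := TMap.locmax G hτ hM ℓ hℓ0 q hq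
  rcases hp' with ⟨x, s, μ, hpx, h1, h2, hμ, hu⟩ | ⟨h1, h2, -⟩
  · rcases hq' with ⟨x', s', μ', hqx, h1', h2', hμ', hu'⟩ | ⟨h1, h2, -⟩
    · obtain ⟨hs, n, hn⟩ := nu_inj R x s x' s' μ μ' h1 h2 h1' h2' hμ hμ' (fun u => by
        rw [← hu u, ← hu' u])
      rw [hpx, hqx, cov_eq hT]
      refine ⟨n, 0, hn, ?_⟩
      rw [hs]
      simp
    · rcases hℓ with h | h
      · exact absurd h1 h
      · exact absurd h2 h
  · rcases hℓ with h | h
    · exact absurd h1 h
    · exact absurd h2 h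


end Pool.Agent.Helper331.TT
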