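import Pool.Agent.Helper331.TT.Defs
import Pool.Agent.Helper331.TT.E6
import Pool.Agent.Helper331.TT.D3c
import Pool.Agent.Helper331.TT.T3
set_option autoImplicit false
open scoped Manifold ContDiff
open Set Filter Topology

namespace Pool.Agent.Helper331.TT

theorem TMap.exposed {D : Data} {R : Prof} {C0 ε e0 τ τ' : ℝ} (G : Good D R C0 ε e0 τ) (hτ : |τ'| ≤ τ)
    {M : Circle × Circle → E3} (hM : TMap D R ε e0 τ' M) (x s : ℝ) (h1 : R.t2 < s) (h2 : s < R.t2 + R.La) :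
    (dt (nu R (x, s)) e1 ≠ 0 ∨ dt (nu R (x, s)) e2 ≠ 0) ∧
    ∀ q, dt (nu R (x, s)) (M q) ≤ dt (nu R (x, s)) (M (cov R.T (x, s))) := by
  have hθ0 : R.θ R.t2 = 0 := R.θ_lo _ le_rfl
  have hθ1 : R.θ (R.t2 + R.La) = Real.pi := R.θ_hi _ le_rfl
  have hLa := R.La_pos
  have hs1 : 0 < R.θ s := by
    have hh := R.θ_mono (a := R.t2) (b := s) ⟨le_rfl, by linarith⟩ ⟨h1.le, h2.le⟩ h1
    rwa [hθ0] at hh
  have hs2 : R.θ s < Real.pi := by
    have hh := R.θ_mono (a := s) (b := R.t2 + R.La) ⟨h1.le, h2.le⟩ ⟨by linarith, le_rfl⟩ h2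
    rwa [hθ1] at hh
  have hsin : 0 < Real.sin (R.θ s) := Real.sin_pos_of_pos_of_lt_pi hs1 hs2
  have hn0 : dt (nu R (x,s)) e1 = Real.sin (R.θ s) * Real.sin (x + R.θ s) := by
    simp [dt, nu, dh, fr]
  have hn1 : dt (nu R (x,s)) e2 = -(Real.sin (R.θ s) * Real.cos (x + R.θ s)) := by
    simp [dt, nu, dh, fr]
  have hne : dt (nu R (x, s)) e1 ≠ 0 ∨ dt (nu R (x, s)) e2 ≠ 0 := by
    rw [hn0, hn1]
    by_contra hcon
    push Not at hcon
    obtain ⟨ha, hb⟩ := hcon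
    have ha' : Real.sin (x + R.θ s) = 0 := by
      rcases mul_eq_zero.mp ha with h | h
      · exact absurd h hsin.ne'
      · exact h
    have hb' : Real.cos (x + R.θ s) = 0 := by
      rcases mul_eq_zero.mp (neg_eq_zero.mp hb) with h | h
      · exact absurd h hsin.ne'
      · exact h
    have hsc := Real.sin_sq_add_cos_sq (x + R.θ s)
    rw [ha', hb'] at hsc
    norm_num at hsc
  refine ⟨hne, ?_⟩
  obtain ⟨ℓ, hℓ⟩ : ∃ ℓ : E3 →L[ℝ] ℝ, ∀ u, ℓ u = dt (nu R (x,s)) u :=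
    ⟨innerSL ℝ (nu R (x,s)), fun u => by rw [innerSL_apply_apply]; exact inner_eq_dt _ _⟩
  have hcont : Continuous (fun q => ℓ (M q)) := ℓ.continuous.comp hM.smooth.continuous
  obtain ⟨q0, -, hq0⟩ := isCompact_univ.exists_isMaxOn Set.univ_nonempty hcont.continuousOn
  have hmax : ∀ q, ℓ (M q) ≤ ℓ (M q0) := fun q => hq0 (Set.mem_univ q)
  have hloc : IsLocalMax (fun q => ℓ (M q)) q0 := Filter.Eventually.of_forall hmax
  have hℓ0 : ℓ ≠ 0 := by
    intro h0
    rcases hne with h | h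
    · exact h (by rw [← hℓ, h0]; rfl)
    · exact h (by rw [← hℓ, h0]; rfl)
  have key : q0 = cov R.T (x, s) := by
    rcases TMap.locmax G hτ hM ℓ hℓ0 q0 hloc with ⟨x', s', μ, hq, hs1', hs2', hμ, hu⟩ | ⟨ha, hb, -⟩
    · have hinj := nu_inj R x s x' s' 1 μ h1 h2 hs1' hs2' one_pos hμ (fun u => by
        rw [one_mul, ← hℓ, hu])
      obtain ⟨hs, n, hn⟩ := hinj
      have hT : 0 < R.T := by
        have a1 := R.t0_pos
        have a2 := R.t01
        have a3 := R.t12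
        have a4 := R.τ2t2
        have a5 := R.t2t2'
        unfold Prof.T
        linarith
      rw [hq]
      symm
      rw [cov_eq hT]
      exact ⟨n, 0, hn, by simp [hs]⟩
    · exfalso
      rcases hne with h | h
      · exact h (by rw [← hℓ, ha])
      · exact h (by rw [← hℓ, hb])
  intro q
  have hq := hmax q
  rw [hℓ, hℓ, key] at hq
  exact hq



end Pool.Agent.Helper331.TT
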