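import Pool.Agent.Helper331.TT.Defs
import Pool.Agent.Helper331.TT.H1
import Pool.Agent.Helper331.TT.E3
import Pool.Agent.Helper331.TT.E6
import Pool.Agent.Helper331.TT.F2
import Pool.Agent.Helper331.TT.F3v
import Pool.Agent.Helper331.TT.F5
import Pool.Agent.Helper331.TT.D3a
import Pool.Agent.Helper331.TT.G3
import Pool.Agent.Helper331.TT.G4
import Pool.Agent.Helper331.TT.T4
import Pool.Agent.Helper331.TT.T7
set_option autoImplicit false
open scoped Manifold ContDiff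
open Set Filter Topology

namespace Pool.Agent.Helper331.TT

theorem T10_push {T : ℝ} (hT : 0 < T) {M N : Circle × Circle → E3} {p : ℝ × ℝ} {Φ : ℝ × ℝ → E3}
    {V : Set (ℝ × ℝ)} (hV : V ∈ 𝓝 p) (hinj : InjOn Φ V) (hN : ∀ v ∈ V, N (cov T v) = Φ v)
    (hM : ∀ v ∈ V, M (cov T v) = Φ v) :
    ∃ U ∈ 𝓝 (cov T p), InjOn N U ∧ ∀ q ∈ U, M q = N q := by
  refine ⟨cov T '' V, ?_, ?_, ?_⟩
  · rw [← cov_nhds hT p]
    exact Filter.image_mem_map hV
  · rintro _ ⟨v, hv, rfl⟩ _ ⟨v', hv', rfl⟩ h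
    rw [hN v hv, hN v' hv'] at h
    rw [hinj hv hv' h]
  · rintro _ ⟨v, hv, rfl⟩
    rw [hM v hv, hN v hv]

theorem psi_fix {D : Data} {R : Prof} {C0 ε e0 τ : ℝ} (G : Good D R C0 ε e0 τ)
    {M N : Circle × Circle → E3} (hM : TMap D R ε e0 τ M) (hN : TMap D R ε e0 (-τ) N)
    {ψ : (Circle × Circle) → (Circle × Circle)} (hψ : Continuous ψ) (hs : Function.Surjective ψ)
    (hMN : ∀ p, N (ψ p) = M p) (x : ℝ) :
    ψ (cov R.T (x, D.ze x)) = cov R.T (x, D.ze x) := by
  obtain ⟨hτ20, hT2, hT3⟩ := R.t2_T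
  have hτt := R.τ2t2
  have ht2t2' := R.t2t2'
  have hLa := R.La_pos
  have ht01 := R.t01
  have ht12 := R.t12
  have ht0 := R.t0_pos
  have hTpos : 0 < R.T := by linarith
  have hTdef : R.T = R.t2 + R.La + R.t2' := rfl
  have hze := G.ze_le x
  have hze1 : D.ze x < R.t0 := by have := le_abs_self (D.ze x); linarith
  have hze2 : -R.t0 < D.ze x := by have := neg_abs_le (D.ze x); linarith
  have hτpos := G.τ_pos
  have hτM : |τ| ≤ τ := by rw [abs_of_pos hτpos]
  have hτN : |(-τ)| ≤ τ := by rw [abs_neg, abs_of_pos hτpos]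
  have hcov : Continuous (fun t : ℝ => cov R.T (x, t)) := by
    unfold cov
    fun_prop
  refine path_fix (M := M) (N := N) (ψ := ψ) hψ hMN (γ := fun t : ℝ => cov R.T (x, t)) hcov
    (a := -R.t2' - R.La / 2) (b := D.ze x) (by linarith) ?_ ?_
  · have hγa : cov R.T (x, -R.t2' - R.La / 2) = cov R.T (x, R.t2 + R.La / 2) := by
      rw [cov_eq hTpos]
      refine ⟨0, 1, by simp, ?_⟩
      rw [hTdef]; push_cast; ring
    show ψ (cov R.T (x, -R.t2' - R.La / 2)) = cov R.T (x, -R.t2' - R.La / 2)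
    rw [hγa]
    obtain ⟨hne, hexM⟩ := hM.exposed G hτM x (R.t2 + R.La / 2) (by linarith) (by linarith)
    obtain ⟨_, hexN⟩ := hN.exposed G hτN x (R.t2 + R.La / 2) (by linarith) (by linarith)
    set p := cov R.T (x, R.t2 + R.La / 2) with hp
    set ν := nu R (x, R.t2 + R.La / 2) with hν
    have hℓ : ∀ u : E3, innerSL ℝ ν u = dt ν u := fun u => by
      rw [innerSL_apply_apply, inner_eq_dt]
    apply hN.locmax_unique G hτN (innerSL ℝ ν) (by rw [hℓ, hℓ]; exact hne)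
    · refine Filter.Eventually.of_forall fun q => ?_
      obtain ⟨q', rfl⟩ := hs q
      show innerSL ℝ ν (N (ψ q')) ≤ innerSL ℝ ν (N (ψ p))
      rw [hMN, hMN, hℓ, hℓ]
      exact hexM q'
    · refine Filter.Eventually.of_forall fun q => ?_
      show innerSL ℝ ν (N q) ≤ innerSL ℝ ν (N p)
      rw [hℓ, hℓ]
      exact hexN q
  · intro t hta htb
    show ∃ U ∈ 𝓝 (cov R.T (x, t)), InjOn N U ∧ ∀ q ∈ U, M q = N q
    rcases lt_or_ge (-R.t2) t with h | h
    · have habs : |t| < R.t2 := by rw [abs_lt]; constructor <;> linarith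
      have himm : Imm (Φin D R ε e0 (-τ)) (x, t) := by
        rcases lt_or_ge |t| R.t1 with h1 | h1
        · exact (Φin_neg G (-τ) x t hτN h1).2
        · exact (Φin_flat G (-τ) x t h1).1
      obtain ⟨U0, hU0, hinj⟩ := imm_locInj (smooth_Φin G (-τ)) himm
      have hoff := Φin_off G τ (-τ) x t (Or.inl htb)
      have hV : (U0 ∩ {p : ℝ × ℝ | |p.2| < R.t2} ∩
          {p : ℝ × ℝ | Φin D R ε e0 τ p = Φin D R ε e0 (-τ) p}) ∈ 𝓝 ((x, t) : ℝ × ℝ) := by
        refine Filter.inter_mem (Filter.inter_mem hU0 ?_) hoff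
        exact (isOpen_lt (by fun_prop) continuous_const).mem_nhds habs
      refine T10_push hTpos hV (Φ := Φin D R ε e0 (-τ))
        (hinj.mono fun v hv => hv.1.1) ?_ ?_
      · rintro ⟨x', s'⟩ hv
        exact hN.hin x' s' hv.1.2
      · rintro ⟨x', s'⟩ hv
        rw [hM.hin x' s' hv.1.2]
        exact hv.2
    · have hγ : cov R.T (x, t) = cov R.T (x, t + R.T) := by
        rw [cov_eq hTpos]
        exact ⟨0, 1, by simp, by push_cast; ring⟩
      rw [hγ]
      have h1 : R.τ2 < t + R.T := by rw [hTdef]; linarith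
      have h2 : t + R.T < R.T - R.τ2 := by linarith
      obtain ⟨U0, hU0, hinj⟩ := imm_locInj (smooth_Φout R) (outer_imm R x (t + R.T) h1 h2)
      have hV : (U0 ∩ {p : ℝ × ℝ | R.τ2 < p.2} ∩ {p : ℝ × ℝ | p.2 < R.T - R.τ2}) ∈
          𝓝 ((x, t + R.T) : ℝ × ℝ) := by
        refine Filter.inter_mem (Filter.inter_mem hU0 ?_) ?_
        · exact (isOpen_lt continuous_const (by fun_prop)).mem_nhds h1
        · exact (isOpen_lt (by fun_prop) continuous_const).mem_nhds h2
      refine T10_push hTpos hV (Φ := Φout R) (hinj.mono fun v hv => hv.1.1) ?_ ?_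
      · rintro ⟨x', s'⟩ hv
        exact hN.hout x' s' hv.1.2 hv.2
      · rintro ⟨x', s'⟩ hv
        exact hM.hout x' s' hv.1.2 hv.2


end Pool.Agent.Helper331.TT
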