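import Pool.Agent.Helper331.TT.Defs
import Pool.Agent.Helper331.TT.B4
import Pool.Agent.Helper331.TT.C1
import Pool.Agent.Helper331.TT.C1s
import Pool.Agent.Helper331.TT.C4
import Pool.Agent.Helper331.TT.E3
import Pool.Agent.Helper331.TT.F2
import Pool.Agent.Helper331.TT.F3
import Pool.Agent.Helper331.TT.G5
import Pool.Agent.Helper331.TT.G6
import Pool.Agent.Helper331.TT.T10
set_option autoImplicit false
open scoped Manifold ContDiff
open Set Filter Topology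

namespace Pool.Agent.Helper331.TT

theorem T11_Sm_inj {u : E3} (h : Sm u = 0) : u = 0 := by
  have h0 : Sm u 0 = 0 := by rw [h]; rfl
  have h1 : Sm u 1 = 0 := by rw [h]; rfl
  have h2 : Sm u 2 = 0 := by rw [h]; rfl
  rw [Sm_0] at h0
  rw [Sm_1] at h1
  rw [Sm_2] at h2
  apply ext3
  · show u 0 = (0:ℝ)
    linarith
  · show u 1 = (0:ℝ)
    linarith
  · show u 2 = (0:ℝ)
    linarith

theorem not_reparam {D : Data} {R : Prof} {C0 ε e0 τ : ℝ} (G : Good D R C0 ε e0 τ)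
    {M N : Circle × Circle → E3} (hM : TMap D R ε e0 τ M) (hN : TMap D R ε e0 (-τ) N)
    {ψ : (Circle × Circle) → (Circle × Circle)} (hψ : Continuous ψ) (hs : Function.Surjective ψ)
    (hMN : ∀ p, N (ψ p) = M p) : False := by
  have hεp := G.ε_pos
  obtain ⟨⟨δ, hδ, hdir⟩, hfreq, hn⟩ := vth_dir D G.ε_pos G.e0_pos G.ε_A G.e0_A 0
  have hB0 : Mth D ε e0 0 = Bth D ε := by
    funext p
    simp [Mth]
  have hImm : Imm (Bth D ε) (0, 0) := by
    have h := (saddle (smooth_Mth G 0) (G.K_neg 0 (by simpa using G.τ_pos.le) 0 0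
      (by rw [abs_zero]; positivity))).2
    rwa [hB0] at h
  have hV : ∀ᶠ q in 𝓝 ((0:ℝ), (0:ℝ)), δ * ‖τ • Sm (vth D ε e0 q)‖
      ≤ dt (-(D.P 0)) (τ • Sm (vth D ε e0 q)) := by
    filter_upwards [hdir] with q hq
    have h1 : dt (-(D.P 0)) (τ • Sm (vth D ε e0 q)) = τ * dt (-(D.P 0)) (Sm (vth D ε e0 q)) := by
      simp only [dt, PiLp.smul_apply, smul_eq_mul]
      ring
    rw [h1, norm_smul, Real.norm_eq_abs, abs_of_pos G.τ_pos]
    have h2 := mul_le_mul_of_nonneg_left hq G.τ_pos.le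
    linarith
  obtain ⟨U, hU, hUU⟩ := no_meet (V := fun q => τ • Sm (vth D ε e0 q)) (smooth_Bth D ε) hImm
    (-(D.P 0)) hn hδ hV
  have hze : Continuous D.ze := D.ze_smooth.continuous
  obtain ⟨S, hS⟩ : ∃ S : ℝ × ℝ → ℝ × ℝ, S = fun q => (q.1, q.2 - D.ze q.1) := ⟨_, rfl⟩
  obtain ⟨S', hS'⟩ : ∃ S' : ℝ × ℝ → ℝ × ℝ, S' = fun q => (q.1, q.2 + D.ze q.1) := ⟨_, rfl⟩
  have hSc : Continuous S := by rw [hS]; fun_prop
  have hS'c : Continuous S' := by rw [hS']; fun_prop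
  have hze0 : |D.ze 0| < R.t2 := by
    have h1 := G.ze_le 0
    have h2 := R.t01
    have h3 := R.t12
    have h4 := R.τ2t2
    linarith
  obtain ⟨W, hWdef⟩ : ∃ W : Set (ℝ × ℝ), W = {q | S q ∈ U ∧ |q.2| < R.t2 ∧ |q.2 - D.ze q.1| < 3 * ε} :=
    ⟨_, rfl⟩
  have hW : W ∈ 𝓝 ((0:ℝ), D.ze 0) := by
    have a1 : ∀ᶠ q in 𝓝 ((0:ℝ), D.ze 0), S q ∈ U := by
      have h := hSc.tendsto ((0:ℝ), D.ze 0)
      have h' : S ((0:ℝ), D.ze 0) = (0, 0) := by rw [hS]; simp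
      rw [h'] at h
      exact h hU
    have a2 : ∀ᶠ q in 𝓝 ((0:ℝ), D.ze 0), |q.2| < R.t2 := by
      have h : Continuous fun q : ℝ × ℝ => |q.2| := by fun_prop
      exact h.continuousAt.eventually_lt continuousAt_const hze0
    have a3 : ∀ᶠ q in 𝓝 ((0:ℝ), D.ze 0), |q.2 - D.ze q.1| < 3 * ε := by
      have h : Continuous fun q : ℝ × ℝ => |q.2 - D.ze q.1| := by fun_prop
      refine h.continuousAt.eventually_lt continuousAt_const ?_
      show |D.ze 0 - D.ze 0| < 3 * ε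
      rw [sub_self, abs_zero]
      positivity
    rw [hWdef]
    filter_upwards [a1, a2, a3] with q h1 h2 h3 using ⟨h1, h2, h3⟩
  have hT : 0 < R.T := by
    have h1 := R.t0_pos
    have h2 := R.t01
    have h3 := R.t12
    have h4 := R.τ2t2
    have h5 := R.t2t2'
    have h6 := R.La_pos
    unfold Prof.T
    linarith
  have hMform : ∀ q ∈ W, M (cov R.T q) = Bth D ε (S q) + τ • Sm (vth D ε e0 (S q)) := by
    rintro ⟨x, s⟩ hq
    rw [hWdef] at hq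
    obtain ⟨-, h2, h3⟩ := hq
    rw [hM.hin x s h2, (Φin_thin G τ x s h3).eq_of_nhds, hS]
    rfl
  have hNform : ∀ q ∈ W, N (cov R.T q) = Bth D ε (S q) - τ • Sm (vth D ε e0 (S q)) := by
    rintro ⟨x, s⟩ hq
    rw [hWdef] at hq
    obtain ⟨-, h2, h3⟩ := hq
    rw [hN.hin x s h2, (Φin_thin G (-τ) x s h3).eq_of_nhds, hS]
    simp only [Mth, neg_smul, sub_eq_add_neg]
  have hfix := psi_fix G hM hN hψ hs hMN 0
  have himg : cov R.T '' W ∈ 𝓝 (cov R.T (0, D.ze 0)) := by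
    rw [← cov_nhds hT]
    exact Filter.image_mem_map hW
  have hcov : Filter.Tendsto (cov R.T) (𝓝 (0, D.ze 0)) (𝓝 (cov R.T (0, D.ze 0))) :=
    (cov_nhds hT _).le
  have hψ' : Filter.Tendsto ψ (𝓝 (cov R.T (0, D.ze 0))) (𝓝 (cov R.T (0, D.ze 0))) := by
    have h := hψ.tendsto (cov R.T (0, D.ze 0))
    rwa [hfix] at h
  have ev : ∀ᶠ q in 𝓝 ((0:ℝ), D.ze 0), ψ (cov R.T q) ∈ cov R.T '' W :=
    (hψ'.comp hcov) himg
  have hfreq' : ∃ᶠ q in 𝓝 ((0:ℝ), D.ze 0), vth D ε e0 (S q) ≠ 0 := by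
    have t : Filter.Tendsto S' (𝓝 ((0:ℝ), (0:ℝ))) (𝓝 ((0:ℝ), D.ze 0)) := by
      have h := hS'c.tendsto ((0:ℝ), (0:ℝ))
      have h' : S' ((0:ℝ), (0:ℝ)) = (0, D.ze 0) := by rw [hS']; simp
      rwa [h'] at h
    refine t.frequently (hfreq.mono ?_)
    intro q hq
    have h' : S (S' q) = q := by rw [hS, hS']; simp
    rw [h']
    exact hq
  obtain ⟨q, hq1, hq2, hqW⟩ := (hfreq'.and_eventually (ev.and hW)).exists
  obtain ⟨q', hq'W, hq'⟩ := hq2
  have hqU : S q ∈ U := by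
    have h := hqW
    rw [hWdef] at h
    exact h.1
  have hq'U : S q' ∈ U := by
    have h := hq'W
    rw [hWdef] at h
    exact h.1
  refine hUU (S q) hqU (S q') hq'U ?_ ?_
  · intro h0
    rcases smul_eq_zero.mp h0 with h1 | h1
    · exact G.τ_pos.ne' h1
    · exact hq1 (T11_Sm_inj h1)
  · show Bth D ε (S q) + τ • Sm (vth D ε e0 (S q)) = Bth D ε (S q') - τ • Sm (vth D ε e0 (S q'))
    rw [← hMform q hqW, ← hNform q' hq'W, hq', hMN]


end Pool.Agent.Helper331.TT
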