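import Pool.Agent.Helper331.TT.Defs
import Pool.Agent.Helper331.TT.H1
import Pool.Agent.Helper331.TT.E2
import Pool.Agent.Helper331.TT.E6
import Pool.Agent.Helper331.TT.F6
set_option autoImplicit false
open scoped Manifold ContDiff
open Set Filter Topology

namespace Pool.Agent.Helper331.TT

theorem T5_Φout_z (R : Prof) (x s : ℝ) : Φout R (x, s) 2 = R.z s := by
  simp [Φout, dh, fr]

theorem T5_shift {T : ℝ} (hT : 0 < T) (x s : ℝ) : cov T (x, s) = cov T (x, s + T) :=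
  (cov_eq hT x s x (s + T)).mpr ⟨0, 1, by simp, by simp⟩

theorem TMap.height {D : Data} {R : Prof} {C0 ε e0 τ τ' : ℝ} (G : Good D R C0 ε e0 τ) (hτ : |τ'| ≤ τ)
    {M : Circle × Circle → E3} (hM : TMap D R ε e0 τ' M) (p : Circle × Circle) :
    (M p 2 ≤ R.H ∧ -R.H ≤ M p 2) ∧ (M p 2 = R.H ↔ p ∈ KTop R) ∧ (M p 2 = -R.H ↔ p ∈ KBot R) := by
  obtain ⟨hτ2, hT2, hT3⟩ := R.t2_T
  have h1 := R.t0_pos
  have h2 := R.t01
  have h3 := R.t12
  have h4 := R.τ2t2
  have h5 := R.La_pos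
  have hT : 0 < R.T := by linarith
  obtain ⟨x, s, hp, hs⟩ := cov_surj hτ2 h4 hT2 p
  refine ⟨?_, ⟨?_, ?_⟩, ⟨?_, ?_⟩⟩
  · rcases hs with hs | hs
    · rw [hp, hM.hin x s hs]
      have := abs_le.mp (Φin_z G τ' x s hτ).1
      exact ⟨this.2, this.1⟩
    · rw [hp, hM.hout x s hs.1 hs.2, T5_Φout_z]
      have := abs_le.mp (R.z_mem s).1
      exact ⟨this.2, this.1⟩
  · intro h
    rcases hs with hs | hs
    · rw [hp, hM.hin x s hs, (Φin_z G τ' x s hτ).2.1] at h
      exact ⟨x, s, h, (le_abs_self s).trans hs.le, hp⟩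
    · rw [hp, hM.hout x s hs.1 hs.2, T5_Φout_z, (R.z_mem s).2.1] at h
      exact ⟨x, s, by linarith [hs.1], h, hp⟩
  · rintro ⟨x', s', h6, h7, hp'⟩
    rcases lt_or_eq_of_le h7 with h8 | h8
    · have h9 : |s'| < R.t2 := by
        rw [abs_of_nonneg (by linarith)]; exact h8
      rw [hp', hM.hin x' s' h9, (Φin_z G τ' x' s' hτ).2.1]
      exact h6
    · rw [hp', hM.hout x' s' (by linarith) (by linarith), T5_Φout_z, (R.z_mem s').2.1]
      exact h7
  · intro h
    rcases hs with hs | hs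
    · rw [hp, hM.hin x s hs, (Φin_z G τ' x s hτ).2.2] at h
      have h6 := (abs_lt.mp hs).1
      exact ⟨x, s + R.T, by linarith, by linarith, by rw [hp, T5_shift hT]⟩
    · rw [hp, hM.hout x s hs.1 hs.2, T5_Φout_z, (R.z_mem s).2.2] at h
      exact ⟨x, s, h, by linarith [hs.2], hp⟩
  · rintro ⟨x', s', h6, h7, hp'⟩
    rcases lt_or_ge s' (R.T - R.τ2) with h8 | h8
    · rw [hp', hM.hout x' s' (by linarith) h8, T5_Φout_z, (R.z_mem s').2.2]
      exact h6
    · have h9 : |s' - R.T| < R.t2 := by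
        rw [abs_lt]
        constructor <;> linarith
      have h10 : cov R.T (x', s') = cov R.T (x', s' - R.T) := by
        rw [T5_shift hT x' (s' - R.T), sub_add_cancel]
      rw [hp', h10, hM.hin x' (s' - R.T) h9, (Φin_z G τ' x' (s' - R.T) hτ).2.2]
      linarith


end Pool.Agent.Helper331.TT
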