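import Pool.Agent.Helper331.TT.Defs
import Pool.Agent.Helper331.TT.H1
import Pool.Agent.Helper331.TT.E6
set_option autoImplicit false
open scoped Manifold ContDiff
open Set Filter Topology

namespace Pool.Agent.Helper331.TT

theorem T5k_cov_cont (T : ℝ) : Continuous (cov T) := by
  unfold cov
  exact (Circle.exp.continuous.comp continuous_fst).prodMk
    (Circle.exp.continuous.comp (continuous_const.mul continuous_snd))

theorem T5k_pre (T a b : ℝ) :
    IsPreconnected {p : Circle × Circle | ∃ x s, a ≤ s ∧ s ≤ b ∧ p = cov T (x, s)} := by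
  have h1 : IsPreconnected ((Set.univ : Set ℝ) ×ˢ Set.Icc a b) :=
    isPreconnected_univ.prod isPreconnected_Icc
  have h2 := h1.image (cov T) (T5k_cov_cont T).continuousOn
  convert h2 using 1
  ext p
  constructor
  · rintro ⟨x, s, h3, h4, rfl⟩
    exact ⟨(x, s), ⟨Set.mem_univ _, h3, h4⟩, rfl⟩
  · rintro ⟨⟨x, s⟩, ⟨-, h3, h4⟩, rfl⟩
    exact ⟨x, s, h3, h4, rfl⟩

theorem KTop_preconnected (R : Prof) : IsPreconnected (KTop R) := T5k_pre _ _ _

theorem KBot_preconnected (R : Prof) : IsPreconnected (KBot R) := T5k_pre _ _ _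

theorem T5k_t (R : Prof) : R.t1 ≤ R.t2 ∧ 0 < R.T := by
  obtain ⟨h1, h2, h3⟩ := R.t2_T
  have h4 := R.τ2t2
  have h5 := R.t12
  exact ⟨by linarith, by linarith⟩

theorem KTop_nontrivial (R : Prof) : (KTop R).Nontrivial := by
  obtain ⟨h1, h2⟩ := T5k_t R
  refine ⟨cov R.T (0, R.t2), ⟨0, R.t2, h1, le_rfl, rfl⟩, cov R.T (Real.pi, R.t2),
    ⟨Real.pi, R.t2, h1, le_rfl, rfl⟩, ?_⟩
  intro h
  obtain ⟨m, n, hm, -⟩ := (cov_eq h2 _ _ _ _).1 h
  have hpi := Real.pi_pos
  have h3 : (1 : ℝ) = 2 * m := by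
    have : Real.pi * (1 - 2 * m) = 0 := by linarith
    rcases mul_eq_zero.1 this with h | h
    · exact absurd h hpi.ne'
    · linarith
  have h4 : (1 : ℤ) = 2 * m := by exact_mod_cast h3
  omega

theorem KBot_nonempty (R : Prof) : (KBot R).Nonempty := by
  refine ⟨cov R.T (0, R.t2 + R.La), 0, R.t2 + R.La, le_rfl, ?_, rfl⟩
  have h1 := R.t2_T
  have h4 := R.τ2t2
  have h5 := R.t12
  linarith [h1.2.2]


end Pool.Agent.Helper331.TT
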