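import Pool.Agent.Helper331.TT.Defs
import Pool.Agent.Helper331.TT.F1
import Pool.Agent.Helper331.TT.T3
import Pool.Agent.Helper331.TT.T4
import Pool.Agent.Helper331.TT.T5
import Pool.Agent.Helper331.TT.T5k
set_option autoImplicit false
open scoped Manifold ContDiff
open Set Filter Topology

namespace Pool.Agent.Helper331.TT

theorem T6_lcs : LocallyConnectedSpace (Circle × Circle) := by
  have : LocallyConnectedSpace Circle :=
    ChartedSpace.locallyConnectedSpace (EuclideanSpace ℝ (Fin 1)) Circle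
  infer_instance

theorem T6_locmax {D : Data} {R : Prof} {C0 ε e0 τ τ' : ℝ} (G : Good D R C0 ε e0 τ)
    (hτ : |τ'| ≤ τ) {M : Circle × Circle → E3} (hM : TMap D R ε e0 τ' M) (ℓ : E3 →L[ℝ] ℝ)
    (hℓ : ℓ ≠ 0) (h1 : ℓ e1 = 0) (h2 : ℓ e2 = 0)
    (p : Circle × Circle) (hp : IsLocalMax (fun q => ℓ (M q)) p) : p ∈ KTop R ∨ p ∈ KBot R := by
  rcases TMap.locmax G hτ hM ℓ hℓ p hp with ⟨x, s, μ, _, hs1, hs2, hμ, hu⟩ | ⟨_, _, h⟩
  · exfalso
    have a1 := hu e1
    have a2 := hu e2
    rw [h1] at a1
    rw [h2] at a2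
    have b1 : dt (nu R (x, s)) e1 = Real.sin (R.θ s) * Real.sin (x + R.θ s) := by
      simp [dt, nu, dh, fr]
    have b2 : dt (nu R (x, s)) e2 = -(Real.sin (R.θ s) * Real.cos (x + R.θ s)) := by
      simp [dt, nu, dh, fr]
    rw [b1] at a1
    rw [b2] at a2
    have c1 : Real.sin (R.θ s) * Real.sin (x + R.θ s) = 0 := by
      rcases mul_eq_zero.1 a1.symm with h | h
      · exact absurd h hμ.ne'
      · exact h
    have c2 : Real.sin (R.θ s) * Real.cos (x + R.θ s) = 0 := by
      rcases mul_eq_zero.1 a2.symm with h | h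
      · exact absurd h hμ.ne'
      · linarith
    have c3 : Real.sin (R.θ s) = 0 := by
      have h := Real.sin_sq_add_cos_sq (x + R.θ s)
      have e : Real.sin (R.θ s) = (Real.sin (R.θ s) * Real.sin (x + R.θ s)) *
          Real.sin (x + R.θ s) + (Real.sin (R.θ s) * Real.cos (x + R.θ s)) *
          Real.cos (x + R.θ s) := by
        calc Real.sin (R.θ s) = Real.sin (R.θ s) * 1 := by ring
          _ = Real.sin (R.θ s) * (Real.sin (x + R.θ s) ^ 2 + Real.cos (x + R.θ s) ^ 2) := by
            rw [h]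
          _ = _ := by ring
      rw [e, c1, c2]
      ring
    have hLa := R.La_pos
    have d1 : 0 < R.θ s := by
      have := R.θ_mono (left_mem_Icc.2 (by linarith)) (⟨hs1.le, hs2.le⟩ : s ∈ Icc R.t2 (R.t2 + R.La)) hs1
      rwa [R.θ_lo R.t2 le_rfl] at this
    have d2 : R.θ s < Real.pi := by
      have := R.θ_mono (⟨hs1.le, hs2.le⟩ : s ∈ Icc R.t2 (R.t2 + R.La)) (right_mem_Icc.2 (by linarith)) hs2
      rwa [R.θ_hi (R.t2 + R.La) le_rfl] at this
    exact absurd c3 (Real.sin_pos_of_pos_of_lt_pi d1 d2).ne'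
  · exact h

theorem TMap.tpp {D : Data} {R : Prof} {C0 ε e0 τ τ' : ℝ} (G : Good D R C0 ε e0 τ) (hτ : |τ'| ≤ τ)
    {M : Circle × Circle → E3} (hM : TMap D R ε e0 τ' M) (ℓ : E3 →L[ℝ] ℝ) (c : ℝ) :
    IsPreconnected {p | c < ℓ (M p)} := by
  have hMc : Continuous M := hM.smooth.continuous
  have hc : Continuous (fun p => ℓ (M p)) := ℓ.continuous.comp hMc
  have := T6_lcs
  by_cases hℓ : ℓ = 0
  · subst hℓ
    by_cases h : c < 0
    · have e : {p : Circle × Circle | c < (0 : E3 →L[ℝ] ℝ) (M p)} = univ := by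
        ext p; simp [h]
      rw [e]; exact isPreconnected_univ
    · have e : {p : Circle × Circle | c < (0 : E3 →L[ℝ] ℝ) (M p)} = ∅ := by
        ext p; simp; linarith
      rw [e]; exact isPreconnected_empty
  by_cases h12 : ℓ e1 ≠ 0 ∨ ℓ e2 ≠ 0
  · refine superlevel_criterion hc c {p | c < ℓ (M p) ∧ IsLocalMax (fun q => ℓ (M q)) p} ?_ ?_ ?_
    · apply Set.Subsingleton.isPreconnected
      exact (TMap.locmax_unique G hτ hM ℓ h12).anti (fun p hp => hp.2)
    · exact fun p hp => hp.1
    · exact fun p h1 h2 => ⟨h1, h2⟩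
  · push Not at h12
    obtain ⟨h1, h2⟩ := h12
    have hlin : ∀ u : E3, ℓ u = ℓ e3 * u 2 := by
      intro u
      have e : u = u 0 • e1 + u 1 • e2 + u 2 • e3 := eq_vec u
      rw [e, map_add, map_add, map_smul, map_smul, map_smul, h1, h2]
      simp
      ring
    have hb : ℓ e3 ≠ 0 := by
      intro h0
      apply hℓ
      ext u
      rw [hlin, h0]; simp
    have hH := R.H_pos
    have hKT : ∀ p, p ∈ KTop R → ℓ (M p) = ℓ e3 * R.H := by
      intro p hp
      rw [hlin, (TMap.height G hτ hM p).2.1.2 hp]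
    have hKB : ∀ p, p ∈ KBot R → ℓ (M p) = -(ℓ e3 * R.H) := by
      intro p hp
      rw [hlin, (TMap.height G hτ hM p).2.2.2 hp]
      ring
    have hloc := T6_locmax G hτ hM ℓ hℓ h1 h2
    have hbd : ∀ p, |ℓ (M p)| ≤ |ℓ e3| * R.H := by
      intro p
      rw [hlin, abs_mul]
      apply mul_le_mul_of_nonneg_left _ (abs_nonneg _)
      rw [abs_le]
      exact ⟨(TMap.height G hτ hM p).1.2, (TMap.height G hτ hM p).1.1⟩
    by_cases hcl : c < -(|ℓ e3| * R.H)
    · have e : {p : Circle × Circle | c < ℓ (M p)} = univ := by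
        ext p
        simp only [mem_setOf_eq, mem_univ, iff_true]
        have := (abs_le.1 (hbd p)).1
        linarith
      rw [e]; exact isPreconnected_univ
    by_cases hcu : |ℓ e3| * R.H ≤ c
    · have e : {p : Circle × Circle | c < ℓ (M p)} = ∅ := by
        ext p
        simp only [mem_setOf_eq, mem_empty_iff_false, iff_false, not_lt]
        have := (abs_le.1 (hbd p)).2
        linarith
      rw [e]; exact isPreconnected_empty
    push Not at hcl hcu
    rcases lt_or_gt_of_ne hb with hneg | hpos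
    · rw [abs_of_neg hneg] at hcl hcu
      refine superlevel_criterion hc c (KBot R) (KBot_preconnected R) ?_ ?_
      · intro p hp
        rw [hKB p hp]
        linarith
      · intro p hp1 hp2
        rcases hloc p hp2 with h | h
        · exfalso
          rw [hKT p h] at hp1
          linarith
        · exact h
    · rw [abs_of_pos hpos] at hcl hcu
      refine superlevel_criterion hc c (KTop R) (KTop_preconnected R) ?_ ?_
      · intro p hp
        rw [hKT p hp]
        linarith
      · intro p hp1 hp2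
        rcases hloc p hp2 with h | h
        · exact h
        · exfalso
          rw [hKB p h] at hp1
          linarith


end Pool.Agent.Helper331.TT
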