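import Pool.Agent.Helper331.TT.Defs
import Pool.Agent.Helper331.TT.H1
import Pool.Agent.Helper331.TT.E6
import Pool.Agent.Helper331.TT.D2s
import Pool.Agent.Helper331.TT.F3
set_option autoImplicit false
open scoped Manifold ContDiff
open Set Filter Topology

namespace Pool.Agent.Helper331.TT

theorem T8_h (α β r c y : ℝ) : α * (r • dh y + c • e3) 0 + β * (r • dh y + c • e3) 1 =
    r * (α * Real.sin y - β * Real.cos y) := by
  simp [dh, fr]
  ring

theorem T8_cs (α β y : ℝ) : |α * Real.sin y - β * Real.cos y| ≤ √(α ^ 2 + β ^ 2) := by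
  apply Real.abs_le_sqrt
  have h := Real.sin_sq_add_cos_sq y
  have h1 : (α * Real.sin y - β * Real.cos y) ^ 2 + (α * Real.cos y + β * Real.sin y) ^ 2 =
      (α ^ 2 + β ^ 2) * (Real.sin y ^ 2 + Real.cos y ^ 2) := by ring
  rw [h, mul_one] at h1
  nlinarith [sq_nonneg (α * Real.cos y + β * Real.sin y)]

theorem T8_cs1 (α β r N y : ℝ) (hr : |r| ≤ N) :
    r * (α * Real.sin y - β * Real.cos y) ≤ N * √(α ^ 2 + β ^ 2) := by
  calc r * (α * Real.sin y - β * Real.cos y) ≤ |r * (α * Real.sin y - β * Real.cos y)| :=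
        le_abs_self _
    _ = |r| * |α * Real.sin y - β * Real.cos y| := abs_mul _ _
    _ ≤ N * √(α ^ 2 + β ^ 2) :=
        mul_le_mul hr (T8_cs α β y) (abs_nonneg _) ((abs_nonneg r).trans hr)

theorem T8_cs2 (α β N : ℝ) (u : E3) (hu : ‖u‖ ≤ N) :
    α * u 0 + β * u 1 ≤ N * √(α ^ 2 + β ^ 2) := by
  have hN : 0 ≤ N := (norm_nonneg _).trans hu
  have h1 := norm_sq_eq_dt u
  unfold dt at h1
  have h2 : ‖u‖ ^ 2 ≤ N ^ 2 := pow_le_pow_left₀ (norm_nonneg _) hu 2
  have h3 : (α * u 0 + β * u 1) ^ 2 ≤ (α ^ 2 + β ^ 2) * N ^ 2 := by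
    have h4 : (α * u 0 + β * u 1) ^ 2 ≤ (α ^ 2 + β ^ 2) * (u 0 * u 0 + u 1 * u 1) := by
      nlinarith [sq_nonneg (α * u 1 - β * u 0)]
    have h5 : u 0 * u 0 + u 1 * u 1 ≤ N ^ 2 := by nlinarith [mul_self_nonneg (u 2)]
    exact h4.trans (mul_le_mul_of_nonneg_left h5 (by positivity))
  have h6 := (le_abs_self _).trans (Real.abs_le_sqrt h3)
  rw [Real.sqrt_mul (by positivity), Real.sqrt_sq hN] at h6
  rw [mul_comm N]
  exact h6

theorem T8_ex (α β : ℝ) : ∃ y : ℝ, α * Real.sin y - β * Real.cos y = √(α ^ 2 + β ^ 2) := by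
  obtain ⟨w, hw⟩ : ∃ w : ℂ, w = ⟨-β, α⟩ := ⟨_, rfl⟩
  have h1 := Complex.norm_mul_cos_arg w
  have h2 := Complex.norm_mul_sin_arg w
  have hre : w.re = -β := by rw [hw]
  have him : w.im = α := by rw [hw]
  have h3 : ‖w‖ ^ 2 = α ^ 2 + β ^ 2 := by
    rw [← Complex.normSq_eq_norm_sq, Complex.normSq_apply, hre, him]
    ring
  have h4 : √(α ^ 2 + β ^ 2) = ‖w‖ := by
    rw [← h3, Real.sqrt_sq (norm_nonneg _)]
  rw [hre] at h1
  rw [him] at h2
  refine ⟨Complex.arg w, ?_⟩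
  rw [h4]
  by_cases hw0 : ‖w‖ = 0
  · rw [hw0, zero_mul] at h1 h2
    rw [hw0, ← h2]
    have : β = 0 := by linarith
    rw [this]
    ring
  · have h5 : ‖w‖ * (α * Real.sin (Complex.arg w) - β * Real.cos (Complex.arg w)) =
        ‖w‖ * ‖w‖ := by
      have e1 : ‖w‖ * (α * Real.sin (Complex.arg w) - β * Real.cos (Complex.arg w)) =
          α * (‖w‖ * Real.sin (Complex.arg w)) - β * (‖w‖ * Real.cos (Complex.arg w)) := by ring
      rw [e1, h1, h2, ← pow_two ‖w‖, h3]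
      ring
    exact mul_left_cancel₀ hw0 h5

/-- the inner part of the flat annuli -/
theorem T8_in {D : Data} {R : Prof} {C0 ε e0 τ τ' : ℝ} (G : Good D R C0 ε e0 τ)
    {M : Circle × Circle → E3} (hM : TMap D R ε e0 τ' M) (α β x s : ℝ) (h1 : R.t1 ≤ |s|)
    (h2 : |s| ≤ R.τ2) : α * M (cov R.T (x, s)) 0 + β * M (cov R.T (x, s)) 1 ≤
      R.τ2 * √(α ^ 2 + β ^ 2) := by
  have hs : |s| < R.t2 := lt_of_le_of_lt h2 R.τ2t2
  rw [hM.hin x s hs]
  have hze := G.ze_le x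
  have h01 := R.t01
  have hε := G.ε_lt
  have hfar : 2 * ε < |s - D.ze x| := by
    have := abs_sub_abs_le_abs_sub s (D.ze x)
    linarith [G.ε_pos]
  have h3 : Φin D R ε e0 τ' (x, s) = Bin D R (x, s) := (Φin_far G τ' x s hfar).eq_of_nhds
  rw [h3]
  have h4 := T8_cs2 α β R.τ2 (R.χ s • D.F x + s • dh x) (flat_size D R G.toCompat x s h2)
  have h5 : ∀ i : Fin 3, i ≠ 2 → Bin D R (x, s) i = (R.χ s • D.F x + s • dh x) i := by
    intro i hi
    unfold Bin
    fin_cases i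
    · simp
    · simp
    · exact absurd rfl hi
  rw [h5 0 (by decide), h5 1 (by decide)]
  exact h4

theorem TMap.sup_top {D : Data} {R : Prof} {C0 ε e0 τ τ' : ℝ} (G : Good D R C0 ε e0 τ)
    {M : Circle × Circle → E3} (hM : TMap D R ε e0 τ' M) (α β : ℝ) :
    IsGreatest ((fun p => α * M p 0 + β * M p 1) '' KTop R) (R.t2 * √(α ^ 2 + β ^ 2)) := by
  obtain ⟨g1, g2, g3⟩ := R.t2_T
  have hT : 0 < R.T := by linarith [R.τ2t2]
  have k1 := R.t12
  have k2 := R.τ2t2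
  have k3 := R.t0_pos
  have k4 := R.t01
  constructor
  · obtain ⟨y, hy⟩ := T8_ex α β
    refine ⟨cov R.T (y, R.t2), ⟨y, R.t2, by linarith, le_rfl, rfl⟩, ?_⟩
    show α * M (cov R.T (y, R.t2)) 0 + β * M (cov R.T (y, R.t2)) 1 = _
    rw [hM.hout y R.t2 k2 (by linarith)]
    unfold Φout
    rw [T8_h]
    show R.r R.t2 * (α * Real.sin (y + R.θ R.t2) - β * Real.cos (y + R.θ R.t2)) = _
    rw [R.r_lo R.t2 le_rfl, R.θ_lo R.t2 le_rfl, add_zero, hy]
  · rintro _ ⟨p, ⟨x, s, hs1, hs2, rfl⟩, rfl⟩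
    show α * M (cov R.T (x, s)) 0 + β * M (cov R.T (x, s)) 1 ≤ _
    have hs0 : 0 < s := by linarith
    rcases le_or_gt s R.τ2 with h | h
    · have h5 := T8_in G hM α β x s (by rw [abs_of_pos hs0]; exact hs1)
        (by rw [abs_of_pos hs0]; exact h)
      exact h5.trans (mul_le_mul_of_nonneg_right k2.le (Real.sqrt_nonneg _))
    · rw [hM.hout x s h (by linarith)]
      unfold Φout
      rw [T8_h]
      apply T8_cs1
      show |R.r s| ≤ R.t2
      rw [R.r_lo s hs2, abs_of_pos hs0]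
      exact hs2
theorem TMap.sup_bot {D : Data} {R : Prof} {C0 ε e0 τ τ' : ℝ} (G : Good D R C0 ε e0 τ)
    {M : Circle × Circle → E3} (hM : TMap D R ε e0 τ' M) (α β : ℝ) :
    IsGreatest ((fun p => α * M p 0 + β * M p 1) '' KBot R) (R.t2' * √(α ^ 2 + β ^ 2)) := by
  obtain ⟨g1, g2, g3⟩ := R.t2_T
  have hT : 0 < R.T := by linarith [R.τ2t2]
  have k1 := R.t12
  have k2 := R.τ2t2
  have k3 := R.t0_pos
  have k4 := R.t01
  have k5 := R.t2t2'
  have k6 := R.La_pos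
  have hTd : R.T = R.t2 + R.La + R.t2' := rfl
  constructor
  · obtain ⟨y, hy⟩ := T8_ex α β
    refine ⟨cov R.T (y - Real.pi, R.t2 + R.La),
      ⟨y - Real.pi, R.t2 + R.La, le_rfl, by linarith, rfl⟩, ?_⟩
    show α * M (cov R.T (y - Real.pi, R.t2 + R.La)) 0 +
      β * M (cov R.T (y - Real.pi, R.t2 + R.La)) 1 = _
    rw [hM.hout (y - Real.pi) (R.t2 + R.La) (by linarith) (by linarith)]
    unfold Φout
    rw [T8_h]
    show R.r (R.t2 + R.La) * (α * Real.sin (y - Real.pi + R.θ (R.t2 + R.La)) -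
      β * Real.cos (y - Real.pi + R.θ (R.t2 + R.La))) = _
    rw [R.r_hi _ le_rfl, R.θ_hi _ le_rfl, sub_add_cancel, hy]
    ring
  · rintro _ ⟨p, ⟨x, s, hs1, hs2, rfl⟩, rfl⟩
    show α * M (cov R.T (x, s)) 0 + β * M (cov R.T (x, s)) 1 ≤ _
    rcases lt_or_ge s (R.T - R.τ2) with h | h
    · rw [hM.hout x s (by linarith) h]
      unfold Φout
      rw [T8_h]
      apply T8_cs1
      show |R.r s| ≤ R.t2'
      rw [R.r_hi s hs1, abs_of_pos (by linarith)]
      linarith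
    · have hcov : cov R.T (x, s) = cov R.T (x, s - R.T) := by
        rw [cov_eq hT]
        exact ⟨0, -1, by simp, by push_cast; ring⟩
      rw [hcov]
      have habs : |s - R.T| = R.T - s := by
        rw [abs_of_nonpos (by linarith)]
        ring
      have h5 := T8_in G hM α β x (s - R.T) (by rw [habs]; linarith) (by rw [habs]; linarith)
      exact h5.trans (mul_le_mul_of_nonneg_right (by linarith) (Real.sqrt_nonneg _))


end Pool.Agent.Helper331.TT
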