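import Pool.Agent.Helper331.TT.Defs
import Pool.Agent.Helper331.TT.H1
import Pool.Agent.Helper331.TT.E2
import Pool.Agent.Helper331.TT.E3
import Pool.Agent.Helper331.TT.E5
import Pool.Agent.Helper331.TT.F2
import Pool.Agent.Helper331.TT.F7
set_option autoImplicit false
open scoped Manifold ContDiff
open Set Filter Topology

namespace Pool.Agent.Helper331.TT

theorem T9_smooth {M : Circle × Circle → E3}
    (h : ContMDiff ((𝓡 1).prod (𝓡 1)) 𝓘(ℝ, E3) ((⊤ : ℕ∞) : WithTop ℕ∞) M) :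
    ContMDiff ((𝓡 1).prod (𝓡 1)) 𝓘(ℝ, E3) ((⊤ : ℕ∞) : WithTop ℕ∞) (fun q => Lm (M q)) :=
  (Lm.contDiff.contMDiff).comp h

theorem TMap.iso {D : Data} {R : Prof} {C0 ε e0 τ : ℝ} (G : Good D R C0 ε e0 τ)
    {M N : Circle × Circle → E3} (hM : TMap D R ε e0 τ M) (hN : TMap D R ε e0 (-τ) N)
    (p : Circle × Circle) (v : EuclideanSpace ℝ (Fin 1) × EuclideanSpace ℝ (Fin 1)) :
    @Norm.norm (EuclideanSpace ℝ (Fin 3)) _ (mfderiv ((𝓡 1).prod (𝓡 1)) 𝓘(ℝ, E3) (fun q => Lm (M q)) p v)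
      = @Norm.norm (EuclideanSpace ℝ (Fin 3)) _ (mfderiv ((𝓡 1).prod (𝓡 1)) 𝓘(ℝ, E3) (fun q => Lm (N q)) p v) := by
  obtain ⟨hτ, ht, -⟩ := R.t2_T
  have hT : 0 < R.T := by linarith [R.τ2t2]
  obtain ⟨x, s, hp, hs⟩ := cov_surj hτ R.τ2t2 ht p
  subst hp
  rcases hs with hs | hs
  · have hev : ∀ᶠ q : ℝ × ℝ in 𝓝 (x, s), |q.2| < R.t2 := by
      have hc : Continuous (fun q : ℝ × ℝ => |q.2|) := by fun_prop
      exact (isOpen_lt hc continuous_const).mem_nhds hs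
    refine mfderiv_norm hT (T9_smooth hM.smooth) (T9_smooth hN.smooth)
      (Φ := fun q => Lm (Φin D R ε e0 τ q)) (Ψ := fun q => Lm (Φin D R ε e0 (-τ) q)) ?_ ?_ ?_ v
    · filter_upwards [hev] with q hq
      rw [← hM.hin q.1 q.2 hq]
    · filter_upwards [hev] with q hq
      rw [← hN.hin q.1 q.2 hq]
    · intro w
      exact iso_in G τ (x, s) w
  · have hev : ∀ᶠ q : ℝ × ℝ in 𝓝 (x, s), R.τ2 < q.2 ∧ q.2 < R.T - R.τ2 := by
      have hc : Continuous (fun q : ℝ × ℝ => q.2) := by fun_prop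
      have h1 : ∀ᶠ q : ℝ × ℝ in 𝓝 (x, s), R.τ2 < q.2 :=
        (isOpen_lt continuous_const hc).mem_nhds hs.1
      have h2 : ∀ᶠ q : ℝ × ℝ in 𝓝 (x, s), q.2 < R.T - R.τ2 :=
        (isOpen_lt hc continuous_const).mem_nhds hs.2
      exact h1.and h2
    refine mfderiv_norm hT (T9_smooth hM.smooth) (T9_smooth hN.smooth)
      (Φ := fun q => Lm (Φout R q)) (Ψ := fun q => Lm (Φout R q)) ?_ ?_ (fun w => rfl) v
    · filter_upwards [hev] with q hq
      rw [← hM.hout q.1 q.2 hq.1 hq.2]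
    · filter_upwards [hev] with q hq
      rw [← hN.hout q.1 q.2 hq.1 hq.2]


end Pool.Agent.Helper331.TT
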