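import Pool.Agent.Helper331.TT.Defs
import Pool.Agent.Helper331.TT.A1
import Pool.Agent.Helper331.TT.A2
import Pool.Agent.Helper331.TT.A2a
import Pool.Agent.Helper331.TT.A2b
import Pool.Agent.Helper331.TT.A2c
import Pool.Agent.Helper331.TT.A3
import Pool.Agent.Helper331.TT.A3b
import Pool.Agent.Helper331.TT.A4
import Pool.Agent.Helper331.TT.B1
import Pool.Agent.Helper331.TT.B2
import Pool.Agent.Helper331.TT.B3
import Pool.Agent.Helper331.TT.B4
import Pool.Agent.Helper331.TT.B5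
import Pool.Agent.Helper331.TT.C1
import Pool.Agent.Helper331.TT.C1s
import Pool.Agent.Helper331.TT.C2
import Pool.Agent.Helper331.TT.C3
import Pool.Agent.Helper331.TT.C3a
import Pool.Agent.Helper331.TT.C3b
import Pool.Agent.Helper331.TT.C4
import Pool.Agent.Helper331.TT.C6
import Pool.Agent.Helper331.TT.C7
import Pool.Agent.Helper331.TT.D1
import Pool.Agent.Helper331.TT.D1a
import Pool.Agent.Helper331.TT.D2
import Pool.Agent.Helper331.TT.D2a
import Pool.Agent.Helper331.TT.D2s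
import Pool.Agent.Helper331.TT.D3a
import Pool.Agent.Helper331.TT.D3b
import Pool.Agent.Helper331.TT.D3c
import Pool.Agent.Helper331.TT.E1
import Pool.Agent.Helper331.TT.E2
import Pool.Agent.Helper331.TT.E3
import Pool.Agent.Helper331.TT.E4
import Pool.Agent.Helper331.TT.E5
import Pool.Agent.Helper331.TT.E6
import Pool.Agent.Helper331.TT.F1
import Pool.Agent.Helper331.TT.F2
import Pool.Agent.Helper331.TT.F2p
import Pool.Agent.Helper331.TT.F3
import Pool.Agent.Helper331.TT.F3v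
import Pool.Agent.Helper331.TT.F4
import Pool.Agent.Helper331.TT.F5
import Pool.Agent.Helper331.TT.F6
import Pool.Agent.Helper331.TT.F7
import Pool.Agent.Helper331.TT.G1
import Pool.Agent.Helper331.TT.G3
import Pool.Agent.Helper331.TT.G4
import Pool.Agent.Helper331.TT.G5
import Pool.Agent.Helper331.TT.G6
import Pool.Agent.Helper331.TT.H1
import Pool.Agent.Helper331.TT.T1
import Pool.Agent.Helper331.TT.T10
import Pool.Agent.Helper331.TT.T11
import Pool.Agent.Helper331.TT.T2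
import Pool.Agent.Helper331.TT.T3
import Pool.Agent.Helper331.TT.T4
import Pool.Agent.Helper331.TT.T5
import Pool.Agent.Helper331.TT.T5k
import Pool.Agent.Helper331.TT.T6
import Pool.Agent.Helper331.TT.T7
import Pool.Agent.Helper331.TT.T8
import Pool.Agent.Helper331.TT.T9
set_option autoImplicit false
open scoped Manifold ContDiff
open Set Filter Topology

namespace Pool.Agent.Helper331.TT

theorem final :
    ¬ (∀ f g : Circle × Circle → EuclideanSpace ℝ (Fin 3),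
      ContMDiff ((𝓡 1).prod (𝓡 1)) 𝓘(ℝ, EuclideanSpace ℝ (Fin 3)) ((⊤ : ℕ∞) : WithTop ℕ∞) f →
      ContMDiff ((𝓡 1).prod (𝓡 1)) 𝓘(ℝ, EuclideanSpace ℝ (Fin 3)) ((⊤ : ℕ∞) : WithTop ℕ∞) g →
      (∀ p : Circle × Circle,
        Function.Injective (mfderiv ((𝓡 1).prod (𝓡 1)) 𝓘(ℝ, EuclideanSpace ℝ (Fin 3)) f p)) →
      (∀ p : Circle × Circle,
        Function.Injective (mfderiv ((𝓡 1).prod (𝓡 1)) 𝓘(ℝ, EuclideanSpace ℝ (Fin 3)) g p)) →
      (∀ (ℓ : EuclideanSpace ℝ (Fin 3) →L[ℝ] ℝ) (c : ℝ),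
        IsPreconnected {p : Circle × Circle | c < ℓ (f p)}) →
      (∀ (ℓ : EuclideanSpace ℝ (Fin 3) →L[ℝ] ℝ) (c : ℝ),
        IsPreconnected {p : Circle × Circle | c < ℓ (g p)}) →
      (∃ φ : Diffeomorph ((𝓡 1).prod (𝓡 1)) ((𝓡 1).prod (𝓡 1)) (Circle × Circle)
          (Circle × Circle) ((⊤ : ℕ∞) : WithTop ℕ∞),
        ∀ (p : Circle × Circle) (v : EuclideanSpace ℝ (Fin 1) × EuclideanSpace ℝ (Fin 1)),
          @Norm.norm (EuclideanSpace ℝ (Fin 3)) _
              (mfderiv ((𝓡 1).prod (𝓡 1)) 𝓘(ℝ, EuclideanSpace ℝ (Fin 3)) f p v) =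
            @Norm.norm (EuclideanSpace ℝ (Fin 3)) _
              (mfderiv ((𝓡 1).prod (𝓡 1)) 𝓘(ℝ, EuclideanSpace ℝ (Fin 3))
                (fun x => g (φ x)) p v)) →
      ∃ (A : EuclideanSpace ℝ (Fin 3) ≃ᵃⁱ[ℝ] EuclideanSpace ℝ (Fin 3))
        (ψ : Diffeomorph ((𝓡 1).prod (𝓡 1)) ((𝓡 1).prod (𝓡 1)) (Circle × Circle)
          (Circle × Circle) ((⊤ : ℕ∞) : WithTop ℕ∞)),
        ∀ p : Circle × Circle, g (ψ p) = A (f p)) := by
  intro hall
  obtain ⟨D⟩ := exists_data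
  obtain ⟨R, C0, hC⟩ := exists_compat D
  obtain ⟨ε, e0, τ, G⟩ := exists_good D R hC
  obtain ⟨M, hM⟩ := exists_TMap G τ
  obtain ⟨N, hN⟩ := exists_TMap G (-τ)
  have hτ1 : |τ| ≤ τ := by rw [abs_of_pos G.τ_pos]
  have hτ2 : |(-τ)| ≤ τ := by rw [abs_neg, abs_of_pos G.τ_pos]
  have hLs : ContMDiff 𝓘(ℝ, E3) 𝓘(ℝ, E3) ((⊤ : ℕ∞) : WithTop ℕ∞) (fun u : E3 => Lm u) :=
    (Lm.contDiff).contMDiff
  obtain ⟨A, ψ, hAψ⟩ := hall (fun p => Lm (M p)) (fun p => Lm (N p))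
    (hLs.comp hM.smooth) (hLs.comp hN.smooth) (hM.imm G hτ1) (hN.imm G hτ2)
    (fun ℓ c => hM.tpp G hτ1 (ℓ.comp Lm) c) (fun ℓ c => hN.tpp G hτ2 (ℓ.comp Lm) c)
    ⟨Diffeomorph.refl _ _ _, fun p v => hM.iso G hN p v⟩
  have hA : ∀ v, A v = v := by
    refine A_eq_id (M := M) (N := N) (KT := KTop R) (KB := KBot R) (H := R.H) (t := R.t2) (t' := R.t2')
      R.H_pos ?_ R.t2t2' (fun p => (hM.height G hτ1 p).1) (fun p => (hN.height G hτ2 p).1)
      (fun p => (hM.height G hτ1 p).2.1) (fun p => (hN.height G hτ2 p).2.1)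
      (fun p => (hM.height G hτ1 p).2.2) (fun p => (hN.height G hτ2 p).2.2)
      (KTop_nontrivial R) (KBot_nonempty R) ?_ (hM.sup_top G) (hN.sup_top G) (hM.sup_bot G) (hN.sup_bot G)
      A ψ.toEquiv hAψ
    · have := R.t2_T; linarith [R.τ2t2]
    · intro ℓ hℓ p hp q hq
      refine hM.locmax_unique G hτ1 ℓ hℓ ?_ ?_
      · exact Filter.Eventually.of_forall hp
      · exact Filter.Eventually.of_forall hq
  refine not_reparam G hM hN (ψ := ψ) ψ.continuous ψ.toEquiv.surjective ?_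
  intro p
  have h1 := hAψ p
  simp only [hA] at h1
  -- Lm injective
  have h2 : Lm (N (ψ p)) 2 = Lm (M p) 2 := by rw [h1]
  have h3 : Lm (N (ψ p)) 0 = Lm (M p) 0 := by rw [h1]
  have h4 : Lm (N (ψ p)) 1 = Lm (M p) 1 := by rw [h1]
  rw [Lm_2, Lm_2] at h2
  rw [Lm_0, Lm_0] at h3
  rw [Lm_1, Lm_1] at h4
  apply ext3 <;> linarith

end Pool.Agent.Helper331.TT
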