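import Pool.Agent.Helper331.TT.Defs
import Pool.Agent.Helper331.TT.H1
import Pool.Agent.Helper331.TT.E2
import Pool.Agent.Helper331.TT.E3
import Pool.Agent.Helper331.TT.E4
import Pool.Agent.Helper331.TT.F2
import Pool.Agent.Helper331.TT.F5
import Pool.Agent.Helper331.TT.D3a
set_option autoImplicit false
open scoped Manifold ContDiff
open Set Filter Topology

namespace Pool.Agent.Helper331.TT

theorem T2_Lm_inj : Function.Injective Lm := by
  intro u v h
  have h0 : (Lm u) 0 = (Lm v) 0 := by rw [h]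
  have h1 : (Lm u) 1 = (Lm v) 1 := by rw [h]
  have h2 : (Lm u) 2 = (Lm v) 2 := by rw [h]
  rw [Lm_0, Lm_0] at h0
  rw [Lm_1, Lm_1] at h1
  rw [Lm_2, Lm_2] at h2
  apply ext3 <;> linarith

theorem T2_imm {Φ : ℝ × ℝ → E3} {p : ℝ × ℝ} (hd : DifferentiableAt ℝ Φ p) (hI : Imm Φ p) :
    Imm (fun q => Lm (Φ q)) p := by
  unfold Imm at hI ⊢
  have h : HasFDerivAt (fun q => Lm (Φ q)) (Lm.comp (fderiv ℝ Φ p)) p :=
    Lm.hasFDerivAt.comp p hd.hasFDerivAt
  rw [h.fderiv]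
  exact T2_Lm_inj.comp hI

theorem TMap.imm {D : Data} {R : Prof} {C0 ε e0 τ τ' : ℝ} (G : Good D R C0 ε e0 τ) (hτ : |τ'| ≤ τ)
    {M : Circle × Circle → E3} (hM : TMap D R ε e0 τ' M) (p : Circle × Circle) :
    Function.Injective (mfderiv ((𝓡 1).prod (𝓡 1)) 𝓘(ℝ, E3) (fun q => Lm (M q)) p) := by
  obtain ⟨h1, h2, h3⟩ := R.t2_T
  have h4 := R.τ2t2
  have hT : 0 < R.T := by linarith
  have hf : ContMDiff ((𝓡 1).prod (𝓡 1)) 𝓘(ℝ, E3) ((⊤ : ℕ∞) : WithTop ℕ∞)
      (fun q => Lm (M q)) := (Lm.contDiff.contMDiff).comp hM.smooth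
  obtain ⟨x, s, rfl, hs⟩ := cov_surj h1 h4 h2 p
  rcases hs with hs | ⟨hs1, hs2⟩
  · have hIn : Imm (Φin D R ε e0 τ') (x, s) := by
      rcases lt_or_ge |s| R.t1 with h5 | h5
      · exact (Φin_neg G τ' x s hτ h5).2
      · exact (Φin_flat G τ' x s h5).1
    have hd : DifferentiableAt ℝ (Φin D R ε e0 τ') (x, s) :=
      ((smooth_Φin G τ').differentiable (by simp)).differentiableAt
    refine mfderiv_inj hT hf (Φ := fun q => Lm (Φin D R ε e0 τ' q)) ?_ (T2_imm hd hIn)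
    have hopen : IsOpen {q : ℝ × ℝ | |q.2| < R.t2} :=
      isOpen_lt (continuous_abs.comp continuous_snd) continuous_const
    filter_upwards [hopen.mem_nhds (show (x, s) ∈ {q : ℝ × ℝ | |q.2| < R.t2} from hs)] with q hq
    have := hM.hin q.1 q.2 hq
    show Lm (M (cov R.T q)) = Lm (Φin D R ε e0 τ' q)
    rw [show q = (q.1, q.2) from rfl, this]
  · have hIn : Imm (Φout R) (x, s) := outer_imm R x s hs1 hs2
    have hd : DifferentiableAt ℝ (Φout R) (x, s) :=
      ((smooth_Φout R).differentiable (by simp)).differentiableAt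
    refine mfderiv_inj hT hf (Φ := fun q => Lm (Φout R q)) ?_ (T2_imm hd hIn)
    have hopen : IsOpen {q : ℝ × ℝ | R.τ2 < q.2 ∧ q.2 < R.T - R.τ2} :=
      (isOpen_lt continuous_const continuous_snd).inter
        (isOpen_lt continuous_snd continuous_const)
    filter_upwards [hopen.mem_nhds (show (x, s) ∈ {q : ℝ × ℝ | R.τ2 < q.2 ∧ q.2 < R.T - R.τ2}
      from ⟨hs1, hs2⟩)] with q hq
    have := hM.hout q.1 q.2 hq.1 hq.2
    show Lm (M (cov R.T q)) = Lm (Φout R q)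
    rw [show q = (q.1, q.2) from rfl, this]



end Pool.Agent.Helper331.TT
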